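import Pool.Agent.Helper54.HZ.Defs

/-!
MP_143e28_ag, project HZ: the order of a rational function at a point of the projective line (1).

Key: if `r = P / Q` with polynomials `P, Q ≠ 0` then `ordP ∞ r = deg Q - deg P` and `ordP a r = mult_a P - mult_a Q` (from
`r.num * Q = P * r.denom`, `RatFunc.num_div_denom`, `natDegree_mul`, `rootMultiplicity_mul`): `ord_div`.  Everything else
follows from this: products, powers, and `ord_add`: `P / Q + R / S = (P S + R Q) / (Q S)`, with `rootMultiplicity_add`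
and `natDegree_add_le`.
-/

set_option autoImplicit false

namespace Pool.Agent.Helper54.HZ

open Polynomial

variable {k : Type*} [Field k]

/-- the order of a polynomial -/
noncomputable def Ord_v (P : OnePoint k) (p : k[X]) : ℤ :=
  P.elim (-(p.natDegree : ℤ)) (fun a => (p.rootMultiplicity a : ℤ))

theorem Ord_v_infty (p : k[X]) : Ord_v OnePoint.infty p = -(p.natDegree : ℤ) := rfl

theorem Ord_v_coe (a : k) (p : k[X]) : Ord_v (a : OnePoint k) p = (p.rootMultiplicity a : ℤ) := rfl

theorem Ord_ordP (P : OnePoint k) (r : RatFunc k) : ordP P r = Ord_v P r.num - Ord_v P r.denom := by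
  induction P using OnePoint.rec with
  | infty =>
    rw [ordP_infty, Ord_v_infty, Ord_v_infty]
    ring
  | coe a => rw [ordP_coe, Ord_v_coe, Ord_v_coe]

theorem Ord_v_C (P : OnePoint k) (c : k) : Ord_v P (C c) = 0 := by
  induction P using OnePoint.rec with
  | infty => rw [Ord_v_infty, natDegree_C]; simp
  | coe a => rw [Ord_v_coe, rootMultiplicity_C]; simp

theorem Ord_v_one (P : OnePoint k) : Ord_v P (1 : k[X]) = 0 := by
  rw [← C_1]
  exact Ord_v_C P 1

theorem Ord_v_mul (P : OnePoint k) {p q : k[X]} (hp : p ≠ 0) (hq : q ≠ 0) :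
    Ord_v P (p * q) = Ord_v P p + Ord_v P q := by
  induction P using OnePoint.rec with
  | infty =>
    rw [Ord_v_infty, Ord_v_infty, Ord_v_infty, natDegree_mul hp hq]
    push_cast
    ring
  | coe a =>
    rw [Ord_v_coe, Ord_v_coe, Ord_v_coe, rootMultiplicity_mul (mul_ne_zero hp hq)]
    push_cast
    ring

theorem Ord_v_add (P : OnePoint k) {p q : k[X]} (h : p + q ≠ 0) :
    min (Ord_v P p) (Ord_v P q) ≤ Ord_v P (p + q) := by
  induction P using OnePoint.rec with
  | infty =>
    rw [Ord_v_infty, Ord_v_infty, Ord_v_infty]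
    have h1 := natDegree_add_le p q
    rw [min_le_iff]
    rcases le_total p.natDegree q.natDegree with h2 | h2
    · right
      rw [max_eq_right h2] at h1
      omega
    · left
      rw [max_eq_left h2] at h1
      omega
  | coe a =>
    rw [Ord_v_coe, Ord_v_coe, Ord_v_coe]
    have h1 := rootMultiplicity_add (p := p) (q := q) a h
    rcases min_le_iff.mp h1 with h2 | h2
    · exact min_le_iff.mpr (Or.inl (by exact_mod_cast h2))
    · exact min_le_iff.mpr (Or.inr (by exact_mod_cast h2))

theorem Ord_div (P : OnePoint k) {p q : k[X]} (hp : p ≠ 0) (hq : q ≠ 0) :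
    ordP P (algebraMap k[X] (RatFunc k) p / algebraMap k[X] (RatFunc k) q) =
      Ord_v P p - Ord_v P q := by
  set r : RatFunc k := algebraMap k[X] (RatFunc k) p / algebraMap k[X] (RatFunc k) q with hr
  have hp' : algebraMap k[X] (RatFunc k) p ≠ 0 := RatFunc.algebraMap_ne_zero hp
  have hq' : algebraMap k[X] (RatFunc k) q ≠ 0 := RatFunc.algebraMap_ne_zero hq
  have hr0 : r ≠ 0 := div_ne_zero hp' hq'
  have hn : r.num ≠ 0 := RatFunc.num_ne_zero hr0
  have hd : r.denom ≠ 0 := RatFunc.denom_ne_zero r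
  have hd' : algebraMap k[X] (RatFunc k) r.denom ≠ 0 := RatFunc.algebraMap_ne_zero hd
  have h1 : algebraMap k[X] (RatFunc k) (r.num * q) = algebraMap k[X] (RatFunc k) (p * r.denom) := by
    rw [map_mul, map_mul, ← div_eq_div_iff hd' hq', RatFunc.num_div_denom]
  have h2 : r.num * q = p * r.denom := RatFunc.algebraMap_injective k h1
  have h3 := congrArg (Ord_v P) h2
  rw [Ord_v_mul P hn hq, Ord_v_mul P hp hd] at h3
  rw [Ord_ordP]
  linarith

theorem ord_poly_infty {p : k[X]} : ordP OnePoint.infty (algebraMap k[X] (RatFunc k) p) = -(p.natDegree : ℤ) := by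
  rw [ordP_infty, RatFunc.num_algebraMap, RatFunc.denom_algebraMap, natDegree_one]
  simp

theorem ord_poly_coe {p : k[X]} (a : k) :
    ordP (a : OnePoint k) (algebraMap k[X] (RatFunc k) p) = (p.rootMultiplicity a : ℤ) := by
  rw [ordP_coe, RatFunc.num_algebraMap, RatFunc.denom_algebraMap]
  have h := Ord_v_one (a : OnePoint k)
  rw [Ord_v_coe] at h
  rw [h, sub_zero]

theorem ord_mul (P : OnePoint k) {r s : RatFunc k} (hr : r ≠ 0) (hs : s ≠ 0) :
    ordP P (r * s) = ordP P r + ordP P s := by
  have hrn : r.num ≠ 0 := RatFunc.num_ne_zero hr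
  have hsn : s.num ≠ 0 := RatFunc.num_ne_zero hs
  have hrd : r.denom ≠ 0 := RatFunc.denom_ne_zero r
  have hsd : s.denom ≠ 0 := RatFunc.denom_ne_zero s
  have h1 : r * s = algebraMap k[X] (RatFunc k) (r.num * s.num) /
      algebraMap k[X] (RatFunc k) (r.denom * s.denom) := by
    rw [map_mul, map_mul, ← div_mul_div_comm, RatFunc.num_div_denom, RatFunc.num_div_denom]
  rw [h1, Ord_div P (mul_ne_zero hrn hsn) (mul_ne_zero hrd hsd), Ord_v_mul P hrn hsn,
    Ord_v_mul P hrd hsd, Ord_ordP, Ord_ordP]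
  ring

theorem ord_const (P : OnePoint k) (c : k) : ordP P (algebraMap k[X] (RatFunc k) (C c)) = 0 := by
  rw [Ord_ordP, RatFunc.num_algebraMap, RatFunc.denom_algebraMap, Ord_v_C, Ord_v_one, sub_zero]

theorem ord_one (P : OnePoint k) : ordP P (1 : RatFunc k) = 0 := by
  have h := ord_const P (1 : k)
  rwa [C_1, map_one] at h

theorem ord_inv (P : OnePoint k) {r : RatFunc k} (hr : r ≠ 0) : ordP P r⁻¹ = -ordP P r := by
  have h := ord_mul P hr (inv_ne_zero hr)
  rw [mul_inv_cancel₀ hr, ord_one] at h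
  linarith

theorem ord_pow (P : OnePoint k) {r : RatFunc k} (hr : r ≠ 0) (j : ℕ) : ordP P (r ^ j) = j * ordP P r := by
  induction j with
  | zero => rw [pow_zero, ord_one]; simp
  | succ j ih =>
    rw [pow_succ, ord_mul P (pow_ne_zero j hr) hr, ih]
    push_cast
    ring

theorem ord_add (P : OnePoint k) {r s : RatFunc k} (hr : r ≠ 0) (hs : s ≠ 0) (h : r + s ≠ 0) :
    min (ordP P r) (ordP P s) ≤ ordP P (r + s) := by
  have hrn : r.num ≠ 0 := RatFunc.num_ne_zero hr
  have hsn : s.num ≠ 0 := RatFunc.num_ne_zero hs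
  have hrd : r.denom ≠ 0 := RatFunc.denom_ne_zero r
  have hsd : s.denom ≠ 0 := RatFunc.denom_ne_zero s
  have h1 : r + s = algebraMap k[X] (RatFunc k) (r.num * s.denom + r.denom * s.num) /
      algebraMap k[X] (RatFunc k) (r.denom * s.denom) := by
    rw [map_add, map_mul, map_mul, map_mul, ← div_add_div _ _ (RatFunc.algebraMap_ne_zero hrd)
      (RatFunc.algebraMap_ne_zero hsd), RatFunc.num_div_denom, RatFunc.num_div_denom]
  have h2 : r.num * s.denom + r.denom * s.num ≠ 0 := by
    intro h0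
    apply h
    rw [h1, h0, map_zero, zero_div]
  have h3 := Ord_v_add P h2
  rw [Ord_v_mul P hrn hsd, Ord_v_mul P hrd hsn] at h3
  rw [h1, Ord_div P h2 (mul_ne_zero hrd hsd), Ord_v_mul P hrd hsd, Ord_ordP, Ord_ordP]
  rcases min_le_iff.mp h3 with h4 | h4
  · exact min_le_iff.mpr (Or.inl (by linarith))
  · exact min_le_iff.mpr (Or.inr (by linarith))

end Pool.Agent.Helper54.HZ
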