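import Pool.Agent.Helper54.HZ.DegN
import Pool.Agent.Helper54.HY.SX

/-!
MP_143e28_ag, project HZ: automorphisms preserve `k(x)` if there are more than `2 n` branch points.

Suppose `z = s x` is not in `k(x)` (`mem_rat`).  `exists_rel` for `u = s.symm x`: `Q (x, s.symm x) = 0`, `deg_Z Q ≤ n`; apply `s`:
`Q (s x, x) = 0`, so `Polynomial.Bivariate.swap Q` is a relation of `z = s x` over `k[x]` with coefficients of degree `≤ n`
(`natDegree_swap_le`, `coeff_coeff_swap` in `Helper54.HY.Deg`; `aevalAeval_eq` in `Helper54.HY.SX` and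
`Polynomial.aevalAeval_swap`).  `deg_N`: `#BrN ≤ 2 n`.
-/

set_option autoImplicit false

namespace Pool.Agent.Helper54.HZ

open Polynomial Pool.Agent.Helper54.HY

variable {k F : Type*} [Field k] [Field F] [Algebra k F]

private theorem Mem_apply (s : F ≃ₐ[k] F) (x u : F) (Q : k[X][X])
    (h : Q.eval₂ (aeval x : k[X] →ₐ[k] F).toRingHom u = 0) :
    Q.eval₂ (aeval (s x) : k[X] →ₐ[k] F).toRingHom (s u) = 0 := by
  have h1 := hom_eval₂ Q (aeval x : k[X] →ₐ[k] F).toRingHom (s : F →+* F) u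
  rw [h, map_zero] at h1
  have h2 : (s : F →+* F).comp (aeval x : k[X] →ₐ[k] F).toRingHom =
      (aeval (s x) : k[X] →ₐ[k] F).toRingHom := by
    apply RingHom.ext
    intro p
    change s (aeval x p) = aeval (s x) p
    exact (aeval_algHom_apply s x p).symm
  rw [h2] at h1
  exact h1.symm

theorem auto_memN [IsAlgClosed k] {n g : ℕ} (hg : 0 < g) {x y : F} {f : k[X]} (h : PresN k F n g x y f)
    (hr : 2 * n < Nat.card (BrN n f)) (s : F ≃ₐ[k] F) : s x ∈ IntermediateField.adjoin k {x} := by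
  by_contra hs
  have hz : ∀ r : RatFunc k, rat h.trans r ≠ s x := fun r hr' => hs ((mem_rat h.trans).2 ⟨r, hr'⟩)
  obtain ⟨Q, hQ, hQn, hQ0⟩ := exists_rel hg h (s.symm x)
  have h1 : Q.eval₂ (aeval (s x) : k[X] →ₐ[k] F).toRingHom x = 0 := by
    have := Mem_apply s x (s.symm x) Q hQ0
    rwa [AlgEquiv.apply_symm_apply] at this
  have h2 : (Bivariate.swap Q).eval₂ (aeval x : k[X] →ₐ[k] F).toRingHom (s x) = 0 := by
    rw [← aevalAeval_eq, Bivariate.aevalAeval_swap, aevalAeval_eq]
    exact h1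
  have h3 : Bivariate.swap Q ≠ 0 := by
    intro h0
    apply hQ
    have := congrArg Bivariate.swap h0
    rwa [Bivariate.swap_swap_apply, map_zero] at this
  have h4 : ∀ i, ((Bivariate.swap Q).coeff i).natDegree ≤ n := by
    rw [← natDegree_swap_le, Bivariate.swap_swap_apply]
    exact hQn
  have h5 := deg_N hg h hz (Bivariate.swap Q) h3 h4 h2
  omega

end Pool.Agent.Helper54.HZ
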