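import Pool.Agent.Helper54.HZ.Kum

/-!
MP_143e28_ag, project HZ: consequences of the Kummer structure.

`tau_pow`: induction.  `fixed`: `z = ∑ c_j y ^ j`, `τ z = ∑ c_j ζ ^ j y ^ j`, `indep`: `c_j (ζ ^ j - 1) = 0`, `ζ ^ j ≠ 1` for
`0 < j < n`.  `npow`: `u ≠ 0`: `(τ u) ^ n = u ^ n`, so `τ u = ζ ^ j u` with `j < n` (`IsPrimitiveRoot.eq_pow_of_pow_eq_one`);
`u / y ^ j` is fixed by `τ`.
`key`: `(s y) ^ n = f (s x) = rat (aeval R f)`, so `s y = rat c * y ^ j` by `npow`; `j ≠ 0`: otherwise `s y = rat c`,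
`y = s.symm (rat c) ∈ k(s.symm x) ⊆ k(x)`, against `indep`.  (`s (rat r) = ` the value of `r` at `s x`.)
`mem_rat`: `IntermediateField.mem_adjoin_simple_iff` (compare `mem_adjoin_rat` in `Helper28.HA.A1`).
-/

set_option autoImplicit false

namespace Pool.Agent.Helper54.HZ

open Polynomial Pool.Agent.Helper54.HY

variable {k F : Type*} [Field k] [Field F] [Algebra k F]

theorem mem_rat {x : F} (hx : Transcendental k x) {u : F} :
    u ∈ IntermediateField.adjoin k {x} ↔ ∃ r : RatFunc k, rat hx r = u := by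
  rw [IntermediateField.mem_adjoin_simple_iff]
  constructor
  · rintro ⟨r, s, hu⟩
    refine ⟨algebraMap k[X] (RatFunc k) r / algebraMap k[X] (RatFunc k) s, ?_⟩
    rw [map_div₀, rat_poly, rat_poly, hu]
  · rintro ⟨r, hu⟩
    refine ⟨r.num, r.denom, ?_⟩
    rw [← rat_poly hx, ← rat_poly hx, ← map_div₀, RatFunc.num_div_denom, hu]

theorem tau_rat {x : F} (hx : Transcendental k x) (τ : F ≃ₐ[k] F) (h : τ x = x) (r : RatFunc k) :
    τ (rat hx r) = rat hx r := by
  rw [← RatFunc.num_div_denom r, map_div₀, map_div₀, rat_poly, rat_poly,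
    ← aeval_algHom_apply τ, ← aeval_algHom_apply τ, h]

theorem tau_pow {n g : ℕ} {x y : F} {f : k[X]} (h : PresN k F n g x y f) {ζ : k} {τ : F ≃ₐ[k] F}
    (hx : τ x = x) (hy : τ y = algebraMap k F ζ * y) (i j : ℕ) (r : RatFunc k) :
    (τ ^ i) (rat h.trans r * y ^ j) = algebraMap k F (ζ ^ (i * j)) * (rat h.trans r * y ^ j) := by
  induction i with
  | zero => simp
  | succ i ih =>
    have h1 : τ (rat h.trans r * y ^ j) = algebraMap k F (ζ ^ j) * (rat h.trans r * y ^ j) := by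
      rw [map_mul, map_pow, tau_rat h.trans τ hx, hy, mul_pow, ← map_pow]
      ring
    rw [pow_succ, AlgEquiv.mul_apply, h1, map_mul, AlgEquiv.commutes, ih, ← mul_assoc, ← map_mul,
      ← pow_add]
    congr 3
    ring

/-- constants -/
theorem Fix_const {x : F} (hx : Transcendental k x) (a : k) :
    rat hx (algebraMap k (RatFunc k) a) = algebraMap k F a := AlgHom.commutes _ _

theorem Fix_y {n g : ℕ} {x y : F} {f : k[X]} (h : PresN k F n g x y f) : y ≠ 0 := by
  intro h0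
  have h1 := h.eqn
  rw [h0, zero_pow h.prime.ne_zero] at h1
  exact h.ne0 ((transcendental_iff.1 h.trans) f h1.symm)

theorem fixed [IsAlgClosed k] {n g : ℕ} (hg : 0 < g) {x y : F} {f : k[X]} (h : PresN k F n g x y f) {ζ : k}
    {τ : F ≃ₐ[k] F} (hζ : IsPrimitiveRoot ζ n) (hx : τ x = x) (hy : τ y = algebraMap k F ζ * y) {z : F}
    (hz : τ z = z) : ∃ r : RatFunc k, rat h.trans r = z := by
  obtain ⟨c, hc⟩ := decomp hg h z
  have h1 : ∑ j ∈ Finset.range n,
      rat h.trans (c j * algebraMap k (RatFunc k) (ζ ^ j - 1)) * y ^ j = 0 := by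
    have h2 : τ z = ∑ j ∈ Finset.range n, algebraMap k F (ζ ^ j) * (rat h.trans (c j) * y ^ j) := by
      conv_lhs => rw [hc]
      rw [map_sum]
      refine Finset.sum_congr rfl fun j _ => ?_
      have h3 := tau_pow h hx hy 1 j (c j)
      rw [pow_one, one_mul] at h3
      exact h3
    rw [hz] at h2
    have h4 : ∑ j ∈ Finset.range n, algebraMap k F (ζ ^ j) * (rat h.trans (c j) * y ^ j) -
        ∑ j ∈ Finset.range n, rat h.trans (c j) * y ^ j = 0 := by
      rw [← h2, ← hc, sub_self]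
    rw [← Finset.sum_sub_distrib] at h4
    rw [← h4]
    refine Finset.sum_congr rfl fun j _ => ?_
    rw [map_mul, Fix_const, map_sub, map_one]
    ring
  have h2 : ∀ j, 0 < j → j < n → c j = 0 := by
    intro j hj0 hj
    have h3 := indep hg h _ h1 j hj
    rcases mul_eq_zero.1 h3 with h4 | h4
    · exact h4
    · rw [map_eq_zero, sub_eq_zero] at h4
      exact absurd h4 (hζ.pow_ne_one_of_pos_of_lt hj0.ne' hj)
  refine ⟨c 0, ?_⟩
  rw [hc, Finset.sum_eq_single 0]
  · simp
  · intro j hj hj0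
    rw [h2 j (Nat.pos_of_ne_zero hj0) (Finset.mem_range.1 hj), map_zero, zero_mul]
  · intro h0
    exact absurd (Finset.mem_range.2 h.prime.pos) h0

theorem npow [IsAlgClosed k] {n g : ℕ} (hg : 0 < g) {x y : F} {f : k[X]} (h : PresN k F n g x y f) {u : F}
    (hu : u ≠ 0) {r : RatFunc k} (hr : u ^ n = rat h.trans r) :
    ∃ (j : ℕ) (c : RatFunc k), j < n ∧ c ≠ 0 ∧ u = rat h.trans c * y ^ j := by
  obtain ⟨ζ, τ, hζ, hx, hy⟩ := exists_tau hg h
  have hy0 : y ≠ 0 := Fix_y h
  have hζ' : IsPrimitiveRoot (algebraMap k F ζ) n :=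
    hζ.map_of_injective (FaithfulSMul.algebraMap_injective k F)
  have hζ0 : algebraMap k F ζ ≠ 0 := hζ'.ne_zero h.prime.ne_zero
  have h1 : (τ u / u) ^ n = 1 := by
    rw [div_pow, ← map_pow, hr, tau_rat h.trans τ hx, ← hr]
    exact div_self (pow_ne_zero _ hu)
  have : NeZero n := ⟨h.prime.ne_zero⟩
  obtain ⟨j, hj, hjz⟩ := hζ'.eq_pow_of_pow_eq_one h1
  have h2 : τ u = (algebraMap k F ζ) ^ j * u := by
    rw [hjz]
    field_simp
  obtain ⟨c, hc⟩ := fixed hg h hζ hx hy (z := u / y ^ j) (by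
    rw [map_div₀, map_pow, h2, hy, mul_pow]
    exact mul_div_mul_left _ _ (pow_ne_zero _ hζ0))
  have h3 : u = rat h.trans c * y ^ j := by
    rw [hc, div_mul_cancel₀ _ (pow_ne_zero _ hy0)]
  refine ⟨j, c, hj, ?_, h3⟩
  rintro rfl
  rw [map_zero, zero_mul] at h3
  exact hu h3

/-- values of rational functions -/
theorem Fix_val {x : F} (hx : Transcendental k x) (s : F →ₐ[k] F) {R : RatFunc k}
    (hR : s x = rat hx R) (r : RatFunc k) : ∃ q : RatFunc k, s (rat hx r) = rat hx q := by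
  refine ⟨aeval R r.num / aeval R r.denom, ?_⟩
  conv_lhs => rw [← RatFunc.num_div_denom r]
  rw [map_div₀, map_div₀, map_div₀, rat_poly, rat_poly, ← aeval_algHom_apply s,
    ← aeval_algHom_apply s, hR, aeval_algHom_apply, aeval_algHom_apply]

theorem key [IsAlgClosed k] {n g : ℕ} (hg : 0 < g) {x y : F} {f : k[X]} (h : PresN k F n g x y f)
    (s : F ≃ₐ[k] F) {R R' : RatFunc k} (hR : s x = rat h.trans R) (hR' : s.symm x = rat h.trans R') :
    ∃ (j : ℕ) (c : RatFunc k), 0 < j ∧ j < n ∧ c ≠ 0 ∧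
      aeval R f = c ^ n * (algebraMap k[X] (RatFunc k) f) ^ j := by
  have h1 : (s y) ^ n = rat h.trans (aeval R f) := by
    rw [← map_pow, h.eqn, ← aeval_algHom_apply s, hR, aeval_algHom_apply]
  have h2 : s y ≠ 0 := by
    rw [Ne, EmbeddingLike.map_eq_zero_iff]
    exact Fix_y h
  obtain ⟨j, c, hj, hc, hsy⟩ := npow hg h h2 h1
  refine ⟨j, c, Nat.pos_of_ne_zero ?_, hj, hc, ?_⟩
  · rintro rfl
    rw [pow_zero, mul_one] at hsy
    obtain ⟨q, hq⟩ := Fix_val h.trans (s.symm : F →ₐ[k] F) hR' c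
    have h3 : y = rat h.trans q := by
      rw [← hq, ← hsy]
      exact (s.symm_apply_apply y).symm
    have h4 := indep hg h (fun j => if j = 0 then -q else if j = 1 then 1 else 0) (by
      rw [Finset.sum_eq_add_of_mem 0 1 (Finset.mem_range.2 h.prime.pos)
        (Finset.mem_range.2 h.prime.one_lt) zero_ne_one]
      · simp only [if_true, pow_zero, mul_one, one_ne_zero, if_false, pow_one, map_one, one_mul,
          map_neg]
        rw [← h3]
        ring
      · rintro j - ⟨hj0, hj1⟩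
        rw [if_neg hj0, if_neg hj1, map_zero, zero_mul]) 1 h.prime.one_lt
    simp at h4
  · apply rat_injective h.trans
    rw [← h1, hsy, mul_pow, map_mul, map_pow, map_pow, rat_poly, ← h.eqn]
    ring

end Pool.Agent.Helper54.HZ
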