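import Pool.Agent.Helper54.HZ.Ord

/-!
MP_143e28_ag, project HZ: the Kummer extension `F = k(x)(y)`, `y ^ n = f (x)`.

`kum_irr`: Mathlib `X_pow_sub_C_irreducible_of_prime`: it is enough that `f` is not an `n`-th power `b ^ n` in `k(X)`: then
`n ∣ ordP a f = mult_a f` for all `a`, so (`mult`) `f` has no roots, `f` is constant (`k` algebraically closed), `BrN n f` is
empty, `2 g = 0`.
`decomp`: the set of the sums `∑ rat (c j) y ^ j` is `k(x)[y]` = a field (`y` is algebraic over `k(x)`), contains `x` and `y`, so it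
is everything (`gen`).  E.g. with `algebra := (rat hx).toAlgebra`, `Algebra.adjoin` / `IntermediateField.adjoin` of `y` over
`RatFunc k`, power basis of degree `n` (`minpoly = X ^ n - C f`), or reduce polynomials in `y` modulo `X ^ n - C f`.
`indep`: `minpoly = X ^ n - C f` has degree `n`.
`exists_tau`: `k` contains a primitive `n`-th root of unity `ζ` (`IsAlgClosed`, `(n : k) ≠ 0`, `HasEnoughRootsOfUnity` or
`IsSepClosed.exists_...`/ `Polynomial.cyclotomic` root); `ζ y` is another root of `X ^ n - C f`, so there is a `k(x)`-algebra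
endomorphism `y ↦ ζ y` (power basis lift, `AdjoinRoot` or `IntermediateField.algHomAdjoinIntegralEquiv`), bijective as
`[F : k(x)]` is finite.  (Compare `C1_equiv` in `Helper28.HA.C1`.)
-/

set_option autoImplicit false

namespace Pool.Agent.Helper54.HZ

open Polynomial Pool.Agent.Helper54.HY

section

variable {K F : Type*} [Field K] [Field F] [Algebra K F]

private theorem Kum_decomp_aux (y : F) (m : K[X]) (hm : m.Monic) (h0 : aeval y m = 0)
    (h1 : m ≠ 1) (htop : IntermediateField.adjoin K {y} = ⊤) (z : F) :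
    ∃ c : ℕ → K, z = ∑ j ∈ Finset.range m.natDegree, algebraMap K F (c j) * y ^ j := by
  have hy : IsIntegral K y := ⟨m, hm, by rwa [← aeval_def]⟩
  have hz : z ∈ (IntermediateField.adjoin K {y}).toSubalgebra := by
    rw [htop]
    exact Algebra.mem_top
  rw [IntermediateField.adjoin_simple_toSubalgebra_of_isAlgebraic hy.isAlgebraic,
    Algebra.adjoin_singleton_eq_range_aeval] at hz
  obtain ⟨q, rfl⟩ := hz
  refine ⟨fun j => (q %ₘ m).coeff j, ?_⟩
  change aeval y q = _
  rw [← aeval_modByMonic_eq_self_of_root h0,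
    aeval_eq_sum_range' (natDegree_modByMonic_lt q hm h1)]
  simp_rw [Algebra.smul_def]

private theorem Kum_indep_aux (y : F) (m : K[X]) (hm : m.Monic) (hirr : Irreducible m)
    (h0 : aeval y m = 0) (c : ℕ → K)
    (hc : ∑ j ∈ Finset.range m.natDegree, algebraMap K F (c j) * y ^ j = 0) (j : ℕ)
    (hj : j < m.natDegree) : c j = 0 := by
  have hmin : minpoly K y = m := (minpoly.eq_of_irreducible_of_monic hirr h0 hm).symm
  let q : K[X] := ∑ j ∈ Finset.range m.natDegree, C (c j) * X ^ j
  have hq : aeval y q = 0 := by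
    rw [← hc]
    simp [q, map_sum]
  have hdeg : q.degree < m.natDegree := by
    refine (degree_sum_le _ _).trans_lt ?_
    rw [Finset.sup_lt_iff (by exact WithBot.bot_lt_coe _)]
    intro i hi
    refine (degree_C_mul_X_pow_le i (c i)).trans_lt ?_
    exact_mod_cast Finset.mem_range.1 hi
  have hq0 : q = 0 := by
    by_contra hne
    have h2 := minpoly.degree_le_of_ne_zero K y hne hq
    rw [hmin, degree_eq_natDegree hm.ne_zero] at h2
    exact absurd (h2.trans_lt hdeg) (lt_irrefl _)
  have h3 : q.coeff j = c j := by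
    simp only [q, finsetSum_coeff, coeff_C_mul, coeff_X_pow]
    rw [Finset.sum_eq_single j]
    · simp
    · intro i _ hij
      rw [if_neg (Ne.symm hij), mul_zero]
    · intro h
      exact absurd (Finset.mem_range.2 hj) h
  rw [← h3, hq0, coeff_zero]

private theorem Kum_sig_aux (y y' : F) (m : K[X]) (hm : m.Monic) (hirr : Irreducible m)
    (h0 : aeval y m = 0) (h0' : aeval y' m = 0)
    (htop : IntermediateField.adjoin K {y} = ⊤) : ∃ τ : F ≃ₐ[K] F, τ y = y' := by
  have hmin : minpoly K y = m := (minpoly.eq_of_irreducible_of_monic hirr h0 hm).symm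
  have hy : IsIntegral K y := ⟨m, hm, by rwa [← aeval_def]⟩
  have hfin : FiniteDimensional K F := by
    have h1 : FiniteDimensional K (IntermediateField.adjoin K {y}) :=
      IntermediateField.adjoin.finiteDimensional hy
    rw [htop] at h1
    exact IntermediateField.topEquiv.toLinearEquiv.finiteDimensional
  let φ : AdjoinRoot (minpoly K y) →ₐ[K] F :=
    AdjoinRoot.liftAlgHom (minpoly K y) (Algebra.ofId K F) y' (by
      rw [hmin]
      exact h0')
  let ψ : F ≃ₐ[K] AdjoinRoot (minpoly K y) :=
    (IntermediateField.topEquiv.symm.trans (IntermediateField.equivOfEq htop.symm)).trans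
      (IntermediateField.adjoinRootEquivAdjoin K hy).symm
  have hψ : ψ y = AdjoinRoot.root (minpoly K y) := by
    change (IntermediateField.adjoinRootEquivAdjoin K hy).symm _ = _
    rw [AlgEquiv.symm_apply_eq, IntermediateField.adjoinRootEquivAdjoin_apply_root]
    rfl
  let σ : F →ₐ[K] F := φ.comp ψ.toAlgHom
  have hσ : Function.Bijective σ :=
    ⟨σ.toRingHom.injective, (LinearMap.injective_iff_surjective (f := σ.toLinearMap)).1
      σ.toRingHom.injective⟩
  refine ⟨AlgEquiv.ofBijective σ hσ, ?_⟩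
  change φ (ψ y) = y'
  rw [hψ]
  exact AdjoinRoot.liftAlgHom_root _ _ _ _

end

variable {k F : Type*} [Field k] [Field F] [Algebra k F]

private theorem Kum_ord_pow (P : OnePoint k) {b : RatFunc k} (hb : b ≠ 0) (n : ℕ) :
    ordP P (b ^ n) = n * ordP P b := by
  induction n with
  | zero => simp [ord_one]
  | succ n ih =>
    rw [pow_succ, ord_mul P (pow_ne_zero n hb) hb, ih]
    push_cast
    ring

theorem kum_irr [IsAlgClosed k] {n g : ℕ} (hg : 0 < g) {x y : F} {f : k[X]} (h : PresN k F n g x y f) :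
    Irreducible (X ^ n - C (algebraMap k[X] (RatFunc k) f) : (RatFunc k)[X]) := by
  refine X_pow_sub_C_irreducible_of_prime h.prime fun b hb => ?_
  have hf : algebraMap k[X] (RatFunc k) f ≠ 0 := by
    intro h0
    exact h.ne0 ((map_eq_zero_iff _ (RatFunc.algebraMap_injective k)).1 h0)
  have hb0 : b ≠ 0 := by
    rintro rfl
    rw [zero_pow h.prime.ne_zero] at hb
    exact hf hb.symm
  have hno : ∀ a : k, ¬ f.IsRoot a := by
    intro a ha
    have h1 : 0 < f.rootMultiplicity a := (rootMultiplicity_pos h.ne0).2 ha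
    have h2 : ordP (a : OnePoint k) (b ^ n) = n * ordP (a : OnePoint k) b :=
      Kum_ord_pow _ hb0 n
    rw [hb, ord_poly_coe] at h2
    have h3 : (n : ℤ) ∣ (f.rootMultiplicity a : ℤ) := ⟨_, h2⟩
    rw [Int.natCast_dvd_natCast] at h3
    exact absurd (Nat.le_of_dvd h1 h3) (not_le.2 (h.mult a))
  have hdeg : f.natDegree = 0 := by
    by_contra hcon
    have : f.degree ≠ 0 := by
      intro hd
      exact hcon (natDegree_eq_of_degree_eq_some (by simpa using hd))
    obtain ⟨a, ha⟩ := IsAlgClosed.exists_root f this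
    exact hno a ha
  have hBr : BrN n f = ∅ := by
    ext P
    simp only [BrN, Set.mem_setOf_eq, Set.mem_empty_iff_false, iff_false, not_or, not_exists,
      not_and, not_not]
    refine ⟨fun a ha => absurd ha (hno a), fun h1 => ?_⟩
    rw [hdeg] at h1
    exact absurd (dvd_zero n) h1
  have h4 := h.genus
  rw [hBr] at h4
  simp at h4
  omega

private theorem Kum_natDegree {n : ℕ} (f : RatFunc k) :
    (X ^ n - C f : (RatFunc k)[X]).natDegree = n := natDegree_X_pow_sub_C

private theorem Kum_monic {n : ℕ} (hn : n ≠ 0) (f : RatFunc k) :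
    (X ^ n - C f : (RatFunc k)[X]).Monic := monic_X_pow_sub_C f hn

/-- the algebra structure of `F` over `k(x)` -/
private noncomputable abbrev Kum_alg {x : F} (hx : Transcendental k x) : Algebra (RatFunc k) F :=
  (rat hx).toRingHom.toAlgebra

private theorem Kum_aeval {n g : ℕ} {x y : F} {f : k[X]} (h : PresN k F n g x y f) (u : F)
    (hu : u ^ n = y ^ n) :
    letI := Kum_alg h.trans
    aeval u (X ^ n - C (algebraMap k[X] (RatFunc k) f) : (RatFunc k)[X]) = 0 := by
  letI := Kum_alg h.trans
  have h1 : algebraMap (RatFunc k) F (algebraMap k[X] (RatFunc k) f) = aeval x f :=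
    rat_poly h.trans f
  rw [map_sub, map_pow, aeval_X, aeval_C, h1, hu, h.eqn, sub_self]

private theorem Kum_top {n g : ℕ} {x y : F} {f : k[X]} (h : PresN k F n g x y f) :
    letI := Kum_alg h.trans
    IntermediateField.adjoin (RatFunc k) {y} = (⊤ : IntermediateField (RatFunc k) F) := by
  let _ := Kum_alg h.trans
  have : IsScalarTower k (RatFunc k) F := IsScalarTower.of_algebraMap_eq fun c =>
    ((rat h.trans).commutes c).symm
  rw [eq_top_iff]
  intro z _
  have h1 : z ∈ IntermediateField.adjoin k {x, y} := by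
    rw [h.gen]
    exact IntermediateField.mem_top
  have h3 : x ∈ IntermediateField.adjoin (RatFunc k) {y} := by
    have h4 := (IntermediateField.adjoin (RatFunc k) ({y} : Set F)).algebraMap_mem RatFunc.X
    have h5 : algebraMap (RatFunc k) F RatFunc.X = x := rat_X h.trans
    rwa [h5] at h4
  have h4 : y ∈ IntermediateField.adjoin (RatFunc k) {y} :=
    IntermediateField.mem_adjoin_simple_self _ _
  have h2 : IntermediateField.adjoin k {x, y} ≤
      (IntermediateField.adjoin (RatFunc k) {y}).restrictScalars k := by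
    rw [IntermediateField.adjoin_le_iff, Set.insert_subset_iff, Set.singleton_subset_iff]
    exact ⟨(IntermediateField.mem_restrictScalars k).2 h3,
      (IntermediateField.mem_restrictScalars k).2 h4⟩
  exact (IntermediateField.mem_restrictScalars k).1 (h2 h1)

theorem decomp [IsAlgClosed k] {n g : ℕ} (hg : 0 < g) {x y : F} {f : k[X]} (h : PresN k F n g x y f) (z : F) :
    ∃ c : ℕ → RatFunc k, z = ∑ j ∈ Finset.range n, rat h.trans (c j) * y ^ j := by
  letI := Kum_alg h.trans
  obtain ⟨c, hc⟩ := Kum_decomp_aux y _ (Kum_monic h.prime.ne_zero _) (Kum_aeval h y rfl)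
    (fun h1 => (kum_irr hg h).not_isUnit (by rw [h1]; exact isUnit_one)) (Kum_top h) z
  rw [Kum_natDegree] at hc
  exact ⟨c, hc⟩

theorem indep [IsAlgClosed k] {n g : ℕ} (hg : 0 < g) {x y : F} {f : k[X]} (h : PresN k F n g x y f)
    (c : ℕ → RatFunc k) (h0 : ∑ j ∈ Finset.range n, rat h.trans (c j) * y ^ j = 0) (j : ℕ) (hj : j < n) :
    c j = 0 := by
  letI := Kum_alg h.trans
  refine Kum_indep_aux y _ (Kum_monic h.prime.ne_zero _) (kum_irr hg h) (Kum_aeval h y rfl) c ?_ j ?_
  · rw [Kum_natDegree]
    exact h0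
  · rw [Kum_natDegree]
    exact hj

theorem exists_tau [IsAlgClosed k] {n g : ℕ} (hg : 0 < g) {x y : F} {f : k[X]} (h : PresN k F n g x y f) :
    ∃ (ζ : k) (τ : F ≃ₐ[k] F), IsPrimitiveRoot ζ n ∧ τ x = x ∧ τ y = algebraMap k F ζ * y := by
  have : NeZero (n : k) := ⟨h.char⟩
  obtain ⟨ζ, hζ⟩ : ∃ ζ : k, IsPrimitiveRoot ζ n := by
    obtain ⟨ζ, hζ⟩ := IsAlgClosed.exists_root (cyclotomic n k)
      (ne_of_gt (degree_cyclotomic_pos n k h.prime.pos))
    exact ⟨ζ, isRoot_cyclotomic_iff.1 hζ⟩
  let _ := Kum_alg h.trans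
  have : IsScalarTower k (RatFunc k) F := IsScalarTower.of_algebraMap_eq fun c =>
    ((rat h.trans).commutes c).symm
  obtain ⟨τ, hτ⟩ := Kum_sig_aux y (algebraMap k F ζ * y) _ (Kum_monic h.prime.ne_zero _)
    (kum_irr hg h) (Kum_aeval h y rfl) (Kum_aeval h _ (by
      rw [mul_pow, ← map_pow, hζ.pow_eq_one, map_one, one_mul])) (Kum_top h)
  refine ⟨ζ, τ.restrictScalars k, hζ, ?_, hτ⟩
  have h6 : algebraMap (RatFunc k) F RatFunc.X = x := rat_X h.trans
  have h7 : τ (algebraMap (RatFunc k) F RatFunc.X) = algebraMap (RatFunc k) F RatFunc.X :=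
    τ.commutes RatFunc.X
  rw [h6] at h7
  exact h7

end Pool.Agent.Helper54.HZ
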