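import Pool.Agent.Helper54.HZ.Ord

/-!
MP_143e28_ag, project HZ: the order of a rational function (2): the valuation, the count of zeros, branch points.

`exists_val`: the function `0 ↦ 0`, `r ↦ WithZero.exp (- ordP P r)` is a valuation (`ord_one`, `ord_mul`, `ord_add`).
`count`: `r.denom` has no root (`ordP a r ≥ 0`, `num` and `denom` coprime), so it is constant (`k` algebraically closed,
`IsAlgClosed.exists_root`), the roots of `r.num` contain the finite points of `B`: their number is at most
`r.num.natDegree = - ordP ∞ r` (`Multiset.toFinset_card_le`, `card_roots'`), and `≤ m - 1` if `∞ ∈ B`.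
`mem_BrN`: `ordP a f = mult_a f ∈ [0, n)` and `ordP ∞ f = - deg f`.
`finite_BrN`: finitely many roots.
-/

set_option autoImplicit false

namespace Pool.Agent.Helper54.HZ

open Polynomial

variable {k : Type*} [Field k]

theorem exists_val (P : OnePoint k) :
    ∃ v : Valuation (RatFunc k) (WithZero (Multiplicative ℤ)),
      ∀ r : RatFunc k, r ≠ 0 → v r = WithZero.exp (-ordP P r) := by
  classical
  let f : RatFunc k → WithZero (Multiplicative ℤ) := fun r => if r = 0 then 0 else WithZero.exp (-ordP P r)
  have f0 : f 0 = 0 := by simp [f]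
  have f1 : ∀ r : RatFunc k, r ≠ 0 → f r = WithZero.exp (-ordP P r) := fun r hr => by simp [f, hr]
  refine ⟨{ toFun := f, map_zero' := f0, map_one' := ?_, map_mul' := ?_, map_add_le_max' := ?_ }, f1⟩
  · rw [f1 1 one_ne_zero, ord_one]
    simp
  · intro r s
    by_cases hr : r = 0
    · simp [hr, f0]
    by_cases hs : s = 0
    · simp [hs, f0]
    rw [f1 _ (mul_ne_zero hr hs), f1 r hr, f1 s hs, ord_mul P hr hs, neg_add, WithZero.exp_add]
  · intro r s
    by_cases hr : r = 0
    · simp [hr]
    by_cases hs : s = 0
    · simp [hs]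
    by_cases h : r + s = 0
    · simp [h, f0]
    rw [f1 _ h, f1 r hr, f1 s hs]
    rcases min_le_iff.mp (ord_add P hr hs h) with h' | h'
    · exact le_max_of_le_left (WithZero.exp_le_exp.mpr (by omega))
    · exact le_max_of_le_right (WithZero.exp_le_exp.mpr (by omega))

theorem count [IsAlgClosed k] (B : Set (OnePoint k)) {r : RatFunc k} (hr : r ≠ 0) (m : ℕ)
    (h0 : ∀ a : k, 0 ≤ ordP (a : OnePoint k) r) (h1 : ∀ a : k, (a : OnePoint k) ∈ B → 1 ≤ ordP (a : OnePoint k) r)
    (h2 : -(m : ℤ) ≤ ordP OnePoint.infty r) (h3 : OnePoint.infty ∈ B → 1 - (m : ℤ) ≤ ordP OnePoint.infty r) :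
    Nat.card B ≤ m := by
  classical
  have hnum : r.num ≠ 0 := RatFunc.num_ne_zero hr
  have hden : r.denom ≠ 0 := RatFunc.denom_ne_zero r
  have hcop := RatFunc.isCoprime_num_denom r
  have hno : ∀ a : k, ¬ r.denom.IsRoot a := by
    intro a ha
    have e1 : 0 < r.denom.rootMultiplicity a := (rootMultiplicity_pos hden).mpr ha
    have e2 := h0 a
    rw [ordP_coe] at e2
    have e3 : 0 < r.num.rootMultiplicity a := by omega
    have e4 : r.num.IsRoot a := (rootMultiplicity_pos hnum).mp e3
    obtain ⟨u, v, huv⟩ := hcop
    have := congrArg (Polynomial.eval a) huv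
    simp only [eval_add, eval_mul, eval_one] at this
    rw [IsRoot.def] at e4 ha
    rw [e4, ha] at this
    simp at this
  have hdeg : r.denom.natDegree = 0 := by
    by_contra hcon
    have : r.denom.degree ≠ 0 := by
      intro hd
      exact hcon (natDegree_eq_of_degree_eq_some (by simpa using hd))
    obtain ⟨a, ha⟩ := IsAlgClosed.exists_root r.denom this
    exact hno a ha
  rw [ordP_infty, hdeg] at h2 h3
  set R : Finset (OnePoint k) := r.num.roots.toFinset.image (fun a : k => (a : OnePoint k)) with hR
  have hRc : R.card ≤ r.num.natDegree :=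
    Finset.card_image_le.trans ((Multiset.toFinset_card_le _).trans (card_roots' _))
  have hmem : ∀ a : k, (a : OnePoint k) ∈ B → (a : OnePoint k) ∈ R := by
    intro a ha
    have e2 := h1 a ha
    rw [ordP_coe] at e2
    have e3 : 0 < r.num.rootMultiplicity a := by omega
    have e4 : r.num.IsRoot a := (rootMultiplicity_pos hnum).mp e3
    rw [hR, Finset.mem_image]
    exact ⟨a, by rw [Multiset.mem_toFinset]; exact (mem_roots hnum).mpr e4, rfl⟩
  by_cases hB : OnePoint.infty ∈ B
  · have h3' := h3 hB
    have hsub : B ⊆ ((insert OnePoint.infty R : Finset (OnePoint k)) : Set (OnePoint k)) := by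
      intro Q hQ
      induction Q using OnePoint.rec with
      | infty => simp
      | coe a =>
        rw [Finset.mem_coe, Finset.mem_insert]
        exact Or.inr (hmem a hQ)
    have hle : Nat.card B ≤ (insert OnePoint.infty R : Finset (OnePoint k)).card := by
      rw [Nat.card_coe_set_eq, ← Set.ncard_coe_finset]
      exact Set.ncard_le_ncard hsub (Finset.finite_toSet _)
    have := Finset.card_insert_le (OnePoint.infty : OnePoint k) R
    omega
  · have hsub : B ⊆ ((R : Finset (OnePoint k)) : Set (OnePoint k)) := by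
      intro Q hQ
      induction Q using OnePoint.rec with
      | infty => exact absurd hQ hB
      | coe a => exact hmem a hQ
    have hle : Nat.card B ≤ R.card := by
      rw [Nat.card_coe_set_eq, ← Set.ncard_coe_finset]
      exact Set.ncard_le_ncard hsub (Finset.finite_toSet _)
    omega

theorem mem_BrN {n : ℕ} (hn : 1 < n) {f : k[X]} (hf : f ≠ 0) (hm : ∀ a : k, f.rootMultiplicity a < n)
    (P : OnePoint k) : P ∈ BrN n f ↔ ¬ (n : ℤ) ∣ ordP P (algebraMap k[X] (RatFunc k) f) := by
  have hco : ∀ a : k, (a : OnePoint k) ≠ OnePoint.infty := OnePoint.coe_ne_infty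
  induction P using OnePoint.rec with
  | infty =>
    rw [ord_poly_infty, dvd_neg, Int.natCast_dvd_natCast]
    constructor
    · rintro (⟨a, _, ha⟩ | ⟨h, _⟩)
      · exact absurd ha.symm (hco a)
      · exact h
    · intro h
      exact Or.inr ⟨h, rfl⟩
  | coe a =>
    rw [ord_poly_coe, Int.natCast_dvd_natCast]
    constructor
    · rintro (⟨b, hb, hab⟩ | ⟨_, h⟩)
      · have hab' : a = b := OnePoint.coe_injective hab
        subst hab'
        have e1 : 0 < f.rootMultiplicity a := (rootMultiplicity_pos hf).mpr hb
        intro hd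
        exact absurd (Nat.le_of_dvd e1 hd) (not_le.mpr (hm a))
      · exact absurd h (hco a)
    · intro h
      refine Or.inl ⟨a, ?_, rfl⟩
      have e1 : 0 < f.rootMultiplicity a := by
        rcases Nat.eq_zero_or_pos (f.rootMultiplicity a) with e | e
        · rw [e] at h
          exact absurd (dvd_zero n) h
        · exact e
      exact (rootMultiplicity_pos hf).mp e1

theorem finite_BrN (n : ℕ) {f : k[X]} (hf : f ≠ 0) : (BrN n f).Finite := by
  classical
  refine Set.Finite.subset
    (((Finset.finite_toSet f.roots.toFinset).image (fun a : k => (a : OnePoint k))).union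
      (Set.finite_singleton (OnePoint.infty : OnePoint k))) ?_
  rintro P (⟨a, ha, rfl⟩ | ⟨_, rfl⟩)
  · refine Or.inl ⟨a, ?_, rfl⟩
    rw [Finset.mem_coe, Multiset.mem_toFinset]
    exact (mem_roots hf).mpr ha
  · exact Or.inr rfl

end Pool.Agent.Helper54.HZ
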