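import Pool.Agent.Helper54.HZ.TDefs
import Pool.Agent.Helper54.HZ.Val
import Pool.Agent.Helper54.HZ.Kum

/-!
MP_143e28_ag, project HZ, part 3 (trigonal curves): a branch point of a cyclic trigonal curve has one place above it.

`P ∈ BrN 3 f`: at most one place: for `V ∈ Above hx P` and `z = c_0 + c_1 y + c_2 y ^ 2`: the `V`-values of the nonzero `c_j y ^ j` are
different (their cubes are the values of `c_j ^ 3 f ^ j ∈ k(x)`, whose orders `3 ord c_j + j ord f` are different modulo 3), so `z ∈ V` iff all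
`c_j y ^ j ∈ V` iff `c_j = 0` or `3 ord c_j + j ord f ≥ 0` for all `j`: `V` is determined by `P`.  (Every `z` has this form: `F = k(x)(y)` with
`y ^ 3 ∈ k(x)`.)  So `encard ≤ 1`, `ramT = 2`.
-/

set_option autoImplicit false

namespace Pool.Agent.Helper54.HZ

open Polynomial Pool.Agent.Helper54.HY

variable {k F : Type*} [Field k] [Field F] [Algebra k F]

private theorem TRam_decomp_aux {K : Type*} [Field K] [Algebra K F] (y : F) (m : K[X])
    (hm : m.Monic) (h0 : aeval y m = 0)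
    (h1 : m ≠ 1) (htop : IntermediateField.adjoin K {y} = ⊤) (z : F) :
    ∃ c : ℕ → K, z = ∑ j ∈ Finset.range m.natDegree, algebraMap K F (c j) * y ^ j := by
  have hy : IsIntegral K y := ⟨m, hm, by rwa [← aeval_def]⟩
  have hz : z ∈ (IntermediateField.adjoin K {y}).toSubalgebra := by
    rw [htop]
    exact Algebra.mem_top
  rw [IntermediateField.adjoin_simple_toSubalgebra_of_isAlgebraic hy.isAlgebraic,
    Algebra.adjoin_singleton_eq_range_aeval] at hz
  obtain ⟨q, rfl⟩ := hz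
  refine ⟨fun j => (q %ₘ m).coeff j, ?_⟩
  change aeval y q = _
  rw [← aeval_modByMonic_eq_self_of_root h0,
    aeval_eq_sum_range' (natDegree_modByMonic_lt q hm h1)]
  simp_rw [Algebra.smul_def]

private theorem TRam_decomp {x : F} (hx : Transcendental k x) {y : F} {f : k[X]}
    (hgen : IntermediateField.adjoin k {x, y} = ⊤) (hy : y ^ 3 = aeval x f) (z : F) :
    ∃ c : ℕ → RatFunc k, z = ∑ j ∈ Finset.range 3, rat hx (c j) * y ^ j := by
  let _ : Algebra (RatFunc k) F := (rat hx).toRingHom.toAlgebra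
  have : IsScalarTower k (RatFunc k) F := IsScalarTower.of_algebraMap_eq fun c =>
    ((rat hx).commutes c).symm
  have hroot : aeval y (X ^ 3 - C (algebraMap k[X] (RatFunc k) f) : (RatFunc k)[X]) = 0 := by
    have h1 : algebraMap (RatFunc k) F (algebraMap k[X] (RatFunc k) f) = aeval x f :=
      rat_poly hx f
    rw [map_sub, map_pow, aeval_X, aeval_C, h1, hy, sub_self]
  have hdeg : (X ^ 3 - C (algebraMap k[X] (RatFunc k) f) : (RatFunc k)[X]).natDegree = 3 :=
    natDegree_X_pow_sub_C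
  have htop : IntermediateField.adjoin (RatFunc k) {y} = (⊤ : IntermediateField (RatFunc k) F) := by
    rw [eq_top_iff]
    intro z _
    have h1 : z ∈ IntermediateField.adjoin k {x, y} := by
      rw [hgen]
      exact IntermediateField.mem_top
    have h3 : x ∈ IntermediateField.adjoin (RatFunc k) {y} := by
      have h4 := (IntermediateField.adjoin (RatFunc k) ({y} : Set F)).algebraMap_mem RatFunc.X
      have h5 : algebraMap (RatFunc k) F RatFunc.X = x := rat_X hx
      rwa [h5] at h4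
    have h4 : y ∈ IntermediateField.adjoin (RatFunc k) {y} :=
      IntermediateField.mem_adjoin_simple_self _ _
    have h2 : IntermediateField.adjoin k {x, y} ≤
        (IntermediateField.adjoin (RatFunc k) {y}).restrictScalars k := by
      rw [IntermediateField.adjoin_le_iff, Set.insert_subset_iff, Set.singleton_subset_iff]
      exact ⟨(IntermediateField.mem_restrictScalars k).2 h3,
        (IntermediateField.mem_restrictScalars k).2 h4⟩
    exact (IntermediateField.mem_restrictScalars k).1 (h2 h1)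
  obtain ⟨c, hc⟩ := TRam_decomp_aux y _ (monic_X_pow_sub_C _ three_ne_zero) hroot
    (fun h1 => by
      rw [h1, natDegree_one] at hdeg
      exact absurd hdeg (by norm_num)) htop z
  rw [hdeg] at hc
  exact ⟨c, hc⟩

private theorem TRam_max {Γ : Type*} [LinearOrderedCommGroupWithZero Γ]
    (U : Valuation F Γ) (s : Finset ℕ) (t : ℕ → F)
    (hne : ∀ i ∈ s, ∀ j ∈ s, i ≠ j → t i ≠ 0 → t j ≠ 0 → U (t i) ≠ U (t j))
    (h : U (∑ j ∈ s, t j) ≤ 1) (j : ℕ) (hj : j ∈ s) : U (t j) ≤ 1 := by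
  classical
  obtain ⟨j0, hj0, hmax⟩ := s.exists_max_image (fun j => U (t j)) ⟨j, hj⟩
  refine (hmax j hj).trans ?_
  by_contra hcon
  push Not at hcon
  have hU0 : U (t j0) ≠ 0 := fun h0 => by
    rw [h0] at hcon
    exact absurd hcon (not_lt.2 zero_le_one)
  have ht0 : t j0 ≠ 0 := fun h0 => hU0 (by rw [h0, map_zero])
  have h1 : U (∑ i ∈ s.erase j0, t i) < U (t j0) := by
    refine U.map_sum_lt hU0 fun i hi => ?_
    rw [Finset.mem_erase] at hi
    by_cases hti : t i = 0
    · rw [hti, map_zero]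
      exact zero_lt_iff.2 hU0
    · exact lt_of_le_of_ne (hmax i hi.2) (hne i hi.2 j0 hj0 hi.1 hti ht0)
  have h2 : t j0 = ∑ i ∈ s, t i - ∑ i ∈ s.erase j0, t i := by
    rw [← Finset.add_sum_erase s t hj0]
    ring
  have h3 : U (t j0) < U (t j0) := by
    conv_lhs => rw [h2]
    refine lt_of_le_of_lt (U.map_sub _ _) (max_lt ?_ h1)
    exact lt_of_le_of_lt h hcon
  exact absurd h3 (lt_irrefl _)

private theorem TRam_mem {x : F} (hx : Transcendental k x) {y : F} {f : k[X]}
    (hf : f ≠ 0) (hm : ∀ a : k, f.rootMultiplicity a < 3)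
    (hy : y ^ 3 = aeval x f) (P : OnePoint k) (hP : P ∈ BrN 3 f) {V : ValuationSubring F}
    (hV : V ∈ Above hx P) (c : ℕ → RatFunc k) :
    ∑ j ∈ Finset.range 3, rat hx (c j) * y ^ j ∈ V ↔
      ∀ j ∈ Finset.range 3, c j ^ 3 * algebraMap k[X] (RatFunc k) f ^ j = 0 ∨
        0 ≤ ordP P (c j ^ 3 * algebraMap k[X] (RatFunc k) f ^ j) := by
  have hV' : ∀ r : RatFunc k, V.valuation (rat hx r) ≤ 1 ↔ (r = 0 ∨ 0 ≤ ordP P r) := by
    intro r
    rw [V.valuation_le_one_iff]
    exact hV r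
  have hVm : ∀ u : F, u ∈ V ↔ V.valuation u ≤ 1 := fun u => (V.valuation_le_one_iff u).symm
  rw [hVm]
  generalize V.valuation = U at hV' ⊢
  rw [mem_BrN (by norm_num) hf hm] at hP
  have hfK : algebraMap k[X] (RatFunc k) f ≠ 0 := RatFunc.algebraMap_ne_zero hf
  have hcube : ∀ j : ℕ, (rat hx (c j) * y ^ j) ^ 3 =
      rat hx (c j ^ 3 * algebraMap k[X] (RatFunc k) f ^ j) := by
    intro j
    rw [mul_pow, ← pow_mul, mul_comm j 3, pow_mul, hy, map_mul, map_pow, map_pow, rat_poly]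
  have hle : ∀ j : ℕ, U (rat hx (c j) * y ^ j) ≤ 1 ↔
      (c j ^ 3 * algebraMap k[X] (RatFunc k) f ^ j = 0 ∨
        0 ≤ ordP P (c j ^ 3 * algebraMap k[X] (RatFunc k) f ^ j)) := by
    intro j
    rw [← hV', ← hcube, map_pow, pow_le_one_iff three_ne_zero]
  have hone : ∀ r : RatFunc k, r ≠ 0 → U (rat hx r) = 1 → ordP P r = 0 := by
    intro r hr h1
    have h2 := (hV' r).1 h1.le
    have h3 := (hV' r⁻¹).1 (by rw [map_inv₀, map_inv₀, h1, inv_one])
    rcases h2 with h2 | h2
    · exact absurd h2 hr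
    rcases h3 with h3 | h3
    · exact absurd h3 (inv_ne_zero hr)
    rw [ord_inv P hr] at h3
    omega
  have hne : ∀ i ∈ Finset.range 3, ∀ j ∈ Finset.range 3, i ≠ j → rat hx (c i) * y ^ i ≠ 0 →
      rat hx (c j) * y ^ j ≠ 0 → U (rat hx (c i) * y ^ i) ≠ U (rat hx (c j) * y ^ j) := by
    intro i hi j hj hij hi0 hj0 heq
    rw [Finset.mem_range] at hi hj
    have hci : c i ≠ 0 := by
      intro h0
      rw [h0, map_zero, zero_mul] at hi0
      exact hi0 rfl
    have hcj : c j ≠ 0 := by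
      intro h0
      rw [h0, map_zero, zero_mul] at hj0
      exact hj0 rfl
    have h1 : U (rat hx ((c i ^ 3 * algebraMap k[X] (RatFunc k) f ^ i) *
        (c j ^ 3 * algebraMap k[X] (RatFunc k) f ^ j)⁻¹)) = 1 := by
      rw [map_mul, map_inv₀, ← hcube, ← hcube, map_mul, map_inv₀, map_pow, map_pow, heq]
      refine mul_inv_cancel₀ (pow_ne_zero _ ?_)
      rw [Valuation.ne_zero_iff]
      exact hj0
    have e1 : c i ^ 3 * algebraMap k[X] (RatFunc k) f ^ i ≠ 0 :=
      mul_ne_zero (pow_ne_zero _ hci) (pow_ne_zero _ hfK)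
    have e2 : c j ^ 3 * algebraMap k[X] (RatFunc k) f ^ j ≠ 0 :=
      mul_ne_zero (pow_ne_zero _ hcj) (pow_ne_zero _ hfK)
    have h2 := hone _ (mul_ne_zero e1 (inv_ne_zero e2)) h1
    rw [ord_mul P e1 (inv_ne_zero e2), ord_inv P e2,
      ord_mul P (pow_ne_zero _ hci) (pow_ne_zero _ hfK),
      ord_mul P (pow_ne_zero _ hcj) (pow_ne_zero _ hfK), ord_pow P hci, ord_pow P hcj,
      ord_pow P hfK, ord_pow P hfK] at h2
    apply hP
    push_cast at h2 ⊢
    generalize ordP P (algebraMap k[X] (RatFunc k) f) = o at h2 ⊢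
    generalize ordP P (c i) = o1 at h2
    generalize ordP P (c j) = o2 at h2
    have h3 : (i = 0 ∧ j = 1) ∨ (i = 0 ∧ j = 2) ∨ (i = 1 ∧ j = 0) ∨ (i = 1 ∧ j = 2) ∨
        (i = 2 ∧ j = 0) ∨ (i = 2 ∧ j = 1) := by omega
    rcases h3 with ⟨rfl, rfl⟩ | ⟨rfl, rfl⟩ | ⟨rfl, rfl⟩ | ⟨rfl, rfl⟩ | ⟨rfl, rfl⟩ | ⟨rfl, rfl⟩ <;>
      push_cast at h2 <;> omega
  constructor
  · intro h j hj
    rw [← hle]
    exact TRam_max U (Finset.range 3) (fun j => rat hx (c j) * y ^ j) hne h j hj
  · intro h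
    refine U.map_sum_le fun j hj => ?_
    exact (hle j).2 (h j hj)

theorem t_ram [IsAlgClosed k] (h3 : (3 : k) ≠ 0) {x : F} (hx : Transcendental k x) {y : F} {f : k[X]}
    (hgen : IntermediateField.adjoin k {x, y} = ⊤) (hf : f ≠ 0) (hm : ∀ a : k, f.rootMultiplicity a < 3)
    (hy : y ^ 3 = aeval x f) (hyx : y ∉ IntermediateField.adjoin k {x}) (P : OnePoint k) (hP : P ∈ BrN 3 f) :
    ramT hx P = 2 := by
  have h1 : (Above hx P).encard ≤ 1 := by
    rw [Set.encard_le_one_iff]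
    intro V W hV hW
    ext z
    obtain ⟨c, hc⟩ := TRam_decomp hx hgen hy z
    rw [hc, TRam_mem hx hf hm hy P hP hV c, TRam_mem hx hf hm hy P hP hW c]
  have h2 : (Above hx P).encard ≤ 2 := h1.trans (by norm_num)
  rw [ramT, if_pos h1, if_pos h2]

end Pool.Agent.Helper54.HZ
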