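import Pool.Agent.Helper54.HZ.TLoc
import Pool.Agent.Helper54.HZ.TRam
import Pool.Agent.Helper54.HZ.Fix

/-!
MP_143e28_ag, project HZ, part 3 (trigonal curves): the two definitions of the genus agree for cyclic trigonal curves.

`y ^ 3 = f (x)`, `F = k(x, y)`, `y ∉ k(x)`, all multiplicities `< 3`: for every point `P`: `ramT hx P = 2` if `P ∈ BrN 3 f` and `0` otherwise.
`P ∉ BrN 3 f`: `3 ∣ ordP P f` (`mem_BrN`), choose `e ∈ k(x)` with `ordP P e = ordP P f / 3` (a power of `X - a`, or of `1 / X`), `u = f / e ^ 3` has order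
`0`, `z = y / e` is a root of `Z ^ 3 - u`, irreducible; the reduction `Z ^ 3 - ubar`, `ubar ≠ 0`, has three different roots (`(3 : k) ≠ 0`), so
there are three different places (`exists_place`).
`P ∈ BrN 3 f`: `t_ram` in `TRam.lean`.
`t_gen`: the sum over all points is `2 #BrN` (`finite_BrN`, `finsum`), so `#BrN = g + 2`.
-/

set_option autoImplicit false

namespace Pool.Agent.Helper54.HZ

open Polynomial Pool.Agent.Helper54.HY

variable {k F : Type*} [Field k] [Field F] [Algebra k F]

/-- the residue of a function of order zero -/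
private theorem TGen_res (P : OnePoint k) {r : RatFunc k} (hr : r ≠ 0) (h : ordP P r = 0) :
    ∃ l : k, r - algebraMap k[X] (RatFunc k) (C l) = 0 ∨
      0 < ordP P (r - algebraMap k[X] (RatFunc k) (C l)) := by
  have hn := RatFunc.num_ne_zero hr
  have hd := RatFunc.denom_ne_zero r
  have hd' : algebraMap k[X] (RatFunc k) r.denom ≠ 0 := RatFunc.algebraMap_ne_zero hd
  have key : ∀ l : k, r - algebraMap k[X] (RatFunc k) (C l) =
      algebraMap k[X] (RatFunc k) (r.num - C l * r.denom) /
        algebraMap k[X] (RatFunc k) r.denom := by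
    intro l
    rw [map_sub, map_mul, sub_div, mul_div_cancel_right₀ _ hd', RatFunc.num_div_denom]
  induction P using OnePoint.rec with
  | infty =>
    rw [ordP_infty] at h
    have hdeg : r.num.natDegree = r.denom.natDegree := by omega
    have hln : r.num.leadingCoeff ≠ 0 := leadingCoeff_ne_zero.2 hn
    have hld : r.denom.leadingCoeff ≠ 0 := leadingCoeff_ne_zero.2 hd
    refine ⟨r.num.leadingCoeff / r.denom.leadingCoeff, ?_⟩
    by_cases h0 : r.num - C (r.num.leadingCoeff / r.denom.leadingCoeff) * r.denom = 0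
    · left
      rw [key, h0, map_zero, zero_div]
    · right
      rw [key, Ord_div _ h0 hd, Ord_v_infty, Ord_v_infty]
      have hc : r.num.leadingCoeff / r.denom.leadingCoeff ≠ 0 := div_ne_zero hln hld
      have h1 : (r.num - C (r.num.leadingCoeff / r.denom.leadingCoeff) * r.denom).degree <
          r.num.degree := by
        apply degree_sub_lt_left
        · rw [degree_C_mul hc, degree_eq_natDegree hn, degree_eq_natDegree hd, hdeg]
        · exact hn
        · rw [leadingCoeff_mul, leadingCoeff_C, div_mul_cancel₀ _ hld]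
      have h2 := natDegree_lt_natDegree h0 h1
      omega
  | coe a =>
    rw [ordP_coe] at h
    have hda : r.denom.eval a ≠ 0 := by
      intro h0
      have h1 : 0 < r.denom.rootMultiplicity a := (rootMultiplicity_pos hd).2 h0
      have h2 : 0 < r.num.rootMultiplicity a := by omega
      have h3 : r.num.eval a = 0 := (rootMultiplicity_pos hn).1 h2
      obtain ⟨u, v, huv⟩ := RatFunc.isCoprime_num_denom r
      have h4 := congrArg (Polynomial.eval a) huv
      rw [eval_add, eval_mul, eval_mul, h0, h3, mul_zero, mul_zero, add_zero, eval_one] at h4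
      exact zero_ne_one h4
    refine ⟨r.num.eval a / r.denom.eval a, ?_⟩
    by_cases h0 : r.num - C (r.num.eval a / r.denom.eval a) * r.denom = 0
    · left
      rw [key, h0, map_zero, zero_div]
    · right
      rw [key, Ord_div _ h0 hd, Ord_v_coe, Ord_v_coe]
      have h1 : 0 < (r.num - C (r.num.eval a / r.denom.eval a) * r.denom).rootMultiplicity a := by
        rw [rootMultiplicity_pos h0, IsRoot.def, eval_sub, eval_mul, eval_C,
          div_mul_cancel₀ _ hda, sub_self]
      have h2 : r.denom.rootMultiplicity a = 0 := rootMultiplicity_eq_zero hda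
      rw [h2]
      simpa using h1

private theorem TGen_neg (P : OnePoint k) {r : RatFunc k} (hr : r ≠ 0) : ordP P (-r) = ordP P r := by
  have h1 : (-r : RatFunc k) = algebraMap k[X] (RatFunc k) (C (-1)) * r := by
    rw [map_neg, map_neg, C_1, map_one, neg_one_mul]
  have h2 : algebraMap k[X] (RatFunc k) (C (-1)) ≠ 0 :=
    RatFunc.algebraMap_ne_zero (C_ne_zero.2 (neg_ne_zero.2 one_ne_zero))
  rw [h1, ord_mul P h2 hr, ord_const, zero_add]

/-- a function with the order of `f` divided by three -/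
private theorem TGen_e {f : k[X]} (hf : f ≠ 0) (P : OnePoint k) (hP : P ∉ BrN 3 f) :
    ∃ e : RatFunc k, e ≠ 0 ∧ ordP P (algebraMap k[X] (RatFunc k) f / e ^ 3) = 0 := by
  have hf' : algebraMap k[X] (RatFunc k) f ≠ 0 := RatFunc.algebraMap_ne_zero hf
  induction P using OnePoint.rec with
  | infty =>
    have h1 : 3 ∣ f.natDegree := by
      by_contra h
      exact hP (Or.inr ⟨h, rfl⟩)
    obtain ⟨d, hd⟩ := h1
    have hX : algebraMap k[X] (RatFunc k) X ≠ 0 := RatFunc.algebraMap_ne_zero X_ne_zero
    have hX' := pow_ne_zero d hX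
    refine ⟨algebraMap k[X] (RatFunc k) X ^ d, hX', ?_⟩
    rw [div_eq_mul_inv, ord_mul _ hf' (inv_ne_zero (pow_ne_zero 3 hX')), ord_inv _ (pow_ne_zero 3 hX'),
      ord_pow _ hX', ord_pow _ hX, ord_poly_infty, ord_poly_infty, natDegree_X, hd]
    push_cast
    ring
  | coe a =>
    refine ⟨1, one_ne_zero, ?_⟩
    rw [one_pow, div_one, ord_poly_coe]
    have h1 : f.eval a ≠ 0 := fun h => hP (Or.inl ⟨a, h, rfl⟩)
    rw [rootMultiplicity_eq_zero h1]
    rfl

private theorem TGen_const {x : F} (hx : Transcendental k x) {P : OnePoint k} {V : ValuationSubring F}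
    (hV : V ∈ Above hx P) {c : k} (hc : c ≠ 0) : algebraMap k F c ∉ V.nonunits := by
  have hm : ∀ c : k, algebraMap k F c ∈ V := by
    intro c
    have h1 := (hV (algebraMap k[X] (RatFunc k) (C c))).2 (Or.inr (ord_const P c).ge)
    rwa [rat_poly, aeval_C] at h1
  rw [ValuationSubring.mem_nonunits_iff_or]
  rintro (h | h)
  · exact hc ((map_eq_zero (algebraMap k F)).1 h)
  · apply h
    rw [← map_inv₀]
    exact hm _

theorem t_unram [IsAlgClosed k] (h3 : (3 : k) ≠ 0) {x : F} (hx : Transcendental k x) {y : F} {f : k[X]}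
    (hgen : IntermediateField.adjoin k {x, y} = ⊤) (hf : f ≠ 0) (hm : ∀ a : k, f.rootMultiplicity a < 3)
    (hy : y ^ 3 = aeval x f) (hyx : y ∉ IntermediateField.adjoin k {x}) (P : OnePoint k) (hP : P ∉ BrN 3 f) :
    ramT hx P = 0 := by
  obtain ⟨e, he, hordu⟩ := TGen_e hf P hP
  have hf' : algebraMap k[X] (RatFunc k) f ≠ 0 := RatFunc.algebraMap_ne_zero hf
  obtain ⟨u, hu⟩ : ∃ u : RatFunc k, u = algebraMap k[X] (RatFunc k) f / e ^ 3 := ⟨_, rfl⟩
  have hu0 : u ≠ 0 := by rw [hu]; exact div_ne_zero hf' (pow_ne_zero 3 he)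
  rw [← hu] at hordu
  obtain ⟨c, hc⟩ := TGen_res P hu0 hordu
  have hc0 : c ≠ 0 := by
    rintro rfl
    rw [C_0, map_zero, sub_zero] at hc
    rcases hc with h | h
    · exact hu0 h
    · omega
  have hre : rat hx e ≠ 0 := fun h => he (rat_injective hx (by rw [h, map_zero]))
  obtain ⟨z, hz⟩ : ∃ z : F, z = y / rat hx e := ⟨_, rfl⟩
  have hz3 : z ^ 3 = rat hx u := by
    rw [hz, hu, div_pow, hy, map_div₀, map_pow, rat_poly]
  have hyz : y = rat hx e * z := by rw [hz, mul_div_cancel₀ _ hre]
  have hzx : ∀ r : RatFunc k, rat hx r ≠ z := by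
    intro r hr
    apply hyx
    rw [mem_rat hx]
    exact ⟨e * r, by rw [map_mul, hr, ← hyz]⟩
  -- cube roots of unity
  obtain ⟨w, hw⟩ : ∃ w : k, IsPrimitiveRoot w 3 := by
    have : NeZero ((3 : ℕ) : k) := ⟨by exact_mod_cast h3⟩
    exact HasEnoughRootsOfUnity.exists_primitiveRoot k 3
  have hnc : ∀ b : RatFunc k, b ^ 3 ≠ u := by
    intro b hb
    have hb0 : b ≠ 0 := by
      rintro rfl
      exact hu0 (by rw [← hb]; simp)
    have hrb : rat hx b ≠ 0 := fun h => hb0 (rat_injective hx (by rw [h, map_zero]))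
    have h1 : (z / rat hx b) ^ 3 = 1 := by
      rw [div_pow, hz3, ← hb, map_pow, div_self (pow_ne_zero 3 hrb)]
    have hwF : IsPrimitiveRoot (algebraMap k F w) 3 :=
      hw.map_of_injective (algebraMap k F).injective
    obtain ⟨i, -, hi⟩ := hwF.eq_pow_of_pow_eq_one h1
    apply hzx (algebraMap k[X] (RatFunc k) (C (w ^ i)) * b)
    rw [map_mul, rat_poly, aeval_C, map_pow, hi, div_mul_cancel₀ _ hrb]
  obtain ⟨chi, hchi⟩ : ∃ chi : (RatFunc k)[X], chi = X ^ 3 - C u := ⟨_, rfl⟩
  have hirr : Irreducible chi := by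
    rw [hchi]
    exact X_pow_sub_C_irreducible_of_prime Nat.prime_three hnc
  have hmon : chi.Monic := by
    rw [hchi]
    exact monic_X_pow_sub_C u (by norm_num)
  have hzr : chi.eval₂ (rat hx : RatFunc k →ₐ[k] F).toRingHom z = 0 := by
    rw [hchi, eval₂_sub, eval₂_pow, eval₂_X, eval₂_C, hz3]
    exact sub_self _
  have hint : ∀ i, chi.coeff i = 0 ∨ 0 ≤ ordP P (chi.coeff i) := by
    intro i
    rw [hchi, coeff_sub, coeff_X_pow, coeff_C]
    by_cases h1 : i = 3
    · right
      subst h1
      simp [ord_one]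
    · by_cases h2 : i = 0
      · right
        subst h2
        simp only [h1, if_false, if_true, zero_sub]
        rw [TGen_neg P hu0, hordu]
      · left
        simp [h1, h2]
  obtain ⟨ρ, hρ⟩ : ∃ ρ : k, ρ ^ 3 = c := IsAlgClosed.exists_pow_nat_eq c (by norm_num)
  have hρ0 : ρ ≠ 0 := by
    rintro rfl
    exact hc0 (by rw [← hρ]; simp)
  have hroot : ∀ i : ℕ, chi.eval (algebraMap k[X] (RatFunc k) (C (ρ * w ^ i))) = 0 ∨
      1 ≤ ordP P (chi.eval (algebraMap k[X] (RatFunc k) (C (ρ * w ^ i)))) := by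
    intro i
    have h1 : (ρ * w ^ i) ^ 3 = c := by
      rw [mul_pow, ← pow_mul, mul_comm i 3, pow_mul, hw.pow_eq_one, one_pow, mul_one, hρ]
    have h2 : chi.eval (algebraMap k[X] (RatFunc k) (C (ρ * w ^ i))) =
        -(u - algebraMap k[X] (RatFunc k) (C c)) := by
      rw [hchi, eval_sub, eval_pow, eval_X, eval_C, ← map_pow, ← map_pow, h1]
      ring
    rw [h2]
    rcases hc with h | h
    · left
      rw [h, neg_zero]
    · by_cases h4 : u - algebraMap k[X] (RatFunc k) (C c) = 0
      · left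
        rw [h4, neg_zero]
      · right
        rw [TGen_neg P h4]
        omega
  choose V hV hVz using fun i : ℕ => exists_place hx P hmon hirr hzr hint (ρ * w ^ i) (hroot i)
  have hne : ∀ i j : ℕ, i < j → j < 3 → V i ≠ V j := by
    intro i j hij hj heq
    have h1 := hVz i
    have h2 := hVz j
    rw [heq] at h1
    rw [ValuationSubring.mem_nonunits_iff] at h1 h2
    have h4 : (V j).valuation (algebraMap k F (ρ * w ^ i - ρ * w ^ j)) < 1 := by
      have h5 : algebraMap k F (ρ * w ^ i - ρ * w ^ j) =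
          (z - algebraMap k F (ρ * w ^ j)) - (z - algebraMap k F (ρ * w ^ i)) := by
        rw [map_sub]
        ring
      rw [h5]
      exact lt_of_le_of_lt (Valuation.map_sub _ _ _) (max_lt h2 h1)
    rw [← ValuationSubring.mem_nonunits_iff] at h4
    refine TGen_const hx (hV j) ?_ h4
    rw [← mul_sub]
    refine mul_ne_zero hρ0 (sub_ne_zero.2 fun h => ?_)
    exact absurd (hw.pow_inj (by omega) hj h) (by omega)
  have h4 : (3 : ℕ∞) ≤ (Above hx P).encard := by
    have h5 : ({V 0, V 1, V 2} : Set (ValuationSubring F)).encard = 3 :=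
      Set.encard_eq_three.2 ⟨V 0, V 1, V 2, hne 0 1 (by omega) (by omega),
        hne 0 2 (by omega) (by omega), hne 1 2 (by omega) (by omega), rfl⟩
    rw [← h5]
    apply Set.encard_le_encard
    rintro W (rfl | rfl | rfl)
    · exact hV 0
    · exact hV 1
    · exact hV 2
  have h5 : ¬ (Above hx P).encard ≤ 2 := by
    intro h
    exact absurd (h4.trans h) (by decide)
  have h6 : ¬ (Above hx P).encard ≤ 1 := by
    intro h
    exact absurd (h4.trans h) (by decide)
  rw [ramT, if_neg h5, if_neg h6]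

theorem t_gen [IsAlgClosed k] (h3 : (3 : k) ≠ 0) {g : ℕ} {x : F} (h : PresT k F g x) {y : F} {f : k[X]}
    (hgen : IntermediateField.adjoin k {x, y} = ⊤) (hf : f ≠ 0) (hm : ∀ a : k, f.rootMultiplicity a < 3)
    (hy : y ^ 3 = aeval x f) (hyx : y ∉ IntermediateField.adjoin k {x}) : PresN k F 3 g x y f := by
  classical
  have hfin := finite_BrN 3 hf
  have h1 : ∀ P : OnePoint k, ramT h.trans P = if P ∈ BrN 3 f then 2 else 0 := by
    intro P
    by_cases hP : P ∈ BrN 3 f
    · rw [if_pos hP]
      exact t_ram h3 h.trans hgen hf hm hy hyx P hP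
    · rw [if_neg hP]
      exact t_unram h3 h.trans hgen hf hm hy hyx P hP
  have h2 : ∑ᶠ P : OnePoint k, ramT h.trans P = 2 * Nat.card (BrN 3 f) := by
    rw [finsum_eq_sum_of_support_subset (s := hfin.toFinset)]
    · rw [Finset.sum_congr rfl (g := fun _ => 2)]
      · rw [Finset.sum_const, Nat.card_coe_set_eq, Set.ncard_eq_toFinset_card _ hfin, smul_eq_mul, mul_comm]
      · intro P hP
        rw [h1, if_pos ((Set.Finite.mem_toFinset hfin).1 hP)]
    · intro P hP
      rw [Function.mem_support, h1] at hP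
      rw [Set.Finite.coe_toFinset]
      by_contra h4
      exact hP (if_neg h4)
  have h4 := h.genus
  rw [h2] at h4
  refine ⟨Nat.prime_three, by exact_mod_cast h3, h.trans, hgen, hf, hm, hy, ?_⟩
  omega

end Pool.Agent.Helper54.HZ
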