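import Pool.Agent.Helper28.HA.A2

/-!
MP_143e28_ag, project HZ: if all automorphisms of `F` preserve `k(x)`, they act by Moebius transformations on `x`.

Copy of the proof of `auto_mob` in `Helper28.HA.A2` (with its private lemmas), `auto_mem` replaced by the hypothesis `hmem`.
-/

set_option autoImplicit false

namespace Pool.Agent.Helper54.HZ

open Polynomial

variable {k F : Type*} [Field k] [Field F] [Algebra k F]

private theorem Mob_aeval_map (s : F ≃ₐ[k] F) (x : F) (p : k[X]) :
    s (aeval x p) = aeval (s x) p := by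
  have h := Polynomial.aeval_algHom_apply (s : F →ₐ[k] F) x p
  exact h.symm

/-- the embedding of the rational functions -/
private theorem Mob_emb {x : F} (hx : Transcendental k x) :
    ∃ i : RatFunc k →ₐ[k] F, ∀ p : k[X], i (algebraMap k[X] (RatFunc k) p) = aeval x p := by
  have hinj : Function.Injective (aeval x : k[X] →ₐ[k] F) := transcendental_iff_injective.1 hx
  refine ⟨RatFunc.liftAlgHom (aeval x) ?_, ?_⟩
  · intro p hp
    rw [Submonoid.mem_comap]
    rw [mem_nonZeroDivisors_iff_ne_zero] at hp ⊢
    intro h0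
    apply hp
    apply hinj
    rw [map_zero]
    exact h0
  · intro p
    rw [RatFunc.liftAlgHom_apply]
    simp

private theorem Mob_mem_iff {x z : F} : z ∈ IntermediateField.adjoin k {x} ↔
    ∃ r s : k[X], z = aeval x r / aeval x s := IntermediateField.mem_adjoin_simple_iff k z

private theorem Mob_aeval_ratfunc (i : RatFunc k →ₐ[k] F) (R : RatFunc k) (p : k[X]) :
    i (aeval R p) = aeval (i R) p := (Polynomial.aeval_algHom_apply i R p).symm

theorem auto_mob {x : F} (hx : Transcendental k x)
    (hmem : ∀ s : F ≃ₐ[k] F, s x ∈ IntermediateField.adjoin k {x}) (s : F ≃ₐ[k] F) :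
    ∃ M : GL (Fin 2) k, algebraMap k F (M 1 0) * x + algebraMap k F (M 1 1) ≠ 0 ∧
      s x * (algebraMap k F (M 1 0) * x + algebraMap k F (M 1 1)) =
        algebraMap k F (M 0 0) * x + algebraMap k F (M 0 1) := by
  obtain ⟨i, hi⟩ := Mob_emb hx
  have hiinj : Function.Injective i := i.toRingHom.injective
  obtain ⟨r, q, hrq⟩ := Mob_mem_iff.1 (hmem s)
  obtain ⟨r', q', hrq'⟩ := Mob_mem_iff.1 (hmem s.symm)
  have hxx : x = aeval (s x) r' / aeval (s x) q' := by
    have h1 := congrArg s hrq'
    rw [AlgEquiv.apply_symm_apply, map_div₀, Mob_aeval_map, Mob_aeval_map] at h1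
    exact h1
  obtain ⟨R, hR⟩ : ∃ R : RatFunc k, i R = s x := by
    refine ⟨algebraMap k[X] (RatFunc k) r / algebraMap k[X] (RatFunc k) q, ?_⟩
    rw [map_div₀, hi, hi, ← hrq]
  have hX : i RatFunc.X = x := by
    have h1 := hi X
    rw [RatFunc.algebraMap_X, aeval_X] at h1
    exact h1
  have hXR : (RatFunc.X : RatFunc k) = aeval R r' / aeval R q' := by
    apply hiinj
    rw [hX, map_div₀, Mob_aeval_ratfunc, Mob_aeval_ratfunc, hR]
    exact hxx
  have htop : IntermediateField.adjoin k {R} = ⊤ := by
    rw [eq_top_iff, ← RatFunc.adjoin_X, IntermediateField.adjoin_simple_le_iff]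
    exact (IntermediateField.mem_adjoin_simple_iff k _).2 ⟨r', q', hXR⟩
  have hdeg : max R.num.natDegree R.denom.natDegree = 1 := by
    rw [← RatFunc.finrank_eq_max_natDegree, htop]
    exact IntermediateField.finrank_top
  have hnd : R.num.natDegree ≤ 1 := by rw [← hdeg]; exact le_max_left _ _
  have hdd : R.denom.natDegree ≤ 1 := by rw [← hdeg]; exact le_max_right _ _
  have en := Polynomial.eq_X_add_C_of_natDegree_le_one hnd
  have ed := Polynomial.eq_X_add_C_of_natDegree_le_one hdd
  have hd0 := R.denom_ne_zero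
  have hcop := R.isCoprime_num_denom
  generalize R.num.coeff 1 = α at en
  generalize R.num.coeff 0 = β at en
  generalize R.denom.coeff 1 = γ at ed
  generalize R.denom.coeff 0 = δ at ed
  have hdet : α * δ - β * γ ≠ 0 := by
    intro hz
    have hk1 : C γ * R.num = C α * R.denom := by
      rw [en, ed]
      have : C (α * δ - β * γ) = (0 : k[X]) := by rw [hz, C_0]
      rw [C_sub, C_mul, C_mul] at this
      linear_combination -this
    by_cases hγ : γ = 0
    · rw [hγ, C_0, zero_mul] at hk1
      have hα : α = 0 := by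
        rcases mul_eq_zero.1 hk1.symm with h3 | h3
        · exact C_eq_zero.1 h3
        · exact absurd h3 hd0
      rw [en, ed, hα, hγ, C_0, zero_mul, zero_add, zero_add, natDegree_C, natDegree_C,
        max_self] at hdeg
      exact absurd hdeg (by norm_num)
    · have hunit : IsUnit R.denom := by
        obtain ⟨u, v, huv⟩ := hcop
        rw [isUnit_iff_dvd_one, ← huv]
        refine dvd_add ?_ (dvd_mul_left _ _)
        refine Dvd.dvd.mul_left ?_ u
        have h3 : R.num = C γ⁻¹ * (C α * R.denom) := by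
          rw [← hk1, ← mul_assoc, ← C_mul, inv_mul_cancel₀ hγ, C_1, one_mul]
        rw [h3]
        exact Dvd.dvd.mul_left (dvd_mul_left _ _) _
      have h4 := natDegree_eq_zero_of_isUnit hunit
      rw [ed, natDegree_linear hγ] at h4
      exact absurd h4 (by norm_num)
  refine ⟨Matrix.GeneralLinearGroup.mkOfDetNeZero !![α, β; γ, δ] (by
    rw [Matrix.det_fin_two_of]
    exact hdet), ?_⟩
  have hM00 : (Matrix.GeneralLinearGroup.mkOfDetNeZero !![α, β; γ, δ] (by
    rw [Matrix.det_fin_two_of]
    exact hdet)) 0 0 = α := rfl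
  have hM01 : (Matrix.GeneralLinearGroup.mkOfDetNeZero !![α, β; γ, δ] (by
    rw [Matrix.det_fin_two_of]
    exact hdet)) 0 1 = β := rfl
  have hM10 : (Matrix.GeneralLinearGroup.mkOfDetNeZero !![α, β; γ, δ] (by
    rw [Matrix.det_fin_two_of]
    exact hdet)) 1 0 = γ := rfl
  have hM11 : (Matrix.GeneralLinearGroup.mkOfDetNeZero !![α, β; γ, δ] (by
    rw [Matrix.det_fin_two_of]
    exact hdet)) 1 1 = δ := rfl
  rw [hM00, hM01, hM10, hM11]
  have hden : aeval x R.denom = algebraMap k F γ * x + algebraMap k F δ := by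
    rw [ed]
    simp
  have hnum : aeval x R.num = algebraMap k F α * x + algebraMap k F β := by
    rw [en]
    simp
  have hden0 : aeval x R.denom ≠ 0 := by
    rw [← hi]
    intro h0
    have h3 : algebraMap k[X] (RatFunc k) R.denom = 0 := hiinj (by rw [h0, map_zero])
    exact RatFunc.algebraMap_ne_zero hd0 h3
  have hval : s x = aeval x R.num / aeval x R.denom := by
    rw [← hR, ← hi, ← hi, ← map_div₀, RatFunc.num_div_denom]
  rw [← hden, ← hnum]
  exact ⟨hden0, by rw [hval, div_mul_cancel₀ _ hden0]⟩

end Pool.Agent.Helper54.HZ
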