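import Pool.Agent.Helper54.HZ.TInv
import Pool.Agent.Helper54.HZ.Mob

/-!
MP_143e28_ag, project HZ, part 3 (trigonal curves): the group of Moebius transformations.

Adapt `Grp.lean` (helper45): `G` = the `mact M` with `s x = M (x)` for some automorphism `s`; `t_inv` for the second property; the map
`s ↦ mact (M_s)` is injective if only the identity fixes `x` (`hker`): `s x = s' x` gives `s⁻¹ s' = 1`.
-/

set_option autoImplicit false

namespace Pool.Agent.Helper54.HZ

open Polynomial Pool.Agent.Helper28.HA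

variable {k F : Type*} [Field k] [Field F] [Algebra k F]

/-- `s x = M (x)` -/
private def TGrp_rel (x : F) (s : F ≃ₐ[k] F) (M : GL (Fin 2) k) : Prop :=
  s x * (algebraMap k F (M 1 0) * x + algebraMap k F (M 1 1)) =
    algebraMap k F (M 0 0) * x + algebraMap k F (M 0 1)

private theorem TGrp_lin_ne {x : F} (hx : Transcendental k x) (M : GL (Fin 2) k) :
    algebraMap k F (M 1 0) * x + algebraMap k F (M 1 1) ≠ 0 := by
  intro h0
  have hp : (C (M 1 0) * X + C (M 1 1) : k[X]) = 0 := by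
    by_contra hne
    exact hx ⟨C (M 1 0) * X + C (M 1 1), hne, by simpa using h0⟩
  have h1 : M 1 0 = 0 := by
    have := congrArg (fun q : k[X] => q.coeff 1) hp
    simpa [coeff_C] using this
  have h2 : M 1 1 = 0 := by
    have := congrArg (fun q : k[X] => q.coeff 0) hp
    simpa [coeff_C] using this
  have hd := M.det_ne_zero
  rw [Matrix.det_fin_two, h1, h2] at hd
  simp at hd

private theorem TGrp_one (x : F) : TGrp_rel x (1 : F ≃ₐ[k] F) 1 := by
  simp [TGrp_rel]

private theorem TGrp_mul {x : F} {s t : F ≃ₐ[k] F} {M N : GL (Fin 2) k} (hx : Transcendental k x)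
    (hs : TGrp_rel x s M) (ht : TGrp_rel x t N) : TGrp_rel x (t * s) (M * N) := by
  unfold TGrp_rel at *
  have h1 := congrArg t hs
  simp only [map_mul, map_add, AlgEquiv.commutes] at h1
  have hD := TGrp_lin_ne hx N
  have e : (t * s) x = t (s x) := rfl
  rw [e]
  have hm : ∀ i j, (M * N) i j = M i 0 * N 0 j + M i 1 * N 1 j := by
    intro i j
    rw [Units.val_mul, Matrix.mul_apply, Fin.sum_univ_two]
  simp only [hm, map_add, map_mul]
  linear_combination (algebraMap k F (N 1 0) * x + algebraMap k F (N 1 1)) * h1 +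
    (algebraMap k F (M 0 0) - t (s x) * algebraMap k F (M 1 0)) * ht

private theorem TGrp_inv {x : F} {s : F ≃ₐ[k] F} {M : GL (Fin 2) k}
    (hs : TGrp_rel x s M) : TGrp_rel x s⁻¹ M⁻¹ := by
  unfold TGrp_rel at *
  have h1 := congrArg (s⁻¹ : F ≃ₐ[k] F) hs
  have e : (s⁻¹ : F ≃ₐ[k] F) (s x) = x := s.symm_apply_apply x
  simp only [map_mul, map_add, AlgEquiv.commutes, e] at h1
  have hd : (M : Matrix (Fin 2) (Fin 2) k).det ≠ 0 := M.det_ne_zero
  have hi : ((M⁻¹ : GL (Fin 2) k) : Matrix (Fin 2) (Fin 2) k) =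
      (M : Matrix (Fin 2) (Fin 2) k).det⁻¹ • !![M 1 1, -M 0 1; -M 1 0, M 0 0] := by
    rw [Matrix.coe_units_inv, Matrix.inv_def, Matrix.adjugate_fin_two, Ring.inverse_eq_inv']
  have i00 : (M⁻¹ : GL (Fin 2) k) 0 0 = (M : Matrix (Fin 2) (Fin 2) k).det⁻¹ * M 1 1 := by
    rw [hi]; simp
  have i01 : (M⁻¹ : GL (Fin 2) k) 0 1 = (M : Matrix (Fin 2) (Fin 2) k).det⁻¹ * (-M 0 1) := by
    rw [hi]; simp
  have i10 : (M⁻¹ : GL (Fin 2) k) 1 0 = (M : Matrix (Fin 2) (Fin 2) k).det⁻¹ * (-M 1 0) := by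
    rw [hi]; simp
  have i11 : (M⁻¹ : GL (Fin 2) k) 1 1 = (M : Matrix (Fin 2) (Fin 2) k).det⁻¹ * M 0 0 := by
    rw [hi]; simp
  rw [i00, i01, i10, i11]
  simp only [map_mul, map_neg]
  linear_combination (-algebraMap k F ((M : Matrix (Fin 2) (Fin 2) k).det⁻¹)) * h1

private theorem TGrp_eq [Infinite k] {x : F} (hx : Transcendental k x) {s s' : F ≃ₐ[k] F}
    {M M' : GL (Fin 2) k} (hs : TGrp_rel x s M) (hs' : TGrp_rel x s' M') (hm : mact M = mact M') :
    s x = s' x := by
  have key : ∀ a : k, (M 0 0 * a + M 0 1) * (M' 1 0 * a + M' 1 1) =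
      (M' 0 0 * a + M' 0 1) * (M 1 0 * a + M 1 1) := by
    intro a
    have ha : mact M (a : OnePoint k) = mact M' (a : OnePoint k) := by rw [hm]
    by_cases h1 : M 1 0 * a + M 1 1 = 0
    · by_cases h2 : M' 1 0 * a + M' 1 1 = 0
      · rw [h1, h2]; ring
      · rw [mact_some_zero M a h1, mact_some M' a h2] at ha
        exact absurd ha (OnePoint.infty_ne_coe _)
    · by_cases h2 : M' 1 0 * a + M' 1 1 = 0
      · rw [mact_some M a h1, mact_some_zero M' a h2] at ha
        exact absurd ha (OnePoint.coe_ne_infty _)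
      · rw [mact_some M a h1, mact_some M' a h2, OnePoint.coe_eq_coe, div_eq_div_iff h1 h2] at ha
        exact ha
  have hp : ((C (M 0 0) * X + C (M 0 1)) * (C (M' 1 0) * X + C (M' 1 1)) -
      (C (M' 0 0) * X + C (M' 0 1)) * (C (M 1 0) * X + C (M 1 1)) : k[X]) = 0 := by
    apply Polynomial.funext
    intro a
    simp only [eval_sub, eval_mul, eval_add, eval_C, eval_X, eval_zero]
    rw [key a, sub_self]
  have hq := congrArg (aeval x) hp
  simp only [map_sub, map_mul, map_add, aeval_C, aeval_X, map_zero] at hq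
  have d1 := TGrp_lin_ne hx M
  have d2 := TGrp_lin_ne hx M'
  unfold TGrp_rel at hs hs'
  have : (s x - s' x) * ((algebraMap k F (M 1 0) * x + algebraMap k F (M 1 1)) *
      (algebraMap k F (M' 1 0) * x + algebraMap k F (M' 1 1))) = 0 := by
    linear_combination (algebraMap k F (M' 1 0) * x + algebraMap k F (M' 1 1)) * hs -
      (algebraMap k F (M 1 0) * x + algebraMap k F (M 1 1)) * hs' + hq
  rcases mul_eq_zero.mp this with h | h
  · exact sub_eq_zero.mp h
  · exact absurd h (mul_ne_zero d1 d2)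

theorem t_group [IsAlgClosed k] {x : F} (hx : Transcendental k x)
    (hmem : ∀ s : F ≃ₐ[k] F, s x ∈ IntermediateField.adjoin k {x})
    (hker : ∀ s : F ≃ₐ[k] F, s x = x → s = 1) :
    ∃ G : Subgroup (Equiv.Perm (OnePoint k)), MobGroup G ∧
      (∀ s ∈ G, ∀ P, ramT hx (s P) = ramT hx P) ∧
      (Finite G → Finite (F ≃ₐ[k] F) ∧ Nat.card (F ≃ₐ[k] F) ≤ Nat.card G) := by
  have : Infinite k := IsAlgClosed.instInfinite
  let G : Subgroup (Equiv.Perm (OnePoint k)) :=
    { carrier := {p | ∃ (s : F ≃ₐ[k] F) (M : GL (Fin 2) k), TGrp_rel x s M ∧ p = mact M}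
      mul_mem' := by
        rintro _ _ ⟨s, M, hs, rfl⟩ ⟨t, N, ht, rfl⟩
        exact ⟨t * s, M * N, TGrp_mul hx hs ht, by rw [map_mul]⟩
      one_mem' := ⟨1, 1, TGrp_one x, by rw [map_one]⟩
      inv_mem' := by
        rintro _ ⟨s, M, hs, rfl⟩
        exact ⟨s⁻¹, M⁻¹, TGrp_inv hs, by rw [map_inv]⟩ }
  refine ⟨G, ?_, ?_, ?_⟩
  · rintro _ ⟨s, M, hs, rfl⟩
    exact ⟨M, rfl⟩
  · rintro _ ⟨s, M, hs, rfl⟩ P
    exact t_inv hx s M hs P
  · intro hfin
    have hM : ∀ s : F ≃ₐ[k] F, ∃ M : GL (Fin 2) k, TGrp_rel x s M := by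
      intro s
      obtain ⟨M, _, hM⟩ := Pool.Agent.Helper54.HZ.auto_mob hx hmem s
      exact ⟨M, hM⟩
    choose M hM using hM
    let φ : (F ≃ₐ[k] F) → G := fun s => ⟨mact (M s), s, M s, hM s, rfl⟩
    have hφ : Function.Injective φ := by
      intro s s' hss
      have h1 : s x = s' x := TGrp_eq hx (hM s) (hM s') (congrArg Subtype.val hss)
      have h2 : s⁻¹ * s' = 1 := by
        apply hker
        rw [AlgEquiv.mul_apply, ← h1]
        exact s.symm_apply_apply x
      exact inv_mul_eq_one.1 h2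
    exact ⟨Finite.of_injective φ hφ, Nat.card_le_card_of_injective φ hφ⟩

end Pool.Agent.Helper54.HZ
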