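import Pool.Agent.Helper54.HZ.Val

/-!
MP_143e28_ag, project HZ, part 2: zeros with multiplicities.

`r.denom` has no root (all `ordP a r ≥ 0`, `num`, `denom` coprime), so it is constant (`k` algebraically closed); `wt a ≤` the
multiplicity of `a` in `r.num`, so the support of `wt` is finite and `∑ wt a ≤ r.num.natDegree = - ordP ∞ r ≤ m - wt ∞`
(`card_roots'`, `Multiset.toFinset_sum_count_eq` or `(IsAlgClosed.splits _).natDegree_eq_card_roots`).
-/

set_option autoImplicit false

namespace Pool.Agent.Helper54.HZ

open Polynomial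

variable {k : Type*} [Field k]

theorem countW [IsAlgClosed k] {r : RatFunc k} (hr : r ≠ 0) (m : ℤ) (wt : OnePoint k → ℤ)
    (h0 : ∀ P, 0 ≤ wt P) (h1 : ∀ a : k, wt (a : OnePoint k) ≤ ordP (a : OnePoint k) r)
    (h2 : wt OnePoint.infty - m ≤ ordP OnePoint.infty r) :
    ∑ᶠ P, wt P ≤ m := by
  classical
  have hnum : r.num ≠ 0 := RatFunc.num_ne_zero hr
  have hden : r.denom ≠ 0 := RatFunc.denom_ne_zero r
  have hcop := RatFunc.isCoprime_num_denom r
  have hno : ∀ a : k, ¬ r.denom.IsRoot a := by
    intro a ha
    have e1 : 0 < r.denom.rootMultiplicity a := (rootMultiplicity_pos hden).mpr ha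
    have e2 := (h0 (a : OnePoint k)).trans (h1 a)
    rw [ordP_coe] at e2
    have e3 : 0 < r.num.rootMultiplicity a := by omega
    have e4 : r.num.IsRoot a := (rootMultiplicity_pos hnum).mp e3
    obtain ⟨u, v, huv⟩ := hcop
    have := congrArg (Polynomial.eval a) huv
    simp only [eval_add, eval_mul, eval_one] at this
    rw [IsRoot.def] at e4 ha
    rw [e4, ha] at this
    simp at this
  have hdeg : r.denom.natDegree = 0 := by
    by_contra hcon
    have : r.denom.degree ≠ 0 := by
      intro hd
      exact hcon (natDegree_eq_of_degree_eq_some (by simpa using hd))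
    obtain ⟨a, ha⟩ := IsAlgClosed.exists_root r.denom this
    exact hno a ha
  rw [ordP_infty, hdeg] at h2
  have hmul : ∀ a : k, wt (a : OnePoint k) ≤ (r.num.rootMultiplicity a : ℤ) := by
    intro a
    have e2 := h1 a
    rw [ordP_coe] at e2
    omega
  have hsupp : Function.support wt ⊆
      ((insert OnePoint.infty (r.num.roots.toFinset.image (fun a : k => (a : OnePoint k))) :
        Finset (OnePoint k)) : Set (OnePoint k)) := by
    intro Q hQ
    induction Q using OnePoint.rec with
    | infty => simp
    | coe a =>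
      rw [Finset.mem_coe, Finset.mem_insert]
      right
      rw [Finset.mem_image]
      refine ⟨a, ?_, rfl⟩
      rw [Multiset.mem_toFinset]
      have e1 : wt (a : OnePoint k) ≠ 0 := hQ
      have e2 := h0 (a : OnePoint k)
      have e3 := hmul a
      have e4 : 0 < r.num.rootMultiplicity a := by omega
      exact (mem_roots hnum).mpr ((rootMultiplicity_pos hnum).mp e4)
  rw [finsum_eq_sum_of_support_subset wt hsupp]
  have hni : (OnePoint.infty : OnePoint k) ∉
      r.num.roots.toFinset.image (fun a : k => (a : OnePoint k)) := by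
    intro h
    obtain ⟨a, -, ha⟩ := Finset.mem_image.1 h
    exact OnePoint.coe_ne_infty a ha
  rw [Finset.sum_insert hni, Finset.sum_image fun a _ b _ h => OnePoint.coe_injective h]
  have e5 : ∑ a ∈ r.num.roots.toFinset, wt (a : OnePoint k) ≤
      ∑ a ∈ r.num.roots.toFinset, (r.num.roots.count a : ℤ) := by
    refine Finset.sum_le_sum fun a _ => ?_
    rw [count_roots]
    exact hmul a
  have e6 : ∑ a ∈ r.num.roots.toFinset, (r.num.roots.count a : ℤ) = (r.num.roots.card : ℤ) := by
    have h := Multiset.toFinset_sum_count_eq r.num.roots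
    rw [← h]
    push_cast
    rfl
  have e7 : (r.num.roots.card : ℤ) ≤ r.num.natDegree := by exact_mod_cast card_roots' r.num
  have h3 : wt OnePoint.infty - m ≤ ((0 : ℕ) : ℤ) - (r.num.natDegree : ℤ) := h2
  push_cast at h3
  linarith

theorem finite_poles (f : RatFunc k) : {P : OnePoint k | ordP P f < 0}.Finite := by
  classical
  have hden : f.denom ≠ 0 := RatFunc.denom_ne_zero f
  refine Set.Finite.subset (Finset.finite_toSet
    (insert OnePoint.infty (f.denom.roots.toFinset.image (fun a : k => (a : OnePoint k))))) ?_
  intro Q hQ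
  induction Q using OnePoint.rec with
  | infty => simp
  | coe a =>
    rw [Finset.mem_coe, Finset.mem_insert]
    right
    rw [Finset.mem_image]
    refine ⟨a, ?_, rfl⟩
    rw [Multiset.mem_toFinset]
    have e1 : ordP (a : OnePoint k) f < 0 := hQ
    rw [ordP_coe] at e1
    have e4 : 0 < f.denom.rootMultiplicity a := by omega
    exact (mem_roots hden).mpr ((rootMultiplicity_pos hden).mp e4)

end Pool.Agent.Helper54.HZ
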