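import Pool.Agent.Helper54.HZ.Ord
import Pool.Agent.Helper28.HA.B1

/-!
MP_143e28_ag, project HZ: orders and Moebius transformations.

`ord_lin`: for `(a, b) ≠ (0, 0)` the order of `a X + b` at `P` is `[P is its zero] - [P = ∞]` (the zero of `a X + b` is
`- b / a`, or `∞` if `a = 0`).  `ord_comp`: both sides are additive in `f`, `k` algebraically closed: `f` is a constant times
a product of factors `X - c` (`IsAlgClosed.splits`, `Splits.eq_prod_roots` or induction on the degree with
`IsAlgClosed.exists_root`), so let `f = X - c`: `f (M x) = ((α - c γ) X + (β - c δ)) / (γ X + δ)`, with the order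
`[M P = c] - [M P = ∞]` at `P` (`mact_some`, `mact_some_zero`, `mact_infty`, `mact_infty_zero` of `Helper28.HA.B1`), which is
the order of `X - c` at `M P`.
-/

set_option autoImplicit false

namespace Pool.Agent.Helper54.HZ

open Polynomial Pool.Agent.Helper28.HA

variable {k : Type*} [Field k]

private theorem Mobius_det (M : GL (Fin 2) k) : M 0 0 * M 1 1 - M 0 1 * M 1 0 ≠ 0 := by
  have h := M.det_ne_zero
  rw [Matrix.det_fin_two] at h
  exact h

private theorem Mobius_lin_ne {a b : k} (h : ¬ (a = 0 ∧ b = 0)) : (C a * X + C b : k[X]) ≠ 0 := by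
  intro h0
  apply h
  constructor
  · have := congrArg (fun p : k[X] => p.coeff 1) h0
    simpa using this
  · have := congrArg (fun p : k[X] => p.coeff 0) h0
    simpa using this

private theorem Mobius_alg_ne {f : k[X]} (hf : f ≠ 0) : algebraMap k[X] (RatFunc k) f ≠ 0 :=
  (map_ne_zero_iff _ (RatFunc.algebraMap_injective k)).2 hf

private theorem Mobius_den_ne (M : GL (Fin 2) k) : (C (M 1 0) * X + C (M 1 1) : k[X]) ≠ 0 := by
  apply Mobius_lin_ne
  rintro ⟨h1, h2⟩
  apply Mobius_det M
  rw [h1, h2]
  ring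

private theorem Mobius_trans (M : GL (Fin 2) k) : Transcendental k (mobX M) := by
  apply RatFunc.transcendental_of_ne_C
  rintro ⟨c, hc⟩
  have hd := Mobius_den_ne M
  have hd' : algebraMap k[X] (RatFunc k) (C (M 1 0) * X + C (M 1 1)) ≠ 0 := Mobius_alg_ne hd
  rw [mobX, div_eq_iff hd', ← RatFunc.algebraMap_C, ← map_mul] at hc
  have hc' := RatFunc.algebraMap_injective k hc
  have h1 := congrArg (fun p : k[X] => p.coeff 1) hc'
  have h0 := congrArg (fun p : k[X] => p.coeff 0) hc'
  simp at h1 h0
  apply Mobius_det M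
  rw [h1, h0]
  ring

theorem mobX_ne (M : GL (Fin 2) k) {f : k[X]} (hf : f ≠ 0) : aeval (mobX M) f ≠ 0 := by
  intro h
  exact hf ((transcendental_iff.1 (Mobius_trans M)) f h)

private theorem Mobius_lin_infty (a b : k) (_ : ¬ (a = 0 ∧ b = 0)) :
    ordP OnePoint.infty (algebraMap k[X] (RatFunc k) (C a * X + C b)) =
      -(open Classical in if a = 0 then 0 else 1 : ℤ) := by
  classical
  rw [ord_poly_infty]
  split_ifs with ha
  · rw [ha]
    simp
  · rw [natDegree_linear ha]
    simp

private theorem Mobius_lin_coe (a b z : k) (h : ¬ (a = 0 ∧ b = 0)) :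
    ordP (z : OnePoint k) (algebraMap k[X] (RatFunc k) (C a * X + C b)) =
      (open Classical in if a * z + b = 0 then 1 else 0 : ℤ) := by
  classical
  rw [ord_poly_coe]
  split_ifs with hz
  · have ha : a ≠ 0 := by
      rintro rfl
      apply h
      refine ⟨rfl, ?_⟩
      simpa using hz
    have e : (C a * X + C b : k[X]) = C a * (X - C z) := by
      have hb : b = -(a * z) := by linear_combination hz
      rw [hb, mul_sub, ← C_mul, C_neg]
      ring
    rw [e, rootMultiplicity_mul (by
      rw [← e]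
      exact Mobius_lin_ne h), rootMultiplicity_C, rootMultiplicity_X_sub_C_self]
    simp
  · rw [rootMultiplicity_eq_zero]
    · simp
    · simpa [IsRoot.def] using hz

private theorem Mobius_sub (M : GL (Fin 2) k) (c : k) :
    aeval (mobX M) (X - C c) =
      algebraMap k[X] (RatFunc k) (C (M 0 0 - c * M 1 0) * X + C (M 0 1 - c * M 1 1)) /
        algebraMap k[X] (RatFunc k) (C (M 1 0) * X + C (M 1 1)) := by
  have hd' : algebraMap k[X] (RatFunc k) (C (M 1 0) * X + C (M 1 1)) ≠ 0 :=
    Mobius_alg_ne (Mobius_den_ne M)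
  rw [map_sub, aeval_X, aeval_C, mobX, eq_div_iff hd', sub_mul, div_mul_cancel₀ _ hd',
    RatFunc.algebraMap_eq_C, ← RatFunc.algebraMap_C, ← map_mul, ← map_sub]
  congr 1
  simp only [C_sub, C_mul]
  ring

private theorem Mobius_num_ne (M : GL (Fin 2) k) (c : k) :
    ¬ (M 0 0 - c * M 1 0 = 0 ∧ M 0 1 - c * M 1 1 = 0) := by
  rintro ⟨h1, h2⟩
  apply Mobius_det M
  linear_combination M 1 1 * h1 - M 1 0 * h2

private theorem Mobius_den_ne' (M : GL (Fin 2) k) : ¬ (M 1 0 = 0 ∧ M 1 1 = 0) := by
  rintro ⟨h1, h2⟩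
  apply Mobius_det M
  rw [h1, h2]
  ring

private theorem Mobius_XC (c : k) : (X - C c : k[X]) = C 1 * X + C (-c) := by
  rw [C_1, C_neg]
  ring

private theorem Mobius_comp_lin (M : GL (Fin 2) k) (c : k) (P : OnePoint k) :
    ordP P (aeval (mobX M) (X - C c)) =
      ordP (mact M P) (algebraMap k[X] (RatFunc k) (X - C c)) := by
  classical
  have hn := Mobius_num_ne M c
  have hd := Mobius_den_ne' M
  have hn0 : algebraMap k[X] (RatFunc k) (C (M 0 0 - c * M 1 0) * X + C (M 0 1 - c * M 1 1)) ≠ 0 :=
    Mobius_alg_ne (Mobius_lin_ne hn)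
  have hd0 : algebraMap k[X] (RatFunc k) (C (M 1 0) * X + C (M 1 1)) ≠ 0 :=
    Mobius_alg_ne (Mobius_lin_ne hd)
  have h1 : ¬ ((1 : k) = 0 ∧ -c = 0) := fun h => one_ne_zero h.1
  rw [Mobius_sub, div_eq_mul_inv, ord_mul P hn0 (inv_ne_zero hd0), ord_inv P hd0, Mobius_XC]
  have hdet := Mobius_det M
  induction P using OnePoint.rec with
  | infty =>
    rw [Mobius_lin_infty _ _ hn, Mobius_lin_infty _ _ hd]
    by_cases h10 : M 1 0 = 0
    · rw [mact_infty_zero M h10, Mobius_lin_infty _ _ h1]
      have h00 : M 0 0 ≠ 0 := by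
        intro h00
        apply hdet
        rw [h10, h00]
        ring
      simp [h10, h00]
    · rw [mact_infty M h10, Mobius_lin_coe _ _ _ h1]
      by_cases h : M 0 0 - c * M 1 0 = 0
      · have e : (1 : k) * (M 0 0 / M 1 0) + -c = 0 := by
          field_simp
          linear_combination h
        rw [if_pos h, if_neg h10, if_pos e]
        norm_num
      · have e : ¬ (1 : k) * (M 0 0 / M 1 0) + -c = 0 := by
          intro h'
          apply h
          field_simp at h'
          linear_combination h'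
        rw [if_neg h, if_neg h10, if_neg e]
        norm_num
  | coe z =>
    rw [Mobius_lin_coe _ _ _ hn, Mobius_lin_coe _ _ _ hd]
    by_cases hz : M 1 0 * z + M 1 1 = 0
    · rw [mact_some_zero M z hz, Mobius_lin_infty _ _ h1, if_pos hz]
      have e : ¬ (M 0 0 - c * M 1 0) * z + (M 0 1 - c * M 1 1) = 0 := by
        intro h
        have h2 : M 0 0 * z + M 0 1 = 0 := by linear_combination h + c * hz
        apply hdet
        by_cases h10 : M 1 0 = 0
        · exfalso
          apply hd
          refine ⟨h10, ?_⟩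
          rw [h10] at hz
          simpa using hz
        · have h3 : M 1 0 * (M 0 0 * M 1 1 - M 0 1 * M 1 0) = 0 := by
            linear_combination M 0 0 * M 1 0 * hz - M 1 0 ^ 2 * h2
          rcases mul_eq_zero.1 h3 with h4 | h4
          · exact absurd h4 h10
          · exact h4
      rw [if_neg e]
      simp
    · rw [mact_some M z hz, Mobius_lin_coe _ _ _ h1, if_neg hz]
      by_cases h : (M 0 0 - c * M 1 0) * z + (M 0 1 - c * M 1 1) = 0
      · have e : (1 : k) * ((M 0 0 * z + M 0 1) / (M 1 0 * z + M 1 1)) + -c = 0 := by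
          rw [one_mul, ← sub_eq_add_neg, sub_eq_zero, div_eq_iff hz]
          linear_combination h
        rw [if_pos h, if_pos e]
        norm_num
      · have e : ¬ (1 : k) * ((M 0 0 * z + M 0 1) / (M 1 0 * z + M 1 1)) + -c = 0 := by
          intro h'
          apply h
          rw [one_mul, ← sub_eq_add_neg, sub_eq_zero, div_eq_iff hz] at h'
          linear_combination h'
        rw [if_neg h, if_neg e]
        norm_num

private theorem Mobius_prod_ne (s : Multiset k) : (s.map (fun a => (X - C a : k[X]))).prod ≠ 0 := by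
  rw [Ne, Multiset.prod_eq_zero_iff]
  intro h
  obtain ⟨a, _, ha⟩ := Multiset.mem_map.1 h
  exact X_sub_C_ne_zero a ha

private theorem Mobius_comp_prod (M : GL (Fin 2) k) (P : OnePoint k) (s : Multiset k) :
    ordP P (aeval (mobX M) (s.map (fun a => (X - C a : k[X]))).prod) =
      ordP (mact M P) (algebraMap k[X] (RatFunc k) (s.map (fun a => (X - C a : k[X]))).prod) := by
  induction s using Multiset.induction_on with
  | empty => simp [ord_one]
  | cons c s ih =>
    have h1 : algebraMap k[X] (RatFunc k) (X - C c) ≠ 0 := Mobius_alg_ne (X_sub_C_ne_zero c)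
    have h2 : algebraMap k[X] (RatFunc k) (s.map (fun a => (X - C a : k[X]))).prod ≠ 0 :=
      Mobius_alg_ne (Mobius_prod_ne s)
    rw [Multiset.map_cons, Multiset.prod_cons, map_mul, map_mul,
      ord_mul P (mobX_ne M (X_sub_C_ne_zero c)) (mobX_ne M (Mobius_prod_ne s)),
      ord_mul _ h1 h2, ih, Mobius_comp_lin]

theorem ord_comp [IsAlgClosed k] (M : GL (Fin 2) k) {f : k[X]} (hf : f ≠ 0) (P : OnePoint k) :
    ordP P (aeval (mobX M) f) = ordP (mact M P) (algebraMap k[X] (RatFunc k) f) := by
  have hs := (IsAlgClosed.splits f).eq_prod_roots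
  have hl : f.leadingCoeff ≠ 0 := leadingCoeff_ne_zero.2 hf
  have hC : (C f.leadingCoeff : k[X]) ≠ 0 := by
    rw [Ne, C_eq_zero]
    exact hl
  have h1 : algebraMap k[X] (RatFunc k) (C f.leadingCoeff) ≠ 0 := Mobius_alg_ne hC
  have h2 : algebraMap k[X] (RatFunc k) (f.roots.map (fun a => (X - C a : k[X]))).prod ≠ 0 :=
    Mobius_alg_ne (Mobius_prod_ne _)
  have e : aeval (mobX M) (C f.leadingCoeff) = algebraMap k[X] (RatFunc k) (C f.leadingCoeff) := by
    rw [aeval_C, RatFunc.algebraMap_eq_C, RatFunc.algebraMap_C]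
  rw [hs, map_mul, map_mul, ord_mul P (mobX_ne M hC) (mobX_ne M (Mobius_prod_ne _)),
    ord_mul _ h1 h2, Mobius_comp_prod, e, ord_const, ord_const]

end Pool.Agent.Helper54.HZ
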