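import Pool.Agent.Helper54.HZ.ASFix
import Pool.Agent.Helper54.HZ.ASCount
import Pool.Agent.Helper54.HZ.Mobius

/-!
MP_143e28_ag, project HZ, part 2 (characteristic 3): automorphisms and pole orders.

Let `f' = aeval (mobX M) f.num / aeval (mobX M) f.denom` (`f` composed with `M`); `ord_comp`: `ordP P f' = ordP (mact M P) f`
(`f ≠ 0` as it has a pole).  `as_key`: `f' = e f + (c ^ 3 - c)`, `e = ± 1`.
`as_ord`: `P` a pole of `f`, `a = ordP P c`.  If `c` has no pole at `P` then neither has `c ^ 3 - c` and `ordP P f' = ordP P f`.  If `c` has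
a pole, `ordP P (c ^ 3 - c) = 3 a`; `3 a < ordP P f` would give `ordP P f' = 3 a < 0`, divisible by 3, against `poles` at `M P`;
`3 a = ordP P f` is excluded by `poles`; so `ordP P f < 3 a` and `ordP P f' = ordP P f`.  In all cases
`ordP P (c ^ 3 - c) > ordP P f` or `c ^ 3 = c`.
(`as_tame` is in `ASTame.lean`.)
-/

set_option autoImplicit false

namespace Pool.Agent.Helper54.HZ

open Polynomial Pool.Agent.Helper28.HA Pool.Agent.Helper54.HY

variable {k F : Type*} [Field k] [Field F] [Algebra k F]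

/-- `M` preserves `f` up to sign and an Artin-Schreier coboundary -/
def ASInv (M : GL (Fin 2) k) (f : RatFunc k) : Prop :=
  ∃ e c : RatFunc k, (e = 1 ∨ e = -1) ∧
    aeval (mobX M) f.num / aeval (mobX M) f.denom = e * f + (c ^ 3 - c)

private theorem ASAct_neg_one (P : OnePoint k) : ordP P (-1 : RatFunc k) = 0 := by
  have h := ord_const P (-1 : k)
  rwa [C_neg, C_1, map_neg, map_one] at h

private theorem ASAct_neg (P : OnePoint k) {r : RatFunc k} (hr : r ≠ 0) : ordP P (-r) = ordP P r := by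
  rw [show -r = (-1) * r by ring, ord_mul P (neg_ne_zero.2 one_ne_zero) hr, ASAct_neg_one, zero_add]

/-- the strict triangle inequality -/
theorem ASAct_add (P : OnePoint k) {r s : RatFunc k} (hr : r ≠ 0) (hs : s ≠ 0) (h : ordP P r < ordP P s) :
    r + s ≠ 0 ∧ ordP P (r + s) = ordP P r := by
  have h0 : r + s ≠ 0 := by
    intro h1
    have h2 : r = -s := eq_neg_of_add_eq_zero_left h1
    rw [h2, ASAct_neg P hs] at h
    exact lt_irrefl _ h
  refine ⟨h0, le_antisymm ?_ ?_⟩
  · have h1 := ord_add P h0 (neg_ne_zero.2 hs) (by rw [add_neg_cancel_right]; exact hr)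
    rw [add_neg_cancel_right, ASAct_neg P hs] at h1
    rcases min_le_iff.1 h1 with h2 | h2
    · exact h2
    · exact absurd h (not_lt.2 h2)
  · have h1 := ord_add P hr hs h0
    rcases min_le_iff.1 h1 with h2 | h2
    · exact h2
    · exact h.le.trans h2

theorem ASAct_zero (P : OnePoint k) : ordP P (0 : RatFunc k) = 0 := by
  rw [Ord_ordP, RatFunc.num_zero, RatFunc.denom_zero, Ord_v_one, sub_zero]
  have h := Ord_v_C P (0 : k)
  rwa [C_0] at h

theorem ASAct_comp [IsAlgClosed k] (M : GL (Fin 2) k) {f : RatFunc k} (hf : f ≠ 0) (P : OnePoint k) :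
    ordP P (aeval (mobX M) f.num / aeval (mobX M) f.denom) = ordP (mact M P) f := by
  have hn : f.num ≠ 0 := RatFunc.num_ne_zero hf
  have hd : f.denom ≠ 0 := RatFunc.denom_ne_zero f
  have hn' : algebraMap k[X] (RatFunc k) f.num ≠ 0 := RatFunc.algebraMap_ne_zero hn
  have hd' : algebraMap k[X] (RatFunc k) f.denom ≠ 0 := RatFunc.algebraMap_ne_zero hd
  rw [div_eq_mul_inv, ord_mul P (mobX_ne M hn) (inv_ne_zero (mobX_ne M hd)), ord_inv P (mobX_ne M hd),
    ord_comp M hn, ord_comp M hd]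
  conv_rhs => rw [← RatFunc.num_div_denom f]
  rw [div_eq_mul_inv, ord_mul _ hn' (inv_ne_zero hd'), ord_inv _ hd']

/-- the order of `c ^ 3 - c` -/
theorem ASAct_cube (P : OnePoint k) {c : RatFunc k} (hc : c ≠ 0) :
    (ordP P c < 0 → c ^ 3 - c ≠ 0 ∧ ordP P (c ^ 3 - c) = 3 * ordP P c) ∧
      (0 ≤ ordP P c → c ^ 3 - c ≠ 0 → 0 ≤ ordP P (c ^ 3 - c)) := by
  have h3 : ordP P (c ^ 3) = 3 * ordP P c := by
    rw [ord_pow P hc]
    norm_num
  constructor
  · intro h
    have h1 := ASAct_add P (pow_ne_zero 3 hc) (neg_ne_zero.2 hc) (by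
      rw [h3, ASAct_neg P hc]
      linarith)
    rw [← sub_eq_add_neg, h3] at h1
    exact h1
  · intro h hne
    rw [sub_eq_add_neg] at hne ⊢
    have h1 := ord_add P (pow_ne_zero 3 hc) (neg_ne_zero.2 hc) hne
    rw [h3, ASAct_neg P hc] at h1
    refine le_trans (le_min (by linarith) h) h1

theorem as_inv [CharP k 3] {g : ℕ} {x y : F} {f : RatFunc k} (h : PresAS k F 3 g x y f)
    (hmem : ∀ s : F ≃ₐ[k] F, s x ∈ IntermediateField.adjoin k {x}) (s : F ≃ₐ[k] F) (M : GL (Fin 2) k)
    (hM : s x * (algebraMap k F (M 1 0) * x + algebraMap k F (M 1 1)) =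
        algebraMap k F (M 0 0) * x + algebraMap k F (M 0 1)) : ASInv M f := by
  obtain ⟨R', hR'⟩ := (mem_rat h.trans).1 (hmem s.symm)
  have hlin : ∀ a b : k, aeval x (C a * X + C b : k[X]) = algebraMap k F a * x + algebraMap k F b := by
    intro a b
    simp
  have hdet : M 0 0 * M 1 1 - M 0 1 * M 1 0 ≠ 0 := by
    have h1 := M.det_ne_zero
    rw [Matrix.det_fin_two] at h1
    exact h1
  have hne : (C (M 1 0) * X + C (M 1 1) : k[X]) ≠ 0 := by
    intro h0
    have h1 : M 1 0 = 0 := by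
      have := congrArg (fun p : k[X] => p.coeff 1) h0
      simpa using this
    have h2 : M 1 1 = 0 := by
      have := congrArg (fun p : k[X] => p.coeff 0) h0
      simpa using this
    apply hdet
    rw [h1, h2]
    ring
  have hne' : aeval x (C (M 1 0) * X + C (M 1 1) : k[X]) ≠ 0 := fun h0 =>
    hne ((transcendental_iff.1 h.trans) _ h0)
  have hR : s x = rat h.trans (mobX M) := by
    rw [mobX, map_div₀, rat_poly, rat_poly, eq_div_iff hne', hlin, hlin]
    exact hM
  exact as_key h s hR hR'.symm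

theorem as_ord [IsAlgClosed k] [CharP k 3] {f : RatFunc k}
    (hf : ∀ P : OnePoint k, ordP P f < 0 → ¬ (3 : ℤ) ∣ ordP P f) {M : GL (Fin 2) k} (hM : ASInv M f)
    {P : OnePoint k} (hP : ordP P f < 0) : ordP (mact M P) f = ordP P f := by
  have hf0 : f ≠ 0 := by
    rintro rfl
    rw [ASAct_zero] at hP
    exact lt_irrefl _ hP
  obtain ⟨e, c, he, hc⟩ := hM
  rw [← ASAct_comp M hf0 P, hc]
  have hef0 : e * f ≠ 0 := by
    rcases he with rfl | rfl
    · rwa [one_mul]
    · rw [neg_one_mul]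
      exact neg_ne_zero.2 hf0
  have hef : ordP P (e * f) = ordP P f := by
    rcases he with rfl | rfl
    · rw [one_mul]
    · rw [neg_one_mul, ASAct_neg P hf0]
  by_cases hc0 : c ^ 3 - c = 0
  · rw [hc0, add_zero, hef]
  have hcne : c ≠ 0 := by
    rintro rfl
    exact hc0 (by ring)
  obtain ⟨h1, h2⟩ := ASAct_cube P hcne
  rcases lt_or_ge (ordP P c) 0 with ha | ha
  · obtain ⟨-, h3⟩ := h1 ha
    rcases lt_trichotomy (ordP P f) (ordP P (c ^ 3 - c)) with h4 | h4 | h4
    · rw [(ASAct_add P hef0 hc0 (by rw [hef]; exact h4)).2, hef]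
    · exact absurd (by rw [h4, h3]; exact dvd_mul_right _ _) (hf P hP)
    · exfalso
      have h5 := (ASAct_add P hc0 hef0 (by rw [hef]; exact h4)).2
      rw [add_comm, ← hc, ASAct_comp M hf0 P] at h5
      refine hf (mact M P) (by rw [h5]; exact h4.trans hP) ?_
      rw [h5, h3]
      exact dvd_mul_right _ _
  · have h3 := h2 ha hc0
    rw [(ASAct_add P hef0 hc0 (by rw [hef]; exact hP.trans_le h3)).2, hef]

end Pool.Agent.Helper54.HZ
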