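import Pool.Agent.Helper54.HZ.Fix
import Pool.Agent.Helper54.HZ.Val
import Pool.Agent.Helper54.HZ.Mobius

/-!
MP_143e28_ag, project HZ: automorphisms preserve the branch points.

`s x = M (x) = rat (mobX M)` (the denominator is not zero: `x` is transcendental, the second row of `M` is not zero), and
`s.symm x ∈ k(x)` by `hmem` and `mem_rat`.  `key`: `aeval (mobX M) f = c ^ n * f ^ j`, `0 < j < n`.  Orders at `P` (`ord_comp`,
`ord_mul`, `ord_pow`): `ord_(M P) f = n * ord_P c + j * ord_P f`; `n` is prime and `j` prime to `n`, so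
`n ∣ ord_(M P) f ↔ n ∣ ord_P f`; `mem_BrN`.
-/

set_option autoImplicit false

namespace Pool.Agent.Helper54.HZ

open Polynomial Pool.Agent.Helper28.HA Pool.Agent.Helper54.HY

variable {k F : Type*} [Field k] [Field F] [Algebra k F]

/-- `n ∣ n a + j b ↔ n ∣ b` for `n` prime, `0 < j < n` -/
theorem Branch_dvd {n j : ℕ} (hn : n.Prime) (hj0 : 0 < j) (hj : j < n) (a b : ℤ) :
    (n : ℤ) ∣ n * a + j * b ↔ (n : ℤ) ∣ b := by
  have hc : IsCoprime (n : ℤ) (j : ℤ) := by
    rw [Nat.isCoprime_iff_coprime]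
    exact Nat.coprime_of_lt_prime hj0.ne' hj hn
  constructor
  · intro h
    have h1 : (n : ℤ) ∣ j * b := (Int.dvd_add_right (Dvd.intro _ rfl)).1 h
    exact hc.dvd_of_dvd_mul_left h1
  · intro h
    exact (Int.dvd_add_right (Dvd.intro _ rfl)).2 (h.mul_left _)

/-- the image of `x` is the value of the Moebius function -/
theorem Branch_mob {x : F} (hx : Transcendental k x) (M : GL (Fin 2) k) (z : F)
    (hM : z * (algebraMap k F (M 1 0) * x + algebraMap k F (M 1 1)) =
        algebraMap k F (M 0 0) * x + algebraMap k F (M 0 1)) : z = rat hx (mobX M) := by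
  have h1 : ∀ a b : k, rat hx (algebraMap k[X] (RatFunc k) (C a * X + C b)) =
      algebraMap k F a * x + algebraMap k F b := by
    intro a b
    rw [rat_poly]
    simp
  have hdet : M.val.det ≠ 0 := by
    have h2 := M.det.ne_zero
    rwa [Matrix.GeneralLinearGroup.val_det_apply] at h2
  have h0 : (C (M 1 0) * X + C (M 1 1) : k[X]) ≠ 0 := by
    intro h
    have h3 : M 1 0 = 0 := by
      have := congrArg (fun p => coeff p 1) h
      simpa using this
    have h4 : M 1 1 = 0 := by
      have := congrArg (fun p => coeff p 0) h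
      simpa using this
    apply hdet
    rw [Matrix.det_fin_two]
    have h3' : M.val 1 0 = 0 := h3
    have h4' : M.val 1 1 = 0 := h4
    rw [h3', h4']
    ring
  have h2 : algebraMap k F (M 1 0) * x + algebraMap k F (M 1 1) ≠ 0 := by
    rw [← h1]
    intro h
    have h3 := rat_injective hx (h.trans (map_zero _).symm)
    exact RatFunc.algebraMap_ne_zero h0 h3
  rw [mobX, map_div₀, h1, h1, eq_div_iff h2]
  exact hM

theorem auto_branchN [IsAlgClosed k] {n g : ℕ} (hg : 0 < g) {x y : F} {f : k[X]} (h : PresN k F n g x y f)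
    (hmem : ∀ s : F ≃ₐ[k] F, s x ∈ IntermediateField.adjoin k {x}) (s : F ≃ₐ[k] F) (M : GL (Fin 2) k)
    (hM : s x * (algebraMap k F (M 1 0) * x + algebraMap k F (M 1 1)) =
        algebraMap k F (M 0 0) * x + algebraMap k F (M 0 1)) (P : OnePoint k) :
    mact M P ∈ BrN n f ↔ P ∈ BrN n f := by
  have hR := Branch_mob h.trans M (s x) hM
  obtain ⟨R', hR'⟩ := (mem_rat h.trans).1 (hmem s.symm)
  obtain ⟨j, c, hj0, hj, hc, hk⟩ := key hg h s hR hR'.symm
  have hf : algebraMap k[X] (RatFunc k) f ≠ 0 := RatFunc.algebraMap_ne_zero h.ne0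
  have h1 : ordP (mact M P) (algebraMap k[X] (RatFunc k) f) =
      n * ordP P c + j * ordP P (algebraMap k[X] (RatFunc k) f) := by
    rw [← ord_comp M h.ne0 P, hk, ord_mul P (pow_ne_zero n hc) (pow_ne_zero j hf), ord_pow P hc,
      ord_pow P hf]
  rw [mem_BrN h.prime.one_lt h.ne0 h.mult, mem_BrN h.prime.one_lt h.ne0 h.mult, h1,
    Branch_dvd h.prime hj0 hj]

end Pool.Agent.Helper54.HZ
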