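import Pool.Agent.Helper54.HZ.TDefs
import Pool.Agent.Helper54.HZ.Fix
import Pool.Agent.Helper54.HZ.Branch
import Pool.Agent.Helper54.HZ.ASAct

/-!
MP_143e28_ag, project HZ, part 3 (trigonal curves): automorphisms preserve the number of places above a point.

`s x = M (x) = rat (mobX M)` (`Branch_mob` in `Branch.lean`), so `s (rat r) = rat (r ∘ M)` (`Fix_val` in `Fix.lean`).  `ord_comp` for a rational
function `r ≠ 0`: `ordP P (r ∘ M) = ordP (mact M P) r` (`ASAct_comp` in `ASAct.lean`, or from `ord_comp` for `num` and `denom`).  So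
`V ↦ V.comap s` (`ValuationSubring.comap`) is a bijection from `Above hx P` to `Above hx (mact M P)` (inverse: `comap` of `s.symm`):
`encard` is preserved (`Set.encard_congr` / `Function.Injective.encard_image`).
-/

set_option autoImplicit false

namespace Pool.Agent.Helper54.HZ

open Polynomial Pool.Agent.Helper28.HA Pool.Agent.Helper54.HY

variable {k F : Type*} [Field k] [Field F] [Algebra k F]

private theorem TInv_val {x : F} (hx : Transcendental k x) (s : F ≃ₐ[k] F) {R : RatFunc k}
    (hR : s x = rat hx R) (r : RatFunc k) :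
    s (rat hx r) = rat hx (aeval R r.num / aeval R r.denom) := by
  conv_lhs => rw [← RatFunc.num_div_denom r]
  rw [map_div₀, map_div₀, map_div₀, rat_poly, rat_poly, ← aeval_algHom_apply s,
    ← aeval_algHom_apply s, hR, aeval_algHom_apply, aeval_algHom_apply]

private theorem TInv_maps [IsAlgClosed k] {x : F} (hx : Transcendental k x) (s : F ≃ₐ[k] F)
    (M : GL (Fin 2) k)
    (hM : s x * (algebraMap k F (M 1 0) * x + algebraMap k F (M 1 1)) =
        algebraMap k F (M 0 0) * x + algebraMap k F (M 0 1)) (P : OnePoint k)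
    (V : ValuationSubring F) (hV : V ∈ Above hx P) :
    V.comap (s : F →+* F) ∈ Above hx (mact M P) := by
  have hR := Branch_mob hx M (s x) hM
  intro r
  have h1 : rat hx r ∈ V.comap (s : F →+* F) ↔ s (rat hx r) ∈ V := Iff.rfl
  rw [h1, TInv_val hx s hR r, hV]
  by_cases hr : r = 0
  · subst hr
    simp
  · have hn : r.num ≠ 0 := RatFunc.num_ne_zero hr
    have hd : r.denom ≠ 0 := RatFunc.denom_ne_zero r
    rw [ASAct_comp M hr P]
    have h2 : aeval (mobX M) r.num / aeval (mobX M) r.denom ≠ 0 :=
      div_ne_zero (mobX_ne M hn) (mobX_ne M hd)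
    simp [hr, h2]

private theorem TInv_le [IsAlgClosed k] {x : F} (hx : Transcendental k x) (s : F ≃ₐ[k] F)
    (M : GL (Fin 2) k)
    (hM : s x * (algebraMap k F (M 1 0) * x + algebraMap k F (M 1 1)) =
        algebraMap k F (M 0 0) * x + algebraMap k F (M 0 1)) (P : OnePoint k) :
    (Above hx P).encard ≤ (Above hx (mact M P)).encard := by
  have hinj : Function.Injective fun V : ValuationSubring F => V.comap (s : F →+* F) := by
    intro V W h
    ext z
    have h1 : s.symm z ∈ V.comap (s : F →+* F) ↔ s.symm z ∈ W.comap (s : F →+* F) := by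
      have h' : V.comap (s : F →+* F) = W.comap (s : F →+* F) := h
      rw [h']
    have h2 : s (s.symm z) ∈ V ↔ s (s.symm z) ∈ W := h1
    rwa [AlgEquiv.apply_symm_apply] at h2
  rw [← hinj.encard_image]
  apply Set.encard_le_encard
  rintro _ ⟨V, hV, rfl⟩
  exact TInv_maps hx s M hM P V hV

private theorem TInv_symm {x : F} (hx : Transcendental k x) (s : F ≃ₐ[k] F) (M : GL (Fin 2) k)
    (hM : s x * (algebraMap k F (M 1 0) * x + algebraMap k F (M 1 1)) =
        algebraMap k F (M 0 0) * x + algebraMap k F (M 0 1)) :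
    s.symm x * (algebraMap k F ((M⁻¹) 1 0) * x + algebraMap k F ((M⁻¹) 1 1)) =
        algebraMap k F ((M⁻¹) 0 0) * x + algebraMap k F ((M⁻¹) 0 1) := by
  have hN : ((M⁻¹ * M : GL (Fin 2) k) : Matrix (Fin 2) (Fin 2) k) = 1 := by
    rw [inv_mul_cancel, Matrix.GeneralLinearGroup.coe_one]
  generalize M⁻¹ = N at hN ⊢
  rw [Matrix.GeneralLinearGroup.coe_mul] at hN
  have e00 := congrFun (congrFun hN 0) 0
  have e01 := congrFun (congrFun hN 0) 1
  have e10 := congrFun (congrFun hN 1) 0
  have e11 := congrFun (congrFun hN 1) 1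
  simp only [Matrix.mul_apply, Fin.sum_univ_two, Matrix.one_apply, Fin.isValue, if_true] at e00 e01 e10 e11
  rw [if_neg (by decide)] at e01 e10
  have f00 := congrArg (algebraMap k F) e00
  have f01 := congrArg (algebraMap k F) e01
  have f10 := congrArg (algebraMap k F) e10
  have f11 := congrArg (algebraMap k F) e11
  simp only [map_add, map_mul, map_one, map_zero] at f00 f01 f10 f11
  have hx1 := congrArg s.symm hM
  simp only [map_mul, map_add, AlgEquiv.symm_apply_apply, AlgEquiv.commutes] at hx1
  have hne : algebraMap k F (M 1 0) * x + algebraMap k F (M 1 1) ≠ 0 := by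
    intro h
    have h1 : aeval x (C (M 1 0) * X + C (M 1 1) : k[X]) = 0 := by simpa using h
    have h2 := (transcendental_iff.1 hx) _ h1
    have h3 : M 1 0 = 0 := by
      have := congrArg (fun p : k[X] => p.coeff 1) h2
      simpa using this
    have h4 : M 1 1 = 0 := by
      have := congrArg (fun p : k[X] => p.coeff 0) h2
      simpa using this
    have hdet := M.det_ne_zero
    rw [Matrix.det_fin_two] at hdet
    apply hdet
    have h3' : (M : Matrix (Fin 2) (Fin 2) k) 1 0 = 0 := h3
    have h4' : (M : Matrix (Fin 2) (Fin 2) k) 1 1 = 0 := h4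
    rw [h3', h4']
    ring
  have hne' : algebraMap k F (M 1 0) * s.symm x + algebraMap k F (M 1 1) ≠ 0 := by
    intro h
    apply hne
    have h1 := congrArg s h
    simpa using h1
  apply mul_right_cancel₀ hne'
  linear_combination (s.symm x * algebraMap k F (N 1 0) - algebraMap k F (N 0 0)) * hx1 +
    (s.symm x) ^ 2 * f10 + s.symm x * f11 - s.symm x * f00 - f01

theorem t_inv [IsAlgClosed k] {x : F} (hx : Transcendental k x) (s : F ≃ₐ[k] F) (M : GL (Fin 2) k)
    (hM : s x * (algebraMap k F (M 1 0) * x + algebraMap k F (M 1 1)) =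
        algebraMap k F (M 0 0) * x + algebraMap k F (M 0 1)) (P : OnePoint k) :
    ramT hx (mact M P) = ramT hx P := by
  have h1 := TInv_le hx s M hM P
  have h2 := TInv_le hx s.symm M⁻¹ (TInv_symm hx s M hM) (mact M P)
  have h3 : mact M⁻¹ (mact M P) = P := by
    rw [map_inv]
    exact (mact M).symm_apply_apply P
  rw [h3] at h2
  have h4 := le_antisymm h2 h1
  unfold ramT
  rw [h4]

end Pool.Agent.Helper54.HZ
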