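import Pool.Agent.Helper54.HZ.Branch
import Pool.Agent.Helper54.HZ.Mob
import Pool.Agent.Helper28.HA.A4

/-!
MP_143e28_ag, project HZ: the group of Moebius transformations of a cyclic cover.

Adapt the proof of `auto_group` in `Helper28.HA.A4` (copy its private lemmas): `auto_mob`, `auto_branchN` of this folder; over
every element of `G` there are at most `n` automorphisms: `s x = s' x` gives `(s y) ^ n = f (s x) = (s' y) ^ n`, so
`s y = w * s' y` with `w ∈ nthRoots n 1`, at most `n` values (`card_nthRoots`; or `{u | u ^ n = t}` has at most `n` elements),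
and an automorphism is determined by the images of `x` and `y`.
-/

set_option autoImplicit false

namespace Pool.Agent.Helper54.HZ

open Polynomial OnePoint Pool.Agent.Helper28.HA

variable {k F : Type*} [Field k] [Field F] [Algebra k F]

/-- `s x = M (x)` -/
private def Grp_rel (x : F) (s : F ≃ₐ[k] F) (M : GL (Fin 2) k) : Prop :=
  s x * (algebraMap k F (M 1 0) * x + algebraMap k F (M 1 1)) =
    algebraMap k F (M 0 0) * x + algebraMap k F (M 0 1)

private theorem Grp_lin_ne {x : F} (hx : Transcendental k x) (M : GL (Fin 2) k) :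
    algebraMap k F (M 1 0) * x + algebraMap k F (M 1 1) ≠ 0 := by
  intro h0
  have hp : (C (M 1 0) * X + C (M 1 1) : k[X]) = 0 := by
    by_contra hne
    exact hx ⟨C (M 1 0) * X + C (M 1 1), hne, by simpa using h0⟩
  have h1 : M 1 0 = 0 := by
    have := congrArg (fun q : k[X] => q.coeff 1) hp
    simpa [coeff_C] using this
  have h2 : M 1 1 = 0 := by
    have := congrArg (fun q : k[X] => q.coeff 0) hp
    simpa [coeff_C] using this
  have hd := M.det_ne_zero
  rw [Matrix.det_fin_two, h1, h2] at hd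
  simp at hd

private theorem Grp_one (x : F) : Grp_rel x (1 : F ≃ₐ[k] F) 1 := by
  simp [Grp_rel]

private theorem Grp_mul {x : F} {s t : F ≃ₐ[k] F} {M N : GL (Fin 2) k} (hx : Transcendental k x)
    (hs : Grp_rel x s M) (ht : Grp_rel x t N) : Grp_rel x (t * s) (M * N) := by
  unfold Grp_rel at *
  have h1 := congrArg t hs
  simp only [map_mul, map_add, AlgEquiv.commutes] at h1
  have hD := Grp_lin_ne hx N
  have e : (t * s) x = t (s x) := rfl
  rw [e]
  have hm : ∀ i j, (M * N) i j = M i 0 * N 0 j + M i 1 * N 1 j := by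
    intro i j
    rw [Units.val_mul, Matrix.mul_apply, Fin.sum_univ_two]
  simp only [hm, map_add, map_mul]
  linear_combination (algebraMap k F (N 1 0) * x + algebraMap k F (N 1 1)) * h1 +
    (algebraMap k F (M 0 0) - t (s x) * algebraMap k F (M 1 0)) * ht

private theorem Grp_inv {x : F} {s : F ≃ₐ[k] F} {M : GL (Fin 2) k}
    (hs : Grp_rel x s M) : Grp_rel x s⁻¹ M⁻¹ := by
  unfold Grp_rel at *
  have h1 := congrArg (s⁻¹ : F ≃ₐ[k] F) hs
  have e : (s⁻¹ : F ≃ₐ[k] F) (s x) = x := s.symm_apply_apply x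
  simp only [map_mul, map_add, AlgEquiv.commutes, e] at h1
  have hd : (M : Matrix (Fin 2) (Fin 2) k).det ≠ 0 := M.det_ne_zero
  have hi : ((M⁻¹ : GL (Fin 2) k) : Matrix (Fin 2) (Fin 2) k) =
      (M : Matrix (Fin 2) (Fin 2) k).det⁻¹ • !![M 1 1, -M 0 1; -M 1 0, M 0 0] := by
    rw [Matrix.coe_units_inv, Matrix.inv_def, Matrix.adjugate_fin_two, Ring.inverse_eq_inv']
  have i00 : (M⁻¹ : GL (Fin 2) k) 0 0 = (M : Matrix (Fin 2) (Fin 2) k).det⁻¹ * M 1 1 := by
    rw [hi]; simp
  have i01 : (M⁻¹ : GL (Fin 2) k) 0 1 = (M : Matrix (Fin 2) (Fin 2) k).det⁻¹ * (-M 0 1) := by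
    rw [hi]; simp
  have i10 : (M⁻¹ : GL (Fin 2) k) 1 0 = (M : Matrix (Fin 2) (Fin 2) k).det⁻¹ * (-M 1 0) := by
    rw [hi]; simp
  have i11 : (M⁻¹ : GL (Fin 2) k) 1 1 = (M : Matrix (Fin 2) (Fin 2) k).det⁻¹ * M 0 0 := by
    rw [hi]; simp
  rw [i00, i01, i10, i11]
  simp only [map_mul, map_neg]
  linear_combination (-algebraMap k F ((M : Matrix (Fin 2) (Fin 2) k).det⁻¹)) * h1

private theorem Grp_eq [Infinite k] {x : F} (hx : Transcendental k x) {s s' : F ≃ₐ[k] F}
    {M M' : GL (Fin 2) k} (hs : Grp_rel x s M) (hs' : Grp_rel x s' M') (hm : mact M = mact M') :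
    s x = s' x := by
  have key : ∀ a : k, (M 0 0 * a + M 0 1) * (M' 1 0 * a + M' 1 1) =
      (M' 0 0 * a + M' 0 1) * (M 1 0 * a + M 1 1) := by
    intro a
    have ha : mact M (a : OnePoint k) = mact M' (a : OnePoint k) := by rw [hm]
    by_cases h1 : M 1 0 * a + M 1 1 = 0
    · by_cases h2 : M' 1 0 * a + M' 1 1 = 0
      · rw [h1, h2]; ring
      · rw [mact_some_zero M a h1, mact_some M' a h2] at ha
        exact absurd ha (OnePoint.infty_ne_coe _)
    · by_cases h2 : M' 1 0 * a + M' 1 1 = 0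
      · rw [mact_some M a h1, mact_some_zero M' a h2] at ha
        exact absurd ha (OnePoint.coe_ne_infty _)
      · rw [mact_some M a h1, mact_some M' a h2, OnePoint.coe_eq_coe, div_eq_div_iff h1 h2] at ha
        exact ha
  have hp : ((C (M 0 0) * X + C (M 0 1)) * (C (M' 1 0) * X + C (M' 1 1)) -
      (C (M' 0 0) * X + C (M' 0 1)) * (C (M 1 0) * X + C (M 1 1)) : k[X]) = 0 := by
    apply Polynomial.funext
    intro a
    simp only [eval_sub, eval_mul, eval_add, eval_C, eval_X, eval_zero]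
    rw [key a, sub_self]
  have hq := congrArg (aeval x) hp
  simp only [map_sub, map_mul, map_add, aeval_C, aeval_X, map_zero] at hq
  have d1 := Grp_lin_ne hx M
  have d2 := Grp_lin_ne hx M'
  unfold Grp_rel at hs hs'
  have : (s x - s' x) * ((algebraMap k F (M 1 0) * x + algebraMap k F (M 1 1)) *
      (algebraMap k F (M' 1 0) * x + algebraMap k F (M' 1 1))) = 0 := by
    linear_combination (algebraMap k F (M' 1 0) * x + algebraMap k F (M' 1 1)) * hs -
      (algebraMap k F (M 1 0) * x + algebraMap k F (M 1 1)) * hs' + hq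
  rcases mul_eq_zero.mp this with h | h
  · exact sub_eq_zero.mp h
  · exact absurd h (mul_ne_zero d1 d2)

private theorem Grp_ext {n g : ℕ} {x y : F} {f : k[X]} (h : PresN k F n g x y f) {s s' : F ≃ₐ[k] F}
    (h1 : s x = s' x) (h2 : s y = s' y) : s = s' := by
  ext z
  have hz : z ∈ IntermediateField.adjoin k ({x, y} : Set F) := by rw [h.gen]; trivial
  induction hz using IntermediateField.adjoin_induction with
  | mem u hu =>
    rcases hu with rfl | hu
    · exact h1
    · rw [Set.mem_singleton_iff] at hu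
      rw [hu]; exact h2
  | algebraMap u => simp
  | add u v _ _ hu hv => rw [map_add, map_add, hu, hv]
  | inv u _ hu => rw [map_inv₀, map_inv₀, hu]
  | mul u v _ _ hu hv => rw [map_mul, map_mul, hu, hv]

private theorem Grp_pow {n g : ℕ} {x y : F} {f : k[X]} (h : PresN k F n g x y f)
    {s s' : F ≃ₐ[k] F} (h1 : s x = s' x) : (s y) ^ n = (s' y) ^ n := by
  rw [← map_pow, ← map_pow, h.eqn]
  have a1 : s (aeval x f) = aeval (s x) f := by
    simpa using (Polynomial.aeval_algHom_apply (s : F →ₐ[k] F) x f).symm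
  have a2 : s' (aeval x f) = aeval (s' x) f := by
    simpa using (Polynomial.aeval_algHom_apply (s' : F →ₐ[k] F) x f).symm
  rw [a1, a2, h1]

private theorem Grp_y_ne {n g : ℕ} {x y : F} {f : k[X]} (h : PresN k F n g x y f) : y ≠ 0 := by
  rintro rfl
  have h1 := h.eqn
  rw [zero_pow h.prime.ne_zero] at h1
  exact h.trans ⟨f, h.ne0, h1.symm⟩

theorem auto_groupN [IsAlgClosed k] {n g : ℕ} (hg : 0 < g) {x y : F} {f : k[X]} (h : PresN k F n g x y f)
    (hmem : ∀ s : F ≃ₐ[k] F, s x ∈ IntermediateField.adjoin k {x}) :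
    ∃ G : Subgroup (Equiv.Perm (OnePoint k)), MobGroup G ∧
      (∀ s ∈ G, ∀ P ∈ BrN n f, s P ∈ BrN n f) ∧
      (Finite G → Finite (F ≃ₐ[k] F) ∧ Nat.card (F ≃ₐ[k] F) ≤ n * Nat.card G) := by
  have : Infinite k := IsAlgClosed.instInfinite
  let G : Subgroup (Equiv.Perm (OnePoint k)) :=
    { carrier := {p | ∃ (s : F ≃ₐ[k] F) (M : GL (Fin 2) k), Grp_rel x s M ∧ p = mact M}
      mul_mem' := by
        rintro _ _ ⟨s, M, hs, rfl⟩ ⟨t, N, ht, rfl⟩
        exact ⟨t * s, M * N, Grp_mul h.trans hs ht, by rw [map_mul]⟩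
      one_mem' := ⟨1, 1, Grp_one x, by rw [map_one]⟩
      inv_mem' := by
        rintro _ ⟨s, M, hs, rfl⟩
        exact ⟨s⁻¹, M⁻¹, Grp_inv hs, by rw [map_inv]⟩ }
  refine ⟨G, ?_, ?_, ?_⟩
  · rintro _ ⟨s, M, hs, rfl⟩
    exact ⟨M, rfl⟩
  · rintro _ ⟨s, M, hs, rfl⟩ P hP
    exact (auto_branchN hg h hmem s M hs P).mpr hP
  · intro hfin
    classical
    have hM : ∀ s : F ≃ₐ[k] F, ∃ M : GL (Fin 2) k, Grp_rel x s M := by
      intro s
      obtain ⟨M, _, hM⟩ := Pool.Agent.Helper54.HZ.auto_mob h.trans hmem s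
      exact ⟨M, hM⟩
    choose M hM using hM
    let φ : (F ≃ₐ[k] F) → G := fun s => ⟨mact (M s), s, M s, hM s, rfl⟩
    have hφ : ∀ s s', φ s = φ s' → s x = s' x := by
      intro s s' hss
      exact Grp_eq h.trans (hM s) (hM s') (congrArg Subtype.val hss)
    let rep : G → F := fun p => if hp : ∃ s, φ s = p then (hp.choose : F ≃ₐ[k] F) y else 0
    have hrep : ∀ s, rep (φ s) ≠ 0 ∧ (s y / rep (φ s)) ^ n = 1 := by
      intro s
      have hex : ∃ t, φ t = φ s := ⟨s, rfl⟩
      have h3 : rep (φ s) = (hex.choose : F ≃ₐ[k] F) y := by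
        simp only [rep, dif_pos hex]
      have h4 : (hex.choose : F ≃ₐ[k] F) y ≠ 0 := by
        intro h5
        exact Grp_y_ne h (by simpa using h5)
      rw [h3]
      refine ⟨h4, ?_⟩
      rw [div_pow, Grp_pow h (hφ _ _ hex.choose_spec.symm), div_self (pow_ne_zero _ h4)]
    let U : Finset F := Polynomial.nthRootsFinset n (1 : F)
    have hU : ∀ s, s y / rep (φ s) ∈ U := by
      intro s
      rw [Polynomial.mem_nthRootsFinset h.prime.pos]
      exact (hrep s).2
    have hUc : U.card ≤ n := by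
      have h3 : U.card ≤ Multiset.card (Polynomial.nthRoots n (1 : F)) :=
        Multiset.toFinset_card_le _
      exact h3.trans (Polynomial.card_nthRoots n (1 : F))
    let ψ : (F ≃ₐ[k] F) → U × G := fun s => (⟨s y / rep (φ s), hU s⟩, φ s)
    have hψ : Function.Injective ψ := by
      intro s s' hss
      have e2 : φ s = φ s' := congrArg Prod.snd hss
      have e1 : s y / rep (φ s) = s' y / rep (φ s') :=
        congrArg (fun z : U × G => (z.1 : F)) hss
      apply Grp_ext h (hφ _ _ e2)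
      rw [e2] at e1
      have h3 := (hrep s').1
      rwa [div_left_inj' h3] at e1
    have : Finite (U × G) := inferInstance
    refine ⟨Finite.of_injective ψ hψ, ?_⟩
    have h3 := Nat.card_le_card_of_injective ψ hψ
    rw [Nat.card_prod] at h3
    have h4 : Nat.card U = U.card := by simp
    rw [h4] at h3
    exact h3.trans (Nat.mul_le_mul_right _ hUc)

end Pool.Agent.Helper54.HZ
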