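import Pool.Agent.Helper54.HZ.Defs

/-!
MP_143e28_ag, project HZ: cyclic covers of the line of prime degree, the definitions used in the final statement.
-/

set_option autoImplicit false

namespace Pool.Agent.Helper54.HZ

open Polynomial

/-- `(x, y, f)` presents `F` as the function field of the Artin-Schreier curve `y ^ p - y = f (x)` in characteristic `p`, all
pole orders of `f` (on the projective line) prime to `p`; its genus is `g`: `2 g = (p - 1) (∑ (m_P + 1) - 2)`, the sum over the
poles `P` of `f`, `m_P` the pole order -/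
structure PresAS (k F : Type*) [Field k] [Field F] [Algebra k F] (p g : ℕ) (x y : F) (f : RatFunc k) : Prop where
  trans : Transcendental k x
  gen : IntermediateField.adjoin k {x, y} = ⊤
  poles : ∀ P : OnePoint k, ordP P f < 0 → ¬ (p : ℤ) ∣ ordP P f
  eqn : y ^ p - y = aeval x f.num / aeval x f.denom
  genus : ((p : ℤ) - 1) * ((∑ᶠ P ∈ {P : OnePoint k | ordP P f < 0}, (1 - ordP P f)) - 2) = 2 * g

/-- `F` is the function field of a curve of genus `g` over `k` (of characteristic `p`) which is a cyclic cover of the line of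
prime degree `n ∈ S`: `y ^ n = f (x)` if `n ≠ p`, and `y ^ p - y = f (x)` if `n = p` -/
def IsCover (k F : Type*) [Field k] [Field F] [Algebra k F] (p : ℕ) (S : Set ℕ) (g : ℕ) : Prop :=
  IsCyc k F S g ∨ (p ∈ S ∧ ∃ (x y : F) (f : RatFunc k), PresAS k F p g x y f)

/-- the supremum (in `ℕ ∪ {∞}`) of the numbers of automorphisms of the curves of genus `g` over `k` which are cyclic covers of
the line of prime degree `n ∈ S` -/
noncomputable def muCov.{u} (k : Type u) [Field k] (p : ℕ) (S : Set ℕ) (g : ℕ) : ℕ∞ :=
  sSup {n : ℕ∞ | ∃ (F : Type u) (_ : Field F) (_ : Algebra k F),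
    IsCover k F p S g ∧ n = ENat.card (F ≃ₐ[k] F)}

end Pool.Agent.Helper54.HZ
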