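import Pool.Agent.Helper54.HZ.Val

/-!
MP_143e28_ag, project HZ: a good constant at every point of the line.

`P ∈ k[X][Z]` primitive, all coefficients of degree at most `m` in `X`, `Q0 ∈ P^1`.
Finite point `b`: not all `p_i (b)` vanish (`P` is primitive: `X - b` does not divide all `p_i`), so `∑ p_i (b) Z ^ i` is a nonzero
polynomial over `k` (infinite); avoid its roots: `P (X, c)` does not vanish at `b`, order `0`, and all `p_i` have orders `≥ 0`.
`∞`: let `m'` be the largest degree of a `p_i` (`m' ≤ m`), `∑ (coefficient of X^m' in p_i) Z ^ i` is not zero; avoid its roots: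
`P (X, c)` has degree `m'`, order `- m'`, and all nonzero `p_i` have orders `≥ - m'`.
`span_val`: `{p | v p ≤ v q}` is a `k`-subspace of `k[X]` (nonzero constants have valuation `1`).
-/

set_option autoImplicit false

namespace Pool.Agent.Helper54.HZ

open Polynomial

variable {k : Type*} [Field k]

private theorem Place_avoid [Infinite k] {R : k[X]} (hR : R ≠ 0) : ∃ c : k, R.eval c ≠ 0 := by
  classical
  obtain ⟨c, hc⟩ := Infinite.exists_notMem_finset R.roots.toFinset
  refine ⟨c, fun h => hc ?_⟩
  rw [Multiset.mem_toFinset, mem_roots hR]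
  exact h

private theorem Place_fin [Infinite k] (P : k[X][X]) (hP : P.IsPrimitive) (b : k) :
    ∃ c : k, (P.eval (C c)).eval b ≠ 0 := by
  have hR : P.map (evalRingHom b) ≠ 0 := by
    intro h0
    have h1 : C (X - C b) ∣ P := by
      rw [C_dvd_iff_dvd_coeff]
      intro i
      rw [dvd_iff_isRoot]
      have h2 := congrArg (fun q => q.coeff i) h0
      simp only [coeff_map, coe_evalRingHom, coeff_zero] at h2
      exact h2
    exact not_isUnit_X_sub_C b (hP _ h1)
  obtain ⟨c, hc⟩ := Place_avoid hR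
  refine ⟨c, ?_⟩
  rw [eval_map] at hc
  have h3 : P.eval₂ (evalRingHom b) ((evalRingHom b) (C c)) = (evalRingHom b) (P.eval (C c)) :=
    eval₂_hom _ _
  simp only [coe_evalRingHom, eval_C] at h3
  rw [← h3]
  exact hc

private theorem Place_inf [Infinite k] (P : k[X][X]) (hP : P ≠ 0) :
    ∃ c : k, ∃ m' : ℕ, (P.eval (C c)).natDegree = m' ∧ P.eval (C c) ≠ 0 ∧
      (∃ i, (P.coeff i).natDegree = m') ∧ ∀ i, (P.coeff i).natDegree ≤ m' := by
  classical
  have hne : P.support.Nonempty := by rwa [support_nonempty]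
  obtain ⟨i0, hi0, hmax⟩ := P.support.exists_max_image (fun i => (P.coeff i).natDegree) hne
  obtain ⟨m', hm'⟩ : ∃ m', m' = (P.coeff i0).natDegree := ⟨_, rfl⟩
  have hall : ∀ i, (P.coeff i).natDegree ≤ m' := by
    intro i
    by_cases hi : i ∈ P.support
    · rw [hm']
      exact hmax i hi
    · rw [notMem_support_iff] at hi
      rw [hi, natDegree_zero]
      exact Nat.zero_le _
  obtain ⟨R, hRdef⟩ : ∃ R : k[X], R = ∑ i ∈ P.support, monomial i ((P.coeff i).coeff m') := ⟨_, rfl⟩
  have hR : R ≠ 0 := by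
    intro h0
    have h1 : R.coeff i0 = (P.coeff i0).coeff m' := by
      rw [hRdef, finsetSum_coeff, Finset.sum_eq_single i0]
      · rw [coeff_monomial, if_pos rfl]
      · intro j _ hj
        rw [coeff_monomial, if_neg hj]
      · intro h
        exact absurd hi0 h
    rw [h0, coeff_zero, hm', coeff_natDegree] at h1
    rw [mem_support_iff] at hi0
    exact hi0 (leadingCoeff_eq_zero.1 h1.symm)
  obtain ⟨c, hc⟩ := Place_avoid hR
  have h2 : (P.eval (C c)).coeff m' = R.eval c := by
    rw [hRdef, eval_finsetSum, eval_eq_sum, Polynomial.sum, finsetSum_coeff]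
    refine Finset.sum_congr rfl fun i _ => ?_
    rw [eval_monomial, ← C_pow, coeff_mul_C]
  have h3 : (P.eval (C c)).natDegree ≤ m' := by
    rw [eval_eq_sum, Polynomial.sum]
    apply natDegree_sum_le_of_forall_le
    intro i _
    rw [← C_pow]
    exact (natDegree_mul_C_le _ _).trans (hall i)
  have h4 : (P.eval (C c)).coeff m' ≠ 0 := by rw [h2]; exact hc
  refine ⟨c, m', le_antisymm h3 (le_natDegree_of_ne_zero h4), ?_, ⟨i0, hm'.symm⟩, hall⟩
  intro h5
  rw [h5, coeff_zero] at h4
  exact h4 rfl

theorem good_const [Infinite k] (P : k[X][X]) (hP : P.IsPrimitive) {m : ℕ}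
    (hm : ∀ i, (P.coeff i).natDegree ≤ m) (Q0 : OnePoint k) :
    ∃ c : k, P.eval (C c) ≠ 0 ∧
      (∀ i, P.coeff i ≠ 0 → ordP Q0 (algebraMap k[X] (RatFunc k) (P.eval (C c))) ≤
        ordP Q0 (algebraMap k[X] (RatFunc k) (P.coeff i))) ∧
      (∀ b : k, Q0 = (b : OnePoint k) → ordP Q0 (algebraMap k[X] (RatFunc k) (P.eval (C c))) = 0) ∧
      (Q0 = OnePoint.infty → -(m : ℤ) ≤ ordP Q0 (algebraMap k[X] (RatFunc k) (P.eval (C c)))) := by
  have hP0 : P ≠ 0 := hP.ne_zero
  induction Q0 using OnePoint.rec with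
  | infty =>
    obtain ⟨c, m', h1, h2, ⟨i0, h3⟩, h4⟩ := Place_inf P hP0
    refine ⟨c, h2, ?_, ?_, ?_⟩
    · intro i _
      rw [ord_poly_infty, ord_poly_infty, h1]
      have := h4 i
      omega
    · intro b hb
      exact absurd hb (OnePoint.infty_ne_coe b)
    · intro _
      rw [ord_poly_infty, h1]
      have := hm i0
      omega
  | coe b =>
    obtain ⟨c, hc⟩ := Place_fin P hP b
    have h0 : P.eval (C c) ≠ 0 := by
      intro h
      rw [h, eval_zero] at hc
      exact hc rfl
    have h1 : (P.eval (C c)).rootMultiplicity b = 0 := rootMultiplicity_eq_zero hc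
    refine ⟨c, h0, ?_, ?_, ?_⟩
    · intro i _
      rw [ord_poly_coe, ord_poly_coe, h1]
      positivity
    · intro b' hb'
      rw [ord_poly_coe, h1]
      rfl
    · intro h
      exact absurd h (OnePoint.coe_ne_infty b)

theorem span_val (Q0 : OnePoint k) (v : Valuation (RatFunc k) (WithZero (Multiplicative ℤ)))
    (hv : ∀ r : RatFunc k, r ≠ 0 → v r = WithZero.exp (-ordP Q0 r)) (P : k[X][X]) (q : k[X]) (hq : q ≠ 0)
    (h : ∀ i, P.coeff i ≠ 0 → ordP Q0 (algebraMap k[X] (RatFunc k) q) ≤
        ordP Q0 (algebraMap k[X] (RatFunc k) (P.coeff i)))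
    {u : k[X]} (hu : u ∈ Submodule.span k (Set.range P.coeff)) :
    v (algebraMap k[X] (RatFunc k) u / algebraMap k[X] (RatFunc k) q) ≤ 1 := by
  have hinj : Function.Injective (algebraMap k[X] (RatFunc k)) := IsFractionRing.injective _ _
  have hq' : algebraMap k[X] (RatFunc k) q ≠ 0 := by
    rw [Ne, map_eq_zero_iff _ hinj]
    exact hq
  have hvq : v (algebraMap k[X] (RatFunc k) q) ≠ 0 := (Valuation.ne_zero_iff v).2 hq'
  have key : v (algebraMap k[X] (RatFunc k) u) ≤ v (algebraMap k[X] (RatFunc k) q) := by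
    induction hu using Submodule.span_induction with
    | mem x hx =>
      obtain ⟨i, rfl⟩ := hx
      by_cases h0 : P.coeff i = 0
      · rw [h0, map_zero, map_zero]
        exact zero_le
      · have h1 : algebraMap k[X] (RatFunc k) (P.coeff i) ≠ 0 := by
          rw [Ne, map_eq_zero_iff _ hinj]
          exact h0
        rw [hv _ h1, hv _ hq', WithZero.exp_le_exp]
        have := h i h0
        omega
    | zero =>
      rw [map_zero, map_zero]
      exact zero_le
    | add x y _ _ hx hy =>
      rw [map_add]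
      exact (v.map_add _ _).trans (max_le hx hy)
    | smul a x _ hx =>
      rw [smul_eq_C_mul, map_mul, map_mul]
      by_cases ha : a = 0
      · rw [ha, C_0, map_zero, map_zero, zero_mul]
        exact zero_le
      · have h1 : algebraMap k[X] (RatFunc k) (C a) ≠ 0 := by
          rw [Ne, map_eq_zero_iff _ hinj, C_eq_zero]
          exact ha
        rw [hv _ h1, ord_const, neg_zero, WithZero.exp_zero, one_mul]
        exact hx
  rw [map_div₀, div_le_one₀ (zero_lt_iff.2 hvq)]
  exact key

end Pool.Agent.Helper54.HZ
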