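import Pool.Agent.Helper54.HZ.Arith
import Pool.Agent.Helper28.HA.B6

/-!
MP_143e28_ag, project HZ: the bound for the stabilizer of a finite set of points, `#B = 1` modulo `p`.

Adapt the proof of `stab_bound` in `Helper28.HA.B6` (its lemmas are public): by contradiction `8 (N - 2) < 3 #G`; a point `P` of `B`
with trivial stabilizer has an orbit of length `#G` inside `B`, `#G ≤ N`, `8 (N - 2) < 3 N`, no (`N > 27`); so `B` is the union of
the orbits of `T = {P ∈ R : orb P ⊆ B}`; `orbit_arith3`.
-/

set_option autoImplicit false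

namespace Pool.Agent.Helper54.HZ

open Pool.Agent.Helper28.HA

variable {k : Type*} [Field k]

theorem stab_bound3 [IsAlgClosed k] (p : ℕ) [Fact p.Prime] (hp : p ≠ 2) [CharP k p]
    (G : Subgroup (Equiv.Perm (OnePoint k))) (hG : MobGroup G)
    (B : Set (OnePoint k)) (hB : B.Finite) (hGB : ∀ s ∈ G, ∀ P ∈ B, s P ∈ B)
    (h1 : p ∣ Nat.card B - 1) (h2 : ¬ p ^ 2 ∣ Nat.card B - 1) (h3 : 3 * p ^ 2 < Nat.card B) :
    3 * Nat.card G ≤ 8 * (Nat.card B - 2) := by
  classical
  have hpp : p.Prime := Fact.out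
  have hp3 : 3 ≤ p := by
    have := hpp.two_le
    omega
  have hp9 : 9 ≤ p ^ 2 := by nlinarith
  obtain ⟨hfin, -⟩ := mob_finite G hG B hB (by omega) hGB
  by_contra hcon
  push Not at hcon
  obtain ⟨R, hR1, hR2, hR3, hR4⟩ := burnside G hG
  choose m hm1 hm2 using fun P => card_stab G hG P
  have hfinB : Finite B := hB
  have horbB : ∀ P ∈ B, orb G P ⊆ B := by
    rintro P hP Q ⟨s, hs, rfl⟩
    exact hGB s hs P hP
  have hstab : ∀ P ∈ B, 2 ≤ Nat.card (stab G P) := by
    intro P hP
    by_contra hlt
    push Not at hlt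
    obtain ⟨hf, hmul⟩ := card_orb_mul G P
    have hc0 : 0 < Nat.card G := Nat.card_pos
    have h5 : Nat.card (orb G P) ≤ Nat.card B := Nat.card_mono hB (horbB P hP)
    have h6 : Nat.card (stab G P) ≤ 1 := by omega
    have h7 : Nat.card G ≤ Nat.card (orb G P) := by
      rw [← hmul]
      calc Nat.card (orb G P) * Nat.card (stab G P) ≤ Nat.card (orb G P) * 1 :=
            Nat.mul_le_mul_left _ h6
        _ = _ := mul_one _
    omega
  set T : Finset (OnePoint k) := R.filter fun P => orb G P ⊆ B with hT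
  have hBT : B = ⋃ P ∈ T, orb G P := by
    ext Q
    rw [Set.mem_iUnion₂]
    constructor
    · intro hQ
      obtain ⟨P, hP, hQP⟩ := hR3 Q (hstab Q hQ)
      refine ⟨P, ?_, hQP⟩
      rw [hT, Finset.mem_filter]
      have hPB : P ∈ B := horbB Q hQ (B6_orb_symm G hQP)
      exact ⟨hP, horbB P hPB⟩
    · rintro ⟨P, hP, hQP⟩
      exact (Finset.mem_filter.1 hP).2 hQP
  have hN : Nat.card B = ∑ P ∈ T, Nat.card (orb G P) := by
    have h5 : B = ((T.biUnion fun P => (card_orb_mul G P).1.toFinset : Finset (OnePoint k)) :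
        Set (OnePoint k)) := by
      rw [Finset.coe_biUnion]
      simp only [Set.Finite.coe_toFinset, Finset.mem_coe]
      exact hBT
    rw [h5, Nat.card_coe_set_eq, Set.ncard_coe_finset, Finset.card_biUnion]
    · refine Finset.sum_congr rfl fun P _ => ?_
      have e1 : ∀ (S : Set (OnePoint k)) (hS : S.Finite), hS.toFinset.card = Nat.card S := by
        intro S hS
        rw [Nat.card_coe_set_eq, Set.ncard_eq_toFinset_card S hS]
      exact e1 _ _
    · intro P hP Q hQ hne
      have := hR2 P (Finset.mem_filter.1 hP).1 Q (Finset.mem_filter.1 hQ).1 hne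
      show Disjoint _ _
      rw [Finset.disjoint_left]
      intro x hx hx'
      rw [Set.Finite.mem_toFinset] at hx hx'
      exact Set.disjoint_left.1 this hx hx'
  have hres := orbit_arith3 R T (Finset.filter_subset _ _) p (Nat.card B) (Nat.card G) hpp hp
    (fun P => Nat.card (orb G P)) (fun P => Nat.card (uni G P)) m ?_ ?_ ?_ ?_ ?_ ?_ hR4 hN h1 h2 h3
  · omega
  · intro P _
    have : Finite (orb G P) := (card_orb_mul G P).1
    have : Nonempty (orb G P) := ⟨⟨P, B6_mem_orb G P⟩⟩
    exact Nat.card_pos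
  · intro P _
    have := (card_orb_mul G P).2
    rw [hm1 P] at this
    exact this
  · intro P hP
    have := hR1 P hP
    rw [hm1 P] at this
    exact this
  · intro P _
    exact card_uni p G hG P
  · intro P _
    exact hm2 P
  · intro P _
    exact uni_dvd G hG P

end Pool.Agent.Helper54.HZ
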