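import Mathlib

/-!
MP_143e28_ag, project HZ: the special genera (elementary number theory, Mathlib only).

`special`: let `l` be an odd prime `≠ p` (`3`, or `5` if `p = 3`); the residue class `g = p - 1` modulo `p ^ 2`, `g = (l - 1) / 2` modulo
`l` is prime to `p ^ 2 l` (Chinese remainder theorem, `Nat.chineseRemainder`), Dirichlet
(`Nat.forall_exists_prime_gt_and_eq_mod` or `Nat.infinite_setOf_prime_and_eq_mod`): `g` prime, as large as we want;
`l ∣ 2 g + 1`, `l < 2 g + 1`, so `2 g + 1` is not prime; `g + 1 = p` modulo `p ^ 2`.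
`cases_n`: `n - 1 ∣ 2 g`, `g` prime: `n - 1 ∈ {1, 2, g, 2 g}` (`Nat.dvd_prime`, ...); `n = g + 1` is even `> 2`, `n = 2 g + 1` is not
prime.
-/

set_option autoImplicit false

namespace Pool.Agent.Helper54.HZ

private theorem Dir_aux (p l s : ℕ) (hp : p.Prime) (hl : l.Prime) (hpl : p ≠ l)
    (hs : s.Coprime l) (hls : 2 * s + 1 = l) (N : ℕ) :
    ∃ g : ℕ, N < g ∧ g.Prime ∧ ¬ (2 * g + 1).Prime ∧ p ∣ g + 1 ∧ ¬ p ^ 2 ∣ g + 1 := by
  have hc : (p ^ 2).Coprime l := ((Nat.coprime_primes hp hl).2 hpl).pow_left 2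
  obtain ⟨m, hm1, hm2⟩ := Nat.chineseRemainder hc (p - 1) s
  have hp1 := hp.one_lt
  have hq : NeZero (p ^ 2 * l) := ⟨Nat.mul_ne_zero (pow_ne_zero _ hp.ne_zero) hl.ne_zero⟩
  have hmp : m.Coprime p := by
    have h1 : m ≡ p - 1 [MOD p] := hm1.of_dvd (Dvd.intro_left (p ^ 1) (by ring))
    have h2 : (p - 1).Coprime p := by
      have : (p - 1).Coprime (p - 1 + 1) := by simp
      rwa [Nat.sub_add_cancel hp1.le] at this
    have h3 := h1.gcd_eq
    unfold Nat.Coprime at *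
    rw [h3, h2]
  have hml : m.Coprime l := by
    have h3 := hm2.gcd_eq
    unfold Nat.Coprime at *
    rw [h3, hs]
  have hu : IsUnit ((m : ℕ) : ZMod (p ^ 2 * l)) :=
    (ZMod.isUnit_iff_coprime m (p ^ 2 * l)).2 ((hmp.pow_right 2).mul_right hml)
  obtain ⟨g, hg1, hg2, hg3⟩ := Nat.forall_exists_prime_gt_and_eq_mod hu (N + l)
  have h4 : g ≡ m [MOD p ^ 2 * l] := (ZMod.natCast_eq_natCast_iff g m _).1 hg3
  have h5 : g ≡ p - 1 [MOD p ^ 2] := (h4.of_dvd (Dvd.intro _ rfl)).trans hm1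
  have h6 : g ≡ s [MOD l] := (h4.of_dvd (Dvd.intro_left _ rfl)).trans hm2
  have h7 : g + 1 ≡ p [MOD p ^ 2] := by
    have := h5.add_right 1
    rwa [Nat.sub_add_cancel hp1.le] at this
  refine ⟨g, by omega, hg2, ?_, ?_, ?_⟩
  · have h8 : 2 * g + 1 ≡ 0 [MOD l] := by
      have := (h6.mul_left 2).add_right 1
      rw [hls] at this
      exact this.trans ((Nat.modEq_zero_iff_dvd).2 (dvd_refl l))
    have h9 : l ∣ 2 * g + 1 := (Nat.modEq_zero_iff_dvd).1 h8
    intro h10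
    rcases (Nat.dvd_prime h10).1 h9 with h | h
    · exact hl.one_lt.ne' h
    · omega
  · have h8 : g + 1 ≡ p [MOD p] := h7.of_dvd (Dvd.intro_left (p ^ 1) (by ring))
    exact (Nat.modEq_zero_iff_dvd).1 (h8.trans ((Nat.modEq_zero_iff_dvd).2 (dvd_refl p)))
  · intro h8
    have h9 : p ≡ 0 [MOD p ^ 2] := h7.symm.trans ((Nat.modEq_zero_iff_dvd).2 h8)
    have h10 := Nat.le_of_dvd hp.pos ((Nat.modEq_zero_iff_dvd).1 h9)
    nlinarith

theorem special (p : ℕ) (hp : p.Prime) (hp2 : p ≠ 2) (N : ℕ) :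
    ∃ g : ℕ, N < g ∧ g.Prime ∧ ¬ (2 * g + 1).Prime ∧ p ∣ g + 1 ∧ ¬ p ^ 2 ∣ g + 1 := by
  by_cases h3 : p = 3
  · exact Dir_aux p 5 2 hp (by norm_num) (by omega) (by norm_num) (by norm_num) N
  · exact Dir_aux p 3 1 hp (by norm_num) h3 (by norm_num) (by norm_num) N

theorem cases_n {n r g : ℕ} (hn : n.Prime) (hg : g.Prime) (hg2 : 2 < g) (h1 : ¬ (2 * g + 1).Prime)
    (h : (n - 1) * (r - 2) = 2 * g) : n = 2 ∨ (n = 3 ∧ r = g + 2) := by
  have hd : n - 1 ∣ 2 * g := Dvd.intro _ h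
  obtain ⟨y, z, hy, hz, hyz⟩ := (Nat.dvd_mul).1 hd
  have hn1 := hn.one_lt
  rcases (Nat.dvd_prime Nat.prime_two).1 hy with hy1 | hy1 <;>
    rcases (Nat.dvd_prime hg).1 hz with hz1 | hz1
  · left
    subst hy1 hz1
    omega
  · exfalso
    have hn2 : n = g + 1 := by
      subst hy1
      omega
    rcases hg.eq_two_or_odd with h2 | h2
    · omega
    · rcases hn.eq_two_or_odd with h3 | h3 <;> omega
  · right
    have hn2 : n = 3 := by
      subst hy1 hz1
      omega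
    subst hn2
    refine ⟨rfl, ?_⟩
    omega
  · exfalso
    have hn2 : n = 2 * g + 1 := by
      subst hy1 hz1
      omega
    exact h1 (hn2 ▸ hn)

end Pool.Agent.Helper54.HZ
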