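import Pool.Agent.Helper54.HZ.Defs
import Pool.Agent.Helper28.HA.A3

/-!
MP_143e28_ag, project HZ: the case `n = 2`, hyperelliptic curves.

`pres_of`: multiplicities `< 2` and `k` algebraically closed: `f` is squarefree and `deg f` = number of roots
(`(IsAlgClosed.splits f).natDegree_eq_card_roots`, `Multiset.nodup_iff_count_le_one`, `count_roots`, `PerfectField.separable_iff_squarefree`,
see `Br_card` in `Helper28.HA.A3`), `#BrN = deg f + [deg f odd] = 2 g + 2`.
`of_pres`: the same backwards; the set `BrN 2 f` is `Br g f`, `Br_card`.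
-/

set_option autoImplicit false

namespace Pool.Agent.Helper54.HZ

open Polynomial Pool.Agent.Helper28.HA

variable {k F : Type*} [Field k] [Field F] [Algebra k F]

private theorem Red_eq {g : ℕ} {f : k[X]}
    (hd : f.natDegree = 2 * g + 1 ∨ f.natDegree = 2 * g + 2) : BrN 2 f = Br g f := by
  ext P
  have h1 : ¬ 2 ∣ f.natDegree ↔ f.natDegree = 2 * g + 1 := by omega
  rw [BrN, Br, Set.mem_ofPred_eq, Set.mem_ofPred_eq, h1]

private theorem Red_sqf [IsAlgClosed k] {f : k[X]} (h0 : f ≠ 0)
    (hm : ∀ a : k, f.rootMultiplicity a < 2) : Squarefree f := by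
  classical
  have h1 : f.roots.Nodup := by
    rw [Multiset.nodup_iff_count_le_one]
    intro a
    rw [count_roots]
    exact Nat.lt_succ_iff.1 (hm a)
  exact ((nodup_roots_iff_of_splits h0 (IsAlgClosed.splits f)).1 h1).squarefree

theorem pres_of [IsAlgClosed k] {g : ℕ} (hg : 0 < g) {x y : F} {f : k[X]} (h : PresN k F 2 g x y f) :
    Pres k F g x y f := by
  have hs := Red_sqf h.ne0 h.mult
  refine ⟨h.trans, h.gen, hs, ?_, h.eqn⟩
  have hgen := h.genus
  rcases Nat.eq_zero_or_pos f.natDegree with h0 | h0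
  · exfalso
    have h1 : BrN 2 f = ∅ := by
      ext P
      rw [BrN, Set.mem_ofPred_eq]
      constructor
      · rintro (⟨a, ha, -⟩ | ⟨h1, -⟩)
        · obtain ⟨c, hc⟩ := natDegree_eq_zero.1 h0
          rw [← hc, eval_C] at ha
          exact absurd (by rw [← hc, ha, C_0]) h.ne0
        · exact absurd (h0 ▸ dvd_zero 2) h1
      · exact fun h1 => absurd h1 (Set.notMem_empty P)
    rw [h1] at hgen
    simp at hgen
    omega
  · obtain ⟨m, hm⟩ : ∃ m, f.natDegree = 2 * m + 1 ∨ f.natDegree = 2 * m + 2 :=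
      ⟨(f.natDegree - 1) / 2, by omega⟩
    rw [Red_eq hm, (Br_card hs hm).2] at hgen
    omega

theorem of_pres [IsAlgClosed k] (h2 : (2 : k) ≠ 0) {g : ℕ} {x y : F} {f : k[X]} (h : Pres k F g x y f) :
    PresN k F 2 g x y f := by
  classical
  refine ⟨Nat.prime_two, by exact_mod_cast h2, h.trans, h.gen, h.sqf.ne_zero, ?_, h.eqn, ?_⟩
  · intro a
    have h1 : f.roots.Nodup := nodup_roots (PerfectField.separable_iff_squarefree.2 h.sqf)
    have h3 := Multiset.nodup_iff_count_le_one.1 h1 a
    rw [count_roots] at h3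
    omega
  · rw [Red_eq h.deg, (Br_card h.sqf h.deg).2]
    omega

end Pool.Agent.Helper54.HZ
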