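import Pool.Agent.Helper54.HZ.Cover
import Pool.Agent.Helper54.HZ.Mem
import Pool.Agent.Helper54.HZ.Grp
import Pool.Agent.Helper54.HZ.Bound
import Pool.Agent.Helper54.HZ.Red
import Pool.Agent.Helper54.HZ.Dir
import Pool.Agent.Helper54.HY.Poly
import Pool.Agent.Helper28.HA.D1

/-!
MP_143e28_ag, project HZ: the final step (helper54).
-/

set_option autoImplicit false

namespace Pool.Agent.Helper54.HZ

open Polynomial Pool.Agent.Helper28.HA

theorem Final_two_ne (p : ℕ) [Fact p.Prime] (hp : p ≠ 2) (k : Type*) [Field k] [CharP k p] :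
    (2 : k) ≠ 0 := by
  intro h
  have h1 : ((2 : ℕ) : k) = 0 := by exact_mod_cast h
  rw [CharP.cast_eq_zero_iff k p] at h1
  exact hp ((Nat.prime_dvd_prime_iff_eq Fact.out Nat.prime_two).mp h1)

/-- upper bound at the special genera -/
theorem upperN.{u} (p : ℕ) [Fact p.Prime] (hp : p ≠ 2) {k F : Type u} [Field k] [IsAlgClosed k]
    [CharP k p] [Field F] [Algebra k F] {g : ℕ} (hg : g.Prime) (hg' : ¬ (2 * g + 1).Prime) (h1 : p ∣ g + 1)
    (h2 : ¬ p ^ 2 ∣ g + 1) (h3 : 3 * p ^ 2 < g) (S : Set ℕ) (h : IsCyc k F S g) :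
    Finite (F ≃ₐ[k] F) ∧ Nat.card (F ≃ₐ[k] F) ≤ 8 * g := by
  have hp2 : 3 ≤ p := by
    have := (Fact.out : p.Prime).two_le
    omega
  have hg27 : 27 < g := by nlinarith
  obtain ⟨n, -, x, y, f, hP⟩ := h
  rcases cases_n hP.prime hg (by omega) hg' hP.genus with rfl | ⟨rfl, hr⟩
  · have hPr := pres_of (by omega) hP
    have h20 := Final_two_ne p hp k
    exact ⟨(auto_finite h20 (by omega) ⟨x, y, f, hPr⟩).1,
      upper p hp h1 h2 (by omega) ⟨x, y, f, hPr⟩⟩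
  · have hmem : ∀ s : F ≃ₐ[k] F, s x ∈ IntermediateField.adjoin k {x} :=
      fun s => auto_memN (by omega) hP (by omega) s
    obtain ⟨G, hG, hGB, hfin⟩ := auto_groupN (by omega) hP hmem
    obtain ⟨hG1, hG2⟩ := mob_finite G hG (BrN 3 f) (finite_BrN 3 hP.ne0) (by omega) hGB
    obtain ⟨ha, hb⟩ := hfin hG1
    refine ⟨ha, hb.trans ?_⟩
    have hc := stab_bound3 p hp G hG (BrN 3 f) (finite_BrN 3 hP.ne0) hGB
      (by rw [hr]; simpa using h1) (by rw [hr]; simpa using h2) (by omega)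
    rw [hr] at hc
    simpa using hc

theorem noAS (p : ℕ) (hp : 5 ≤ p) {k F : Type*} [Field k] [Field F] [Algebra k F] {g : ℕ} (hg : g.Prime)
    (hgp : p < g) {x y : F} {f : RatFunc k} (h : PresAS k F p g x y f) : False := by
  have h1 : ((p : ℤ) - 1) ∣ 2 * g := ⟨_, h.genus.symm⟩
  have h2 : p - 1 ∣ 2 * g := by
    have h3 : (((p - 1 : ℕ) : ℤ)) ∣ ((2 * g : ℕ) : ℤ) := by
      rw [Nat.cast_sub (by omega)]
      push_cast
      exact h1
    exact Int.natCast_dvd_natCast.1 h3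
  have hcop : Nat.Coprime (p - 1) g := by
    rw [Nat.coprime_comm]
    exact (Nat.Prime.coprime_iff_not_dvd hg).2 (fun h => by
      have := Nat.le_of_dvd (by omega) h
      omega)
  have h4 := Nat.le_of_dvd (by norm_num) (hcop.dvd_of_dvd_mul_right h2)
  omega

theorem upper_mu.{u} (p : ℕ) [Fact p.Prime] (hp : p ≠ 2) (k : Type u) [Field k] [IsAlgClosed k]
    [CharP k p] {g : ℕ} (hg : g.Prime) (hg' : ¬ (2 * g + 1).Prime) (h1 : p ∣ g + 1)
    (h2 : ¬ p ^ 2 ∣ g + 1) (h3 : 3 * p ^ 2 < g) (S : Set ℕ) (hS : p = 3 → 3 ∉ S) :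
    muCov k p S g ≤ ((8 * g : ℕ) : ℕ∞) := by
  unfold muCov
  refine sSup_le ?_
  rintro n ⟨F, _, _, hF, rfl⟩
  rcases hF with hF | ⟨hpS, x, y, f, hF⟩
  · obtain ⟨ha, hb⟩ := upperN p hp hg hg' h1 h2 h3 S hF
    rw [ENat.card_eq_coe_natCard]
    exact_mod_cast hb
  · exfalso
    have hpp : p.Prime := Fact.out
    have hp2 := hpp.two_le
    have hp3 : p ≠ 3 := by
      rintro rfl
      exact hS rfl hpS
    have hp4 : p ≠ 4 := by
      rintro rfl
      exact absurd hpp (by norm_num)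
    refine noAS p (by omega) hg ?_ hF
    nlinarith

theorem lower_mu.{u} (p : ℕ) [Fact p.Prime] (hp : p ≠ 2) (k : Type u) [Field k] [IsAlgClosed k]
    [CharP k p] {g : ℕ} (hg : 2 ≤ g) (S : Set ℕ) (hS : 2 ∈ S) :
    ((8 * g : ℕ) : ℕ∞) ≤ muCov k p S g := by
  have h20 := Final_two_ne p hp k
  have hl := lower p hp k hg
  have hb : BddAbove {n : ℕ | ∃ (F : Type u) (_ : Field F) (_ : Algebra k F),
      IsHyperelliptic k F g ∧ n = Nat.card (F ≃ₐ[k] F)} := by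
    refine ⟨2 * (2 * g + 2) ^ 3, ?_⟩
    rintro n ⟨F, _, _, hF, rfl⟩
    exact (auto_finite h20 hg hF).2
  have hne : {n : ℕ | ∃ (F : Type u) (_ : Field F) (_ : Algebra k F),
      IsHyperelliptic k F g ∧ n = Nat.card (F ≃ₐ[k] F)}.Nonempty := by
    rw [Set.nonempty_iff_ne_empty]
    intro h0
    have : muHyp k g = 0 := by
      unfold muHyp
      rw [h0]
      simp
    omega
  obtain ⟨F, i1, i2, hF, hn⟩ := Nat.sSup_mem hne hb
  have hn' : muHyp k g = Nat.card (F ≃ₐ[k] F) := hn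
  have hfin := (auto_finite h20 hg hF).1
  obtain ⟨x, y, f, hP⟩ := hF
  unfold muCov
  refine le_trans ?_ (le_sSup ⟨F, i1, i2, Or.inl ⟨2, hS, x, y, f, of_pres h20 hP⟩, rfl⟩)
  rw [ENat.card_eq_coe_natCard, ← hn']
  exact_mod_cast hl

theorem exact_mu.{u} (p : ℕ) [Fact p.Prime] (hp : p ≠ 2) (k : Type u) [Field k] [IsAlgClosed k]
    [CharP k p] {g : ℕ} (hg : g.Prime) (hg' : ¬ (2 * g + 1).Prime) (h1 : p ∣ g + 1)
    (h2 : ¬ p ^ 2 ∣ g + 1) (h3 : 3 * p ^ 2 < g) (S : Set ℕ) (hS2 : 2 ∈ S) (hS : p = 3 → 3 ∉ S) :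
    muCov k p S g = ((8 * g : ℕ) : ℕ∞) :=
  le_antisymm (upper_mu p hp k hg hg' h1 h2 h3 S hS) (lower_mu p hp k hg.two_le S hS2)

theorem inf_special (p : ℕ) (hp : p.Prime) (hp2 : p ≠ 2) :
    {g : ℕ | g.Prime ∧ ¬ (2 * g + 1).Prime ∧ p ∣ g + 1 ∧ ¬ p ^ 2 ∣ g + 1 ∧ 3 * p ^ 2 < g}.Infinite := by
  rw [Set.infinite_iff_exists_gt]
  intro N
  obtain ⟨g, h1, h2, h3, h4, h5⟩ := special p hp hp2 (max N (3 * p ^ 2))
  exact ⟨g, ⟨h2, h3, h4, h5, lt_of_le_of_lt (le_max_right _ _) h1⟩, lt_of_le_of_lt (le_max_left _ _) h1⟩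

theorem main_cov.{u} (p : ℕ) [Fact p.Prime] (hp : p ≠ 2) (k : Type u) [Field k] [IsAlgClosed k]
    [CharP k p] (S : Set ℕ) (hS2 : 2 ∈ S) (hS : p = 3 → 3 ∉ S) (M : ℚ[X]) :
    ((∀ g : ℕ, 2 ≤ g → ∀ m : ℕ, muCov k p S g = m → M.eval (g : ℚ) ≤ m) ∧
      {g : ℕ | 2 ≤ g ∧ ∃ m : ℕ, muCov k p S g = m ∧ M.eval (g : ℚ) = m}.Infinite) ↔
    M = C 8 * X := by
  have hsp := inf_special p Fact.out hp
  constructor
  · rintro ⟨hM1, hM2⟩
    have : M - C 8 * X = 0 := by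
      apply Pool.Agent.Helper54.HY.poly_zero
      · refine hM2.mono ?_
        rintro g ⟨hg, m, hm, hM⟩
        have e1 := lower_mu p hp k hg S hS2
        rw [hm] at e1
        have e2 : 8 * g ≤ m := by exact_mod_cast e1
        have e3 : ((8 * g : ℕ) : ℚ) ≤ m := by exact_mod_cast e2
        simp only [Set.mem_ofPred_eq, eval_sub, eval_mul, eval_C, eval_X, hM]
        push_cast at e3
        linarith
      · refine hsp.mono ?_
        rintro g ⟨h1, h2, h3, h4, h5⟩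
        have e1 := hM1 g h1.two_le (8 * g) (exact_mu p hp k h1 h2 h3 h4 h5 S hS2 hS)
        simp only [Set.mem_ofPred_eq, eval_sub, eval_mul, eval_C, eval_X]
        push_cast at e1
        linarith
    exact sub_eq_zero.1 this
  · rintro rfl
    refine ⟨?_, ?_⟩
    · intro g hg m hm
      have e1 := lower_mu p hp k hg S hS2
      rw [hm] at e1
      have e2 : 8 * g ≤ m := by exact_mod_cast e1
      have e3 : ((8 * g : ℕ) : ℚ) ≤ m := by exact_mod_cast e2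
      simp only [eval_mul, eval_C, eval_X]
      push_cast at e3
      linarith
    · refine hsp.mono ?_
      rintro g ⟨h1, h2, h3, h4, h5⟩
      refine ⟨h1.two_le, 8 * g, exact_mu p hp k h1 h2 h3 h4 h5 S hS2 hS, ?_⟩
      simp only [eval_mul, eval_C, eval_X]
      push_cast
      ring

end Pool.Agent.Helper54.HZ
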