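import Pool.Agent.Helper28.HA.B6

/-!
MP_143e28_ag, project HZ, part 2: the bound for the group, characteristic 3, points with weights.

`c = #G`, `w P ≥ 1` the pole orders on `B`.  If a point of `B` has trivial stabilizer, its orbit has `c` points of weight `w + 1 ≥ 2`:
`2 c ≤ g + 2`.  If a point `P ∈ B` has `#uni = 1`: `c = #orb #stab ≤ #orb * 2 w` and `#orb (w + 1) ≤ g + 2`, so `c ≤ 2 (g + 2) - 2 #orb`,
`3 c ≤ 6 g + 6 ≤ 8 g`.  Otherwise all points of `B` are wild (`#uni ≥ 3`, `card_uni`); Burnside (`burnside`: `R`): with `a` = number of `P ∈ R` with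
`#uni ≥ 3` and `b` = the others, `2 #orb ≤ c`: `b c / 2 ≥ (a + b - 2) c + 2`, so `2 a + b < 4`, `a ≤ 1`: `B` is one orbit, all weights are
equal to `w`, `#B = 1` modulo 3 (`uni_dvd`: `3 ∣ #uni ∣ #orb - 1`), `#B (w + 1) = g + 2 = 1` modulo 3, so `3 ∣ w`, contradiction.
(`B` is not empty.)  `w` is constant on orbits (`hw`).
-/

set_option autoImplicit false

namespace Pool.Agent.Helper54.HZ

open Pool.Agent.Helper28.HA

variable {k : Type*} [Field k]

private theorem ASBound_pos (G : Subgroup (Equiv.Perm (OnePoint k))) [Finite G] (P : OnePoint k) :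
    0 < Nat.card (orb G P) := by
  have : Finite (orb G P) := (card_orb_mul G P).1
  have : Nonempty (orb G P) := ⟨⟨P, B6_mem_orb G P⟩⟩
  exact Nat.card_pos

private theorem ASBound_card (G : Subgroup (Equiv.Perm (OnePoint k))) [Finite G] (P : OnePoint k) :
    (card_orb_mul G P).1.toFinset.card = Nat.card (orb G P) := by
  have e1 : ∀ (S : Set (OnePoint k)) (hS : S.Finite), hS.toFinset.card = Nat.card S := by
    intro S hS
    rw [Nat.card_coe_set_eq, Set.ncard_eq_toFinset_card S hS]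
  exact e1 _ _

private theorem ASBound_sum (G : Subgroup (Equiv.Perm (OnePoint k))) [Finite G] (w : OnePoint k → ℕ)
    (P : OnePoint k) (h : ∀ s ∈ G, w (s P) = w P) :
    ∑ Q ∈ (card_orb_mul G P).1.toFinset, (w Q + 1) = Nat.card (orb G P) * (w P + 1) := by
  have h1 : ∑ Q ∈ (card_orb_mul G P).1.toFinset, (w Q + 1) =
      ∑ _Q ∈ (card_orb_mul G P).1.toFinset, (w P + 1) := by
    refine Finset.sum_congr rfl fun Q hQ => ?_
    rw [Set.Finite.mem_toFinset] at hQ
    obtain ⟨s, hs, rfl⟩ := hQ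
    rw [h s hs]
  rw [h1, Finset.sum_const, smul_eq_mul, ASBound_card]

theorem as_bound [IsAlgClosed k] [CharP k 3] (G : Subgroup (Equiv.Perm (OnePoint k))) [Finite G]
    (hG : MobGroup G) (B : Finset (OnePoint k)) (hGB : ∀ s ∈ G, ∀ P ∈ B, s P ∈ B) (w : OnePoint k → ℕ)
    (hw : ∀ s ∈ G, ∀ P ∈ B, w (s P) = w P) (hw1 : ∀ P ∈ B, 1 ≤ w P) (hw3 : ∀ P ∈ B, ¬ 3 ∣ w P)
    (hst : ∀ P ∈ B, Nat.card (stab G P) ≤ Nat.card (uni G P) * (2 * w P)) (g : ℕ) (hg : 3 ≤ g)
    (h3 : 3 ∣ g + 1) (hsum : ∑ P ∈ B, (w P + 1) = g + 2) : 3 * Nat.card G ≤ 8 * g := by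
  classical
  by_contra hcon
  push Not at hcon
  have hp3 : Fact (Nat.Prime 3) := ⟨by norm_num⟩
  obtain ⟨R, hR1, hR2, hR3, hR4⟩ := burnside G hG
  have hc0 : 0 < Nat.card G := Nat.card_pos
  have horbB : ∀ P ∈ B, ∀ Q ∈ orb G P, Q ∈ B := by
    rintro P hP Q ⟨s, hs, rfl⟩
    exact hGB s hs P hP
  have horbsum : ∀ P ∈ B, Nat.card (orb G P) * (w P + 1) ≤ g + 2 := by
    intro P hP
    rw [← ASBound_sum G w P (fun s hs => hw s hs P hP), ← hsum]
    refine Finset.sum_le_sum_of_subset fun Q hQ => ?_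
    rw [Set.Finite.mem_toFinset] at hQ
    exact horbB P hP Q hQ
  have huni : ∀ P, 0 < Nat.card (uni G P) := by
    intro P
    obtain ⟨j, hj⟩ := card_uni 3 G hG P
    rw [hj]
    positivity
  -- all points of `B` are wild
  have hwild : ∀ P ∈ B, Nat.card (uni G P) ≠ 1 := by
    intro P hP h1
    have h4 := hst P hP
    rw [h1, one_mul] at h4
    have h5 := (card_orb_mul G P).2
    have h6 := horbsum P hP
    have h7 := ASBound_pos G P
    have h8 : Nat.card G ≤ Nat.card (orb G P) * (2 * w P) := by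
      rw [← h5]
      exact Nat.mul_le_mul_left _ h4
    have h9 : Nat.card (orb G P) * (2 * w P) + 2 * Nat.card (orb G P) =
        2 * (Nat.card (orb G P) * (w P + 1)) := by ring
    omega
  have hdvd : ∀ P, Nat.card (uni G P) ≠ 1 → 3 ∣ Nat.card (uni G P) := by
    intro P hP
    obtain ⟨j, hj⟩ := card_uni 3 G hG P
    rw [hj] at hP ⊢
    cases j with
    | zero => exact absurd (pow_zero 3) hP
    | succ j => exact Dvd.intro_left _ (pow_succ 3 j).symm
  have hstfin : ∀ P, (stab G P).Finite := fun P =>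
    Set.Finite.subset (s := (G : Set (Equiv.Perm (OnePoint k)))) (Set.toFinite _) fun s hs => hs.1
  -- at most one wild orbit
  set W : Finset (OnePoint k) := R.filter fun P => Nat.card (uni G P) ≠ 1 with hW
  have hWc : W.card ≤ 1 := by
    by_contra hW2
    push Not at hW2
    have hcard : (R.filter fun P => Nat.card (uni G P) ≠ 1).card +
        (R.filter fun P => ¬ Nat.card (uni G P) ≠ 1).card = R.card :=
      Finset.card_filter_add_card_filter_not (s := R) (fun P => Nat.card (uni G P) ≠ 1)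
    have hterm : ∀ P ∈ R, 2 * ((Nat.card (orb G P) : ℤ) * (2 - Nat.card (uni G P))) ≤
        if ¬ Nat.card (uni G P) ≠ 1 then (Nat.card G : ℤ) else 0 := by
      intro P hP
      have hn0 : (0 : ℤ) < (Nat.card (orb G P) : ℤ) := by exact_mod_cast ASBound_pos G P
      by_cases h1 : Nat.card (uni G P) ≠ 1
      · rw [if_neg (not_not.2 h1)]
        have h4 : 3 ≤ Nat.card (uni G P) := Nat.le_of_dvd (huni P) (hdvd P h1)
        have h5 : (2 : ℤ) - Nat.card (uni G P) ≤ 0 := by
          have : (3 : ℤ) ≤ (Nat.card (uni G P) : ℤ) := by exact_mod_cast h4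
          linarith
        have h6 := mul_nonpos_of_nonneg_of_nonpos hn0.le h5
        linarith
      · rw [if_pos h1]
        push Not at h1
        rw [h1]
        have h4 := (card_orb_mul G P).2
        have h5 := hR1 P hP
        have h6 : Nat.card (orb G P) * 2 ≤ Nat.card G := by
          rw [← h4]
          exact Nat.mul_le_mul_left _ h5
        have h7 : (Nat.card (orb G P) : ℤ) * 2 ≤ (Nat.card G : ℤ) := by exact_mod_cast h6
        push_cast
        linarith
    have hs := Finset.sum_le_sum hterm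
    rw [← Finset.mul_sum, hR4, ← Finset.sum_filter, Finset.sum_const, nsmul_eq_mul] at hs
    have h5 : (R.card : ℤ) = (W.card : ℤ) +
        ((R.filter fun P => ¬ Nat.card (uni G P) ≠ 1).card : ℤ) := by
      rw [hW]
      exact_mod_cast hcard.symm
    rw [h5] at hs
    have h6 : (2 : ℤ) ≤ (W.card : ℤ) := by exact_mod_cast hW2
    have h7 : (0 : ℤ) < (Nat.card G : ℤ) := by exact_mod_cast hc0
    have h8 : (0 : ℤ) ≤ ((R.filter fun P => ¬ Nat.card (uni G P) ≠ 1).card : ℤ) :=
      Int.natCast_nonneg _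
    have h9 : 0 ≤ ((W.card : ℤ) - 2) * (Nat.card G : ℤ) := mul_nonneg (by linarith) h7.le
    have h10 : 0 ≤ ((R.filter fun P => ¬ Nat.card (uni G P) ≠ 1).card : ℤ) *
        (Nat.card G : ℤ) := mul_nonneg h8 h7.le
    have h11 : 2 * (((W.card : ℤ) + ((R.filter fun P => ¬ Nat.card (uni G P) ≠ 1).card : ℤ) - 2) *
        (Nat.card G : ℤ) + 2) = 2 * (((W.card : ℤ) - 2) * (Nat.card G : ℤ)) +
        2 * (((R.filter fun P => ¬ Nat.card (uni G P) ≠ 1).card : ℤ) * (Nat.card G : ℤ)) + 4 := by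
      ring
    rw [h11] at hs
    linarith
  -- representatives
  have hrep : ∀ Q ∈ B, ∃ P ∈ W, P ∈ B ∧ Q ∈ orb G P := by
    intro Q hQ
    have h4 : 3 ≤ Nat.card (uni G Q) := Nat.le_of_dvd (huni Q) (hdvd Q (hwild Q hQ))
    have h5 : Nat.card (uni G Q) ≤ Nat.card (stab G Q) :=
      Nat.card_mono (hstfin Q) (B6_uni_subset G Q)
    obtain ⟨P, hP, hQP⟩ := hR3 Q (by omega)
    have hPB : P ∈ B := horbB Q hQ P (B6_orb_symm G hQP)
    exact ⟨P, Finset.mem_filter.2 ⟨hP, hwild P hPB⟩, hPB, hQP⟩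
  have hBne : B.Nonempty := by
    by_contra hB
    rw [Finset.not_nonempty_iff_eq_empty] at hB
    rw [hB, Finset.sum_empty] at hsum
    omega
  obtain ⟨P0, hP0⟩ := hBne
  obtain ⟨P, hPW, hPB, -⟩ := hrep P0 hP0
  have hBO : B = (card_orb_mul G P).1.toFinset := by
    ext Q
    rw [Set.Finite.mem_toFinset]
    constructor
    · intro hQ
      obtain ⟨P', hP'W, -, hQP'⟩ := hrep Q hQ
      have h4 : P' = P := Finset.card_le_one.1 hWc P' hP'W P hPW
      rwa [h4] at hQP'
    · exact horbB P hPB Q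
  rw [hBO, ASBound_sum G w P (fun s hs => hw s hs P hPB)] at hsum
  have h4 : 3 ∣ Nat.card (orb G P) - 1 := (hdvd P (hwild P hPB)).trans (uni_dvd G hG P)
  have h5 := ASBound_pos G P
  obtain ⟨t, ht⟩ := h4
  obtain ⟨u, hu⟩ := h3
  have h6 : Nat.card (orb G P) = 3 * t + 1 := by omega
  rw [h6] at hsum
  have h7 : (3 * t + 1) * (w P + 1) = 3 * (t * (w P + 1)) + (w P + 1) := by ring
  rw [h7] at hsum
  exact hw3 P hPB (by omega)

end Pool.Agent.Helper54.HZ
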