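import Pool.Agent.Helper54.HZ.ASTame
import Pool.Agent.Helper28.HA.B6

/-!
MP_143e28_ag, project HZ, part 2 (characteristic 3): finiteness of the group.

`B` = the set of the poles of `f` (`finite_poles`), `w P = - ordP P f`, `∑ (w P + 1) = g + 2`.
Finiteness of `G`: if `#B ≥ 3`: `mob_finite`.  `#B ≤ 2`: all `s ∈ G` fix or exchange the points of `B`.  `B = {P}`: `w P + 1 = g + 2`,
`w P = g + 1` divisible by 3, no.  `B = {P, Q}`: an element which fixes `P` and `Q` is `z ↦ a z` in a coordinate with `P = ∞`, `Q = 0`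
(`as_tame`: `a ^ (2 w P) = 1`), so there are finitely many; this subgroup has index at most 2.
-/

set_option autoImplicit false

namespace Pool.Agent.Helper54.HZ

open Polynomial Pool.Agent.Helper28.HA

variable {k : Type*} [Field k]

/-- the elements which fix two poles are finite in number -/
private theorem ASFin_two [IsAlgClosed k] [CharP k 3] {f : RatFunc k}
    (hf : ∀ P : OnePoint k, ordP P f < 0 → ¬ (3 : ℤ) ∣ ordP P f)
    (G : Subgroup (Equiv.Perm (OnePoint k))) (hG : ∀ s ∈ G, ∃ M : GL (Fin 2) k, s = mact M ∧ ASInv M f)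
    (P Q : OnePoint k) (hPQ : P ≠ Q) (hP : ordP P f < 0) :
    {u : Equiv.Perm (OnePoint k) | u ∈ G ∧ u P = P ∧ u Q = Q}.Finite := by
  obtain ⟨t, ht, htP⟩ := mob_trans P
  have htQ : t Q ≠ OnePoint.infty := fun h => hPQ (t.injective (htP.trans h.symm))
  obtain ⟨q, hq⟩ := OnePoint.ne_infty_iff_exists.1 htQ
  obtain ⟨m, hm, hPm⟩ : ∃ m : ℕ, 0 < m ∧ ordP P f = -(m : ℤ) := by
    refine ⟨(-ordP P f).toNat, by omega, by omega⟩
  have htinv : t⁻¹ OnePoint.infty = P := by rw [← htP, B6_inv_apply]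
  have htinvq : t⁻¹ (q : OnePoint k) = Q := by rw [hq, B6_inv_apply]
  have hinf : ∀ u : Equiv.Perm (OnePoint k), u P = P →
      (t * u * t⁻¹) OnePoint.infty = OnePoint.infty := by
    intro u hu
    rw [Equiv.Perm.mul_apply, Equiv.Perm.mul_apply, htinv, hu, htP]
  have key : ∀ u ∈ {u : Equiv.Perm (OnePoint k) | u ∈ G ∧ u P = P ∧ u Q = Q},
      ∃ a : k, a ^ (2 * m) = 1 ∧ ∀ z : k,
        (t * u * t⁻¹) (z : OnePoint k) = ((a * z + (q - a * q) : k) : OnePoint k) := by
    rintro u ⟨huG, huP, huQ⟩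
    obtain ⟨M, rfl, hM⟩ := hG u huG
    have hmob : IsMob (t * mact M * t⁻¹) := (ht.mul ⟨M, rfl⟩).mul ht.inv
    obtain ⟨a, b, -, hab⟩ := mob_affine hmob (hinf _ huP)
    have h1 := as_tame hf hM hm hPm huP ht htP hab
    refine ⟨a, h1, ?_⟩
    have h2 : (t * mact M * t⁻¹) (q : OnePoint k) = (q : OnePoint k) := by
      rw [Equiv.Perm.mul_apply, Equiv.Perm.mul_apply, htinvq, huQ, hq]
    have h3 : (a * q + b : k) = q := OnePoint.coe_injective ((hab q).symm.trans h2)
    have h4 : b = q - a * q := by linear_combination h3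
    intro z
    rw [hab z, h4]
  choose! A hA1 hA2 using key
  have hfin : {a : k | a ^ (2 * m) = 1}.Finite := by
    have h1 : 0 < 2 * m := by omega
    refine Set.Finite.subset (Polynomial.nthRootsFinset (2 * m) (1 : k)).finite_toSet ?_
    intro a ha
    rw [Finset.mem_coe, Polynomial.mem_nthRootsFinset h1]
    exact ha
  refine Set.Finite.of_injOn (f := A) (fun u hu => hA1 u hu) ?_ hfin
  intro u hu v hv huv
  have h1 : t * u * t⁻¹ = t * v * t⁻¹ := by
    ext x
    induction x using OnePoint.rec with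
    | infty => rw [hinf u hu.2.1, hinf v hv.2.1]
    | coe z => rw [hA2 u hu z, hA2 v hv z, huv]
  exact mul_left_cancel (mul_right_cancel h1)

theorem as_finite [IsAlgClosed k] [CharP k 3] {g : ℕ} {f : RatFunc k}
    (hf : ∀ P : OnePoint k, ordP P f < 0 → ¬ (3 : ℤ) ∣ ordP P f) (h3 : 3 ∣ g + 1)
    (hsum : ∑ᶠ P ∈ {P : OnePoint k | ordP P f < 0}, (1 - ordP P f) = (g : ℤ) + 2)
    (G : Subgroup (Equiv.Perm (OnePoint k))) (hG : ∀ s ∈ G, ∃ M : GL (Fin 2) k, s = mact M ∧ ASInv M f) :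
    Finite G := by
  classical
  obtain ⟨B, hB⟩ : ∃ B : Set (OnePoint k), B = {P : OnePoint k | ordP P f < 0} := ⟨_, rfl⟩
  have hBf : B.Finite := by rw [hB]; exact finite_poles f
  have hBm : ∀ P, P ∈ B ↔ ordP P f < 0 := by intro P; rw [hB]; rfl
  rw [← hB] at hsum
  have hmob : MobGroup G := fun s hs => by
    obtain ⟨M, hM, -⟩ := hG s hs
    exact ⟨M, hM⟩
  have hGB : ∀ s ∈ G, ∀ P ∈ B, s P ∈ B := by
    intro s hs P hP
    obtain ⟨M, rfl, hM⟩ := hG s hs
    rw [hBm] at hP ⊢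
    rw [as_ord hf hM hP]
    exact hP
  by_cases hc : 3 ≤ Nat.card B
  · exact (mob_finite G hmob B hBf hc hGB).1
  · rw [Nat.card_coe_set_eq] at hc
    have h012 : B.ncard = 0 ∨ B.ncard = 1 ∨ B.ncard = 2 := by omega
    rcases h012 with h0 | h1 | h2
    · exfalso
      rw [(Set.ncard_eq_zero hBf).1 h0, finsum_mem_empty] at hsum
      omega
    · exfalso
      obtain ⟨P, hP⟩ := Set.ncard_eq_one.1 h1
      rw [hP, finsum_mem_singleton] at hsum
      have hPB : P ∈ B := by rw [hP]; rfl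
      apply hf P ((hBm P).1 hPB)
      obtain ⟨c, hc'⟩ := h3
      refine ⟨-(c : ℤ), ?_⟩
      have : (g : ℤ) + 1 = 3 * (c : ℤ) := by exact_mod_cast hc'
      linarith
    · obtain ⟨P, Q, hPQ, hPQB⟩ := Set.ncard_eq_two.1 h2
      have hPB : P ∈ B := by rw [hPQB]; exact Set.mem_insert _ _
      have hQB : Q ∈ B := by rw [hPQB]; exact Set.mem_insert_of_mem _ rfl
      have hS0 := ASFin_two hf G hG P Q hPQ ((hBm P).1 hPB)
      have hfib : ∀ v : OnePoint k × OnePoint k,
          {s : Equiv.Perm (OnePoint k) | s ∈ G ∧ s P = v.1 ∧ s Q = v.2}.Finite := by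
        intro v
        rcases Set.eq_empty_or_nonempty
          {s : Equiv.Perm (OnePoint k) | s ∈ G ∧ s P = v.1 ∧ s Q = v.2} with he | ⟨s0, hs0⟩
        · rw [he]
          exact Set.finite_empty
        · refine Set.Finite.subset (hS0.image fun u => s0 * u) ?_
          rintro s ⟨hsG, hsP, hsQ⟩
          refine ⟨s0⁻¹ * s, ⟨G.mul_mem (G.inv_mem hs0.1) hsG, ?_, ?_⟩, ?_⟩
          · rw [Equiv.Perm.mul_apply, hsP, ← hs0.2.1, B6_inv_apply]
          · rw [Equiv.Perm.mul_apply, hsQ, ← hs0.2.2, B6_inv_apply]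
          · exact mul_inv_cancel_left s0 s
      have hfin : (G : Set (Equiv.Perm (OnePoint k))).Finite := by
        refine Set.Finite.subset ((hBf.prod hBf).biUnion fun v _ => hfib v) ?_
        intro s hs
        exact Set.mem_biUnion (x := (s P, s Q)) (Set.mk_mem_prod (hGB s hs P hPB) (hGB s hs Q hQB))
          ⟨hs, rfl, rfl⟩
      exact hfin.to_subtype

end Pool.Agent.Helper54.HZ
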