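import Pool.Agent.Helper54.HZ.ASAct
import Pool.Agent.Helper54.HZ.Mob
import Pool.Agent.Helper28.HA.A4

/-!
MP_143e28_ag, project HZ, part 2 (characteristic 3): the group of Moebius transformations.

Adapt the proof of `auto_group` in `Helper28.HA.A4` (compare `Grp.lean`, in progress: helper45): `G` = the `mact M` with `s x = M (x)` for
some automorphism `s`; `as_inv` for the second property; at most three automorphisms over every element of `G`: `s x = s' x` gives
`(s y) ^ 3 - s y = (s' y) ^ 3 - s' y`, so `d = s y - s' y` satisfies `d ^ 3 = d`, `d ∈ {0, 1, -1}`.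
-/

set_option autoImplicit false

namespace Pool.Agent.Helper54.HZ

open Polynomial OnePoint Pool.Agent.Helper28.HA

variable {k F : Type*} [Field k] [Field F] [Algebra k F]

/-- `s x = M (x)` -/
private def ASGrp_rel (x : F) (s : F ≃ₐ[k] F) (M : GL (Fin 2) k) : Prop :=
  s x * (algebraMap k F (M 1 0) * x + algebraMap k F (M 1 1)) =
    algebraMap k F (M 0 0) * x + algebraMap k F (M 0 1)

private theorem ASGrp_lin_ne {x : F} (hx : Transcendental k x) (M : GL (Fin 2) k) :
    algebraMap k F (M 1 0) * x + algebraMap k F (M 1 1) ≠ 0 := by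
  intro h0
  have hp : (C (M 1 0) * X + C (M 1 1) : k[X]) = 0 := by
    by_contra hne
    exact hx ⟨C (M 1 0) * X + C (M 1 1), hne, by simpa using h0⟩
  have h1 : M 1 0 = 0 := by
    have := congrArg (fun q : k[X] => q.coeff 1) hp
    simpa [coeff_C] using this
  have h2 : M 1 1 = 0 := by
    have := congrArg (fun q : k[X] => q.coeff 0) hp
    simpa [coeff_C] using this
  have hd := M.det_ne_zero
  rw [Matrix.det_fin_two, h1, h2] at hd
  simp at hd

private theorem ASGrp_one (x : F) : ASGrp_rel x (1 : F ≃ₐ[k] F) 1 := by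
  simp [ASGrp_rel]

private theorem ASGrp_mul {x : F} {s t : F ≃ₐ[k] F} {M N : GL (Fin 2) k} (hx : Transcendental k x)
    (hs : ASGrp_rel x s M) (ht : ASGrp_rel x t N) : ASGrp_rel x (t * s) (M * N) := by
  unfold ASGrp_rel at *
  have h1 := congrArg t hs
  simp only [map_mul, map_add, AlgEquiv.commutes] at h1
  have hD := ASGrp_lin_ne hx N
  have e : (t * s) x = t (s x) := rfl
  rw [e]
  have hm : ∀ i j, (M * N) i j = M i 0 * N 0 j + M i 1 * N 1 j := by
    intro i j
    rw [Units.val_mul, Matrix.mul_apply, Fin.sum_univ_two]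
  simp only [hm, map_add, map_mul]
  linear_combination (algebraMap k F (N 1 0) * x + algebraMap k F (N 1 1)) * h1 +
    (algebraMap k F (M 0 0) - t (s x) * algebraMap k F (M 1 0)) * ht

private theorem ASGrp_inv {x : F} {s : F ≃ₐ[k] F} {M : GL (Fin 2) k}
    (hs : ASGrp_rel x s M) : ASGrp_rel x s⁻¹ M⁻¹ := by
  unfold ASGrp_rel at *
  have h1 := congrArg (s⁻¹ : F ≃ₐ[k] F) hs
  have e : (s⁻¹ : F ≃ₐ[k] F) (s x) = x := s.symm_apply_apply x
  simp only [map_mul, map_add, AlgEquiv.commutes, e] at h1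
  have hd : (M : Matrix (Fin 2) (Fin 2) k).det ≠ 0 := M.det_ne_zero
  have hi : ((M⁻¹ : GL (Fin 2) k) : Matrix (Fin 2) (Fin 2) k) =
      (M : Matrix (Fin 2) (Fin 2) k).det⁻¹ • !![M 1 1, -M 0 1; -M 1 0, M 0 0] := by
    rw [Matrix.coe_units_inv, Matrix.inv_def, Matrix.adjugate_fin_two, Ring.inverse_eq_inv']
  have i00 : (M⁻¹ : GL (Fin 2) k) 0 0 = (M : Matrix (Fin 2) (Fin 2) k).det⁻¹ * M 1 1 := by
    rw [hi]; simp
  have i01 : (M⁻¹ : GL (Fin 2) k) 0 1 = (M : Matrix (Fin 2) (Fin 2) k).det⁻¹ * (-M 0 1) := by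
    rw [hi]; simp
  have i10 : (M⁻¹ : GL (Fin 2) k) 1 0 = (M : Matrix (Fin 2) (Fin 2) k).det⁻¹ * (-M 1 0) := by
    rw [hi]; simp
  have i11 : (M⁻¹ : GL (Fin 2) k) 1 1 = (M : Matrix (Fin 2) (Fin 2) k).det⁻¹ * M 0 0 := by
    rw [hi]; simp
  rw [i00, i01, i10, i11]
  simp only [map_mul, map_neg]
  linear_combination (-algebraMap k F ((M : Matrix (Fin 2) (Fin 2) k).det⁻¹)) * h1

private theorem ASGrp_eq [Infinite k] {x : F} (hx : Transcendental k x) {s s' : F ≃ₐ[k] F}
    {M M' : GL (Fin 2) k} (hs : ASGrp_rel x s M) (hs' : ASGrp_rel x s' M') (hm : mact M = mact M') :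
    s x = s' x := by
  have key : ∀ a : k, (M 0 0 * a + M 0 1) * (M' 1 0 * a + M' 1 1) =
      (M' 0 0 * a + M' 0 1) * (M 1 0 * a + M 1 1) := by
    intro a
    have ha : mact M (a : OnePoint k) = mact M' (a : OnePoint k) := by rw [hm]
    by_cases h1 : M 1 0 * a + M 1 1 = 0
    · by_cases h2 : M' 1 0 * a + M' 1 1 = 0
      · rw [h1, h2]; ring
      · rw [mact_some_zero M a h1, mact_some M' a h2] at ha
        exact absurd ha (OnePoint.infty_ne_coe _)
    · by_cases h2 : M' 1 0 * a + M' 1 1 = 0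
      · rw [mact_some M a h1, mact_some_zero M' a h2] at ha
        exact absurd ha (OnePoint.coe_ne_infty _)
      · rw [mact_some M a h1, mact_some M' a h2, OnePoint.coe_eq_coe, div_eq_div_iff h1 h2] at ha
        exact ha
  have hp : ((C (M 0 0) * X + C (M 0 1)) * (C (M' 1 0) * X + C (M' 1 1)) -
      (C (M' 0 0) * X + C (M' 0 1)) * (C (M 1 0) * X + C (M 1 1)) : k[X]) = 0 := by
    apply Polynomial.funext
    intro a
    simp only [eval_sub, eval_mul, eval_add, eval_C, eval_X, eval_zero]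
    rw [key a, sub_self]
  have hq := congrArg (aeval x) hp
  simp only [map_sub, map_mul, map_add, aeval_C, aeval_X, map_zero] at hq
  have d1 := ASGrp_lin_ne hx M
  have d2 := ASGrp_lin_ne hx M'
  unfold ASGrp_rel at hs hs'
  have : (s x - s' x) * ((algebraMap k F (M 1 0) * x + algebraMap k F (M 1 1)) *
      (algebraMap k F (M' 1 0) * x + algebraMap k F (M' 1 1))) = 0 := by
    linear_combination (algebraMap k F (M' 1 0) * x + algebraMap k F (M' 1 1)) * hs -
      (algebraMap k F (M 1 0) * x + algebraMap k F (M 1 1)) * hs' + hq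
  rcases mul_eq_zero.mp this with h | h
  · exact sub_eq_zero.mp h
  · exact absurd h (mul_ne_zero d1 d2)

private theorem ASGrp_ext {g : ℕ} {x y : F} {f : RatFunc k} (h : PresAS k F 3 g x y f)
    {s s' : F ≃ₐ[k] F} (h1 : s x = s' x) (h2 : s y = s' y) : s = s' := by
  ext z
  have hz : z ∈ IntermediateField.adjoin k ({x, y} : Set F) := by rw [h.gen]; trivial
  induction hz using IntermediateField.adjoin_induction with
  | mem u hu =>
    rcases hu with rfl | hu
    · exact h1
    · rw [Set.mem_singleton_iff] at hu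
      rw [hu]; exact h2
  | algebraMap u => simp
  | add u v _ _ hu hv => rw [map_add, map_add, hu, hv]
  | inv u _ hu => rw [map_inv₀, map_inv₀, hu]
  | mul u v _ _ hu hv => rw [map_mul, map_mul, hu, hv]

private theorem ASGrp_cube [CharP k 3] {g : ℕ} {x y : F} {f : RatFunc k} (h : PresAS k F 3 g x y f)
    {s s' : F ≃ₐ[k] F} (h1 : s x = s' x) : (s y - s' y) ^ 3 - (s y - s' y) = 0 := by
  have : CharP F 3 := charP_of_injective_algebraMap (algebraMap k F).injective 3
  have : Fact (Nat.Prime 3) := ⟨Nat.prime_three⟩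
  have a1 : ∀ (t : F ≃ₐ[k] F) (p : k[X]), t (aeval x p) = aeval (t x) p := by
    intro t p
    simpa using (Polynomial.aeval_algHom_apply (t : F →ₐ[k] F) x p).symm
  have e1 : ∀ t : F ≃ₐ[k] F, (t y) ^ 3 - t y = aeval (t x) f.num / aeval (t x) f.denom := by
    intro t
    have h2 := congrArg t h.eqn
    rwa [map_sub, map_pow, map_div₀, a1, a1] at h2
  have h3 := e1 s
  have h4 := e1 s'
  rw [h1] at h3
  rw [sub_pow_char]
  linear_combination h3 - h4

theorem as_group [IsAlgClosed k] [CharP k 3] {g : ℕ} {x y : F} {f : RatFunc k} (h : PresAS k F 3 g x y f)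
    (hmem : ∀ s : F ≃ₐ[k] F, s x ∈ IntermediateField.adjoin k {x}) :
    ∃ G : Subgroup (Equiv.Perm (OnePoint k)), (∀ s ∈ G, ∃ M : GL (Fin 2) k, s = mact M ∧ ASInv M f) ∧
      (Finite G → Finite (F ≃ₐ[k] F) ∧ Nat.card (F ≃ₐ[k] F) ≤ 3 * Nat.card G) := by
  have : Infinite k := IsAlgClosed.instInfinite
  let G : Subgroup (Equiv.Perm (OnePoint k)) :=
    { carrier := {p | ∃ (s : F ≃ₐ[k] F) (M : GL (Fin 2) k), ASGrp_rel x s M ∧ p = mact M}
      mul_mem' := by
        rintro _ _ ⟨s, M, hs, rfl⟩ ⟨t, N, ht, rfl⟩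
        exact ⟨t * s, M * N, ASGrp_mul h.trans hs ht, by rw [map_mul]⟩
      one_mem' := ⟨1, 1, ASGrp_one x, by rw [map_one]⟩
      inv_mem' := by
        rintro _ ⟨s, M, hs, rfl⟩
        exact ⟨s⁻¹, M⁻¹, ASGrp_inv hs, by rw [map_inv]⟩ }
  refine ⟨G, ?_, ?_⟩
  · rintro _ ⟨s, M, hs, rfl⟩
    exact ⟨M, rfl, as_inv h hmem s M hs⟩
  · intro hfin
    classical
    have hM : ∀ s : F ≃ₐ[k] F, ∃ M : GL (Fin 2) k, ASGrp_rel x s M := by
      intro s
      obtain ⟨M, _, hM⟩ := Pool.Agent.Helper54.HZ.auto_mob h.trans hmem s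
      exact ⟨M, hM⟩
    choose M hM using hM
    let φ : (F ≃ₐ[k] F) → G := fun s => ⟨mact (M s), s, M s, hM s, rfl⟩
    have hφ : ∀ s s', φ s = φ s' → s x = s' x := by
      intro s s' hss
      exact ASGrp_eq h.trans (hM s) (hM s') (congrArg Subtype.val hss)
    let rep : G → F := fun p => if hp : ∃ s, φ s = p then (hp.choose : F ≃ₐ[k] F) y else 0
    have hrep : ∀ s, (s y - rep (φ s)) ^ 3 - (s y - rep (φ s)) = 0 := by
      intro s
      have hex : ∃ t, φ t = φ s := ⟨s, rfl⟩
      have h3 : rep (φ s) = (hex.choose : F ≃ₐ[k] F) y := by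
        simp only [rep, dif_pos hex]
      rw [h3]
      exact ASGrp_cube h (hφ _ _ hex.choose_spec.symm)
    have hQ : (X ^ 3 - X : F[X]).natDegree = 3 := by
      have h3 : (X ^ 3 - X : F[X]) = X ^ 3 - C 1 * X := by rw [C_1, one_mul]
      rw [h3]
      compute_degree!
    have hQ0 : (X ^ 3 - X : F[X]) ≠ 0 := by
      intro h3
      rw [h3, natDegree_zero] at hQ
      exact absurd hQ (by norm_num)
    let U : Finset F := (X ^ 3 - X : F[X]).roots.toFinset
    have hU : ∀ s, s y - rep (φ s) ∈ U := by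
      intro s
      rw [Multiset.mem_toFinset, mem_roots hQ0, IsRoot.def, eval_sub, eval_pow, eval_X]
      exact hrep s
    have hUc : U.card ≤ 3 := by
      have h3 : U.card ≤ Multiset.card (X ^ 3 - X : F[X]).roots := Multiset.toFinset_card_le _
      refine h3.trans ((card_roots' _).trans ?_)
      rw [hQ]
    let ψ : (F ≃ₐ[k] F) → U × G := fun s => (⟨s y - rep (φ s), hU s⟩, φ s)
    have hψ : Function.Injective ψ := by
      intro s s' hss
      have e2 : φ s = φ s' := congrArg Prod.snd hss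
      have e1 : s y - rep (φ s) = s' y - rep (φ s') :=
        congrArg (fun z : U × G => (z.1 : F)) hss
      apply ASGrp_ext h (hφ _ _ e2)
      rw [e2] at e1
      exact sub_left_injective e1
    have : Finite (U × G) := inferInstance
    refine ⟨Finite.of_injective ψ hψ, ?_⟩
    have h3 := Nat.card_le_card_of_injective ψ hψ
    rw [Nat.card_prod] at h3
    have h4 : Nat.card U = U.card := by simp
    rw [h4] at h3
    exact h3.trans (Nat.mul_le_mul_right _ hUc)

end Pool.Agent.Helper54.HZ
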