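import Pool.Agent.Helper28.HA.B3

/-!
MP_143e28_ag, project HZ, part 2: the order of the stabilizer of a point.

Choose `t` with `t P = ∞` (`mob_trans`); for `s ∈ stab G P` the map `t s t⁻¹` is `z ↦ a z + b` (`mob_affine`, `IsMob.mul`, `IsMob.inv`), with
`a ^ N = 1` by hypothesis: at most `N` values of `a` (`card_nthRoots`).  Two elements `s, s'` with the same `a`: `s' s⁻¹` is a translation
in the coordinate `t`, so in `uni G P`; so every fibre has at most `#uni` elements (`Finset.card_le_mul_card_image` or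
`Nat.card` of an injection into a product).
-/

set_option autoImplicit false

namespace Pool.Agent.Helper54.HZ

open Pool.Agent.Helper28.HA

variable {k : Type*} [Field k]

/-- an element of `G` which becomes a translation after moving `P` to `∞` lies in `uni G P` -/
theorem ASStab_uni (G : Subgroup (Equiv.Perm (OnePoint k))) {P : OnePoint k}
    {t : Equiv.Perm (OnePoint k)} (htP : t P = OnePoint.infty) {u : Equiv.Perm (OnePoint k)}
    (huG : u ∈ G) (β : k) (hi : (t * u * t⁻¹) OnePoint.infty = OnePoint.infty)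
    (hz : ∀ z : k, (t * u * t⁻¹) (z : OnePoint k) = ((z + β : k) : OnePoint k)) : u ∈ uni G P := by
  refine ⟨huG, ?_⟩
  have hc : ∀ Q, (t * u * t⁻¹) (t Q) = t (u Q) := by
    intro Q
    rw [Equiv.Perm.mul_apply, Equiv.Perm.mul_apply, B3_inv_apply]
  by_cases hβ : β = 0
  · left
    have h1 : t * u * t⁻¹ = 1 := by
      ext x
      induction x using OnePoint.rec with
      | infty => rw [hi, Equiv.Perm.one_apply]
      | coe z => rw [hz, hβ, add_zero, Equiv.Perm.one_apply]
    have h2 : t * u = t := by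
      have := congrArg (fun w => w * t) h1
      simpa using this
    exact mul_left_cancel (h2.trans (mul_one t).symm)
  · right
    intro Q
    constructor
    · intro hQ
      by_contra hne
      have h3 : t Q ≠ OnePoint.infty := fun h => hne (t.injective (h.trans htP.symm))
      obtain ⟨z, hzQ⟩ := OnePoint.ne_infty_iff_exists.1 h3
      have h4 := hc Q
      rw [hQ, ← hzQ, hz, OnePoint.coe_eq_coe] at h4
      exact hβ (by simpa using h4)
    · rintro rfl
      have h4 := hc Q
      rw [htP, hi] at h4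
      exact t.injective (h4.symm.trans htP.symm)

private noncomputable def cv (x : OnePoint k) : k := x.elim 0 id

private theorem cv_coe (z : k) : cv (z : OnePoint k) = z := rfl

theorem stab_tame (G : Subgroup (Equiv.Perm (OnePoint k))) [Finite G] (hG : MobGroup G) (P : OnePoint k)
    (N : ℕ) (hN : 0 < N)
    (h : ∀ s ∈ G, s P = P → ∀ t : Equiv.Perm (OnePoint k), IsMob t → t P = OnePoint.infty → ∀ a b : k,
      (∀ z : k, (t * s * t⁻¹) (z : OnePoint k) = ((a * z + b : k) : OnePoint k)) → a ^ N = 1) :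
    Nat.card (stab G P) ≤ Nat.card (uni G P) * N := by
  classical
  obtain ⟨t, ht, htP⟩ := mob_trans P
  have hfG : (G : Set (Equiv.Perm (OnePoint k))).Finite := Set.toFinite _
  have hfs : (stab G P).Finite := hfG.subset fun s hs => hs.1
  have hfu : (uni G P).Finite := hfG.subset fun s hs => hs.1
  have hti : t⁻¹ OnePoint.infty = P := by rw [← htP, B3_inv_apply]
  have hinf : ∀ s, s P = P → (t * s * t⁻¹) OnePoint.infty = OnePoint.infty := by
    intro s hs
    rw [Equiv.Perm.mul_apply, Equiv.Perm.mul_apply, hti, hs, htP]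
  have haff : ∀ s ∈ stab G P, ∃ a b : k, a ≠ 0 ∧
      ∀ z : k, (t * s * t⁻¹) (z : OnePoint k) = ((a * z + b : k) : OnePoint k) := by
    intro s hs
    exact mob_affine ((ht.mul (hG s hs.1)).mul ht.inv) (hinf s hs.2)
  set A : Equiv.Perm (OnePoint k) → k := fun s =>
    cv ((t * s * t⁻¹) ((1 : k) : OnePoint k)) - cv ((t * s * t⁻¹) ((0 : k) : OnePoint k)) with hA
  have hAa : ∀ s (a b : k), (∀ z : k, (t * s * t⁻¹) (z : OnePoint k) = ((a * z + b : k) : OnePoint k)) →
      A s = a := by
    intro s a b hab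
    rw [hA]
    dsimp only
    rw [hab 1, hab 0, cv_coe, cv_coe]
    ring
  rw [Nat.card_coe_set_eq, Nat.card_coe_set_eq, Set.ncard_eq_toFinset_card _ hfs,
    Set.ncard_eq_toFinset_card _ hfu]
  have h1 : (hfs.toFinset.image A).card ≤ N := by
    have h2 : hfs.toFinset.image A ⊆ (Polynomial.nthRoots N (1 : k)).toFinset := by
      intro a ha
      obtain ⟨s, hs, rfl⟩ := Finset.mem_image.1 ha
      have hs' : s ∈ stab G P := hfs.mem_toFinset.1 hs
      obtain ⟨a, b, -, hab⟩ := haff s hs'
      rw [Multiset.mem_toFinset, Polynomial.mem_nthRoots hN, hAa s a b hab]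
      exact h s hs'.1 hs'.2 t ht htP a b hab
    exact (Finset.card_le_card h2).trans ((Multiset.toFinset_card_le _).trans
      (Polynomial.card_nthRoots N 1))
  refine (Finset.card_le_mul_card_image (f := A) hfs.toFinset hfu.toFinset.card ?_).trans
    (Nat.mul_le_mul_left _ h1)
  intro a ha
  obtain ⟨s0, hs0, hs0a⟩ := Finset.mem_image.1 ha
  have hs0' : s0 ∈ stab G P := hfs.mem_toFinset.1 hs0
  refine Finset.card_le_card_of_injOn (fun s => s * s0⁻¹) ?_ ?_
  · intro s hs
    have hs1 := Finset.mem_filter.1 (Finset.mem_coe.1 hs)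
    have hs' : s ∈ stab G P := hfs.mem_toFinset.1 hs1.1
    refine Finset.mem_coe.2 (hfu.mem_toFinset.2 ?_)
    obtain ⟨a1, b1, ha1, hab1⟩ := haff s hs'
    obtain ⟨a2, b2, ha2, hab2⟩ := haff s0 hs0'
    have e1 : a1 = a := (hAa s a1 b1 hab1).symm.trans hs1.2
    have e2 : a2 = a := (hAa s0 a2 b2 hab2).symm.trans hs0a
    subst e1
    have hs0P : s0⁻¹ P = P := by
      have := B3_inv_apply s0 P
      rwa [hs0'.2] at this
    refine ASStab_uni G htP (G.mul_mem hs'.1 (G.inv_mem hs0'.1)) (b1 - b2) (hinf _ ?_) fun z => ?_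
    · rw [Equiv.Perm.mul_apply, hs0P, hs'.2]
    · have e3 : t * (s * s0⁻¹) * t⁻¹ = (t * s * t⁻¹) * (t * s0 * t⁻¹)⁻¹ := by group
      have e4 : (t * s0 * t⁻¹)⁻¹ (z : OnePoint k) = (((z - b2) / a1 : k) : OnePoint k) := by
        have e5 := hab2 ((z - b2) / a1)
        have e6 : a2 * ((z - b2) / a1) + b2 = z := by
          rw [e2]
          field_simp
          ring
        rw [e6] at e5
        rw [← e5, B3_inv_apply]
      rw [e3, Equiv.Perm.mul_apply, e4, hab1]
      congr 1
      field_simp
      ring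
  · intro s _ s' _ hss
    exact mul_right_cancel hss

end Pool.Agent.Helper54.HZ
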