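import Pool.Agent.Helper54.HZ.ASAct

/-!
MP_143e28_ag, project HZ, part 2 (characteristic 3): the tame part of the stabilizer of a pole.

Let `f' = aeval (mobX M) f.num / aeval (mobX M) f.denom` (`f` composed with `M`); `f' = e f + (c ^ 3 - c)`, `e = ± 1`, and (see the proof of
`as_ord` in `ASAct.lean`) `ordP P (c ^ 3 - c) > ordP P f` or `c ^ 3 = c`.
`as_tame`: `mact M P = P`, `ordP P f = - m < 0`, and in the coordinate `t` (`t P = ∞`) `M` is `z ↦ a z + b`.  Let `T` be a matrix of `t`,
`X' = mobX T` (a function with a simple pole at `P`), so `X' ∘ M = a X' + b`, and `u = X'⁻¹` (or a power series): near `P`,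
`f = l X' ^ m + ` terms of smaller pole order, i.e. `ordP P (f - l X' ^ m) > - m` for a constant `l ≠ 0` (`l` = value at `P` of
`f / X' ^ m`); compose with `M`: `f' = l (a X' + b) ^ m + ...`, and `f' = e f + (smaller pole order)`, so `l a ^ m = e l`, `a ^ m = ± 1`.
(Alternative: reduce to `P = ∞` by replacing `f` by `f ∘ t⁻¹`: then `f`, `f'` are quotients of polynomials and `l` is the quotient of
the leading coefficients; only the relation `f' = e f + (c ^ 3 - c)` between rational functions is used, not `F`.)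
-/

set_option autoImplicit false

namespace Pool.Agent.Helper54.HZ

open Polynomial Pool.Agent.Helper28.HA Pool.Agent.Helper54.HY

variable {k : Type*} [Field k]

private theorem ASTame_trans (M : GL (Fin 2) k) : Transcendental k (mobX M) := by
  rw [transcendental_iff]
  intro p hp
  by_contra h
  exact mobX_ne M h hp

private theorem ASTame_rat (M : GL (Fin 2) k) (r : RatFunc k) :
    rat (ASTame_trans M) r = aeval (mobX M) r.num / aeval (mobX M) r.denom := by
  conv_lhs => rw [← RatFunc.num_div_denom r]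
  rw [map_div₀, rat_poly, rat_poly]

private theorem ASTame_ord [IsAlgClosed k] (M : GL (Fin 2) k) {r : RatFunc k} (hr : r ≠ 0)
    (P : OnePoint k) : ordP P (rat (ASTame_trans M) r) = ordP (mact M P) r := by
  have hn := RatFunc.num_ne_zero hr
  have hd := RatFunc.denom_ne_zero r
  rw [ASTame_rat, div_eq_mul_inv, ord_mul P (mobX_ne M hn) (inv_ne_zero (mobX_ne M hd)),
    ord_inv P (mobX_ne M hd), ord_comp M hn, ord_comp M hd]
  conv_rhs => rw [← RatFunc.num_div_denom r, div_eq_mul_inv]
  rw [ord_mul _ (RatFunc.algebraMap_ne_zero hn) (inv_ne_zero (RatFunc.algebraMap_ne_zero hd)),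
    ord_inv _ (RatFunc.algebraMap_ne_zero hd)]

private theorem ASTame_det (M : GL (Fin 2) k) : M 0 0 * M 1 1 - M 0 1 * M 1 0 ≠ 0 := by
  have h := M.det_ne_zero
  rw [Matrix.det_fin_two] at h
  exact h

private theorem ASTame_den_ne (M : GL (Fin 2) k) : (C (M 1 0) * X + C (M 1 1) : k[X]) ≠ 0 := by
  intro h
  have h1 := congrArg (fun p : k[X] => p.coeff 1) h
  have h0 := congrArg (fun p : k[X] => p.coeff 0) h
  simp at h1 h0
  apply ASTame_det M
  rw [h1, h0]
  ring

private theorem ASTame_mul (A B : GL (Fin 2) k) :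
    rat (ASTame_trans B) (mobX A) = mobX (A * B) := by
  have h00 : (A * B) 0 0 = A 0 0 * B 0 0 + A 0 1 * B 1 0 := by
    show ((A * B : GL (Fin 2) k) : Matrix (Fin 2) (Fin 2) k) 0 0 = _
    rw [Units.val_mul, Matrix.mul_apply, Fin.sum_univ_two]
  have h01 : (A * B) 0 1 = A 0 0 * B 0 1 + A 0 1 * B 1 1 := by
    show ((A * B : GL (Fin 2) k) : Matrix (Fin 2) (Fin 2) k) 0 1 = _
    rw [Units.val_mul, Matrix.mul_apply, Fin.sum_univ_two]
  have h10 : (A * B) 1 0 = A 1 0 * B 0 0 + A 1 1 * B 1 0 := by
    show ((A * B : GL (Fin 2) k) : Matrix (Fin 2) (Fin 2) k) 1 0 = _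
    rw [Units.val_mul, Matrix.mul_apply, Fin.sum_univ_two]
  have h11 : (A * B) 1 1 = A 1 0 * B 0 1 + A 1 1 * B 1 1 := by
    show ((A * B : GL (Fin 2) k) : Matrix (Fin 2) (Fin 2) k) 1 1 = _
    rw [Units.val_mul, Matrix.mul_apply, Fin.sum_univ_two]
  have hd : algebraMap k[X] (RatFunc k) (C (B 1 0) * X + C (B 1 1)) ≠ 0 :=
    RatFunc.algebraMap_ne_zero (ASTame_den_ne B)
  have e : ∀ a b : k, aeval (mobX B) (C a * X + C b : k[X]) =
      algebraMap k[X] (RatFunc k) (C (a * B 0 0 + b * B 1 0) * X + C (a * B 0 1 + b * B 1 1)) /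
        algebraMap k[X] (RatFunc k) (C (B 1 0) * X + C (B 1 1)) := by
    intro a b
    have e1 : (C (a * B 0 0 + b * B 1 0) * X + C (a * B 0 1 + b * B 1 1) : k[X]) =
        C a * (C (B 0 0) * X + C (B 0 1)) + C b * (C (B 1 0) * X + C (B 1 1)) := by
      simp only [C_add, C_mul]
      ring
    have ea : ∀ c : k, algebraMap k (RatFunc k) c = algebraMap k[X] (RatFunc k) (C c) := by
      intro c
      rw [RatFunc.algebraMap_eq_C, RatFunc.algebraMap_C]
    rw [e1, map_add, map_mul, aeval_C, aeval_C, aeval_X, ea, ea, map_add (algebraMap k[X] (RatFunc k)),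
      map_mul (algebraMap k[X] (RatFunc k)), map_mul (algebraMap k[X] (RatFunc k)), add_div,
      mul_div_cancel_right₀ _ hd, mul_div_assoc]
    rfl
  have e2 : mobX A = algebraMap k[X] (RatFunc k) (C (A 0 0) * X + C (A 0 1)) /
    algebraMap k[X] (RatFunc k) (C (A 1 0) * X + C (A 1 1)) := rfl
  rw [e2, map_div₀, rat_poly, rat_poly, e, e, div_div_div_cancel_right₀ hd]
  unfold mobX
  rw [h00, h01, h10, h11]

/-- the value of a rational function of order zero -/
private theorem ASTame_res (P : OnePoint k) {r : RatFunc k} (hr : r ≠ 0) (h : ordP P r = 0) :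
    ∃ l : k, r - algebraMap k[X] (RatFunc k) (C l) = 0 ∨
      0 < ordP P (r - algebraMap k[X] (RatFunc k) (C l)) := by
  have hn := RatFunc.num_ne_zero hr
  have hd := RatFunc.denom_ne_zero r
  have hd' : algebraMap k[X] (RatFunc k) r.denom ≠ 0 := RatFunc.algebraMap_ne_zero hd
  have key : ∀ l : k, r - algebraMap k[X] (RatFunc k) (C l) =
      algebraMap k[X] (RatFunc k) (r.num - C l * r.denom) /
        algebraMap k[X] (RatFunc k) r.denom := by
    intro l
    rw [map_sub, map_mul, sub_div, mul_div_cancel_right₀ _ hd', RatFunc.num_div_denom]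
  induction P using OnePoint.rec with
  | infty =>
    rw [ordP_infty] at h
    have hdeg : r.num.natDegree = r.denom.natDegree := by omega
    have hln : r.num.leadingCoeff ≠ 0 := leadingCoeff_ne_zero.2 hn
    have hld : r.denom.leadingCoeff ≠ 0 := leadingCoeff_ne_zero.2 hd
    refine ⟨r.num.leadingCoeff / r.denom.leadingCoeff, ?_⟩
    by_cases h0 : r.num - C (r.num.leadingCoeff / r.denom.leadingCoeff) * r.denom = 0
    · left
      rw [key, h0, map_zero, zero_div]
    · right
      rw [key, Ord_div _ h0 hd, Ord_v_infty, Ord_v_infty]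
      have hc : r.num.leadingCoeff / r.denom.leadingCoeff ≠ 0 := div_ne_zero hln hld
      have h1 : (r.num - C (r.num.leadingCoeff / r.denom.leadingCoeff) * r.denom).degree <
          r.num.degree := by
        apply degree_sub_lt_left
        · rw [degree_C_mul hc, degree_eq_natDegree hn, degree_eq_natDegree hd, hdeg]
        · exact hn
        · rw [leadingCoeff_mul, leadingCoeff_C, div_mul_cancel₀ _ hld]
      have h2 := natDegree_lt_natDegree h0 h1
      omega
  | coe a =>
    rw [ordP_coe] at h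
    have hda : r.denom.eval a ≠ 0 := by
      intro h0
      have h1 : 0 < r.denom.rootMultiplicity a := (rootMultiplicity_pos hd).2 h0
      have h2 : 0 < r.num.rootMultiplicity a := by omega
      have h3 : r.num.eval a = 0 := (rootMultiplicity_pos hn).1 h2
      obtain ⟨u, v, huv⟩ := RatFunc.isCoprime_num_denom r
      have h4 := congrArg (Polynomial.eval a) huv
      rw [eval_add, eval_mul, eval_mul, h0, h3, mul_zero, mul_zero, add_zero, eval_one] at h4
      exact zero_ne_one h4
    refine ⟨r.num.eval a / r.denom.eval a, ?_⟩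
    by_cases h0 : r.num - C (r.num.eval a / r.denom.eval a) * r.denom = 0
    · left
      rw [key, h0, map_zero, zero_div]
    · right
      rw [key, Ord_div _ h0 hd, Ord_v_coe, Ord_v_coe]
      have h1 : 0 < (r.num - C (r.num.eval a / r.denom.eval a) * r.denom).rootMultiplicity a := by
        rw [rootMultiplicity_pos h0, IsRoot.def, eval_sub, eval_mul, eval_C,
          div_mul_cancel₀ _ hda, sub_self]
      have h2 : r.denom.rootMultiplicity a = 0 := rootMultiplicity_eq_zero hda
      rw [h2]
      simpa using h1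

theorem as_tame [IsAlgClosed k] [CharP k 3] {f : RatFunc k}
    (hf : ∀ P : OnePoint k, ordP P f < 0 → ¬ (3 : ℤ) ∣ ordP P f) {M : GL (Fin 2) k} (hM : ASInv M f)
    {P : OnePoint k} {m : ℕ} (hm : 0 < m) (hP : ordP P f = -(m : ℤ)) (hfix : mact M P = P)
    {t : Equiv.Perm (OnePoint k)} (ht : IsMob t) (htP : t P = OnePoint.infty) {a b : k}
    (hab : ∀ z : k, (t * mact M * t⁻¹) (z : OnePoint k) = ((a * z + b : k) : OnePoint k)) :
    a ^ (2 * m) = 1 := by
  obtain ⟨T, rfl⟩ := ht
  obtain ⟨e, c, he, hec⟩ := hM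
  obtain ⟨σ, hσ⟩ : ∃ σ : RatFunc k →ₐ[k] RatFunc k, σ = rat (ASTame_trans M) := ⟨_, rfl⟩
  have hσf : σ f = e * f + (c ^ 3 - c) := by rw [hσ, ASTame_rat, hec]
  have hC : ∀ l : k, σ (algebraMap k[X] (RatFunc k) (C l)) = algebraMap k[X] (RatFunc k) (C l) := by
    intro l
    have : algebraMap k[X] (RatFunc k) (C l) = algebraMap k (RatFunc k) l := by
      rw [RatFunc.algebraMap_eq_C, RatFunc.algebraMap_C]
    rw [this]
    exact σ.commutes l
  -- the coordinate
  obtain ⟨N, hN⟩ : ∃ N : GL (Fin 2) k, N = T * M * T⁻¹ := ⟨_, rfl⟩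
  have hNact : mact N = mact T * mact M * (mact T)⁻¹ := by rw [hN, map_mul, map_mul, map_inv]
  have hNi : mact N OnePoint.infty = OnePoint.infty := by
    rw [hNact]
    show mact T (mact M ((mact T)⁻¹ OnePoint.infty)) = OnePoint.infty
    have h1 : (mact T)⁻¹ OnePoint.infty = P := by
      rw [← htP]
      exact Equiv.symm_apply_apply _ _
    rw [h1, hfix, htP]
  have hN10 : N 1 0 = 0 := by
    by_contra hc
    rw [mact_infty N hc] at hNi
    exact OnePoint.coe_ne_infty _ hNi
  have hN11 : N 1 1 ≠ 0 := by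
    have h1 := ASTame_det N
    rw [hN10, mul_zero, sub_zero] at h1
    exact right_ne_zero_of_mul h1
  have hNz : ∀ z : k, (N 0 0 * z + N 0 1) / N 1 1 = a * z + b := by
    intro z
    have h1 := hab z
    have hz : N 1 0 * z + N 1 1 ≠ 0 := by
      rw [hN10, zero_mul, zero_add]
      exact hN11
    rw [← hNact, mact_some N z hz, OnePoint.coe_eq_coe, hN10, zero_mul, zero_add] at h1
    exact h1
  have hb : b = N 0 1 / N 1 1 := by
    have := hNz 0
    rw [mul_zero, zero_add, mul_zero, zero_add] at this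
    exact this.symm
  have ha : a = N 0 0 / N 1 1 := by
    have := hNz 1
    rw [mul_one, mul_one, add_div, ← hb] at this
    exact (add_right_cancel this).symm
  have hTM : T * M = N * T := by
    rw [hN]
    group
  obtain ⟨w, hw⟩ : ∃ w : RatFunc k, w = mobX T := ⟨_, rfl⟩
  have hσw : σ w = algebraMap k[X] (RatFunc k) (C a) * w + algebraMap k[X] (RatFunc k) (C b) := by
    rw [hσ, hw, ASTame_mul, hTM, ← ASTame_mul]
    have e2 : mobX N = algebraMap k[X] (RatFunc k) (C a * X + C b) := by
      unfold mobX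
      rw [hN10, C_0, zero_mul, zero_add]
      have h1 : algebraMap k[X] (RatFunc k) (C (N 1 1)) ≠ 0 := by
        apply RatFunc.algebraMap_ne_zero
        rw [Ne, C_eq_zero]
        exact hN11
      rw [div_eq_iff h1, ← map_mul]
      congr 1
      rw [ha, hb, add_mul, mul_right_comm, ← C_mul, ← C_mul, div_mul_cancel₀ _ hN11,
        div_mul_cancel₀ _ hN11]
    have ea : ∀ c : k, algebraMap k (RatFunc k) c = algebraMap k[X] (RatFunc k) (C c) := by
      intro c
      rw [RatFunc.algebraMap_eq_C, RatFunc.algebraMap_C]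
    rw [e2, rat_poly, map_add, map_mul, aeval_C, aeval_C, aeval_X, ea, ea]
  have hw0 : w ≠ 0 := by
    rw [hw]
    have h := mobX_ne T (X_ne_zero (R := k))
    rwa [aeval_X] at h
  have hordw : ordP P w = -1 := by
    have h := ord_comp T (X_ne_zero (R := k)) P
    rw [aeval_X, htP, ord_poly_infty, natDegree_X] at h
    rw [hw, h]
    rfl
  -- the valuation at `P`
  have hf0 : f ≠ 0 := by
    rintro rfl
    have h := ord_const P (0 : k)
    rw [C_0, map_zero] at h
    omega
  obtain ⟨v, hv⟩ := exists_val P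
  have hvC : ∀ l : k, l ≠ 0 → v (algebraMap k[X] (RatFunc k) (C l)) = 1 := by
    intro l hl
    have h1 : algebraMap k[X] (RatFunc k) (C l) ≠ 0 := by
      apply RatFunc.algebraMap_ne_zero
      rw [Ne, C_eq_zero]
      exact hl
    rw [hv _ h1, ord_const, neg_zero, WithZero.exp_zero]
  have hvC' : ∀ l : k, v (algebraMap k[X] (RatFunc k) (C l)) ≤ 1 := by
    intro l
    by_cases hl : l = 0
    · rw [hl, C_0, map_zero, map_zero]
      exact zero_le_one
    · exact (hvC l hl).le
  have hvσ : ∀ r : RatFunc k, v (σ r) = v r := by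
    intro r
    by_cases hr : r = 0
    · rw [hr, map_zero]
    · have h1 : σ r ≠ 0 := by
        rw [Ne, map_eq_zero]
        exact hr
      rw [hv _ h1, hv _ hr]
      rw [hσ] at h1 ⊢
      rw [ASTame_ord M hr P, hfix]
  have hvw : v w = WithZero.exp (1 : ℤ) := by rw [hv _ hw0, hordw, neg_neg]
  have hvf : v f = WithZero.exp (m : ℤ) := by rw [hv _ hf0, hP, neg_neg]
  have hvwm : v (w ^ m) = WithZero.exp (m : ℤ) := by
    rw [map_pow, hvw, ← WithZero.exp_nsmul]
    congr 1
    simp
  have hve : v e = 1 := by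
    rcases he with rfl | rfl
    · exact map_one v
    · rw [Valuation.map_neg, map_one]
  have hwm0 : w ^ m ≠ 0 := pow_ne_zero m hw0
  -- the value of `f / w ^ m`
  obtain ⟨g, hg⟩ : ∃ g : RatFunc k, g = f / w ^ m := ⟨_, rfl⟩
  have hgf : f = g * w ^ m := by rw [hg, div_mul_cancel₀ _ hwm0]
  have hg0 : g ≠ 0 := by
    rintro rfl
    rw [zero_mul] at hgf
    exact hf0 hgf
  have hordg : ordP P g = 0 := by
    rw [hg, div_eq_mul_inv, ord_mul P hf0 (inv_ne_zero hwm0), ord_inv P hwm0, ord_pow P hw0, hordw,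
      hP]
    ring
  have hvg : v g = 1 := by rw [hv _ hg0, hordg, neg_zero, WithZero.exp_zero]
  obtain ⟨l, hl⟩ := ASTame_res P hg0 hordg
  have hvl : v (g - algebraMap k[X] (RatFunc k) (C l)) < 1 := by
    by_cases h0 : g - algebraMap k[X] (RatFunc k) (C l) = 0
    · rw [h0, map_zero]
      exact zero_lt_one
    · have h1 := hl.resolve_left h0
      rw [hv _ h0, ← WithZero.exp_zero, WithZero.exp_lt_exp]
      omega
  have hl0 : l ≠ 0 := by
    rintro rfl
    rw [C_0, map_zero, sub_zero, hvg] at hvl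
    exact lt_irrefl _ hvl
  -- the coboundary
  have hh : v (c ^ 3 - c) < WithZero.exp (m : ℤ) := by
    have hle : v (c ^ 3 - c) ≤ WithZero.exp (m : ℤ) := by
      have h1 : c ^ 3 - c = σ f - e * f := by rw [hσf]; ring
      rw [h1]
      refine le_trans (Valuation.map_sub v _ _) (max_le ?_ ?_)
      · rw [hvσ, hvf]
      · rw [map_mul, hve, one_mul, hvf]
    have h1m : (1 : WithZero (Multiplicative ℤ)) < WithZero.exp (m : ℤ) := by
      rw [← WithZero.exp_zero, WithZero.exp_lt_exp]
      exact_mod_cast hm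
    by_cases hc1 : v c ≤ 1
    · refine lt_of_le_of_lt ?_ h1m
      refine le_trans (Valuation.map_sub v _ _) (max_le ?_ hc1)
      rw [map_pow]
      exact pow_le_one₀ zero_le hc1
    · push Not at hc1
      have hc0 : c ≠ 0 := by
        rintro rfl
        rw [map_zero] at hc1
        exact not_lt_zero hc1
      have h3 : v c < v (c ^ 3) := by
        rw [map_pow]
        calc v c = v c ^ 1 := (pow_one _).symm
          _ < v c ^ 3 := pow_lt_pow_right₀ hc1 (by norm_num)
      have h4 : v (c ^ 3 - c) = v (c ^ 3) := Valuation.map_sub_eq_of_lt_left v h3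
      rw [h4, hv _ (pow_ne_zero 3 hc0), ord_pow P hc0] at hle ⊢
      rw [WithZero.exp_le_exp] at hle
      rw [WithZero.exp_lt_exp]
      have h5 := hf P (by rw [hP]; omega)
      rw [hP] at h5
      push_cast at hle ⊢
      omega
  -- the comparison
  have hvbw : v (algebraMap k[X] (RatFunc k) (C b) / w) < 1 := by
    rw [map_div₀, hvw]
    refine lt_of_le_of_lt (div_le_div_of_nonneg_right (hvC' b) zero_le) ?_
    rw [one_div, ← WithZero.exp_neg, ← WithZero.exp_zero, WithZero.exp_lt_exp]
    omega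
  obtain ⟨A, hA⟩ : ∃ A : RatFunc k, A = algebraMap k[X] (RatFunc k) (C a) +
      algebraMap k[X] (RatFunc k) (C b) / w := ⟨_, rfl⟩
  have hvA : v A ≤ 1 := by
    rw [hA]
    exact le_trans (Valuation.map_add v _ _) (max_le (hvC' a) hvbw.le)
  have hpow : ∀ j : ℕ, v (algebraMap k[X] (RatFunc k) (C a) ^ j - A ^ j) < 1 := by
    intro j
    induction j with
    | zero =>
      rw [pow_zero, pow_zero, sub_self, map_zero]
      exact zero_lt_one
    | succ j ih =>
      have e1 : algebraMap k[X] (RatFunc k) (C a) ^ (j + 1) - A ^ (j + 1) =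
          (algebraMap k[X] (RatFunc k) (C a) ^ j - A ^ j) * A -
            algebraMap k[X] (RatFunc k) (C a) ^ j * (algebraMap k[X] (RatFunc k) (C b) / w) := by
        rw [hA]
        ring
      rw [e1]
      refine lt_of_le_of_lt (Valuation.map_sub v _ _) (max_lt ?_ ?_)
      · rw [map_mul]
        exact mul_lt_one_of_lt_of_le ih hvA
      · rw [map_mul, map_pow, mul_comm]
        exact mul_lt_one_of_lt_of_le hvbw (pow_le_one₀ zero_le (hvC' a))
  have hσfw : σ g * A ^ m = e * g + (c ^ 3 - c) / w ^ m := by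
    have h1 : σ f = σ g * (A * w) ^ m := by
      rw [hgf, map_mul, map_pow, hσw, hA, add_mul, div_mul_cancel₀ _ hw0]
    rw [hσf, mul_pow] at h1
    have h2 : σ g * A ^ m = (e * f + (c ^ 3 - c)) / w ^ m := by
      rw [eq_div_iff hwm0, h1]
      ring
    rw [h2, add_div, mul_div_assoc, ← hg]
  have hfin : v (algebraMap k[X] (RatFunc k) (C l) * algebraMap k[X] (RatFunc k) (C a) ^ m -
      e * algebraMap k[X] (RatFunc k) (C l)) < 1 := by
    have e1 : algebraMap k[X] (RatFunc k) (C l) * algebraMap k[X] (RatFunc k) (C a) ^ m -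
        e * algebraMap k[X] (RatFunc k) (C l) =
        (σ g * (algebraMap k[X] (RatFunc k) (C a) ^ m - A ^ m) -
          (σ (g - algebraMap k[X] (RatFunc k) (C l))) * algebraMap k[X] (RatFunc k) (C a) ^ m) +
        (e * (g - algebraMap k[X] (RatFunc k) (C l)) + (c ^ 3 - c) / w ^ m) := by
      rw [map_sub, hC]
      linear_combination hσfw
    rw [e1]
    refine lt_of_le_of_lt (Valuation.map_add v _ _) (max_lt ?_ ?_)
    · refine lt_of_le_of_lt (Valuation.map_sub v _ _) (max_lt ?_ ?_)
      · rw [map_mul, hvσ, hvg, one_mul]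
        exact hpow m
      · rw [map_mul, hvσ, map_pow]
        exact mul_lt_one_of_lt_of_le hvl (pow_le_one₀ zero_le (hvC' a))
    · refine lt_of_le_of_lt (Valuation.map_add v _ _) (max_lt ?_ ?_)
      · rw [map_mul, hve, one_mul]
        exact hvl
      · rw [map_div₀, hvwm, div_lt_one₀ (by exact WithZero.exp_pos)]
        exact hh
  -- conclusion
  obtain ⟨ε, hε1, hε⟩ : ∃ ε : k, (ε = 1 ∨ ε = -1) ∧ e = algebraMap k[X] (RatFunc k) (C ε) := by
    rcases he with rfl | rfl
    · exact ⟨1, Or.inl rfl, by rw [C_1, map_one]⟩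
    · exact ⟨-1, Or.inr rfl, by rw [C_neg, C_1, map_neg, map_one]⟩
  have hz : l * a ^ m - ε * l = 0 := by
    by_contra hne
    have h1 := hvC _ hne
    rw [C_sub, C_mul, C_pow, C_mul, map_sub, map_mul, map_mul, map_pow, ← hε] at h1
    rw [h1] at hfin
    exact lt_irrefl _ hfin
  have ham : a ^ m = ε := by
    have h1 : l * (a ^ m - ε) = 0 := by linear_combination hz
    rcases mul_eq_zero.1 h1 with h2 | h2
    · exact absurd h2 hl0
    · exact sub_eq_zero.1 h2
  rw [mul_comm 2 m, pow_mul, ham]
  rcases hε1 with h | h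
  · rw [h]
    ring
  · rw [h]
    ring

end Pool.Agent.Helper54.HZ
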