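import Pool.Agent.Helper54.HZ.ASMem
import Pool.Agent.Helper54.HZ.ASGrp
import Pool.Agent.Helper54.HZ.ASStab
import Pool.Agent.Helper54.HZ.ASBound
import Pool.Agent.Helper54.HZ.ASTame
import Pool.Agent.Helper54.HZ.ASFin

/-!
MP_143e28_ag, project HZ, part 2 (characteristic 3): the upper bound for Artin-Schreier covers.

`as_mem`, `as_group`; `B` = the set of the poles of `f` (`finite_poles`), `w P = - ordP P f` (`Int.toNat`), `∑ (w P + 1) = g + 2`
(`genus`, `finsum_mem_eq_finite_toFinset_sum`).  `as_ord`: `G` preserves `B` and `w`;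
`as_tame` and `stab_tame`: `#stab ≤ #uni * 2 w`; `as_bound`.
Finiteness of `G`: `as_finite` in `ASFin.lean`.
-/

set_option autoImplicit false

namespace Pool.Agent.Helper54.HZ

open Polynomial Pool.Agent.Helper28.HA

variable {k F : Type*} [Field k] [Field F] [Algebra k F]

theorem as_upper [IsAlgClosed k] [CharP k 3] {g : ℕ} (hg : 4 < g) (h3 : 3 ∣ g + 1) {x y : F}
    {f : RatFunc k} (h : PresAS k F 3 g x y f) :
    Finite (F ≃ₐ[k] F) ∧ Nat.card (F ≃ₐ[k] F) ≤ 8 * g := by
  classical
  obtain ⟨G, hG, hGfin⟩ := as_group h (as_mem hg h)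
  have hsum : ∑ᶠ P ∈ {P : OnePoint k | ordP P f < 0}, (1 - ordP P f) = (g : ℤ) + 2 := by
    have h1 := h.genus
    push_cast at h1
    linarith
  have hfinG : Finite G := as_finite h.poles h3 hsum G hG
  obtain ⟨ha, hb⟩ := hGfin hfinG
  refine ⟨ha, hb.trans ?_⟩
  have hMG : MobGroup G := by
    intro s hs
    obtain ⟨M, hM, -⟩ := hG s hs
    exact ⟨M, hM⟩
  have hord : ∀ s ∈ G, ∀ P : OnePoint k, ordP P f < 0 → ordP (s P) f = ordP P f := by
    intro s hs P hP
    obtain ⟨M, rfl, hM⟩ := hG s hs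
    exact as_ord h.poles hM hP
  have hmemB : ∀ P : OnePoint k, P ∈ (finite_poles f).toFinset ↔ ordP P f < 0 := by
    intro P
    rw [Set.Finite.mem_toFinset]
    exact Iff.rfl
  have hwP : ∀ P ∈ (finite_poles f).toFinset, (((-ordP P f).toNat : ℕ) : ℤ) = -ordP P f := by
    intro P hP
    have h1 := (hmemB P).1 hP
    exact Int.toNat_of_nonneg (by omega)
  refine as_bound G hMG (finite_poles f).toFinset ?_ (fun P => (-ordP P f).toNat) ?_ ?_ ?_ ?_ g
    (by omega) h3 ?_
  · intro s hs P hP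
    rw [hmemB] at hP ⊢
    rw [hord s hs P hP]
    exact hP
  · intro s hs P hP
    rw [hmemB] at hP
    show (-ordP (s P) f).toNat = (-ordP P f).toNat
    rw [hord s hs P hP]
  · intro P hP
    have h1 := hwP P hP
    rw [hmemB] at hP
    show 1 ≤ (-ordP P f).toNat
    omega
  · intro P hP h5
    have h1 := hwP P hP
    rw [hmemB] at hP
    apply h.poles P hP
    have h6 : ((3 : ℕ) : ℤ) ∣ (((-ordP P f).toNat : ℕ) : ℤ) := Int.natCast_dvd_natCast.2 h5
    rw [h1] at h6
    exact (Int.dvd_neg).1 h6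
  · intro P hP
    have h1 := hwP P hP
    have hP' := (hmemB P).1 hP
    have hpos : 0 < (-ordP P f).toNat := by omega
    show Nat.card (stab G P) ≤ Nat.card (uni G P) * (2 * (-ordP P f).toNat)
    refine stab_tame G hMG P (2 * (-ordP P f).toNat) (by omega) ?_
    intro s hs hsP t ht htP a b hab
    obtain ⟨M, rfl, hM⟩ := hG s hs
    exact as_tame h.poles hM hpos (by rw [h1]; ring) hsP ht htP hab
  · rw [finsum_mem_eq_finite_toFinset_sum _ (finite_poles f)] at hsum
    have h1 : ((∑ P ∈ (finite_poles f).toFinset, ((-ordP P f).toNat + 1) : ℕ) : ℤ) =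
        ((g + 2 : ℕ) : ℤ) := by
      push_cast
      rw [← hsum]
      refine Finset.sum_congr rfl fun P hP => ?_
      have h2 := hwP P hP
      omega
    exact_mod_cast h1

end Pool.Agent.Helper54.HZ
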