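import Pool.Agent.Helper54.HZ.Final
import Pool.Agent.Helper54.HZ.ASUpper

/-!
MP_143e28_ag, project HZ: the final step with `p = 3`, `n = 3` included (helper54).
-/

set_option autoImplicit false

namespace Pool.Agent.Helper54.HZ

open Polynomial Pool.Agent.Helper28.HA

theorem upper_all.{u} (p : ℕ) [Fact p.Prime] (hp : p ≠ 2) (k : Type u) [Field k] [IsAlgClosed k]
    [CharP k p] {g : ℕ} (hg : g.Prime) (hg' : ¬ (2 * g + 1).Prime) (h1 : p ∣ g + 1)
    (h2 : ¬ p ^ 2 ∣ g + 1) (h3 : 3 * p ^ 2 < g) (S : Set ℕ) (F : Type u) [Field F] [Algebra k F]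
    (hF : IsCover k F p S g) : Finite (F ≃ₐ[k] F) ∧ Nat.card (F ≃ₐ[k] F) ≤ 8 * g := by
  have hpp : p.Prime := Fact.out
  have hp2 := hpp.two_le
  rcases hF with hF | ⟨hpS, x, y, f, hF⟩
  · exact upperN p hp hg hg' h1 h2 h3 S hF
  · by_cases hp3 : p = 3
    · subst hp3
      exact as_upper (by omega) h1 hF
    · exfalso
      have hp4 : p ≠ 4 := by
        rintro rfl
        exact absurd hpp (by norm_num)
      refine noAS p (by omega) hg ?_ hF
      nlinarith

theorem exact_all.{u} (p : ℕ) [Fact p.Prime] (hp : p ≠ 2) (k : Type u) [Field k] [IsAlgClosed k]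
    [CharP k p] {g : ℕ} (hg : g.Prime) (hg' : ¬ (2 * g + 1).Prime) (h1 : p ∣ g + 1)
    (h2 : ¬ p ^ 2 ∣ g + 1) (h3 : 3 * p ^ 2 < g) (S : Set ℕ) (hS : 2 ∈ S) :
    muCov k p S g = ((8 * g : ℕ) : ℕ∞) := by
  refine le_antisymm ?_ (lower_mu p hp k hg.two_le S hS)
  unfold muCov
  refine sSup_le ?_
  rintro n ⟨F, _, _, hF, rfl⟩
  obtain ⟨ha, hb⟩ := upper_all p hp k hg hg' h1 h2 h3 S F hF
  rw [ENat.card_eq_coe_natCard]
  exact_mod_cast hb

theorem main_all.{u} (p : ℕ) [Fact p.Prime] (hp : p ≠ 2) (k : Type u) [Field k] [IsAlgClosed k]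
    [CharP k p] (S : Set ℕ) (hS : 2 ∈ S) (M : ℚ[X]) :
    ((∀ g : ℕ, 2 ≤ g → ∀ m : ℕ, muCov k p S g = m → M.eval (g : ℚ) ≤ m) ∧
      {g : ℕ | 2 ≤ g ∧ ∃ m : ℕ, muCov k p S g = m ∧ M.eval (g : ℚ) = m}.Infinite) ↔
    M = C 8 * X := by
  have hsp := inf_special p Fact.out hp
  constructor
  · rintro ⟨hM1, hM2⟩
    have : M - C 8 * X = 0 := by
      apply Pool.Agent.Helper54.HY.poly_zero
      · refine hM2.mono ?_
        rintro g ⟨hg, m, hm, hM⟩
        have e1 := lower_mu p hp k hg S hS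
        rw [hm] at e1
        have e2 : 8 * g ≤ m := by exact_mod_cast e1
        have e3 : ((8 * g : ℕ) : ℚ) ≤ m := by exact_mod_cast e2
        simp only [Set.mem_ofPred_eq, eval_sub, eval_mul, eval_C, eval_X, hM]
        push_cast at e3
        linarith
      · refine hsp.mono ?_
        rintro g ⟨h1, h2, h3, h4, h5⟩
        have e1 := hM1 g h1.two_le (8 * g) (exact_all p hp k h1 h2 h3 h4 h5 S hS)
        simp only [Set.mem_ofPred_eq, eval_sub, eval_mul, eval_C, eval_X]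
        push_cast at e1
        linarith
    exact sub_eq_zero.1 this
  · rintro rfl
    refine ⟨?_, ?_⟩
    · intro g hg m hm
      have e1 := lower_mu p hp k hg S hS
      rw [hm] at e1
      have e2 : 8 * g ≤ m := by exact_mod_cast e1
      have e3 : ((8 * g : ℕ) : ℚ) ≤ m := by exact_mod_cast e2
      simp only [eval_mul, eval_C, eval_X]
      push_cast at e3
      linarith
    · refine hsp.mono ?_
      rintro g ⟨h1, h2, h3, h4, h5⟩
      refine ⟨h1.two_le, 8 * g, exact_all p hp k h1 h2 h3 h4 h5 S hS, ?_⟩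
      simp only [eval_mul, eval_C, eval_X]
      push_cast
      ring

end Pool.Agent.Helper54.HZ
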