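import Pool.Agent.Helper54.HZ.TDefs
import Pool.Agent.Helper54.HZ.Val

/-!
MP_143e28_ag, project HZ, part 3 (trigonal curves): places above a point and roots modulo the point.

`exists_place`: let `O = {r | r = 0 ∨ 0 ≤ ordP P r}` (valuation ring of the valuation of `exists_val`), `m` its maximal ideal, residue
field `k`.  `chi` has coefficients in `O` and is the minimal polynomial of `z`; `rho` is a root of its reduction: `ordP P (chi (rho)) ≥ 1` or
`chi (rho) = 0`.  Claim: a place `V` above `P` with `z - rho` in its maximal ideal.  Let `A = O[z]` (the image of `O[Z]` in `F`) and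
`I ⊆ A` the set of the `q (z)`, `q ∈ O[Z]`, `q (rho) ∈ m`.  `1 ∉ I`: otherwise `q (z) = 1`, `q - 1 = chi h` with `h ∈ O[Z]` (division by
the monic polynomial `chi`, minimality), so `q (rho) - 1 = chi (rho) h (rho) ∈ m` and `1 ∈ m`.  A valuation subring `V` of `F` which
contains `A` and with `I` in its nonunits (`Ideal.image_subset_nonunits_valuationSubring`) is as wanted.
-/

set_option autoImplicit false

namespace Pool.Agent.Helper54.HZ

open Polynomial Pool.Agent.Helper54.HY

variable {k F : Type*} [Field k] [Field F] [Algebra k F]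

/-- the abstract statement -/
private theorem TPlace_abs {K F Γ : Type*} [Field K] [Field F] [LinearOrderedCommGroupWithZero Γ]
    (v : Valuation K Γ) (φ : K →+* F) {z : F} {chi : K[X]} (hmon : chi.Monic)
    (hirr : Irreducible chi) (hz : chi.eval₂ φ z = 0) (hint : ∀ i, v (chi.coeff i) ≤ 1) (ρ : K)
    (hρ1 : v ρ ≤ 1) (hρ : v (chi.eval ρ) < 1) :
    ∃ V : ValuationSubring F, (∀ r : K, φ r ∈ V ↔ v r ≤ 1) ∧ z - φ ρ ∈ V.nonunits := by
  classical
  obtain ⟨T, hT⟩ : ∃ T : Subring K, T = v.valuationSubring.toSubring := ⟨_, rfl⟩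
  have hTm : ∀ r : K, r ∈ T ↔ v r ≤ 1 := by
    intro r
    rw [hT]
    exact Valuation.mem_valuationSubring_iff v r
  let ev : T[X] →+* K := eval₂RingHom T.subtype ρ
  let em : T[X] →+* F := eval₂RingHom (φ.comp T.subtype) z
  have hρT : ρ ∈ T := (hTm ρ).2 hρ1
  have hev : ∀ q : T[X], v (ev q) ≤ 1 := by
    intro q
    have h1 : ev q = T.subtype (q.eval ⟨ρ, hρT⟩) := by
      rw [← Polynomial.eval₂_at_apply]
      rfl
    rw [h1]
    exact (hTm _).1 (SetLike.coe_mem (q.eval (⟨ρ, hρT⟩ : T)))
  let J : Ideal T[X] :=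
    { carrier := {q | v (ev q) < 1}
      add_mem' := by
        intro a b ha hb
        show v (ev (a + b)) < 1
        rw [map_add]
        exact v.map_add_lt ha hb
      zero_mem' := by
        show v (ev 0) < 1
        rw [map_zero, map_zero]
        exact zero_lt_one
      smul_mem' := by
        intro c a ha
        show v (ev (c * a)) < 1
        rw [map_mul, map_mul]
        exact lt_of_le_of_lt (mul_le_of_le_one_left' (hev c)) ha }
  have hJ : ∀ q, q ∈ J ↔ v (ev q) < 1 := fun q => Iff.rfl
  let I : Ideal em.range := J.map em.rangeRestrict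
  have hI : ∀ y : em.range, y ∈ I ↔ ∃ q ∈ J, em.rangeRestrict q = y := fun y =>
    Ideal.mem_map_iff_of_surjective em.rangeRestrict em.rangeRestrict_surjective
  have hcoe : (↑chi.coeffs : Set K) ⊆ T := by
    intro c hc
    obtain ⟨i, -, rfl⟩ := Polynomial.mem_coeffs_iff.1 (Finset.mem_coe.1 hc)
    exact (hTm _).2 (hint i)
  obtain ⟨chT, hchT⟩ : ∃ chT : T[X], chT = chi.toSubring T hcoe := ⟨_, rfl⟩
  have hch1 : chT.map T.subtype = chi := by rw [hchT]; exact chi.map_toSubring T hcoe
  have hch2 : chT.Monic := by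
    rw [hchT]
    exact (Polynomial.monic_toSubring chi T hcoe).2 hmon
  have hemap : ∀ q : T[X], em q = (q.map T.subtype).eval₂ φ z := by
    intro q
    rw [Polynomial.eval₂_map]
    rfl
  have hevmap : ∀ q : T[X], ev q = (q.map T.subtype).eval ρ := by
    intro q
    rw [Polynomial.eval_map]
    rfl
  have hone : (1 : em.range) ∉ I := by
    intro h1
    obtain ⟨q, hq, hq1⟩ := (hI 1).1 h1
    have hq2 : em q = 1 := congrArg Subtype.val hq1
    have hem : em chT = 0 := by rw [hemap, hch1, hz]
    have hdiv := Polynomial.modByMonic_add_div (q - 1) chT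
    have hr0 : em ((q - 1) %ₘ chT) = 0 := by
      have h2 := congrArg em hdiv
      rw [map_add, map_mul, hem, zero_mul, add_zero, map_sub, map_one, hq2, sub_self] at h2
      exact h2
    have hr : ((q - 1) %ₘ chT).map T.subtype = 0 := by
      by_contra hne
      have hdeg : (((q - 1) %ₘ chT).map T.subtype).degree < chi.degree := by
        have h3 : ((q - 1) %ₘ chT).degree < chT.degree := Polynomial.degree_modByMonic_lt _ hch2
        rw [Polynomial.degree_map_eq_of_injective T.subtype_injective, ← hch1,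
          Polynomial.degree_map_eq_of_injective T.subtype_injective]
        exact h3
      have hnd : ¬ chi ∣ ((q - 1) %ₘ chT).map T.subtype := fun hd =>
        absurd (Polynomial.degree_le_of_dvd hd hne) (not_le.2 hdeg)
      obtain ⟨a, b, hab⟩ := (hirr.coprime_iff_not_dvd).2 hnd
      have h4 := congrArg (Polynomial.eval₂ φ z) hab
      rw [Polynomial.eval₂_add, Polynomial.eval₂_mul, Polynomial.eval₂_mul, hz, ← hemap, hr0,
        mul_zero, mul_zero, add_zero, Polynomial.eval₂_one] at h4
      exact zero_ne_one h4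
    have hr1 : ev ((q - 1) %ₘ chT) = 0 := by rw [hevmap, hr, Polynomial.eval_zero]
    have h5 := congrArg ev hdiv
    rw [map_add, hr1, zero_add, map_mul, map_sub, map_one] at h5
    have h6 : v (ev chT) < 1 := by rw [hevmap, hch1]; exact hρ
    have h7 : v (ev q - 1) < 1 := by
      rw [← h5, map_mul]
      exact lt_of_le_of_lt (mul_le_of_le_one_right' (hev _)) h6
    have h8 : v (1 : K) < 1 := by
      have h9 : (1 : K) = ev q - (ev q - 1) := by ring
      rw [h9]
      exact v.map_sub_lt ((hJ q).1 hq) h7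
    rw [map_one] at h8
    exact lt_irrefl _ h8
  obtain ⟨V, hAV, hIV⟩ := Ideal.image_subset_nonunits_valuationSubring I
    ((Ideal.ne_top_iff_one I).2 hone)
  have hJV : ∀ q ∈ J, em q ∈ V.nonunits := by
    intro q hq
    apply hIV
    exact ⟨em.rangeRestrict q, (hI _).2 ⟨q, hq, rfl⟩, rfl⟩
  refine ⟨V, ?_, ?_⟩
  · intro r
    constructor
    · intro hr
      by_contra hcon
      push Not at hcon
      have hr0 : r ≠ 0 := by
        rintro rfl
        rw [map_zero] at hcon
        exact absurd hcon (not_lt.2 zero_le_one)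
      have h1 : v r⁻¹ < 1 := by
        rw [map_inv₀]
        exact inv_lt_one_of_one_lt₀ hcon
      have h2 : C (⟨r⁻¹, (hTm _).2 h1.le⟩ : T) ∈ J := by
        rw [hJ, hevmap, Polynomial.map_C, Polynomial.eval_C]
        exact h1
      have h3 := hJV _ h2
      rw [hemap, Polynomial.map_C, Polynomial.eval₂_C] at h3
      have h4 : V.valuation (φ r⁻¹) < 1 := (ValuationSubring.mem_nonunits_iff V).1 h3
      have h5 : V.valuation (φ r) ≤ 1 := (V.valuation_le_one_iff _).2 hr
      have h6 : V.valuation (φ r⁻¹) * V.valuation (φ r) = 1 := by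
        rw [← map_mul, ← map_mul, inv_mul_cancel₀ hr0, map_one, map_one]
      have h7 : V.valuation (φ r⁻¹) * V.valuation (φ r) < 1 :=
        lt_of_le_of_lt (mul_le_of_le_one_right' h5) h4
      exact absurd h6 h7.ne
    · intro hr
      apply hAV
      refine ⟨C (⟨r, (hTm r).2 hr⟩ : T), ?_⟩
      show em (C (⟨r, (hTm r).2 hr⟩ : T)) = φ r
      rw [hemap, Polynomial.map_C, Polynomial.eval₂_C]
      rfl
  · have h1 : (X - C (⟨ρ, hρT⟩ : T)) ∈ J := by
      rw [hJ, hevmap, Polynomial.map_sub, Polynomial.map_X, Polynomial.map_C, Polynomial.eval_sub,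
        Polynomial.eval_X, Polynomial.eval_C]
      have h2 : ρ - T.subtype ⟨ρ, hρT⟩ = 0 := sub_self ρ
      rw [h2, map_zero]
      exact zero_lt_one
    have h3 := hJV _ h1
    rw [hemap, Polynomial.map_sub, Polynomial.map_X, Polynomial.map_C, Polynomial.eval₂_sub,
      Polynomial.eval₂_X, Polynomial.eval₂_C] at h3
    exact h3

theorem exists_place [IsAlgClosed k] {x : F} (hx : Transcendental k x) (P : OnePoint k) {z : F}
    {chi : (RatFunc k)[X]} (hmon : chi.Monic) (hirr : Irreducible chi)
    (hz : chi.eval₂ (rat hx : RatFunc k →ₐ[k] F).toRingHom z = 0)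
    (hint : ∀ i, chi.coeff i = 0 ∨ 0 ≤ ordP P (chi.coeff i)) (rho : k)
    (hrho : chi.eval (algebraMap k[X] (RatFunc k) (C rho)) = 0 ∨
      1 ≤ ordP P (chi.eval (algebraMap k[X] (RatFunc k) (C rho)))) :
    ∃ V ∈ Above hx P, z - algebraMap k F rho ∈ V.nonunits := by
  obtain ⟨v, hv⟩ := exists_val (k := k) P
  have hle : ∀ r : RatFunc k, v r ≤ 1 ↔ (r = 0 ∨ 0 ≤ ordP P r) := by
    intro r
    by_cases hr : r = 0
    · rw [hr, map_zero]
      exact ⟨fun _ => Or.inl rfl, fun _ => zero_le_one⟩
    · rw [hv r hr, ← WithZero.exp_zero, WithZero.exp_le_exp]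
      constructor
      · intro h
        exact Or.inr (by omega)
      · rintro (h | h)
        · exact absurd h hr
        · omega
  have hlt : ∀ r : RatFunc k, (r = 0 ∨ 1 ≤ ordP P r) → v r < 1 := by
    intro r h
    by_cases hr : r = 0
    · rw [hr, map_zero]
      exact zero_lt_one
    · rw [hv r hr, ← WithZero.exp_zero, WithZero.exp_lt_exp]
      rcases h with h | h
      · exact absurd h hr
      · omega
  have hρ1 : v (algebraMap k[X] (RatFunc k) (C rho)) ≤ 1 := by
    rw [hle]
    exact Or.inr (ord_const P rho).ge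
  obtain ⟨V, hV1, hV2⟩ := TPlace_abs v (rat hx : RatFunc k →ₐ[k] F).toRingHom hmon hirr hz
    (fun i => (hle _).2 (hint i)) _ hρ1 (hlt _ hrho)
  refine ⟨V, fun r => ?_, ?_⟩
  · rw [← hle]
    exact hV1 r
  · have h1 : (rat hx : RatFunc k →ₐ[k] F).toRingHom (algebraMap k[X] (RatFunc k) (C rho)) =
        algebraMap k F rho := by
      show rat hx (algebraMap k[X] (RatFunc k) (C rho)) = algebraMap k F rho
      rw [rat_poly, aeval_C]
    rwa [h1] at hV2

end Pool.Agent.Helper54.HZ
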