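import Mathlib

/-!
MP_143e28_ag, project HZ, part 2: the local lemma in characteristic 3 (abstract; Mathlib only).

As in `Loc.lean`: a valuation subring `V` of `F` dominating the image of `v.integer` (Mathlib
`LocalSubring.exists_le_valuationSubring` or a similar name): for `a, b ∈ K`: `V.valuation a ≤ V.valuation b ↔ v a ≤ v b`.  `z` and its
conjugates are in `V` (roots of the monic `Q`), so `w ∈ V`, `v w ≤ 1`.
Second part, `v f = exp m`, `3 ∤ m` (so `m > 0`).  Write `|.|` for `V.valuation`.  `|y| > 1` (otherwise `|f| ≤ 1`), so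
`|y| ^ 3 = |y ^ 3 - y| = |f|`, and `|c_j y ^ j| ^ 3 = |c_j ^ 3 f ^ j|`; the values `v (c_j ^ 3 f ^ j) = exp (3 * + j m)` (or `0`) are
pairwise different modulo 3 for `j = 0, 1, 2`, so the nonzero `|c_j y ^ j|` are different and `|c_j y ^ j| ≤ |z| ≤ 1` for all `j`.  So
`v (c_1 ^ 3 f) < 1`, `v (c_2 ^ 3 f ^ 2) < 1` (the exponent is not divisible by 3), i.e.
`v (c_1 ^ 3) ≤ exp (-1 - m)`, `v (c_2 ^ 3 f) ≤ exp (-1 - m)`, `v (c_2 ^ 3) ≤ exp (-1 - m)`.
`τ^i (τ z - z) = c_1 + c_2 (2 (y + i) + 1)`, so `|τ^i (τ z - z)| ^ 3 ≤ max (|c_1 ^ 3|, |c_2 ^ 3 f|, |c_2 ^ 3|)` and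
`|w| ^ 3` is at most the third power of this: `v (w ^ 3) ≤ exp (3 (-1 - m))`, `v w ≤ exp (-1 - m)`.
-/

set_option autoImplicit false

namespace Pool.Agent.Helper54.HZ

open Polynomial

private theorem ASLoc_ext {K F Γ : Type*} [Field K] [Field F] [Algebra K F]
    [LinearOrderedCommGroupWithZero Γ] (v : Valuation K Γ) :
    ∃ V : ValuationSubring F, (∀ a : K, v a ≤ 1 → V.valuation (algebraMap K F a) ≤ 1) ∧
      ∀ a : K, v a < 1 → V.valuation (algebraMap K F a) < 1 := by
  obtain ⟨V, hV⟩ := LocalSubring.exists_le_valuationSubring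
    (LocalSubring.map (algebraMap K F) v.valuationSubring.toLocalSubring)
  obtain ⟨h1, h2⟩ := LocalSubring.le_def.1 hV
  have hmem : ∀ a : K, v a ≤ 1 → algebraMap K F a ∈
      (LocalSubring.map (algebraMap K F) v.valuationSubring.toLocalSubring).toSubring := by
    intro a ha
    exact Subring.mem_map.2 ⟨a, (show a ∈ v.valuationSubring from
      (Valuation.mem_valuationSubring_iff v a).2 ha), rfl⟩
  have hmem' : ∀ a : K, v a ≤ 1 → algebraMap K F a ∈ V := fun a ha => h1 (hmem a ha)
  refine ⟨V, fun a ha => (V.valuation_le_one_iff _).2 (hmem' a ha), fun a ha => ?_⟩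
  refine lt_of_le_of_ne ((V.valuation_le_one_iff _).2 (hmem' a ha.le)) fun heq => ?_
  have hu : IsUnit (⟨algebraMap K F a, hmem' a ha.le⟩ : V) :=
    (V.valuation_eq_one_iff ⟨algebraMap K F a, hmem' a ha.le⟩).2 heq
  have hu2 : IsUnit (⟨algebraMap K F a, hmem a ha.le⟩ :
      (LocalSubring.map (algebraMap K F) v.valuationSubring.toLocalSubring).toSubring) :=
    h2.1 _ hu
  obtain ⟨⟨b, hb⟩, hab⟩ := hu2.exists_right_inv
  obtain ⟨b', hb', rfl⟩ := Subring.mem_map.1 hb
  have hab' : algebraMap K F a * algebraMap K F b' = 1 := congrArg Subtype.val hab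
  rw [← map_mul, ← map_one (algebraMap K F)] at hab'
  have h3 := (algebraMap K F).injective hab'
  have h4 : v b' ≤ 1 := (Valuation.mem_valuationSubring_iff v b').1 hb'
  have h5 : v a * v b' = 1 := by rw [← map_mul, h3, map_one]
  have h6 : v a * v b' < 1 := lt_of_le_of_lt (mul_le_of_le_one_right' h4) ha
  exact absurd h5 h6.ne

private theorem ASLoc_root {F Γ : Type*} [Field F] [LinearOrderedCommGroupWithZero Γ]
    (U : Valuation F Γ) (P : F[X]) (hP : P.Monic) (hc : ∀ i, U (P.coeff i) ≤ 1) {x : F}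
    (hx : P.eval x = 0) : U x ≤ 1 := by
  by_contra hcon
  push Not at hcon
  have hx0 : U x ≠ 0 := fun h => by rw [h] at hcon; exact absurd hcon (not_lt.2 zero_le_one)
  rw [eval_eq_sum_range, Finset.sum_range_succ, hP.coeff_natDegree, one_mul] at hx
  have h1 : U (∑ i ∈ Finset.range P.natDegree, P.coeff i * x ^ i) < U x ^ P.natDegree := by
    refine U.map_sum_lt (pow_ne_zero _ hx0) fun i hi => ?_
    rw [map_mul, map_pow]
    refine lt_of_le_of_lt (mul_le_of_le_one_left' (hc i)) ?_
    exact pow_lt_pow_right₀ hcon (Finset.mem_range.1 hi)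
  have h2 : x ^ P.natDegree = -∑ i ∈ Finset.range P.natDegree, P.coeff i * x ^ i := by
    linear_combination hx
  rw [← U.map_neg, ← h2, map_pow] at h1
  exact absurd h1 (lt_irrefl _)

private theorem ASLoc_prod {F Γ : Type*} [Field F] [LinearOrderedCommGroupWithZero Γ]
    (U : Valuation F Γ) (a : ℕ → F) : ∀ n : ℕ, (∀ i < n, U (a i) ≤ 1) →
      U (∏ i ∈ Finset.range n, a i) ≤ 1 := by
  intro n hn
  induction n with
  | zero => simp
  | succ n ih =>
    rw [Finset.prod_range_succ, map_mul]
    exact mul_le_one' (ih fun i hi => hn i (by omega)) (hn n (by omega))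

private theorem ASLoc_prod_lt {F Γ : Type*} [Field F] [LinearOrderedCommGroupWithZero Γ]
    (U : Valuation F Γ) (a : ℕ → F) {n : ℕ} (hn0 : 0 < n) (hn : ∀ i < n, U (a i) < 1) :
      U (∏ i ∈ Finset.range n, a i) < 1 := by
  obtain ⟨m, rfl⟩ : ∃ m, n = m + 1 := ⟨n - 1, by omega⟩
  rw [Finset.prod_range_succ, map_mul]
  exact lt_of_le_of_lt (mul_le_of_le_one_left'
    (ASLoc_prod U a m fun i hi => (hn i (by omega)).le)) (hn m (by omega))

/-- comparison of a valuation with a dominating one -/
private theorem ASLoc_cmp {K F Γ Γ' : Type*} [Field K] [Field F] [Algebra K F]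
    [LinearOrderedCommGroupWithZero Γ] [LinearOrderedCommGroupWithZero Γ']
    (v : Valuation K Γ) (U : Valuation F Γ') (P1 : ∀ a : K, v a ≤ 1 → U (algebraMap K F a) ≤ 1)
    (P2 : ∀ a : K, v a < 1 → U (algebraMap K F a) < 1) (a b : K) :
    U (algebraMap K F a) ≤ U (algebraMap K F b) ↔ v a ≤ v b := by
  have key1 : ∀ a b : K, v a ≤ v b → U (algebraMap K F a) ≤ U (algebraMap K F b) := by
    intro a b hab
    by_cases hb : b = 0
    · rw [hb, map_zero, le_zero_iff, Valuation.zero_iff] at hab
      rw [hab, hb]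
    · have hvb : v b ≠ 0 := (Valuation.ne_zero_iff v).2 hb
      have h1 : v (a / b) ≤ 1 := by
        rw [map_div₀]
        exact div_le_one_of_le₀ hab zero_le
      have h2 := P1 _ h1
      have h3 : U (algebraMap K F b) ≠ 0 := by
        rw [Valuation.ne_zero_iff]
        exact (_root_.map_ne_zero _).2 hb
      rw [map_div₀, map_div₀, div_le_one₀ (zero_lt_iff.2 h3)] at h2
      exact h2
  have key2 : ∀ a b : K, v a < v b → U (algebraMap K F a) < U (algebraMap K F b) := by
    intro a b hab
    have hb : b ≠ 0 := by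
      rintro rfl
      rw [map_zero] at hab
      exact absurd hab (not_lt.2 zero_le)
    have hvb : v b ≠ 0 := (Valuation.ne_zero_iff v).2 hb
    have h1 : v (a / b) < 1 := by
      rw [map_div₀, div_lt_one₀ (zero_lt_iff.2 hvb)]
      exact hab
    have h2 := P2 _ h1
    have h3 : U (algebraMap K F b) ≠ 0 := by
      rw [Valuation.ne_zero_iff]
      exact (_root_.map_ne_zero _).2 hb
    rw [map_div₀, map_div₀, div_lt_one₀ (zero_lt_iff.2 h3)] at h2
    exact h2
  constructor
  · intro h
    by_contra hcon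
    push Not at hcon
    exact absurd (key2 b a hcon) (not_lt.2 h)
  · exact key1 a b

private theorem ASLoc_exp {K : Type*} [Field K] (v : Valuation K (WithZero (Multiplicative ℤ)))
    {c f : K} (hc : c ≠ 0) {m : ℤ} (hf : v f = WithZero.exp m) :
    ∃ k : ℤ, ∀ j : ℕ, v (c ^ 3 * f ^ j) = WithZero.exp (3 * k + j * m) := by
  have hvc : v c ≠ 0 := (Valuation.ne_zero_iff v).2 hc
  refine ⟨WithZero.log (v c), fun j => ?_⟩
  have h1 : v c = WithZero.exp (WithZero.log (v c)) := (WithZero.exp_log hvc).symm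
  have h2 : WithZero.exp (3 * WithZero.log (v c)) = WithZero.exp (WithZero.log (v c)) ^ 3 := by
    rw [← WithZero.exp_nsmul]
    congr 1
  have h3 : WithZero.exp ((j : ℤ) * m) = WithZero.exp m ^ j := by
    rw [← WithZero.exp_nsmul]
    congr 1
  rw [map_mul, map_pow, map_pow, hf, WithZero.exp_add, h2, h3, ← h1]

theorem as_loc {K F : Type*} [Field K] [Field F] [Algebra K F] [CharP K 3]
    (v : Valuation K (WithZero (Multiplicative ℤ)))
    (τ : F ≃ₐ[K] F) {y : F} {f : K} (hy : y ^ 3 - y = algebraMap K F f) (hτ : τ y = y + 1)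
    (c : ℕ → K) (z : F) (hz : z = ∑ j ∈ Finset.range 3, algebraMap K F (c j) * y ^ j)
    (Q : K[X]) (hQ : Q.Monic) (hQv : ∀ i, v (Q.coeff i) ≤ 1) (hQz : aeval z Q = 0)
    (w : K) (hw : algebraMap K F w = ∏ i ∈ Finset.range 3, (τ ^ i) (τ z - z)) :
    v w ≤ 1 ∧ ∀ m : ℕ, ¬ 3 ∣ m → v f = WithZero.exp (m : ℤ) → v w ≤ WithZero.exp (-((m : ℤ) + 1)) := by
  classical
  obtain ⟨V, P1, P2⟩ := ASLoc_ext (F := F) v
  generalize V.valuation = U at P1 P2
  have cmp := ASLoc_cmp v U P1 P2
  have P4 : ∀ a : K, U (algebraMap K F a) ≤ 1 → v a ≤ 1 := by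
    intro a ha
    have h1 := (cmp a 1).1 (by rw [map_one (algebraMap K F), map_one U]; exact ha)
    rwa [map_one] at h1
  have hτy : ∀ i : ℕ, (τ ^ i) y = y + (i : F) := by
    intro i
    induction i with
    | zero => simp
    | succ i ih =>
      rw [pow_succ', AlgEquiv.mul_apply, ih, map_add, hτ, map_natCast]
      push_cast
      ring
  have hτz : ∀ i : ℕ, (τ ^ i) z =
      ∑ j ∈ Finset.range 3, algebraMap K F (c j) * (y + (i : F)) ^ j := by
    intro i
    rw [hz, map_sum]
    refine Finset.sum_congr rfl fun j _ => ?_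
    rw [map_mul, AlgEquiv.commutes, map_pow, hτy]
  have hUz : ∀ i : ℕ, U ((τ ^ i) z) ≤ 1 := by
    intro i
    refine ASLoc_root U (Q.map (algebraMap K F)) (hQ.map _) ?_ ?_
    · intro m
      rw [coeff_map]
      exact P1 _ (hQv m)
    · rw [eval_map_algebraMap, aeval_algHom_apply, hQz, map_zero]
  have hdiff : ∀ i : ℕ, (τ ^ i) (τ z - z) = (τ ^ (i + 1)) z - (τ ^ i) z := by
    intro i
    rw [map_sub, pow_succ, AlgEquiv.mul_apply]
  refine ⟨?_, ?_⟩
  · apply P4
    rw [hw]
    apply ASLoc_prod
    intro i _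
    rw [hdiff]
    exact U.map_sub_le (hUz _) (hUz _)
  · intro m hm hf
    have hm0 : 0 < m := by
      rcases Nat.eq_zero_or_pos m with h | h
      · exact absurd (h ▸ dvd_zero 3) hm
      · exact h
    -- the value of y
    have hyf : U y ^ 3 = U (algebraMap K F f) := by
      have h1 : 1 < U y := by
        by_contra hcon
        push Not at hcon
        have h2 : U (y ^ 3 - y) ≤ 1 := by
          refine U.map_sub_le ?_ hcon
          rw [map_pow]
          exact pow_le_one' hcon 3
        rw [hy] at h2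
        have h3 := P4 f h2
        rw [hf, ← WithZero.exp_zero, WithZero.exp_le_exp] at h3
        omega
      have h2 : U y < U (y ^ 3) := by
        rw [map_pow]
        exact lt_self_pow₀ h1 (by norm_num)
      rw [← hy, U.map_sub_eq_of_lt_left h2, map_pow]
    have hA3 : ∀ j : ℕ, U (algebraMap K F (c j) * y ^ j) ^ 3 =
        U (algebraMap K F (c j ^ 3 * f ^ j)) := by
      intro j
      rw [map_mul, map_pow, mul_pow, ← pow_mul, mul_comm j 3, pow_mul, hyf, map_mul, map_mul,
        map_pow, map_pow, map_pow, map_pow]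
    -- nonzero terms have different values
    have hdist : ∀ i < 3, ∀ j < 3, i ≠ j → c i ≠ 0 → c j ≠ 0 →
        U (algebraMap K F (c i) * y ^ i) ≠ U (algebraMap K F (c j) * y ^ j) := by
      intro i hi j hj hij hci hcj heq
      have h1 : U (algebraMap K F (c i ^ 3 * f ^ i)) = U (algebraMap K F (c j ^ 3 * f ^ j)) := by
        rw [← hA3, ← hA3, heq]
      have h2 : v (c i ^ 3 * f ^ i) = v (c j ^ 3 * f ^ j) :=
        le_antisymm ((cmp _ _).1 h1.le) ((cmp _ _).1 h1.ge)
      obtain ⟨k, hk⟩ := ASLoc_exp v hci hf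
      obtain ⟨l, hl⟩ := ASLoc_exp v hcj hf
      rw [hk, hl, WithZero.exp_inj] at h2
      have h3 : (3 : ℤ) ∣ ((i : ℤ) - j) * m := ⟨l - k, by linear_combination h2⟩
      have h4 : Prime (3 : ℤ) := Int.prime_three
      rcases h4.dvd_or_dvd h3 with h5 | h5
      · omega
      · exact hm (by exact_mod_cast h5)
    have hcl : ∀ j < 3, U (algebraMap K F (c j) * y ^ j) ≤ 1 := by
      obtain ⟨J, hJ, hJmax⟩ := Finset.exists_max_image (Finset.range 3)
        (fun j => U (algebraMap K F (c j) * y ^ j)) ⟨0, Finset.mem_range.2 (by norm_num)⟩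
      have hJ1 : U (algebraMap K F (c J) * y ^ J) ≤ 1 := by
        by_contra hcon
        push Not at hcon
        have hJ0 : c J ≠ 0 := by
          intro h
          rw [h, map_zero, zero_mul, map_zero] at hcon
          exact absurd hcon (not_lt.2 zero_le)
        have h1 : U (∑ j ∈ Finset.range 3, algebraMap K F (c j) * y ^ j) =
            U (algebraMap K F (c J) * y ^ J) := by
          refine U.map_sum_eq_of_lt hJ fun i hi => ?_
          rw [Finset.mem_sdiff, Finset.mem_singleton] at hi
          by_cases hi0 : c i = 0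
          · rw [hi0, map_zero, zero_mul, map_zero]
            exact lt_trans zero_lt_one hcon
          · exact lt_of_le_of_ne (hJmax i hi.1)
              (hdist i (Finset.mem_range.1 hi.1) J (Finset.mem_range.1 hJ) hi.2 hi0 hJ0)
        have h2 := hUz 0
        rw [pow_zero, AlgEquiv.one_apply, hz, h1] at h2
        exact absurd hcon (not_lt.2 h2)
      intro j hj
      exact (hJmax j (Finset.mem_range.2 hj)).trans hJ1
    -- the values of the coefficients
    have hlt : ∀ j < 3, 0 < j → c j ≠ 0 → ∃ k : ℤ, 3 * k + j * m < 0 ∧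
        ∀ i : ℕ, v (c j ^ 3 * f ^ i) = WithZero.exp (3 * k + i * m) := by
      intro j hj hj0 hcj
      obtain ⟨k, hk⟩ := ASLoc_exp v hcj hf
      refine ⟨k, ?_, hk⟩
      have h1 : U (algebraMap K F (c j ^ 3 * f ^ j)) ≤ 1 := by
        rw [← hA3]
        exact pow_le_one' (hcl j hj) 3
      have h2 := P4 _ h1
      rw [hk, ← WithZero.exp_zero, WithZero.exp_le_exp] at h2
      refine lt_of_le_of_ne h2 fun h3 => ?_
      have h4 : (3 : ℤ) ∣ (j : ℤ) * m := ⟨-k, by linear_combination h3⟩
      rcases Int.prime_three.dvd_or_dvd h4 with h5 | h5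
      · omega
      · exact hm (by exact_mod_cast h5)
    have hbound : ∀ b : K, (b = c 1 ^ 3 ∨ b = c 2 ^ 3 * f ∨ b = c 2 ^ 3) →
        v b ≤ WithZero.exp (-((m : ℤ) + 1)) := by
      intro b hb
      rcases hb with rfl | rfl | rfl
      · by_cases h : c 1 = 0
        · rw [h, zero_pow (by norm_num), map_zero]
          exact zero_le
        · obtain ⟨k, hk1, hk2⟩ := hlt 1 (by norm_num) (by norm_num) h
          have h1 := hk2 0
          rw [pow_zero, mul_one] at h1
          rw [h1, WithZero.exp_le_exp]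
          push_cast at hk1 ⊢
          omega
      · by_cases h : c 2 = 0
        · rw [h, zero_pow (by norm_num), zero_mul, map_zero]
          exact zero_le
        · obtain ⟨k, hk1, hk2⟩ := hlt 2 (by norm_num) (by norm_num) h
          have h1 := hk2 1
          rw [pow_one] at h1
          rw [h1, WithZero.exp_le_exp]
          push_cast at hk1 ⊢
          omega
      · by_cases h : c 2 = 0
        · rw [h, zero_pow (by norm_num), map_zero]
          exact zero_le
        · obtain ⟨k, hk1, hk2⟩ := hlt 2 (by norm_num) (by norm_num) h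
          have h1 := hk2 0
          rw [pow_zero, mul_one] at h1
          rw [h1, WithZero.exp_le_exp]
          push_cast at hk1 ⊢
          omega
    -- the maximal one of the three
    obtain ⟨b, hb, hbmax⟩ := Finset.exists_max_image ({c 1 ^ 3, c 2 ^ 3 * f, c 2 ^ 3} : Finset K)
      (fun b => U (algebraMap K F b)) ⟨c 1 ^ 3, Finset.mem_insert_self _ _⟩
    have hb' : b = c 1 ^ 3 ∨ b = c 2 ^ 3 * f ∨ b = c 2 ^ 3 := by
      rw [Finset.mem_insert, Finset.mem_insert, Finset.mem_singleton] at hb
      exact hb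
    have hW : ∀ i : ℕ, U ((τ ^ i) (τ z - z)) ^ 3 ≤ U (algebraMap K F b) := by
      intro i
      have hnat : ∀ k : ℕ, U ((k : F)) ≤ 1 := by
        intro k
        have h1 := P1 (k : K) (by
          have h2 : v (k : K) ≤ 1 := by
            induction k with
            | zero => rw [Nat.cast_zero, map_zero]; exact zero_le
            | succ k ih => rw [Nat.cast_succ]; exact v.map_add_le ih (map_one v).le
          exact h2)
        rwa [map_natCast] at h1
      have h1 : (τ ^ i) (τ z - z) = algebraMap K F (c 1) +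
          ((2 : ℕ) : F) * (algebraMap K F (c 2) * y) +
            ((2 * i + 1 : ℕ) : F) * algebraMap K F (c 2) := by
        rw [hdiff, hτz, hτz, Finset.sum_range_succ, Finset.sum_range_succ, Finset.sum_range_succ,
          Finset.sum_range_zero, Finset.sum_range_succ, Finset.sum_range_succ,
          Finset.sum_range_succ, Finset.sum_range_zero]
        push_cast
        ring
      have h2 : U (algebraMap K F (c 1)) ^ 3 ≤ U (algebraMap K F b) := by
        rw [← map_pow, ← map_pow]
        exact hbmax _ (by simp)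
      have h3 : U (algebraMap K F (c 2) * y) ^ 3 ≤ U (algebraMap K F b) := by
        rw [map_mul, mul_pow, hyf, ← map_pow, ← map_pow, ← map_mul, ← map_mul]
        exact hbmax _ (by simp)
      have h4 : U (algebraMap K F (c 2)) ^ 3 ≤ U (algebraMap K F b) := by
        rw [← map_pow, ← map_pow]
        exact hbmax _ (by simp)
      have h3' : U (((2 : ℕ) : F) * (algebraMap K F (c 2) * y)) ^ 3 ≤ U (algebraMap K F b) := by
        rw [map_mul, mul_pow]
        exact (mul_le_of_le_one_left' (pow_le_one' (hnat 2) 3)).trans h3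
      have h4' : U (((2 * i + 1 : ℕ) : F) * algebraMap K F (c 2)) ^ 3 ≤ U (algebraMap K F b) := by
        rw [map_mul, mul_pow]
        exact (mul_le_of_le_one_left' (pow_le_one' (hnat _) 3)).trans h4
      rw [h1]
      have hmax : ∀ x x' : F, U x ^ 3 ≤ U (algebraMap K F b) → U x' ^ 3 ≤ U (algebraMap K F b) →
          U (x + x') ^ 3 ≤ U (algebraMap K F b) := by
        intro x x' hx hx'
        rcases le_total (U x) (U x') with h5 | h5
        · exact (pow_le_pow_left' (U.map_add_le h5 le_rfl) 3).trans hx'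
        · exact (pow_le_pow_left' (U.map_add_le le_rfl h5) 3).trans hx
      exact hmax _ _ (hmax _ _ h2 h3') h4'
    have hw3 : U (algebraMap K F (w ^ 3)) ≤ U (algebraMap K F (b ^ 3)) := by
      rw [map_pow, map_pow, map_pow, map_pow, hw, map_prod, ← Finset.prod_pow]
      refine (Finset.prod_le_pow_card _ _ _ fun i _ => hW i).trans ?_
      rw [Finset.card_range]
    have hv3 := (cmp _ _).1 hw3
    rw [map_pow, map_pow] at hv3
    have hvw : v w ≤ v b := (pow_le_pow_iff_left₀ zero_le zero_le (by norm_num)).1 hv3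
    exact hvw.trans (hbound b hb')

end Pool.Agent.Helper54.HZ
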