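import Mathlib

/-!
MP_143e28_ag, project HZ: the polynomial of `1 / (z - c)` (Mathlib only, pure polynomial algebra).

`P = ∑ p_i Z ^ i` of degree `n` over a domain `A ⊇ k`; `flip P c = ∑ p_i Z^(n-i) (c Z + 1)^i = Z^n P (c + 1 / Z)`: the reversed polynomial
of `P.comp (X + C c)` (`Polynomial.reverse`, `Polynomial.reflect`, `eval₂_reverse_mul_pow`, ...), or define it by the sum.
Coefficient of `Z^n`: `P.eval c`.  All coefficients are `k`-linear combinations of the `p_i`.
`flip_root`: if `P (z) = 0`, `z ≠ c` in a field `F`: `flip P c` has the root `(z - c)⁻¹`.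
-/

set_option autoImplicit false

namespace Pool.Agent.Helper54.HZ

open Polynomial

/-- the coefficients of `P (X + c)` are combinations of the coefficients of `P` -/
private theorem Flip_span {k A : Type*} [Field k] [CommRing A] [Algebra k A] (P : A[X]) (c : k)
    (j : ℕ) : (P.comp (X + C (algebraMap k A c))).coeff j ∈
      Submodule.span k (Set.range P.coeff) := by
  rw [comp, eval₂_eq_sum_range, finsetSum_coeff]
  refine Submodule.sum_mem _ fun i _ => ?_
  rw [coeff_C_mul, coeff_X_add_C_pow, ← map_pow, ← map_natCast (algebraMap k A), ← map_mul,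
    mul_comm, ← Algebra.smul_def]
  exact Submodule.smul_mem _ _ (Submodule.subset_span ⟨i, rfl⟩)

theorem flip_poly {k A : Type*} [Field k] [CommRing A] [Algebra k A] (P : A[X]) (n : ℕ) (hP : P.natDegree ≤ n)
    (c : k) :
    ∃ Q : A[X], Q.natDegree ≤ n ∧ Q.coeff n = P.eval (algebraMap k A c) ∧
      (∀ i, Q.coeff i ∈ Submodule.span k (Set.range P.coeff)) ∧
      ∀ (F : Type*) [Field F] (φ : A →+* F) (z : F), z ≠ φ (algebraMap k A c) → P.eval₂ φ z = 0 →
        Q.eval₂ φ (z - φ (algebraMap k A c))⁻¹ = 0 := by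
  obtain ⟨R, hR⟩ : ∃ R : A[X], R = P.comp (X + C (algebraMap k A c)) := ⟨_, rfl⟩
  have hRn : R.natDegree ≤ n := by
    rw [hR]
    refine le_trans natDegree_comp_le ?_
    have h1 : (X + C (algebraMap k A c) : A[X]).natDegree ≤ 1 := by
      refine le_trans (natDegree_add_le _ _) ?_
      rw [natDegree_C]
      exact max_le natDegree_X_le (Nat.zero_le _)
    calc P.natDegree * (X + C (algebraMap k A c) : A[X]).natDegree ≤ n * 1 :=
          Nat.mul_le_mul hP h1
      _ = n := mul_one n
  refine ⟨reflect n R, ?_, ?_, ?_, ?_⟩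
  · rw [natDegree_le_iff_coeff_eq_zero]
    intro i hi
    rw [coeff_reflect, revAt_eq_self_of_lt hi]
    exact coeff_eq_zero_of_natDegree_lt (lt_of_le_of_lt hRn hi)
  · rw [coeff_reflect, revAt_le le_rfl, Nat.sub_self, hR, coeff_zero_eq_eval_zero, eval_comp]
    simp
  · intro i
    rw [coeff_reflect, hR]
    exact Flip_span P c _
  · intro F _ φ z hz h0
    have hx : z - φ (algebraMap k A c) ≠ 0 := sub_ne_zero.2 hz
    let _ : Invertible (z - φ (algebraMap k A c)) := invertibleOfNonzero hx
    have h1 := eval₂_reflect_mul_pow φ (z - φ (algebraMap k A c)) n R hRn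
    have h2 : eval₂ φ (z - φ (algebraMap k A c)) R = 0 := by
      rw [hR, eval₂_comp]
      rw [eval₂_add, eval₂_X, eval₂_C, sub_add_cancel]
      exact h0
    rw [h2] at h1
    rw [← invOf_eq_inv]
    exact (mul_eq_zero.1 h1).resolve_right (pow_ne_zero _ hx)

end Pool.Agent.Helper54.HZ
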