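import Pool.Agent.Helper54.HZ.ASMin
import Pool.Agent.Helper54.HZ.ASLoc
import Pool.Agent.Helper54.HZ.ASCount
import Pool.Agent.Helper54.HZ.Flip
import Pool.Agent.Helper54.HZ.Place

/-!
MP_143e28_ag, project HZ, part 2 (characteristic 3): a function outside `k(x)` of degree at most `m` in `x` forces
`∑ (m_P + 1) ≤ 2 m`.

The same proof as in `DegN.lean` (in progress: helper53; read its header) with `as_prim`, `as_loc`, `as_fixed`, `as_cube`: at a pole `Q0` of
`f` with `ordP Q0 f = - m_P` (`v f = exp m_P`, `3 ∤ m_P` by `poles`) `as_loc` gives `ord_Q0 w0' ≥ m_P + 1`, so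
`ord_Q0 W ≥ wt Q0 - 2 m [Q0 = ∞]`, `wt P = 1 - ordP P f` at the poles of `f`, `0` elsewhere; `countW` with `2 m`.
-/

set_option autoImplicit false

namespace Pool.Agent.Helper54.HZ

open Polynomial Pool.Agent.Helper54.HY

variable {k F : Type*} [Field k] [Field F] [Algebra k F]

private theorem ASDeg_alg {A B D : F} (hA : A ≠ 0) (hB : B ≠ 0) (hD : D ≠ 0) :
    (B⁻¹ - A⁻¹) * (D⁻¹ - B⁻¹) * (A⁻¹ - D⁻¹) =
      -((B - A) * (D - B) * (A - D)) / (A * B * D) ^ 2 := by
  field_simp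
  ring

private theorem ASDeg_norm (τ : F ≃ₐ[k] F) (hτ3 : τ ^ 3 = 1) {z e : F} (he : τ e = e)
    (hze : ∀ i : ℕ, (τ ^ i) z ≠ e) :
    ∏ i ∈ Finset.range 3, (τ ^ i) (τ (z - e)⁻¹ - (z - e)⁻¹) =
      -(∏ i ∈ Finset.range 3, (τ ^ i) (τ z - z)) / (∏ i ∈ Finset.range 3, ((τ ^ i) z - e)) ^ 2 := by
  have h3 : τ (τ (τ z)) = z := by
    have := congrArg (fun s : F ≃ₐ[k] F => s z) hτ3
    simpa [pow_succ, AlgEquiv.mul_apply] using this
  have e0 := hze 0
  have e1 := hze 1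
  have e2 := hze 2
  simp only [pow_zero, AlgEquiv.one_apply, pow_one, pow_two, AlgEquiv.mul_apply] at e0 e1 e2
  have key := ASDeg_alg (sub_ne_zero.2 e0) (sub_ne_zero.2 e1) (sub_ne_zero.2 e2)
  simp only [Finset.prod_range_succ, Finset.prod_range_zero, one_mul, pow_zero,
    AlgEquiv.one_apply, pow_one, pow_two τ, AlgEquiv.mul_apply, map_sub, map_inv₀, he, h3]
  rw [key]
  congr 2
  ring

private theorem ASDeg_comp {x : F} (hx : Transcendental k x) :
    (aeval x : k[X] →ₐ[k] F).toRingHom =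
      (rat hx).toRingHom.comp (algebraMap k[X] (RatFunc k)) :=
  RingHom.ext fun q => (rat_poly hx q).symm

private theorem ASDeg_tau_x {x : F} (τ : F ≃ₐ[k] F) (hx : τ x = x) (i : ℕ) : (τ ^ i) x = x := by
  induction i with
  | zero => rfl
  | succ i ih => rw [pow_succ, AlgEquiv.mul_apply, hx, ih]

private theorem ASDeg_ord_zero (Q0 : OnePoint k) : ordP Q0 (0 : RatFunc k) = 0 := by
  induction Q0 using OnePoint.rec with
  | infty =>
    rw [ordP_infty, RatFunc.num_zero, RatFunc.denom_zero, natDegree_one, natDegree_zero]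
    simp
  | coe a =>
    rw [ordP_coe, RatFunc.num_zero, RatFunc.denom_zero]
    have h := Ord_v_one (a : OnePoint k)
    rw [Ord_v_coe] at h
    rw [h, rootMultiplicity_zero]
    simp

private theorem ASDeg_local [IsAlgClosed k] [CharP k 3] {g : ℕ} {x y : F} {f : RatFunc k}
    (h : PresAS k F 3 g x y f) {τ : F ≃ₐ[k] F} (hx : τ x = x) (hy : τ y = y + 1) {z : F}
    (hz : ∀ r : RatFunc k, rat h.trans r ≠ z) {m : ℕ} (P : k[X][X]) (hPp : P.IsPrimitive)
    (hPn : P.natDegree = 3) (hPm : ∀ i, (P.coeff i).natDegree ≤ m)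
    (hPf : P.map (aeval x : k[X] →ₐ[k] F).toRingHom =
      C (aeval x P.leadingCoeff) * ∏ i ∈ Finset.range 3, (X - C ((τ ^ i) z)))
    (w0 : RatFunc k) (hw0 : rat h.trans w0 = ∏ i ∈ Finset.range 3, (τ ^ i) (τ z - z))
    (hw00 : w0 ≠ 0) (Q0 : OnePoint k) :
    ∃ o : ℤ, (∀ b : k, Q0 = (b : OnePoint k) → o = 0) ∧ (Q0 = OnePoint.infty → -(m : ℤ) ≤ o) ∧
      (if ordP Q0 f < 0 then 1 - ordP Q0 f else 0) + 2 * o ≤
        ordP Q0 (algebraMap k[X] (RatFunc k) P.leadingCoeff ^ 2 * w0) := by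
  have hτ3 := as_cube h hx hy
  obtain ⟨c, hb0, hbP, hbfin, hbinf⟩ := good_const P hPp hPm Q0
  obtain ⟨b, hb⟩ : ∃ b, b = P.eval (C c) := ⟨_, rfl⟩
  rw [← hb] at hb0 hbP hbfin hbinf
  obtain ⟨a, ha⟩ : ∃ a, a = P.leadingCoeff := ⟨_, rfl⟩
  have ha0 : a ≠ 0 := by
    rw [ha, Ne, leadingCoeff_eq_zero]
    exact hPp.ne_zero
  rw [← ha] at hPf ⊢
  have hbK : algebraMap k[X] (RatFunc k) b ≠ 0 := RatFunc.algebraMap_ne_zero hb0
  have haK : algebraMap k[X] (RatFunc k) a ≠ 0 := RatFunc.algebraMap_ne_zero ha0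
  -- the constant in `F`
  obtain ⟨e, he⟩ : ∃ e : F, e = algebraMap k F c := ⟨_, rfl⟩
  have hτe : τ e = e := by rw [he, AlgEquiv.commutes]
  have hze : ∀ i : ℕ, (τ ^ i) z ≠ e := by
    intro i hi
    have h1 : z = e := by
      apply (τ ^ i).injective
      rw [hi, he, AlgEquiv.commutes]
    refine hz (algebraMap k[X] (RatFunc k) (C c)) ?_
    rw [rat_poly, aeval_C, h1, he]
  -- evaluation at the constant
  have hev : aeval x b = aeval x a * (-(∏ i ∈ Finset.range 3, ((τ ^ i) z - e))) := by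
    have h1 := congrArg (fun p : F[X] => p.eval e) hPf
    simp only [eval_mul, eval_C, eval_prod, eval_sub, eval_X] at h1
    have h2 : (P.map (aeval x : k[X] →ₐ[k] F).toRingHom).eval e = aeval x b := by
      rw [hb, eval_map]
      have h3 : e = (aeval x : k[X] →ₐ[k] F).toRingHom (C c) := by
        rw [he]
        exact (aeval_C x c).symm
      rw [h3, eval₂_hom]
      rfl
    rw [h2] at h1
    rw [h1]
    congr 1
    simp only [Finset.prod_range_succ, Finset.prod_range_zero, one_mul]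
    ring
  have hax : aeval x a ≠ 0 := by
    rw [← rat_poly h.trans, Ne, map_eq_zero]
    exact haK
  have hbx : aeval x b ≠ 0 := by
    rw [← rat_poly h.trans, Ne, map_eq_zero]
    exact hbK
  -- the change of the function
  obtain ⟨z', hz'⟩ : ∃ z' : F, z' = (z - e)⁻¹ := ⟨_, rfl⟩
  obtain ⟨w', hw'⟩ : ∃ w' : RatFunc k, w' = -(algebraMap k[X] (RatFunc k) a ^ 2 * w0) /
    algebraMap k[X] (RatFunc k) b ^ 2 := ⟨_, rfl⟩
  have hw'0 : w' ≠ 0 := by
    rw [hw']
    exact div_ne_zero (neg_ne_zero.2 (mul_ne_zero (pow_ne_zero _ haK) hw00)) (pow_ne_zero _ hbK)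
  have hnorm : rat h.trans w' = ∏ i ∈ Finset.range 3, (τ ^ i) (τ z' - z') := by
    rw [hz', ASDeg_norm τ hτ3 hτe hze, ← hw0, hw', map_div₀, map_neg, map_mul, map_pow, map_pow,
      rat_poly, rat_poly, hev]
    have hp : (∏ i ∈ Finset.range 3, ((τ ^ i) z - e)) ≠ 0 :=
      Finset.prod_ne_zero_iff.2 fun i _ => sub_ne_zero.2 (hze i)
    field_simp
  -- the valuation
  obtain ⟨v, hv⟩ := exists_val Q0
  -- the polynomial
  obtain ⟨Q1, hQ1n, hQ1c, hQ1s, hQ1r⟩ := flip_poly P 3 hPn.le c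
  have hQ1c' : Q1.coeff 3 = b := by rw [hQ1c, hb]; rfl
  have hQ1r' : Q1.eval₂ (aeval x : k[X] →ₐ[k] F).toRingHom z' = 0 := by
    have h1 : (aeval x : k[X] →ₐ[k] F).toRingHom (algebraMap k k[X] c) = e := by
      rw [he]
      exact aeval_C x c
    have h2 := hQ1r F (aeval x : k[X] →ₐ[k] F).toRingHom z (by
      rw [h1]
      exact hze 0) (by
      rw [← eval_map, hPf, eval_mul, eval_prod]
      refine mul_eq_zero_of_right _ (Finset.prod_eq_zero (i := 0) (by simp) ?_)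
      simp)
    rw [h1] at h2
    rw [hz']
    exact h2
  obtain ⟨Q2, hQ2⟩ : ∃ Q2 : (RatFunc k)[X], Q2 = C (algebraMap k[X] (RatFunc k) b)⁻¹ *
    Q1.map (algebraMap k[X] (RatFunc k)) := ⟨_, rfl⟩
  have hQ2c : ∀ i, Q2.coeff i = algebraMap k[X] (RatFunc k) (Q1.coeff i) /
      algebraMap k[X] (RatFunc k) b := by
    intro i
    rw [hQ2, coeff_C_mul, coeff_map, div_eq_inv_mul]
  have hQ2m : Q2.Monic := by
    refine monic_of_natDegree_le_of_coeff_eq_one 3 ?_ ?_
    · rw [hQ2]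
      exact (natDegree_C_mul_le _ _).trans (natDegree_map_le.trans hQ1n)
    · rw [hQ2c, hQ1c', div_self hbK]
  have hQ2v : ∀ i, v (Q2.coeff i) ≤ 1 := by
    intro i
    rw [hQ2c]
    exact span_val Q0 v hv P b hb0 hbP (hQ1s i)
  -- the algebra structure
  letI : Algebra (RatFunc k) F := (rat h.trans).toRingHom.toAlgebra
  have halg : ∀ r : RatFunc k, algebraMap (RatFunc k) F r = rat h.trans r := fun r => rfl
  have : CharP (RatFunc k) 3 := charP_of_injective_algebraMap (algebraMap k (RatFunc k)).injective 3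
  let τK : F ≃ₐ[RatFunc k] F := AlgEquiv.ofRingEquiv (f := (τ : F ≃+* F)) (fun r => by
    rw [halg]
    exact tau_rat h.trans τ hx r)
  have hτK : ∀ (i : ℕ) (u : F), (τK ^ i) u = (τ ^ i) u := by
    intro i
    induction i with
    | zero => intro u; rfl
    | succ i ih =>
      intro u
      rw [pow_succ, pow_succ, AlgEquiv.mul_apply, AlgEquiv.mul_apply, ih]
      rfl
  have hQ2z : aeval z' Q2 = 0 := by
    rw [aeval_def, hQ2, eval₂_mul, eval₂_map]
    have h1 : (algebraMap (RatFunc k) F).comp (algebraMap k[X] (RatFunc k)) =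
        (aeval x : k[X] →ₐ[k] F).toRingHom := (ASDeg_comp h.trans).symm
    rw [h1, hQ1r', mul_zero]
  obtain ⟨cc, hcc⟩ := as_decomp h z'
  have hloc := as_loc v τK (y := y) (f := f) (by rw [halg]; exact as_eqn h) hy cc z' hcc Q2 hQ2m
    hQ2v hQ2z w' (by
      rw [halg, hnorm]
      refine Finset.prod_congr rfl fun i _ => ?_
      rw [hτK]
      rfl)
  obtain ⟨hl1, hl2⟩ := hloc
  rw [hv w' hw'0] at hl1 hl2
  have ho1 : 0 ≤ ordP Q0 w' := by
    rw [← WithZero.exp_zero, WithZero.exp_le_exp] at hl1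
    omega
  have hwt : (if ordP Q0 f < 0 then 1 - ordP Q0 f else 0) ≤ ordP Q0 w' := by
    split_ifs with hneg
    · have hf0 : f ≠ 0 := by
        rintro rfl
        rw [ASDeg_ord_zero] at hneg
        exact absurd hneg (lt_irrefl _)
      obtain ⟨m', hm'⟩ : ∃ m' : ℕ, (m' : ℤ) = -ordP Q0 f := ⟨(-ordP Q0 f).toNat, by omega⟩
      have h1 := h.poles Q0 hneg
      have h2 := hl2 m' (by
        intro h3
        apply h1
        have h4 : ((3 : ℕ) : ℤ) ∣ (m' : ℤ) := Int.natCast_dvd_natCast.2 h3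
        rw [hm', dvd_neg] at h4
        exact h4) (by rw [hv f hf0, hm'])
      rw [WithZero.exp_le_exp] at h2
      omega
    · exact ho1
  have hW : algebraMap k[X] (RatFunc k) a ^ 2 * w0 =
      -w' * algebraMap k[X] (RatFunc k) b ^ 2 := by
    rw [hw']
    field_simp
  have hneg1 : ordP Q0 (-w') = ordP Q0 w' := by
    have h1 : -w' = algebraMap k[X] (RatFunc k) (C (-1)) * w' := by
      rw [C_neg, C_1, map_neg, map_one, neg_one_mul]
    rw [h1, ord_mul Q0 (RatFunc.algebraMap_ne_zero (C_ne_zero.2 (neg_ne_zero.2 one_ne_zero))) hw'0,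
      ord_const, zero_add]
  refine ⟨ordP Q0 (algebraMap k[X] (RatFunc k) b), hbfin, hbinf, ?_⟩
  rw [hW, ord_mul Q0 (neg_ne_zero.2 hw'0) (pow_ne_zero _ hbK), ord_pow Q0 hbK, hneg1]
  push_cast
  linarith

theorem as_deg [IsAlgClosed k] [CharP k 3] {g : ℕ} {x y : F} {f : RatFunc k} (h : PresAS k F 3 g x y f) {z : F}
    (hz : ∀ r : RatFunc k, rat h.trans r ≠ z) {m : ℕ} (Q : k[X][X]) (hQ : Q ≠ 0)
    (hm : ∀ i, (Q.coeff i).natDegree ≤ m)
    (h0 : Q.eval₂ (aeval x : k[X] →ₐ[k] F).toRingHom z = 0) :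
    ∑ᶠ P ∈ {P : OnePoint k | ordP P f < 0}, (1 - ordP P f) ≤ 2 * (m : ℤ) := by
  classical
  obtain ⟨τ, hx, hy⟩ := as_sig h
  have hτ3 := as_cube h hx hy
  obtain ⟨P, hPp, hPn, hPm, hPf⟩ := as_prim h hx hy hz Q hQ hm h0
  have h3 : ∀ u : F, τ (τ (τ u)) = u := by
    intro u
    have := congrArg (fun s : F ≃ₐ[k] F => s u) hτ3
    simpa [pow_succ, AlgEquiv.mul_apply] using this
  have hzτ : τ z ≠ z := by
    intro hh
    obtain ⟨r, hr⟩ := as_fixed h hx hy hh
    exact hz r hr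
  obtain ⟨w0, hw0⟩ : ∃ r, rat h.trans r = ∏ i ∈ Finset.range 3, (τ ^ i) (τ z - z) := by
    refine as_fixed h hx hy ?_
    simp only [Finset.prod_range_succ, Finset.prod_range_zero, one_mul, pow_zero,
      AlgEquiv.one_apply, pow_one, pow_two, AlgEquiv.mul_apply, map_sub, map_mul, h3]
    ring
  have hw00 : w0 ≠ 0 := by
    rintro rfl
    rw [map_zero] at hw0
    obtain ⟨i, _, hi⟩ := Finset.prod_eq_zero_iff.1 hw0.symm
    rw [EmbeddingLike.map_eq_zero_iff, sub_eq_zero] at hi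
    exact hzτ hi
  have ha0 : P.leadingCoeff ≠ 0 := by
    rw [Ne, leadingCoeff_eq_zero]
    exact hPp.ne_zero
  have hW : algebraMap k[X] (RatFunc k) P.leadingCoeff ^ 2 * w0 ≠ 0 :=
    mul_ne_zero (pow_ne_zero _ (RatFunc.algebraMap_ne_zero ha0)) hw00
  have hloc := ASDeg_local h hx hy hz P hPp hPn hPm hPf w0 hw0 hw00
  have hcount := countW hW (2 * (m : ℤ)) (fun P => if ordP P f < 0 then 1 - ordP P f else 0)
    (fun P => by
      show 0 ≤ (if ordP P f < 0 then 1 - ordP P f else 0)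
      split_ifs with h1
      · omega
      · exact le_refl _)
    (fun b => by
      obtain ⟨o, ho1, _, ho3⟩ := hloc (b : OnePoint k)
      rw [ho1 b rfl, mul_zero, add_zero] at ho3
      exact ho3)
    (by
      obtain ⟨o, _, ho2, ho3⟩ := hloc OnePoint.infty
      have := ho2 rfl
      show (if ordP OnePoint.infty f < 0 then 1 - ordP OnePoint.infty f else 0) - 2 * (m : ℤ) ≤ _
      linarith)
  rw [finsum_mem_def]
  refine le_trans (le_of_eq ?_) hcount
  refine finsum_congr fun P => ?_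
  rw [Set.indicator_apply]
  rfl

end Pool.Agent.Helper54.HZ
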