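import Pool.Agent.Helper54.HZ.ASKum
import Pool.Agent.Helper54.HZ.Fix

/-!
MP_143e28_ag, project HZ, part 2 (characteristic 3): consequences.

`as_fixed`: `z = c_0 + c_1 y + c_2 y ^ 2`, `τ z - z = c_1 + c_2 (2 y + 1)`, so (`as_indep`) `2 c_2 = 0`, `c_1 + c_2 = 0`.
`as_cube`: `τ ^ 3 = 1` by `as_decomp`.
`as_key`: `u = s y` satisfies `u ^ 3 - u = f (s x)` (the value `aeval R f.num / aeval R f.denom` of `f` at `s x = rat R`), fixed by `τ`;
`e = τ u - u`: `e ^ 3 - e = 0`, so `e ∈ {0, 1, -1}`; `u - e y` is fixed by `τ`, so `u = e y + rat c`; `e ≠ 0`: otherwise `s y ∈ k(x)`,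
`y = s.symm (s y) ∈ k(s.symm x) ⊆ k(x)`, against `as_indep`.  Then `f (R) = u ^ 3 - u = e (y ^ 3 - y) + c ^ 3 - c = e f + c ^ 3 - c`.
-/

set_option autoImplicit false

namespace Pool.Agent.Helper54.HZ

open Polynomial Pool.Agent.Helper54.HY

variable {k F : Type*} [Field k] [Field F] [Algebra k F]

private theorem ASFix_three (K : Type*) [Field K] [Algebra k K] [CharP k 3] : (3 : K) = 0 := by
  have h1 : ((3 : ℕ) : k) = 0 := CharP.cast_eq_zero k 3
  have h2 := congrArg (algebraMap k K) h1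
  rw [map_natCast, map_zero] at h2
  exact_mod_cast h2

private theorem ASFix_ind [CharP k 3] {g : ℕ} {x y : F} {f : RatFunc k}
    (h : PresAS k F 3 g x y f) (a b c : RatFunc k)
    (h0 : rat h.trans a + rat h.trans b * y + rat h.trans c * y ^ 2 = 0) :
    a = 0 ∧ b = 0 ∧ c = 0 := by
  have h1 := as_indep h (fun j => if j = 0 then a else if j = 1 then b else c) (by
    rw [Finset.sum_range_succ, Finset.sum_range_succ, Finset.sum_range_succ,
      Finset.sum_range_zero]
    simp only [if_true, one_ne_zero, if_false, pow_zero, pow_one, mul_one, zero_add]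
    have h2 : ¬ (2 : ℕ) = 0 := by norm_num
    have h3 : ¬ (2 : ℕ) = 1 := by norm_num
    rw [if_neg h2, if_neg h3]
    exact h0)
  exact ⟨by simpa using h1 0 (by norm_num), by simpa using h1 1 (by norm_num),
    by simpa using h1 2 (by norm_num)⟩

theorem as_fixed [CharP k 3] {g : ℕ} {x y : F} {f : RatFunc k} (h : PresAS k F 3 g x y f) {τ : F ≃ₐ[k] F}
    (hx : τ x = x) (hy : τ y = y + 1) {z : F} (hz : τ z = z) : ∃ r : RatFunc k, rat h.trans r = z := by
  obtain ⟨c, hc⟩ := as_decomp h z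
  rw [Finset.sum_range_succ, Finset.sum_range_succ, Finset.sum_range_succ,
    Finset.sum_range_zero] at hc
  have h2 : τ z = rat h.trans (c 0) + rat h.trans (c 1) * (y + 1) +
      rat h.trans (c 2) * (y + 1) ^ 2 := by
    rw [hc]
    simp only [map_add, map_mul, map_pow, tau_rat h.trans τ hx, hy, map_zero, zero_add, pow_zero,
      pow_one, mul_one, map_one]
  rw [hz] at h2
  have h4 := ASFix_ind h (c 1 + c 2) (2 * c 2) 0 (by
    rw [map_add, map_mul, map_ofNat, map_zero]
    linear_combination hc - h2)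
  have h3 : (3 : RatFunc k) = 0 := ASFix_three (k := k) (RatFunc k)
  have hc2 : c 2 = 0 := by linear_combination (c 2) * h3 - h4.2.1
  have hc1 : c 1 = 0 := by linear_combination h4.1 - hc2
  refine ⟨c 0, ?_⟩
  rw [hc, hc1, hc2, map_zero]
  ring

theorem as_cube [CharP k 3] {g : ℕ} {x y : F} {f : RatFunc k} (h : PresAS k F 3 g x y f) {τ : F ≃ₐ[k] F}
    (hx : τ x = x) (hy : τ y = y + 1) : τ ^ 3 = 1 := by
  have h3 : (3 : F) = 0 := ASFix_three (k := k) F
  have e : ∀ z : F, (τ ^ 3) z = τ (τ (τ z)) := by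
    intro z
    rw [pow_succ, pow_succ, pow_one, AlgEquiv.mul_apply, AlgEquiv.mul_apply]
  have h1 : (τ ^ 3) x = x := by rw [e, hx, hx, hx]
  have h2 : (τ ^ 3) y = y := by
    rw [e, hy, map_add, map_add, map_one, map_one, hy, map_add, map_one, hy]
    linear_combination h3
  ext z
  obtain ⟨c, hc⟩ := as_decomp h z
  rw [AlgEquiv.one_apply]
  conv_lhs => rw [hc]
  rw [map_sum]
  conv_rhs => rw [hc]
  refine Finset.sum_congr rfl fun j _ => ?_
  rw [map_mul, map_pow, tau_rat h.trans (τ ^ 3) h1, h2]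

/-- values of rational functions -/
private theorem ASFix_val {x : F} (hx : Transcendental k x) (s : F ≃ₐ[k] F) {R : RatFunc k}
    (hR : s x = rat hx R) (r : RatFunc k) :
    s (rat hx r) = rat hx (aeval R r.num / aeval R r.denom) := by
  conv_lhs => rw [← RatFunc.num_div_denom r]
  rw [map_div₀, map_div₀, map_div₀, rat_poly, rat_poly, ← aeval_algHom_apply s,
    ← aeval_algHom_apply s, hR, aeval_algHom_apply, aeval_algHom_apply]

theorem as_key [CharP k 3] {g : ℕ} {x y : F} {f : RatFunc k} (h : PresAS k F 3 g x y f)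
    (s : F ≃ₐ[k] F) {R R' : RatFunc k} (hR : s x = rat h.trans R) (hR' : s.symm x = rat h.trans R') :
    ∃ e c : RatFunc k, (e = 1 ∨ e = -1) ∧ aeval R f.num / aeval R f.denom = e * f + (c ^ 3 - c) := by
  have h3 : (3 : F) = 0 := ASFix_three (k := k) F
  obtain ⟨Q, hQ⟩ : ∃ Q : RatFunc k, Q = aeval R f.num / aeval R f.denom := ⟨_, rfl⟩
  rw [← hQ]
  have heqn : y ^ 3 - y = rat h.trans f := as_eqn h
  obtain ⟨u, hu⟩ : ∃ u : F, u = s y := ⟨_, rfl⟩
  have h1 : u ^ 3 - u = rat h.trans Q := by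
    rw [hu, ← map_pow, ← map_sub, heqn, ASFix_val h.trans s hR f, hQ]
  obtain ⟨τ, hx, hy⟩ := as_sig h
  obtain ⟨e0, he0⟩ : ∃ e0 : F, e0 = τ u - u := ⟨_, rfl⟩
  have htau : (τ u) ^ 3 - τ u = u ^ 3 - u := by
    rw [← map_pow, ← map_sub, h1, tau_rat h.trans τ hx]
  have he1 : e0 * (e0 - 1) * (e0 + 1) = 0 := by
    have h4 : e0 * (e0 - 1) * (e0 + 1) = e0 ^ 3 - e0 := by ring
    rw [h4, he0]
    linear_combination htau - (τ u * u * (τ u - u)) * h3
  rcases mul_eq_zero.1 he1 with h5 | h5
  · rcases mul_eq_zero.1 h5 with h6 | h6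
    · exfalso
      have h7 : τ u = u := by linear_combination h6 - he0
      obtain ⟨c, hc⟩ := as_fixed h hx hy h7
      have h8 : y = rat h.trans (aeval R' c.num / aeval R' c.denom) := by
        rw [← ASFix_val h.trans s.symm hR' c, hc, hu]
        exact (s.symm_apply_apply y).symm
      have h9 := ASFix_ind h (-(aeval R' c.num / aeval R' c.denom)) 1 0 (by
        rw [map_neg, map_one, map_zero, ← h8]
        ring)
      exact one_ne_zero h9.2.1
    · have h7 : τ (u - y) = u - y := by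
        rw [map_sub, hy]
        linear_combination h6 - he0
      obtain ⟨c, hc⟩ := as_fixed h hx hy h7
      refine ⟨1, c, Or.inl rfl, rat_injective h.trans ?_⟩
      rw [← h1, map_add, map_mul, map_one, map_sub, map_pow, hc, ← heqn]
      linear_combination (u * y * (u - y)) * h3
  · have h7 : τ (u + y) = u + y := by
      rw [map_add, hy]
      linear_combination h5 - he0
    obtain ⟨c, hc⟩ := as_fixed h hx hy h7
    refine ⟨-1, c, Or.inr rfl, rat_injective h.trans ?_⟩
    rw [← h1, map_add, map_mul, map_neg, map_one, map_sub, map_pow, hc, ← heqn]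
    linear_combination -(u * y * (u + y)) * h3

end Pool.Agent.Helper54.HZ
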