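import Pool.Agent.Helper54.HZ.Cover
import Pool.Agent.Helper54.HZ.Val

/-!
MP_143e28_ag, project HZ, part 2 (Artin-Schreier covers in characteristic 3): the extension `F = k(x)(y)`, `y ^ 3 - y = f (x)`.

`as_eqn`: `rat_poly`, `RatFunc.num_div_denom`.  `as_pole`: otherwise the sum in `genus` is `0`.
`as_irr`: a polynomial of degree `3` over a field without roots is irreducible
(`Polynomial.irreducible_of_degree_le_three_of_not_isRoot` or a similar name).  Let `h ^ 3 - h = f`, `P` a pole of `f`; `h` is not `0`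
(`ordP P 0 = 0`) and has a pole at `P` (otherwise `ordP P f ≥ 0` by `ord_add`), so `ordP P (h ^ 3 - h) = 3 * ordP P h` (use the
valuation of `exists_val`), against `poles`.
`as_decomp`, `as_indep`, `as_sig`: as `decomp`, `indep`, `exists_tau` in `Kum.lean` (power basis; `y + 1` is another root of
`X ^ 3 - X - C f`: `(y + 1) ^ 3 = y ^ 3 + 1` in characteristic 3).
-/

set_option autoImplicit false

namespace Pool.Agent.Helper54.HZ

open Polynomial Pool.Agent.Helper54.HY

section

variable {K F : Type*} [Field K] [Field F] [Algebra K F]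

private theorem ASKum_decomp_aux (y : F) (m : K[X]) (hm : m.Monic) (h0 : aeval y m = 0)
    (h1 : m ≠ 1) (htop : IntermediateField.adjoin K {y} = ⊤) (z : F) :
    ∃ c : ℕ → K, z = ∑ j ∈ Finset.range m.natDegree, algebraMap K F (c j) * y ^ j := by
  have hy : IsIntegral K y := ⟨m, hm, by rwa [← aeval_def]⟩
  have hz : z ∈ (IntermediateField.adjoin K {y}).toSubalgebra := by
    rw [htop]
    exact Algebra.mem_top
  rw [IntermediateField.adjoin_simple_toSubalgebra_of_isAlgebraic hy.isAlgebraic,
    Algebra.adjoin_singleton_eq_range_aeval] at hz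
  obtain ⟨q, rfl⟩ := hz
  refine ⟨fun j => (q %ₘ m).coeff j, ?_⟩
  change aeval y q = _
  rw [← aeval_modByMonic_eq_self_of_root h0,
    aeval_eq_sum_range' (natDegree_modByMonic_lt q hm h1)]
  simp_rw [Algebra.smul_def]

private theorem ASKum_indep_aux (y : F) (m : K[X]) (hm : m.Monic) (hirr : Irreducible m)
    (h0 : aeval y m = 0) (c : ℕ → K)
    (hc : ∑ j ∈ Finset.range m.natDegree, algebraMap K F (c j) * y ^ j = 0) (j : ℕ)
    (hj : j < m.natDegree) : c j = 0 := by
  have hmin : minpoly K y = m := (minpoly.eq_of_irreducible_of_monic hirr h0 hm).symm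
  let q : K[X] := ∑ j ∈ Finset.range m.natDegree, C (c j) * X ^ j
  have hq : aeval y q = 0 := by
    rw [← hc]
    simp [q, map_sum]
  have hdeg : q.degree < m.natDegree := by
    refine (degree_sum_le _ _).trans_lt ?_
    rw [Finset.sup_lt_iff (by exact WithBot.bot_lt_coe _)]
    intro i hi
    refine (degree_C_mul_X_pow_le i (c i)).trans_lt ?_
    exact_mod_cast Finset.mem_range.1 hi
  have hq0 : q = 0 := by
    by_contra hne
    have h2 := minpoly.degree_le_of_ne_zero K y hne hq
    rw [hmin, degree_eq_natDegree hm.ne_zero] at h2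
    exact absurd (h2.trans_lt hdeg) (lt_irrefl _)
  have h3 : q.coeff j = c j := by
    simp only [q, finsetSum_coeff, coeff_C_mul, coeff_X_pow]
    rw [Finset.sum_eq_single j]
    · simp
    · intro i _ hij
      rw [if_neg (Ne.symm hij), mul_zero]
    · intro h
      exact absurd (Finset.mem_range.2 hj) h
  rw [← h3, hq0, coeff_zero]

private theorem ASKum_sig_aux (y y' : F) (m : K[X]) (hm : m.Monic) (hirr : Irreducible m)
    (h0 : aeval y m = 0) (h0' : aeval y' m = 0)
    (htop : IntermediateField.adjoin K {y} = ⊤) : ∃ τ : F ≃ₐ[K] F, τ y = y' := by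
  have hmin : minpoly K y = m := (minpoly.eq_of_irreducible_of_monic hirr h0 hm).symm
  have hy : IsIntegral K y := ⟨m, hm, by rwa [← aeval_def]⟩
  have hfin : FiniteDimensional K F := by
    have h1 : FiniteDimensional K (IntermediateField.adjoin K {y}) :=
      IntermediateField.adjoin.finiteDimensional hy
    rw [htop] at h1
    exact IntermediateField.topEquiv.toLinearEquiv.finiteDimensional
  let φ : AdjoinRoot (minpoly K y) →ₐ[K] F :=
    AdjoinRoot.liftAlgHom (minpoly K y) (Algebra.ofId K F) y' (by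
      rw [hmin]
      exact h0')
  let ψ : F ≃ₐ[K] AdjoinRoot (minpoly K y) :=
    (IntermediateField.topEquiv.symm.trans (IntermediateField.equivOfEq htop.symm)).trans
      (IntermediateField.adjoinRootEquivAdjoin K hy).symm
  have hψ : ψ y = AdjoinRoot.root (minpoly K y) := by
    change (IntermediateField.adjoinRootEquivAdjoin K hy).symm _ = _
    rw [AlgEquiv.symm_apply_eq, IntermediateField.adjoinRootEquivAdjoin_apply_root]
    rfl
  let σ : F →ₐ[K] F := φ.comp ψ.toAlgHom
  have hσ : Function.Bijective σ :=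
    ⟨σ.toRingHom.injective, (LinearMap.injective_iff_surjective (f := σ.toLinearMap)).1
      σ.toRingHom.injective⟩
  refine ⟨AlgEquiv.ofBijective σ hσ, ?_⟩
  change φ (ψ y) = y'
  rw [hψ]
  exact AdjoinRoot.liftAlgHom_root _ _ _ _

end

variable {k F : Type*} [Field k] [Field F] [Algebra k F]

theorem as_eqn {p g : ℕ} {x y : F} {f : RatFunc k} (h : PresAS k F p g x y f) :
    y ^ p - y = rat h.trans f := by
  rw [h.eqn, ← rat_poly h.trans, ← rat_poly h.trans, ← map_div₀, RatFunc.num_div_denom]

theorem as_pole {g : ℕ} {x y : F} {f : RatFunc k} (h : PresAS k F 3 g x y f) :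
    ∃ P : OnePoint k, ordP P f < 0 := by
  by_contra hcon
  push Not at hcon
  have h1 : {P : OnePoint k | ordP P f < 0} = ∅ := by
    ext P
    simpa using hcon P
  have h2 := h.genus
  rw [h1] at h2
  simp only [Set.mem_empty_iff_false, finsum_false, finsum_zero] at h2
  push_cast at h2
  omega

private theorem ASKum_ne_root {g : ℕ} {x y : F} {f : RatFunc k} (h : PresAS k F 3 g x y f)
    (b : RatFunc k) : b ^ 3 - b ≠ f := by
  intro hb
  obtain ⟨P, hP⟩ := as_pole h
  obtain ⟨v, hv⟩ := exists_val P
  have hf : f ≠ 0 := by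
    rintro rfl
    have h1 : ordP P (0 : RatFunc k) = 0 := by
      induction P using OnePoint.rec with
      | infty => simp [ordP_infty]
      | coe a => simp [ordP_coe]
    omega
  have hb0 : b ≠ 0 := by
    rintro rfl
    apply hf
    rw [← hb]
    simp
  have hvf : 1 < v f := by
    rw [hv f hf, ← WithZero.exp_zero]
    exact WithZero.exp_lt_exp.2 (by omega)
  have hvb : 1 < v b := by
    by_contra hle
    rw [not_lt] at hle
    have h2 : v (b ^ 3 - b) ≤ 1 := v.map_sub_le (by
      rw [map_pow]
      exact pow_le_one' hle 3) hle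
    rw [hb] at h2
    exact absurd h2 (not_le.2 hvf)
  have h3 : v b < v (b ^ 3) := by
    rw [hv b hb0, hv _ (pow_ne_zero 3 hb0), WithZero.exp_lt_exp]
    rw [hv b hb0, ← WithZero.exp_zero, WithZero.exp_lt_exp] at hvb
    have h4 : ordP P (b ^ 3) = 3 * ordP P b := by
      rw [pow_succ, pow_succ, pow_one, ord_mul P (mul_ne_zero hb0 hb0) hb0, ord_mul P hb0 hb0]
      ring
    omega
  have h5 : v f = v (b ^ 3) := by
    rw [← hb]
    exact v.map_sub_eq_of_lt_left h3
  have h4 : ordP P (b ^ 3) = 3 * ordP P b := by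
    rw [pow_succ, pow_succ, pow_one, ord_mul P (mul_ne_zero hb0 hb0) hb0, ord_mul P hb0 hb0]
    ring
  rw [hv f hf, hv _ (pow_ne_zero 3 hb0), WithZero.exp_inj, h4] at h5
  apply h.poles P hP
  exact ⟨ordP P b, by push_cast; omega⟩

private theorem ASKum_natDegree (f : RatFunc k) :
    (X ^ 3 - X - C f : (RatFunc k)[X]).natDegree = 3 := by
  compute_degree!

private theorem ASKum_monic (f : RatFunc k) : (X ^ 3 - X - C f : (RatFunc k)[X]).Monic := by
  monicity!

theorem as_irr [CharP k 3] {g : ℕ} {x y : F} {f : RatFunc k} (h : PresAS k F 3 g x y f) :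
    Irreducible (X ^ 3 - X - C f : (RatFunc k)[X]) := by
  refine irreducible_of_degree_le_three_of_not_isRoot (by rw [ASKum_natDegree]; simp) ?_
  intro b hb
  apply ASKum_ne_root h b
  rw [IsRoot.def] at hb
  simp only [eval_sub, eval_pow, eval_X, eval_C] at hb
  exact sub_eq_zero.1 hb

/-- the algebra structure of `F` over `k(x)` -/
private noncomputable abbrev ASKum_alg {x : F} (hx : Transcendental k x) : Algebra (RatFunc k) F :=
  (rat hx).toRingHom.toAlgebra

private theorem ASKum_aeval {g : ℕ} {x y : F} {f : RatFunc k} (h : PresAS k F 3 g x y f) :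
    letI := ASKum_alg h.trans
    aeval y (X ^ 3 - X - C f : (RatFunc k)[X]) = 0 := by
  letI := ASKum_alg h.trans
  have h1 : algebraMap (RatFunc k) F f = rat h.trans f := rfl
  rw [map_sub, map_sub, map_pow, aeval_X, aeval_C, h1, as_eqn h, sub_self]

private theorem ASKum_top {g : ℕ} {x y : F} {f : RatFunc k} (h : PresAS k F 3 g x y f) :
    letI := ASKum_alg h.trans
    IntermediateField.adjoin (RatFunc k) {y} = (⊤ : IntermediateField (RatFunc k) F) := by
  let _ := ASKum_alg h.trans
  have : IsScalarTower k (RatFunc k) F := IsScalarTower.of_algebraMap_eq fun c =>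
    ((rat h.trans).commutes c).symm
  rw [eq_top_iff]
  intro z _
  have h1 : z ∈ IntermediateField.adjoin k {x, y} := by
    rw [h.gen]
    exact IntermediateField.mem_top
  have h3 : x ∈ IntermediateField.adjoin (RatFunc k) {y} := by
    have h4 := (IntermediateField.adjoin (RatFunc k) ({y} : Set F)).algebraMap_mem RatFunc.X
    have h5 : algebraMap (RatFunc k) F RatFunc.X = x := rat_X h.trans
    rwa [h5] at h4
  have h4 : y ∈ IntermediateField.adjoin (RatFunc k) {y} :=
    IntermediateField.mem_adjoin_simple_self _ _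
  have h2 : IntermediateField.adjoin k {x, y} ≤
      (IntermediateField.adjoin (RatFunc k) {y}).restrictScalars k := by
    rw [IntermediateField.adjoin_le_iff, Set.insert_subset_iff, Set.singleton_subset_iff]
    exact ⟨(IntermediateField.mem_restrictScalars k).2 h3, (IntermediateField.mem_restrictScalars k).2 h4⟩
  exact (IntermediateField.mem_restrictScalars k).1 (h2 h1)

theorem as_decomp [CharP k 3] {g : ℕ} {x y : F} {f : RatFunc k} (h : PresAS k F 3 g x y f) (z : F) :
    ∃ c : ℕ → RatFunc k, z = ∑ j ∈ Finset.range 3, rat h.trans (c j) * y ^ j := by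
  letI := ASKum_alg h.trans
  obtain ⟨c, hc⟩ := ASKum_decomp_aux y _ (ASKum_monic f) (ASKum_aeval h)
    (fun h1 => (as_irr h).not_isUnit (by rw [h1]; exact isUnit_one)) (ASKum_top h) z
  rw [ASKum_natDegree] at hc
  exact ⟨c, hc⟩

theorem as_indep [CharP k 3] {g : ℕ} {x y : F} {f : RatFunc k} (h : PresAS k F 3 g x y f)
    (c : ℕ → RatFunc k) (h0 : ∑ j ∈ Finset.range 3, rat h.trans (c j) * y ^ j = 0) (j : ℕ) (hj : j < 3) :
    c j = 0 := by
  letI := ASKum_alg h.trans
  refine ASKum_indep_aux y _ (ASKum_monic f) (as_irr h) (ASKum_aeval h) c ?_ j ?_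
  · rw [ASKum_natDegree]
    exact h0
  · rw [ASKum_natDegree]
    exact hj

theorem as_sig [CharP k 3] {g : ℕ} {x y : F} {f : RatFunc k} (h : PresAS k F 3 g x y f) :
    ∃ τ : F ≃ₐ[k] F, τ x = x ∧ τ y = y + 1 := by
  let _ := ASKum_alg h.trans
  have : IsScalarTower k (RatFunc k) F := IsScalarTower.of_algebraMap_eq fun c =>
    ((rat h.trans).commutes c).symm
  have h3 : CharP F 3 := charP_of_injective_algebraMap (algebraMap k F).injective 3
  have h1 : aeval (y + 1) (X ^ 3 - X - C f : (RatFunc k)[X]) = 0 := by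
    have h4 := ASKum_aeval h
    rw [map_sub, map_sub, map_pow, aeval_X, aeval_C] at h4 ⊢
    have h5 : (3 : F) = 0 := by exact_mod_cast CharP.cast_eq_zero F 3
    linear_combination h4 + (y ^ 2 + y) * h5
  obtain ⟨τ, hτ⟩ := ASKum_sig_aux y (y + 1) _ (ASKum_monic f) (as_irr h) (ASKum_aeval h) h1
    (ASKum_top h)
  refine ⟨τ.restrictScalars k, ?_, hτ⟩
  have h6 : algebraMap (RatFunc k) F RatFunc.X = x := rat_X h.trans
  have h7 : τ (algebraMap (RatFunc k) F RatFunc.X) = algebraMap (RatFunc k) F RatFunc.X :=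
    τ.commutes RatFunc.X
  rw [h6] at h7
  exact h7

end Pool.Agent.Helper54.HZ
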