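import Pool.Agent.Helper54.HZ.ASDeg
import Pool.Agent.Helper54.HY.SX

/-!
MP_143e28_ag, project HZ, part 2 (characteristic 3): automorphisms preserve `k(x)` if `g > 4`.

The same proof as in `Mem.lean` (in progress: helper60; read its header) with `as_rel`, `as_deg`: `∑ (m_P + 1) ≤ 6`, but
the sum is `g + 2` (`genus`).
-/

set_option autoImplicit false

namespace Pool.Agent.Helper54.HZ

open Polynomial Pool.Agent.Helper54.HY

variable {k F : Type*} [Field k] [Field F] [Algebra k F]

private theorem ASMem_apply (s : F ≃ₐ[k] F) (x u : F) (Q : k[X][X])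
    (h : Q.eval₂ (aeval x : k[X] →ₐ[k] F).toRingHom u = 0) :
    Q.eval₂ (aeval (s x) : k[X] →ₐ[k] F).toRingHom (s u) = 0 := by
  have h1 := hom_eval₂ Q (aeval x : k[X] →ₐ[k] F).toRingHom (s : F →+* F) u
  rw [h, map_zero] at h1
  have h2 : (s : F →+* F).comp (aeval x : k[X] →ₐ[k] F).toRingHom =
      (aeval (s x) : k[X] →ₐ[k] F).toRingHom := by
    apply RingHom.ext
    intro p
    change s (aeval x p) = aeval (s x) p
    exact (aeval_algHom_apply s x p).symm
  rw [h2] at h1
  exact h1.symm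

theorem as_mem [IsAlgClosed k] [CharP k 3] {g : ℕ} (hg : 4 < g) {x y : F} {f : RatFunc k}
    (h : PresAS k F 3 g x y f) (s : F ≃ₐ[k] F) : s x ∈ IntermediateField.adjoin k {x} := by
  by_contra hs
  have hz : ∀ r : RatFunc k, rat h.trans r ≠ s x := fun r hr' => hs ((mem_rat h.trans).2 ⟨r, hr'⟩)
  obtain ⟨Q, hQ, hQn, hQ0⟩ := as_rel h (s.symm x)
  have h1 : Q.eval₂ (aeval (s x) : k[X] →ₐ[k] F).toRingHom x = 0 := by
    have := ASMem_apply s x (s.symm x) Q hQ0
    rwa [AlgEquiv.apply_symm_apply] at this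
  have h2 : (Bivariate.swap Q).eval₂ (aeval x : k[X] →ₐ[k] F).toRingHom (s x) = 0 := by
    rw [← aevalAeval_eq, Bivariate.aevalAeval_swap, aevalAeval_eq]
    exact h1
  have h3 : Bivariate.swap Q ≠ 0 := by
    intro h0
    apply hQ
    have := congrArg Bivariate.swap h0
    rwa [Bivariate.swap_swap_apply, map_zero] at this
  have h4 : ∀ i, ((Bivariate.swap Q).coeff i).natDegree ≤ 3 := by
    rw [← natDegree_swap_le, Bivariate.swap_swap_apply]
    exact hQn
  have h5 := as_deg h hz (Bivariate.swap Q) h3 h4 h2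
  have h6 := h.genus
  push_cast at h5 h6
  omega

end Pool.Agent.Helper54.HZ
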