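import Pool.Agent.Helper54.HZ.ASFix

/-!
MP_143e28_ag, project HZ, part 2 (characteristic 3): the primitive polynomial of a function.

The same proof as in `Min.lean` (with `n = 3`; `as_fixed`, `as_cube`, `as_decomp` instead of `fixed`, `tau_pow`, `decomp`): look there
(in progress: helper95) and adapt it.
-/

set_option autoImplicit false

namespace Pool.Agent.Helper54.HZ

open Polynomial Pool.Agent.Helper54.HY

variable {k F : Type*} [Field k] [Field F] [Algebra k F]

private theorem ASMin_comp {x : F} (hx : Transcendental k x) :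
    (aeval x : k[X] →ₐ[k] F).toRingHom =
      (rat hx).toRingHom.comp (algebraMap k[X] (RatFunc k)) :=
  RingHom.ext fun q => (rat_poly hx q).symm

private theorem ASMin_tau_x {x : F} (τ : F ≃ₐ[k] F) (hx : τ x = x) (i : ℕ) : (τ ^ i) x = x := by
  induction i with
  | zero => rfl
  | succ i ih => rw [pow_succ, AlgEquiv.mul_apply, hx, ih]

private theorem ASMin_cube [CharP k 3] {g : ℕ} {x y : F} {f : RatFunc k} (h : PresAS k F 3 g x y f)
    {τ : F ≃ₐ[k] F} (hx : τ x = x) (hy : τ y = y + 1) (z : F) : (τ ^ 3) z = z := by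
  rw [as_cube h hx hy]
  rfl

private theorem ASMin_lift [CharP k 3] {g : ℕ} {x y : F} {f : RatFunc k} (h : PresAS k F 3 g x y f)
    {τ : F ≃ₐ[k] F} (hx : τ x = x) (hy : τ y = y + 1) (z : F) :
    ∃ m0 : (RatFunc k)[X], m0.Monic ∧ m0.natDegree = 3 ∧
      m0.map (rat h.trans).toRingHom = ∏ i ∈ Finset.range 3, (X - C ((τ ^ i) z)) := by
  obtain ⟨B, hB⟩ : ∃ B : F[X], B = ∏ i ∈ Finset.range 3, (X - C ((τ ^ i) z)) := ⟨_, rfl⟩
  have hBm : B.Monic := by
    rw [hB]
    exact monic_prod_of_monic _ _ fun i _ => monic_X_sub_C _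
  have hBd : B.natDegree = 3 := by
    rw [hB, natDegree_prod_of_monic _ _ fun i _ => monic_X_sub_C _]
    simp
  have hfix : B.map (τ : F ≃ₐ[k] F).toAlgHom.toRingHom = B := by
    have h1 : B.map (τ : F ≃ₐ[k] F).toAlgHom.toRingHom =
        ∏ i ∈ Finset.range 3, (X - C ((τ ^ (i + 1)) z)) := by
      rw [hB, Polynomial.map_prod]
      refine Finset.prod_congr rfl fun i _ => ?_
      rw [Polynomial.map_sub, map_X, map_C, pow_succ', AlgEquiv.mul_apply]
      rfl
    have h2 : (∏ i ∈ Finset.range 3, (X - C ((τ ^ (i + 1)) z))) * (X - C z) =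
        (∏ i ∈ Finset.range 3, (X - C ((τ ^ i) z))) * (X - C z) := by
      have h3 := Finset.prod_range_succ' (fun i => (X - C ((τ ^ i) z) : F[X])) 3
      have h4 := Finset.prod_range_succ (fun i => (X - C ((τ ^ i) z) : F[X])) 3
      rw [ASMin_cube h hx hy z] at h4
      rw [← h4, h3, pow_zero, AlgEquiv.one_apply]
    rw [h1, hB]
    exact mul_right_cancel₀ (X_sub_C_ne_zero z) h2
  have hl : B ∈ Polynomial.lifts (rat h.trans).toRingHom := by
    rw [lifts_iff_coeff_lifts]
    intro i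
    have h1 : τ (B.coeff i) = B.coeff i := by
      have := congrArg (fun p => Polynomial.coeff p i) hfix
      simpa [coeff_map] using this
    obtain ⟨r, hr⟩ := as_fixed h hx hy h1
    exact ⟨r, hr⟩
  obtain ⟨m0, hm0⟩ := (mem_lifts B).1 hl
  have hinj : Function.Injective (rat h.trans).toRingHom := rat_injective h.trans
  refine ⟨m0, ?_, ?_, by rw [hm0, hB]⟩
  · rw [hinj.monic_map_iff, hm0]
    exact hBm
  · rw [← natDegree_map_eq_of_injective hinj, hm0, hBd]

private theorem ASMin_norm {n : ℕ} {m0 : (RatFunc k)[X]} (h0 : m0.Monic) (hd : m0.natDegree = n) :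
    ∃ (M : k[X][X]) (b : k[X]), b ≠ 0 ∧ M ≠ 0 ∧ M.natDegree = n ∧
      M.map (algebraMap k[X] (RatFunc k)) = C (algebraMap k[X] (RatFunc k) b) * m0 := by
  obtain ⟨b, hbm, hb⟩ := IsLocalization.integerNormalization_spec (nonZeroDivisors k[X]) m0
  have hb0 : b ≠ 0 := nonZeroDivisors.ne_zero hbm
  have hb1 : algebraMap k[X] (RatFunc k) b ≠ 0 := RatFunc.algebraMap_ne_zero hb0
  have hM : (IsLocalization.integerNormalization (nonZeroDivisors k[X]) m0).map
      (algebraMap k[X] (RatFunc k)) = C (algebraMap k[X] (RatFunc k) b) * m0 := by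
    rw [hb]
    ext i
    rw [coeff_smul, coeff_C_mul, Algebra.smul_def]
  refine ⟨_, b, hb0, ?_, ?_, hM⟩
  · intro h
    rw [h, Polynomial.map_zero] at hM
    exact mul_ne_zero (C_ne_zero.2 hb1) h0.ne_zero hM.symm
  · rw [← natDegree_map_eq_of_injective (RatFunc.algebraMap_injective k), hM,
      natDegree_C_mul hb1, hd]

private theorem ASMin_dvd [CharP k 3] {g : ℕ} {x y : F} {f : RatFunc k} (h : PresAS k F 3 g x y f)
    {τ : F ≃ₐ[k] F} (hx : τ x = x) (hy : τ y = y + 1) {z : F}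
    (hz : ∀ r : RatFunc k, rat h.trans r ≠ z) {m0 : (RatFunc k)[X]}
    (hm0 : m0.map (rat h.trans).toRingHom = ∏ i ∈ Finset.range 3, (X - C ((τ ^ i) z)))
    {T : (RatFunc k)[X]} (hT : T.eval₂ (rat h.trans).toRingHom z = 0) : m0 ∣ T := by
  have hne1 : τ z ≠ z := by
    intro hd
    obtain ⟨r, hr⟩ := as_fixed h hx hy hd
    exact hz r hr
  have hne : ∀ d, 0 < d → d < 3 → (τ ^ d) z ≠ z := by
    intro d hd0 hdn hd
    have hd' : d = 1 ∨ d = 2 := by omega
    rcases hd' with rfl | rfl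
    · exact hne1 (by rwa [pow_one] at hd)
    · apply hne1
      have h3 := ASMin_cube h hx hy z
      rw [pow_succ', AlgEquiv.mul_apply, hd] at h3
      exact h3
  have hinj : ∀ i j, i < j → j < 3 → (τ ^ i) z ≠ (τ ^ j) z := by
    intro i j hij hj he
    apply hne (j - i) (by omega) (by omega)
    apply (τ ^ i).injective
    rw [← AlgEquiv.mul_apply, ← pow_add, Nat.add_sub_cancel' hij.le, he]
  have hroot : ∀ i, (T.map (rat h.trans).toRingHom).IsRoot ((τ ^ i) z) := by
    intro i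
    have h1 : (τ ^ i) ((T.map (rat h.trans).toRingHom).eval z) = 0 := by
      rw [eval_map, hT, map_zero]
    have h2 : (T.map (rat h.trans).toRingHom).map (τ ^ i : F ≃ₐ[k] F).toAlgHom.toRingHom =
        T.map (rat h.trans).toRingHom := by
      ext j
      rw [coeff_map, coeff_map]
      exact tau_rat h.trans (τ ^ i) (ASMin_tau_x τ hx i) (T.coeff j)
    rw [IsRoot.def, ← h2]
    have h3 := hom_eval₂ (T.map (rat h.trans).toRingHom) (RingHom.id F)
      (τ ^ i : F ≃ₐ[k] F).toAlgHom.toRingHom z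
    rw [RingHom.comp_id] at h3
    rw [eval_map]
    refine Eq.trans h3.symm ?_
    rw [eval₂_id]
    exact h1
  have hdv : m0.map (rat h.trans).toRingHom ∣ T.map (rat h.trans).toRingHom := by
    rw [hm0]
    refine Finset.prod_dvd_of_coprime ?_ ?_
    · intro i hi j hj hij
      refine isCoprime_X_sub_C_of_isUnit_sub ?_
      rw [isUnit_iff_ne_zero, sub_ne_zero]
      have hi' : i < 3 := by simpa using hi
      have hj' : j < 3 := by simpa using hj
      rcases lt_or_gt_of_ne hij with hlt | hlt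
      · exact hinj i j hlt hj'
      · exact (hinj j i hlt hi').symm
    · intro i _
      exact dvd_iff_isRoot.2 (hroot i)
  exact (Polynomial.map_dvd_map' (rat h.trans).toRingHom).1 hdv

theorem as_prim [CharP k 3] {g : ℕ} {x y : F} {f : RatFunc k} (h : PresAS k F 3 g x y f) {τ : F ≃ₐ[k] F}
    (hx : τ x = x) (hy : τ y = y + 1) {z : F} (hz : ∀ r : RatFunc k, rat h.trans r ≠ z) {m : ℕ}
    (Q : k[X][X]) (hQ : Q ≠ 0) (hm : ∀ i, (Q.coeff i).natDegree ≤ m)
    (h0 : Q.eval₂ (aeval x : k[X] →ₐ[k] F).toRingHom z = 0) :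
    ∃ P : k[X][X], P.IsPrimitive ∧ P.natDegree = 3 ∧ (∀ i, (P.coeff i).natDegree ≤ m) ∧
      P.map (aeval x : k[X] →ₐ[k] F).toRingHom =
        C (aeval x P.leadingCoeff) * ∏ i ∈ Finset.range 3, (X - C ((τ ^ i) z)) := by
  classical
  obtain ⟨m0, hm0m, hm0d, hm0⟩ := ASMin_lift h hx hy z
  obtain ⟨M, b, hb, hM0, hMd, hM⟩ := ASMin_norm hm0m hm0d
  have hinj := RatFunc.algebraMap_injective k
  have hMP : M = C M.content * M.primPart := M.eq_C_content_mul_primPart
  have hc0 : M.content ≠ 0 := fun hc => hM0 (content_eq_zero_iff.1 hc)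
  have hc1 : algebraMap k[X] (RatFunc k) M.content ≠ 0 := RatFunc.algebraMap_ne_zero hc0
  have hb1 : algebraMap k[X] (RatFunc k) b ≠ 0 := RatFunc.algebraMap_ne_zero hb
  obtain ⟨P, hP⟩ : ∃ P, P = M.primPart := ⟨_, rfl⟩
  rw [← hP] at hMP
  have hPd : P.natDegree = 3 := by rw [hP, natDegree_primPart, hMd]
  have hPp : P.IsPrimitive := hP ▸ isPrimitive_primPart M
  obtain ⟨c, hc⟩ : ∃ c : RatFunc k, c = algebraMap k[X] (RatFunc k) b /
    algebraMap k[X] (RatFunc k) M.content := ⟨_, rfl⟩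
  have hcne : c ≠ 0 := by rw [hc]; exact div_ne_zero hb1 hc1
  have hPm : P.map (algebraMap k[X] (RatFunc k)) = C c * m0 := by
    have h1 : C (algebraMap k[X] (RatFunc k) M.content) * P.map (algebraMap k[X] (RatFunc k)) =
        C (algebraMap k[X] (RatFunc k) b) * m0 := by
      rw [← hM]
      conv_rhs => rw [hMP]
      rw [Polynomial.map_mul, map_C]
    apply mul_left_cancel₀ (C_ne_zero.2 hc1)
    rw [h1, hc, ← mul_assoc, ← C_mul, mul_div_cancel₀ _ hc1]
  have hclc : c = algebraMap k[X] (RatFunc k) P.leadingCoeff := by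
    have h1 := congrArg leadingCoeff hPm
    rw [leadingCoeff_map_of_injective hinj, leadingCoeff_mul, leadingCoeff_C,
      hm0m.leadingCoeff, mul_one] at h1
    exact h1.symm
  have hPQ : P ∣ Q := by
    apply hPp.dvd_of_fraction_map_dvd_fraction_map (K := RatFunc k)
    have h1 : m0 ∣ Q.map (algebraMap k[X] (RatFunc k)) := by
      apply ASMin_dvd h hx hy hz hm0
      rw [eval₂_map, ← ASMin_comp, h0]
    rw [hPm]
    have h2 : IsUnit (C c) := isUnit_C.2 (isUnit_iff_ne_zero.2 hcne)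
    exact (h2.mul_left_dvd).2 h1
  refine ⟨P, hPp, hPd, ?_, ?_⟩
  · obtain ⟨U, hU⟩ := hPQ
    have hsw : (Bivariate.swap Q).natDegree ≤ m := natDegree_swap_le.2 hm
    rw [hU, map_mul] at hsw
    have hP0 : Bivariate.swap P ≠ 0 := by
      intro h1
      have h2 := congrArg Bivariate.swap h1
      rw [Bivariate.swap_swap_apply, map_zero] at h2
      apply hQ
      rw [hU, h2, zero_mul]
    have hU0 : Bivariate.swap U ≠ 0 := by
      intro h1
      have h2 := congrArg Bivariate.swap h1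
      rw [Bivariate.swap_swap_apply, map_zero] at h2
      apply hQ
      rw [hU, h2, mul_zero]
    rw [natDegree_mul hP0 hU0] at hsw
    exact natDegree_swap_le.1 (by omega)
  · rw [ASMin_comp h.trans, ← Polynomial.map_map, hPm, Polynomial.map_mul, map_C, hm0, hclc]
    congr 2
    exact rat_poly h.trans P.leadingCoeff

theorem as_rel [CharP k 3] {g : ℕ} {x y : F} {f : RatFunc k} (h : PresAS k F 3 g x y f) (u : F) :
    ∃ Q : k[X][X], Q ≠ 0 ∧ Q.natDegree ≤ 3 ∧ Q.eval₂ (aeval x : k[X] →ₐ[k] F).toRingHom u = 0 := by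
  obtain ⟨τ, hx, hy⟩ := as_sig h
  obtain ⟨m0, hm0m, hm0d, hm0⟩ := ASMin_lift h hx hy u
  obtain ⟨M, b, hb, hM0, hMd, hM⟩ := ASMin_norm hm0m hm0d
  refine ⟨M, hM0, hMd.le, ?_⟩
  have h1 : m0.eval₂ (rat h.trans).toRingHom u = 0 := by
    rw [← eval_map, hm0, eval_prod]
    refine Finset.prod_eq_zero (Finset.mem_range.2 (by norm_num : 0 < 3)) ?_
    simp
  rw [ASMin_comp h.trans, ← eval₂_map, hM, eval₂_mul, h1, mul_zero]

end Pool.Agent.Helper54.HZ
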