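import Pool.Agent.Helper28.HA.B5

/-!
MP_143e28_ag, project HZ: the arithmetic of the orbit lengths for trigonal curves (pure arithmetic; compare `orbit_arith` in
`Helper28.HA.B5`, whose private lemmas may be copied).

`c = #G`, `n i` orbit lengths, `q i = #uni`, `m i = #stab / #uni`, `B` is the union of the orbits `i ∈ T`.  `hb` is Burnside.
Suppose `8 (N - 2) < 3 c`.  Let `a` = number of `i ∈ R` with `q i ≥ 2` (then `q i ≥ p ≥ 3`), `b` = number of the
others (`q i = 1`).  As `2 n i ≤ c`: `b c / 2 ≥ ∑_{q i = 1} n i = (a + b - 2) c + 2 + ∑_{q i ≥ 3} n i (q i - 2)`, so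
`a + b / 2 < 2`.  (`N > 3 p ^ 2 ≥ 27`, `c > (8 / 3) (N - 2)`.)
`a = 0`: `∑_R n i = (b - 2) c + 2`; `b ≤ 2`: `N ≤ 2`; `b = 3`: `∑_R n i = c + 2`, `n i = c / e i` (`e i = m i ≥ 2`).  For `i ∈ T`:
`n i ≤ N < 3 c / 8 + 2`, so `e i = 2` would give `c < 16`, `N < 8`.  So `e i ≥ 3` for `i ∈ T`.  If two of the three `e`'s are `2`
the third orbit has `n = 2` and `T` is at most this one: `N ≤ 2`.  Not all `e i ≥ 3` (`∑ n i ≤ c`).  So exactly one `e` is `2` and
the two others sum to `c / 2 + 2`: one of them has `e = 3` (both `≥ 4`: `∑ ≤ c / 2`), the other one `n = c / 6 + 2`, so `e < 6` and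
`c (1 / e - 1 / 6) = 2` gives `c ≤ 60`; then `8 (N - 2) < 180`, `N < 25`.
`a = 1`, `w` the wild orbit, `q = q w`, `m = m w ∣ q - 1`, `n w = 1 + q t`.  `b = 0`: `n w * q * m = c = 2 + n w (q - 2)`, so
`n w (q (m - 1) + 2) = 2`, `n w = 1 = N`.  `b = 1`: the tame one has `n' = 2 + n w (q - 2) = q u`, `u = 1 + t (q - 2)`.  `T` = the tame
one: `p ∣ N`, against `p ∣ N - 1`.  `T` = `w` or both: `N - 1 = q t`, respectively `q + q t (q - 1)`: `q ∣ N - 1`, so `q = p`
(`p ^ 2 ∤ N - 1`).  `n' ∣ c = n w * q * m`: `u ∣ m (1 + q t)`, `(q - 2) (1 + q t) = q u - 2`, so `u ∣ 2 m`,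
`u ≤ 2 m ≤ 2 (p - 1)`: `t (p - 2) ≤ 2 p - 3`, `t ≤ 3`: `N ≤ 1 + q t + q u ≤ 1 + 3 p + 2 p (p - 1) < 3 p ^ 2`.
-/

set_option autoImplicit false

namespace Pool.Agent.Helper54.HZ

theorem orbit_arith3 {ι : Type*} (R T : Finset ι) (hTR : T ⊆ R) (p N c : ℕ) (hp : p.Prime)
    (hp2 : p ≠ 2) (n q m : ι → ℕ) (hn : ∀ i ∈ R, 0 < n i) (hc1 : ∀ i ∈ R, n i * (q i * m i) = c)
    (h2 : ∀ i ∈ R, 2 ≤ q i * m i) (hq : ∀ i ∈ R, ∃ j, q i = p ^ j) (hm : ∀ i ∈ R, m i ∣ q i - 1)
    (hqn : ∀ i ∈ R, q i ∣ n i - 1)
    (hb : ∑ i ∈ R, (n i : ℤ) * (2 - q i) = ((R.card : ℤ) - 2) * c + 2)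
    (hN : N = ∑ i ∈ T, n i) (hpN : p ∣ N - 1) (hpN2 : ¬ p ^ 2 ∣ N - 1) (hbig : 3 * p ^ 2 < N) :
    3 * c ≤ 8 * (N - 2) := by
  classical
  by_contra hcon
  push Not at hcon
  have hp3 : 3 ≤ p := by
    have := hp.two_le
    omega
  have hp9 : 9 ≤ p ^ 2 := by nlinarith
  have h30 : 27 < N := by omega
  have hN18 : 18 < N := by omega
  obtain ⟨N', hN'⟩ : ∃ N', N = N' + 1 := ⟨N - 1, by omega⟩
  have hN1 : N - 1 = N' := by omega
  rw [hN1] at hpN hpN2
  have hq1 : ∀ i ∈ R, q i ≠ 1 → 3 ≤ q i ∧ p ∣ q i := by
    intro i hi h
    obtain ⟨j, hj⟩ := hq i hi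
    have hj0 : j ≠ 0 := by
      rintro rfl
      exact h (by simpa using hj)
    have hd : p ∣ q i := by
      rw [hj]
      exact dvd_pow_self p hj0
    have hpos : 0 < q i := by
      rw [hj]
      exact pow_pos hp.pos _
    exact ⟨le_trans hp3 (Nat.le_of_dvd hpos hd), hd⟩
  have hhalf : ∀ i ∈ R, q i = 1 → 2 * n i ≤ c := by
    intro i hi h
    have h1 := hc1 i hi
    have h3 := h2 i hi
    calc 2 * n i = n i * 2 := by ring
      _ ≤ n i * (q i * m i) := Nat.mul_le_mul_left _ h3
      _ = c := h1
  have hTne : T.Nonempty := by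
    rw [Finset.nonempty_iff_ne_empty]
    rintro rfl
    simp at hN
    omega
  obtain ⟨i0, hi0⟩ := hTne
  have hcpos : 0 < c := by
    rw [← hc1 i0 (hTR hi0)]
    exact Nat.mul_pos (hn i0 (hTR hi0)) (by have := h2 i0 (hTR hi0); omega)
  have hcard : (R.filter (fun i => q i = 1)).card + (R.filter (fun i => ¬ q i = 1)).card = R.card :=
    Finset.card_filter_add_card_filter_not _
  have hkey : 2 * (R.filter (fun i => ¬ q i = 1)).card + (R.filter (fun i => q i = 1)).card ≤ 3 := by
    have h1 : ∑ i ∈ R, 2 * ((n i : ℤ) * (2 - q i)) ≤ ∑ i ∈ R, (if q i = 1 then (c : ℤ) else 0) := by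
      refine Finset.sum_le_sum fun i hi => ?_
      split_ifs with h
      · have := hhalf i hi h
        rw [h]
        push_cast
        have h4 : (2 : ℤ) * n i ≤ c := by exact_mod_cast this
        linarith
      · have h3 : (3 : ℤ) ≤ q i := by exact_mod_cast (hq1 i hi h).1
        have h4 : (0 : ℤ) ≤ n i := by positivity
        nlinarith
    rw [← Finset.mul_sum, hb, ← Finset.sum_filter, Finset.sum_const, nsmul_eq_mul, ← hcard] at h1
    push_cast at h1
    by_contra h5
    push Not at h5
    have h6 : (4 : ℤ) ≤ 2 * ((R.filter (fun i => ¬ q i = 1)).card : ℤ)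
        + ((R.filter (fun i => q i = 1)).card : ℤ) := by exact_mod_cast h5
    have h7 : (0 : ℤ) < c := by exact_mod_cast hcpos
    nlinarith
  have hsplit : ∑ i ∈ R \ T, n i + N = ∑ i ∈ R, n i := by
    rw [hN]
    exact Finset.sum_sdiff hTR
  have hcardRT : (R \ T).card + T.card = R.card := Finset.card_sdiff_add_card_eq_card hTR
  rcases Nat.eq_zero_or_pos (R.filter (fun i => ¬ q i = 1)).card with hA0 | hApos
  · -- no wild orbit
    have hall : ∀ i ∈ R, q i = 1 := by
      intro i hi
      by_contra h
      have : i ∈ R.filter (fun i => ¬ q i = 1) := Finset.mem_filter.2 ⟨hi, h⟩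
      rw [Finset.card_eq_zero.1 hA0] at this
      simp at this
    have hsum : ∑ i ∈ R, (n i : ℤ) = ((R.card : ℤ) - 2) * c + 2 := by
      rw [← hb]
      refine Finset.sum_congr rfl fun i hi => ?_
      rw [hall i hi]
      push_cast
      ring
    have hNle : (N : ℤ) ≤ ((R.card : ℤ) - 2) * c + 2 := by
      rw [← hsum]
      exact_mod_cast (by omega : N ≤ ∑ i ∈ R, n i)
    have hRle : R.card ≤ 3 := by omega
    have hR3 : R.card = 3 := by
      by_contra h
      have h8 : (R.card : ℤ) - 2 ≤ 0 := by
        have : R.card ≤ 2 := by omega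
        have h9 : (R.card : ℤ) ≤ 2 := by exact_mod_cast this
        linarith
      have h10 : (0 : ℤ) ≤ c := by positivity
      have h11 : ((R.card : ℤ) - 2) * c ≤ 0 := mul_nonpos_of_nonpos_of_nonneg h8 h10
      have h12 : (18 : ℤ) < N := by exact_mod_cast hN18
      linarith
    have hsumN : ∑ i ∈ R, n i = c + 2 := by
      rw [hR3] at hsum
      have : ((∑ i ∈ R, n i : ℕ) : ℤ) = ((c + 2 : ℕ) : ℤ) := by
        push_cast
        rw [hsum]
        push_cast
        ring
      exact_mod_cast this
    have hmn : ∀ i ∈ R, n i * m i = c := by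
      intro i hi
      have := hc1 i hi
      rwa [hall i hi, one_mul] at this
    have hm2 : ∀ i ∈ R, 2 ≤ m i := by
      intro i hi
      have := h2 i hi
      rwa [hall i hi, one_mul] at this
    have hTm : ∀ i ∈ T, 3 ≤ m i := by
      intro i hi
      by_contra h
      have h4 : m i = 2 := by
        have := hm2 i (hTR hi)
        omega
      have h5 := hmn i (hTR hi)
      rw [h4] at h5
      have h6 : n i ≤ N := by
        rw [hN]
        exact Finset.single_le_sum (fun j _ => Nat.zero_le (n j)) hi
      omega
    have hNH : N ≤ ∑ i ∈ R.filter (fun i => ¬ m i = 2), n i := by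
      rw [hN]
      apply Finset.sum_le_sum_of_subset
      intro i hi
      rw [Finset.mem_filter]
      refine ⟨hTR hi, ?_⟩
      have := hTm i hi
      omega
    have hsp : ∑ i ∈ R.filter (fun i => m i = 2), n i +
        ∑ i ∈ R.filter (fun i => ¬ m i = 2), n i = c + 2 := by
      rw [Finset.sum_filter_add_sum_filter_not, hsumN]
    have hcardH : (R.filter (fun i => m i = 2)).card + (R.filter (fun i => ¬ m i = 2)).card =
        3 := by
      rw [← hR3]
      exact Finset.card_filter_add_card_filter_not _
    have hH2 : 2 * ∑ i ∈ R.filter (fun i => m i = 2), n i =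
        (R.filter (fun i => m i = 2)).card * c := by
      rw [Finset.mul_sum, ← smul_eq_mul, ← Finset.sum_const]
      refine Finset.sum_congr rfl fun i hi => ?_
      rw [Finset.mem_filter] at hi
      have := hmn i hi.1
      rw [hi.2] at this
      omega
    have hH3 : 3 * ∑ i ∈ R.filter (fun i => ¬ m i = 2), n i ≤
        (R.filter (fun i => ¬ m i = 2)).card * c := by
      rw [Finset.mul_sum, ← smul_eq_mul, ← Finset.sum_const]
      refine Finset.sum_le_sum fun i hi => ?_
      rw [Finset.mem_filter] at hi
      have h4 := hmn i hi.1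
      have h5 := hm2 i hi.1
      have h6 : 3 ≤ m i := by
        have := hi.2
        omega
      calc 3 * n i = n i * 3 := by ring
        _ ≤ n i * m i := Nat.mul_le_mul_left _ h6
        _ = c := h4
    have h4 : (R.filter (fun i => m i = 2)).card = 0 ∨ (R.filter (fun i => m i = 2)).card = 1 ∨
        2 ≤ (R.filter (fun i => m i = 2)).card := by omega
    rcases h4 with h4 | h4 | h4
    · have h5 : (R.filter (fun i => ¬ m i = 2)).card = 3 := by omega
      rw [h4] at hH2
      rw [h5] at hH3
      omega
    · have h5 : (R.filter (fun i => ¬ m i = 2)).card = 2 := by omega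
      rw [h4] at hH2
      obtain ⟨y, z, hyz, hR'⟩ := Finset.card_eq_two.1 h5
      have hy : y ∈ R ∧ ¬ m y = 2 := by
        have : y ∈ R.filter (fun i => ¬ m i = 2) := by rw [hR']; simp
        exact Finset.mem_filter.1 this
      have hz : z ∈ R ∧ ¬ m z = 2 := by
        have : z ∈ R.filter (fun i => ¬ m i = 2) := by rw [hR']; simp
        exact Finset.mem_filter.1 this
      rw [hR', Finset.sum_pair hyz] at hsp
      have e1 := hmn y hy.1
      have e2 := hmn z hz.1
      have f1 : 3 ≤ m y := by
        have := hm2 y hy.1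
        have := hy.2
        omega
      have f2 : 3 ≤ m z := by
        have := hm2 z hz.1
        have := hz.2
        omega
      have hc60 : c ≤ 60 := by
        have key : ∀ u v nu nv : ℕ, 3 ≤ u → 3 ≤ v → nu * u = c → nv * v = c →
            2 * (nu + nv) = c + 4 → u ≤ v → c ≤ 60 := by
          intro u v nu nv hu hv g1 g2 g3 huv
          by_contra hbig'
          push Not at hbig'
          have hu3 : u < 4 := by
            by_contra h8
            push Not at h8
            have g4 : nu * 4 ≤ c := by
              rw [← g1]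
              exact Nat.mul_le_mul_left _ h8
            have g5 : nv * 4 ≤ c := by
              rw [← g2]
              exact Nat.mul_le_mul_left _ (le_trans h8 huv)
            omega
          have hu3' : u = 3 := by omega
          rw [hu3'] at g1
          have hv6 : v < 6 := by
            by_contra h8
            push Not at h8
            have g5 : nv * 6 ≤ c := by
              rw [← g2]
              exact Nat.mul_le_mul_left _ h8
            omega
          interval_cases v <;> omega
        rcases le_total (m y) (m z) with h8 | h8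
        · exact key _ _ _ _ f1 f2 e1 e2 (by omega) h8
        · exact key _ _ _ _ f2 f1 e2 e1 (by omega) h8
      omega
    · have h5 : (R.filter (fun i => ¬ m i = 2)).card ≤ 1 := by omega
      have h6 : 2 * c ≤ 2 * ∑ i ∈ R.filter (fun i => m i = 2), n i := by
        rw [hH2]
        exact Nat.mul_le_mul_right _ h4
      omega
  · -- one wild orbit
    have hA1 : (R.filter (fun i => ¬ q i = 1)).card = 1 := by omega
    have hB1 : (R.filter (fun i => q i = 1)).card ≤ 1 := by omega
    obtain ⟨w, hw⟩ := Finset.card_eq_one.1 hA1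
    have hwm : w ∈ R ∧ ¬ q w = 1 := by
      have : w ∈ R.filter (fun i => ¬ q i = 1) := by rw [hw]; simp
      exact Finset.mem_filter.1 this
    obtain ⟨hwR, hqw⟩ := hwm
    obtain ⟨hq3, hpq⟩ := hq1 w hwR hqw
    obtain ⟨t, ht⟩ := hqn w hwR
    have hnw : n w = 1 + q w * t := by
      have := hn w hwR
      omega
    have hnp : ¬ p ∣ n w := by
      rw [hnw]
      intro h
      have h13 : p ∣ q w * t := Dvd.dvd.mul_right hpq t
      have h14 : p ∣ 1 := (Nat.dvd_add_left h13).1 h
      have := Nat.le_of_dvd one_pos h14
      omega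
    have honly : ∀ i ∈ R, i ≠ w → q i = 1 := by
      intro i hi hiw
      by_contra h
      have : i ∈ R.filter (fun i => ¬ q i = 1) := Finset.mem_filter.2 ⟨hi, h⟩
      rw [hw, Finset.mem_singleton] at this
      exact hiw this
    have hR2 : R.card ≤ 2 := by omega
    rcases Nat.lt_or_ge R.card 2 with hRlt | hRge
    · -- only the wild orbit
      have hR1 : R.card ≤ 1 := by omega
      have hi0w : ∀ i ∈ R, i = w := fun i hi => Finset.card_le_one.1 hR1 i hi w hwR
      have hTw : T = {w} := by
        apply Finset.Subset.antisymm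
        · intro i hi
          rw [Finset.mem_singleton]
          exact hi0w i (hTR hi)
        · intro i hi
          rw [Finset.mem_singleton] at hi
          rw [hi, ← hi0w i0 (hTR hi0)]
          exact hi0
      rw [hTw, Finset.sum_singleton] at hN
      have hRw : R = {w} := by
        apply Finset.Subset.antisymm
        · intro i hi
          rw [Finset.mem_singleton]
          exact hi0w i hi
        · intro i hi
          rw [Finset.mem_singleton] at hi
          rw [hi]
          exact hwR
      rw [hRw, Finset.sum_singleton, Finset.card_singleton, ← hc1 w hwR, ← hN] at hb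
      push_cast at hb
      have hm1 : 1 ≤ m w := by
        rcases Nat.eq_zero_or_pos (m w) with h | h
        · have := h2 w hwR
          rw [h] at this
          omega
        · exact h
      have e1 : (1 : ℤ) ≤ m w := by exact_mod_cast hm1
      have e2 : (18 : ℤ) < N := by exact_mod_cast hN18
      have e3 : (3 : ℤ) ≤ q w := by exact_mod_cast hq3
      have e4 : (N : ℤ) * (q w * (m w - 1) + 2) = 2 := by linarith
      have e5 : (0 : ℤ) ≤ q w * (m w - 1) := mul_nonneg (by linarith) (by linarith)
      nlinarith
    · have hRc2 : R.card = 2 := le_antisymm hR2 hRge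
      have hers : (R.erase w).card = 1 := by rw [Finset.card_erase_of_mem hwR, hRc2]
      obtain ⟨s, hs⟩ := Finset.card_eq_one.1 hers
      have hsm : s ∈ R ∧ s ≠ w := by
        have : s ∈ R.erase w := by rw [hs]; simp
        exact ⟨Finset.mem_of_mem_erase this, Finset.ne_of_mem_erase this⟩
      obtain ⟨hsR, hsw⟩ := hsm
      have hqs : q s = 1 := honly s hsR hsw
      have hRe : R = insert w {s} := by rw [← hs, Finset.insert_erase hwR]
      have hwns : w ∉ ({s} : Finset ι) := by
        rw [Finset.mem_singleton]
        exact fun h => hsw h.symm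
      have hb2 : (n w : ℤ) * (2 - q w) + n s = 2 := by
        have := hb
        rw [hRc2] at this
        rw [hRe, Finset.sum_insert hwns, Finset.sum_singleton, hqs] at this
        push_cast at this
        linarith
      obtain ⟨r, hr⟩ : ∃ r, q w = r + 2 := ⟨q w - 2, by omega⟩
      have hns : n s = q w * (1 + t * r) := by
        have h15 : (n s : ℤ) = ((q w * (1 + t * r) : ℕ) : ℤ) := by
          have h16 : (n s : ℤ) = 2 + (n w : ℤ) * (q w - 2) := by linarith
          rw [h16, hnw, hr]
          push_cast
          ring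
        exact_mod_cast h15
      have hu : (1 + t * r) ∣ m w * n w := by
        have h17 : q w * (1 + t * r) ∣ q w * (m w * n w) := by
          have h18 : q w * (m w * n w) = c := by rw [← hc1 w hwR]; ring
          rw [h18, ← hc1 s hsR, ← hns]
          exact Dvd.intro _ rfl
        exact Nat.dvd_of_mul_dvd_mul_left (by omega) h17
      have hu2 : (1 + t * r) ∣ 2 * m w := by
        have h19 : (1 + t * r) ∣ (m w * n w) * r := Dvd.dvd.mul_right hu r
        have h20 : (m w * n w) * r + 2 * m w = (1 + t * r) * (m w * q w) := by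
          rw [hnw, hr]
          ring
        have h21 : (1 + t * r) ∣ (m w * n w) * r + 2 * m w := by
          rw [h20]
          exact Dvd.intro _ rfl
        exact (Nat.dvd_add_right h19).1 h21
      have hmpos : 0 < m w := by
        rcases Nat.eq_zero_or_pos (m w) with h | h
        · have := h2 w hwR
          rw [h] at this
          omega
        · exact h
      have hmle : m w ≤ q w - 1 := Nat.le_of_dvd (by omega) (hm w hwR)
      have hule : 1 + t * r ≤ 2 * m w := Nat.le_of_dvd (by omega) hu2
      have hsumT : N ≤ n w + n s := by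
        rw [hN]
        calc ∑ i ∈ T, n i ≤ ∑ i ∈ R, n i := Finset.sum_le_sum_of_subset hTR
          _ = n w + n s := by rw [hRe, Finset.sum_insert hwns, Finset.sum_singleton]
      have hqN : q w ∣ N' := by
        by_cases hwT : w ∈ T
        · have hps : q w ∣ ∑ i ∈ T.erase w, n i := by
            refine Finset.dvd_sum fun i hi => ?_
            have hiR : i ∈ R := hTR (Finset.mem_of_mem_erase hi)
            have hiw : i ≠ w := Finset.ne_of_mem_erase hi
            have his : i = s := by
              have : i ∈ R.erase w := Finset.mem_erase.2 ⟨hiw, hiR⟩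
              rw [hs, Finset.mem_singleton] at this
              exact this
            rw [his, hns]
            exact Dvd.intro _ rfl
          have hNe : N = n w + ∑ i ∈ T.erase w, n i := by
            rw [hN, Finset.add_sum_erase T n hwT]
          have hNe' : N' = q w * t + ∑ i ∈ T.erase w, n i := by omega
          rw [hNe']
          exact (Nat.dvd_add_right (Dvd.intro _ rfl)).2 hps
        · exfalso
          have hTs : T = {s} := by
            apply Finset.Subset.antisymm
            · intro i hi
              have hiw : i ≠ w := by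
                rintro rfl
                exact hwT hi
              have : i ∈ R.erase w := Finset.mem_erase.2 ⟨hiw, hTR hi⟩
              rw [hs] at this
              exact this
            · intro i hi
              rw [Finset.mem_singleton] at hi
              have hi0w : i0 ≠ w := by
                rintro rfl
                exact hwT hi0
              have : i0 ∈ R.erase w := Finset.mem_erase.2 ⟨hi0w, hTR hi0⟩
              rw [hs, Finset.mem_singleton] at this
              rw [hi, ← this]
              exact hi0
          rw [hTs, Finset.sum_singleton] at hN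
          have h22 : p ∣ N' + 1 := by
            rw [← hN', hN, hns]
            exact Dvd.dvd.mul_right hpq _
          have h23 : p ∣ 1 := (Nat.dvd_add_right hpN).1 h22
          have := Nat.le_of_dvd one_pos h23
          omega
      obtain ⟨j, hj⟩ := hq w hwR
      have hj1 : j ≤ 1 := by
        by_contra h
        apply hpN2
        have h22 : p ^ 2 ∣ q w := by
          rw [hj]
          exact pow_dvd_pow p (by omega)
        exact h22.trans hqN
      have hqp : q w = p := by
        interval_cases j
        · exact absurd (by simpa using hj) hqw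
        · simpa using hj
      have hrp : p = r + 2 := by rw [← hqp, hr]
      have hr1 : 1 ≤ r := by omega
      have ht3 : t ≤ 3 := by
        by_contra h
        push Not at h
        have h24 : 4 * r ≤ t * r := Nat.mul_le_mul_right _ (by omega)
        omega
      have h25 : t * r ≤ 2 * r + 1 := by omega
      have h26 : N ≤ 1 + (r + 2) * 3 + (r + 2) * (2 * r + 2) := by
        calc N ≤ n w + n s := hsumT
          _ = 1 + (r + 2) * t + (r + 2) * (1 + t * r) := by rw [hnw, hns, hr]
          _ ≤ 1 + (r + 2) * 3 + (r + 2) * (2 * r + 2) := by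
            have h27 : (r + 2) * t ≤ (r + 2) * 3 := Nat.mul_le_mul_left _ ht3
            have h28 : (r + 2) * (1 + t * r) ≤ (r + 2) * (2 * r + 2) :=
              Nat.mul_le_mul_left _ (by omega)
            omega
      rw [hrp] at hbig
      have h29 : 3 * (r + 2) ^ 2 + 1 =
          1 + (r + 2) * 3 + (r + 2) * (2 * r + 2) + (r + 2) * (r + 1) := by ring
      have h31 : 2 * 1 ≤ (r + 2) * (r + 1) := Nat.mul_le_mul (by omega) (by omega)
      linarith

end Pool.Agent.Helper54.HZ
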