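import Pool.Agent.Helper28.HA.Defs
import Pool.Agent.Helper54.HY.Deg

/-!
MP_143e28_ag, project HZ (helper54): cyclic covers of the line of prime degree `n` different from the (odd) characteristic.
Definitions.  `rat hx : RatFunc k →ₐ[k] F` (`Helper54.HY.Deg`, with `rat_poly`, `rat_X`, `rat_injective`) is the embedding
`X ↦ x`.
-/

set_option autoImplicit false

namespace Pool.Agent.Helper54.HZ

open Polynomial Pool.Agent.Helper54.HY

variable {k : Type*} [Field k]

/-- the branch points of the curve `y ^ n = f (x)` (`n` prime, all roots of `f` of multiplicity less than `n`): the roots of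
`f`, and `∞` if `n` does not divide the degree of `f` -/
def BrN (n : ℕ) (f : k[X]) : Set (OnePoint k) :=
  {P | (∃ a : k, f.eval a = 0 ∧ P = (a : OnePoint k)) ∨ (¬ n ∣ f.natDegree ∧ P = OnePoint.infty)}

/-- `(x, y, f)` presents `F` as the function field of the curve `y ^ n = f (x)`, a cyclic cover of the line of prime degree
`n` different from the characteristic; its genus is `g`: `2 g = (n - 1) (r - 2)`, `r` the number of branch points -/
structure PresN (k F : Type*) [Field k] [Field F] [Algebra k F] (n g : ℕ) (x y : F) (f : k[X]) : Prop where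
  prime : n.Prime
  char : (n : k) ≠ 0
  trans : Transcendental k x
  gen : IntermediateField.adjoin k {x, y} = ⊤
  ne0 : f ≠ 0
  mult : ∀ a : k, f.rootMultiplicity a < n
  eqn : y ^ n = aeval x f
  genus : (n - 1) * (Nat.card (BrN n f) - 2) = 2 * g

/-- `F` is the function field of a curve `y ^ n = f (x)` of genus `g` over `k`, with `n ∈ S` prime and different from the
characteristic -/
def IsCyc (k F : Type*) [Field k] [Field F] [Algebra k F] (S : Set ℕ) (g : ℕ) : Prop :=
  ∃ n ∈ S, ∃ (x y : F) (f : k[X]), PresN k F n g x y f

/-- the order of a rational function at a point of the projective line -/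
noncomputable def ordP (P : OnePoint k) (r : RatFunc k) : ℤ :=
  P.elim ((r.denom.natDegree : ℤ) - r.num.natDegree)
    (fun a => (r.num.rootMultiplicity a : ℤ) - r.denom.rootMultiplicity a)

theorem ordP_infty (r : RatFunc k) :
    ordP (OnePoint.infty) r = (r.denom.natDegree : ℤ) - r.num.natDegree := rfl

theorem ordP_coe (a : k) (r : RatFunc k) :
    ordP (a : OnePoint k) r = (r.num.rootMultiplicity a : ℤ) - r.denom.rootMultiplicity a := rfl

/-- the rational function `(a X + b) / (c X + d)` given by a matrix -/
noncomputable def mobX (M : GL (Fin 2) k) : RatFunc k :=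
  algebraMap k[X] (RatFunc k) (C (M 0 0) * X + C (M 0 1)) /
    algebraMap k[X] (RatFunc k) (C (M 1 0) * X + C (M 1 1))

end Pool.Agent.Helper54.HZ
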