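import Mathlib

/-!
MP_143e28_ag, project HZ: the local lemma (abstract; Mathlib only).

`O` = `v.valuationSubring`, a local subring of `K`, its image in `F` is dominated by a valuation subring `V` of
`F`.  For `a ∈ K`: `v a ≤ 1 → a ∈ V`; `v a < 1 → a` in the maximal ideal of `V` (nonunit); and conversely.
`z` and all `τ^i z` are roots of the monic `Q` with coefficients in `V` (`Q` has coefficients in `K`,
fixed by `τ`), so in `V`.
-/

set_option autoImplicit false

namespace Pool.Agent.Helper54.HZ

open Polynomial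

private theorem Loc_ext {K F Γ : Type*} [Field K] [Field F] [Algebra K F]
    [LinearOrderedCommGroupWithZero Γ] (v : Valuation K Γ) :
    ∃ V : ValuationSubring F, (∀ a : K, v a ≤ 1 → V.valuation (algebraMap K F a) ≤ 1) ∧
      ∀ a : K, v a < 1 → V.valuation (algebraMap K F a) < 1 := by
  obtain ⟨V, hV⟩ := LocalSubring.exists_le_valuationSubring
    (LocalSubring.map (algebraMap K F) v.valuationSubring.toLocalSubring)
  obtain ⟨h1, h2⟩ := LocalSubring.le_def.1 hV
  have hmem : ∀ a : K, v a ≤ 1 → algebraMap K F a ∈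
      (LocalSubring.map (algebraMap K F) v.valuationSubring.toLocalSubring).toSubring := by
    intro a ha
    exact Subring.mem_map.2 ⟨a, (show a ∈ v.valuationSubring from
      (Valuation.mem_valuationSubring_iff v a).2 ha), rfl⟩
  have hmem' : ∀ a : K, v a ≤ 1 → algebraMap K F a ∈ V := fun a ha => h1 (hmem a ha)
  refine ⟨V, fun a ha => (V.valuation_le_one_iff _).2 (hmem' a ha), fun a ha => ?_⟩
  refine lt_of_le_of_ne ((V.valuation_le_one_iff _).2 (hmem' a ha.le)) fun heq => ?_
  have hu : IsUnit (⟨algebraMap K F a, hmem' a ha.le⟩ : V) :=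
    (V.valuation_eq_one_iff ⟨algebraMap K F a, hmem' a ha.le⟩).2 heq
  have hu2 : IsUnit (⟨algebraMap K F a, hmem a ha.le⟩ :
      (LocalSubring.map (algebraMap K F) v.valuationSubring.toLocalSubring).toSubring) :=
    h2.1 _ hu
  obtain ⟨⟨b, hb⟩, hab⟩ := hu2.exists_right_inv
  obtain ⟨b', hb', rfl⟩ := Subring.mem_map.1 hb
  have hab' : algebraMap K F a * algebraMap K F b' = 1 := congrArg Subtype.val hab
  rw [← map_mul, ← map_one (algebraMap K F)] at hab'
  have h3 := (algebraMap K F).injective hab'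
  have h4 : v b' ≤ 1 := (Valuation.mem_valuationSubring_iff v b').1 hb'
  have h5 : v a * v b' = 1 := by rw [← map_mul, h3, map_one]
  have h6 : v a * v b' < 1 := lt_of_le_of_lt (mul_le_of_le_one_right' h4) ha
  exact absurd h5 h6.ne

private theorem Loc_root {F Γ : Type*} [Field F] [LinearOrderedCommGroupWithZero Γ]
    (U : Valuation F Γ) (P : F[X]) (hP : P.Monic) (hc : ∀ i, U (P.coeff i) ≤ 1) {x : F}
    (hx : P.eval x = 0) : U x ≤ 1 := by
  by_contra hcon
  push Not at hcon
  have hx0 : U x ≠ 0 := fun h => by rw [h] at hcon; exact absurd hcon (not_lt.2 zero_le_one)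
  rw [eval_eq_sum_range, Finset.sum_range_succ, hP.coeff_natDegree, one_mul] at hx
  have h1 : U (∑ i ∈ Finset.range P.natDegree, P.coeff i * x ^ i) < U x ^ P.natDegree := by
    refine U.map_sum_lt (pow_ne_zero _ hx0) fun i hi => ?_
    rw [map_mul, map_pow]
    refine lt_of_le_of_lt (mul_le_of_le_one_left' (hc i)) ?_
    exact pow_lt_pow_right₀ hcon (Finset.mem_range.1 hi)
  have h2 : x ^ P.natDegree = -∑ i ∈ Finset.range P.natDegree, P.coeff i * x ^ i := by
    linear_combination hx
  rw [← U.map_neg, ← h2, map_pow] at h1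
  exact absurd h1 (lt_irrefl _)

private theorem Loc_prod {F Γ : Type*} [Field F] [LinearOrderedCommGroupWithZero Γ]
    (U : Valuation F Γ) (a : ℕ → F) : ∀ n : ℕ, (∀ i < n, U (a i) ≤ 1) →
      U (∏ i ∈ Finset.range n, a i) ≤ 1 := by
  intro n hn
  induction n with
  | zero => simp
  | succ n ih =>
    rw [Finset.prod_range_succ, map_mul]
    exact mul_le_one' (ih fun i hi => hn i (by omega)) (hn n (by omega))

private theorem Loc_prod_lt {F Γ : Type*} [Field F] [LinearOrderedCommGroupWithZero Γ]
    (U : Valuation F Γ) (a : ℕ → F) {n : ℕ} (hn0 : 0 < n) (hn : ∀ i < n, U (a i) < 1) :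
      U (∏ i ∈ Finset.range n, a i) < 1 := by
  obtain ⟨m, rfl⟩ : ∃ m, n = m + 1 := ⟨n - 1, by omega⟩
  rw [Finset.prod_range_succ, map_mul]
  exact lt_of_le_of_lt (mul_le_of_le_one_left'
    (Loc_prod U a m fun i hi => (hn i (by omega)).le)) (hn m (by omega))

/-- orthogonality -/
private theorem Loc_orth {K : Type*} [Field K] {n : ℕ} {ζ : K} (hζ : IsPrimitiveRoot ζ n)
    {l j : ℕ} (hl : l < n) (hj : j < n) :
    ∑ i ∈ Finset.range n, ζ ^ (i * (n - l)) * ζ ^ (i * j) = if j = l then (n : K) else 0 := by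
  have h1 : ∀ i ∈ Finset.range n, ζ ^ (i * (n - l)) * ζ ^ (i * j) = (ζ ^ (n - l + j)) ^ i := by
    intro i _
    rw [← pow_add, ← pow_mul]
    congr 1
    ring
  rw [Finset.sum_congr rfl h1]
  split_ifs with h
  · subst h
    have h2 : ζ ^ (n - j + j) = 1 := by
      rw [Nat.sub_add_cancel hl.le, hζ.pow_eq_one]
    rw [h2]
    simp
  · have h2 : ζ ^ (n - l + j) ≠ 1 := by
      intro h3
      rw [hζ.pow_eq_one_iff_dvd] at h3
      rcases Nat.lt_or_ge j l with h4 | h4
      · exact absurd (Nat.le_of_dvd (by omega) h3) (by omega)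
      · have h5 : n ∣ j - l := by
          have h6 : n - l + j = n + (j - l) := by omega
          rw [h6] at h3
          exact (Nat.dvd_add_right (dvd_refl n)).1 h3
        exact absurd (Nat.le_of_dvd (by omega) h5) (by omega)
    have h7 := geom_sum_mul (ζ ^ (n - l + j)) n
    rw [← pow_mul, mul_comm, mul_comm (n - l + j) n, pow_mul, hζ.pow_eq_one, one_pow,
      sub_self] at h7
    exact (mul_eq_zero.1 h7).resolve_left (sub_ne_zero.2 h2)

theorem loc {K F Γ : Type*} [Field K] [Field F] [Algebra K F] [LinearOrderedCommGroupWithZero Γ]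
    (v : Valuation K Γ) {n : ℕ} (hn0 : 0 < n) (hn : v (n : K) = 1) {ζ : K} (hζ : IsPrimitiveRoot ζ n)
    (τ : F ≃ₐ[K] F) {y : F} {f : K} (hy : y ^ n = algebraMap K F f) (hτ : τ y = algebraMap K F ζ * y)
    (c : ℕ → K) (z : F) (hz : z = ∑ j ∈ Finset.range n, algebraMap K F (c j) * y ^ j)
    (Q : K[X]) (hQ : Q.Monic) (hQv : ∀ i, v (Q.coeff i) ≤ 1) (hQz : aeval z Q = 0)
    (w : K) (hw : algebraMap K F w = ∏ i ∈ Finset.range n, (τ ^ i) (τ z - z)) :
    v w ≤ 1 ∧ ((∀ (e : K) (j : ℕ), 0 < j → j < n → v (e ^ n * f ^ j) ≠ 1) → v w < 1) := by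
  obtain ⟨V, P1, P2⟩ := Loc_ext (F := F) v
  generalize V.valuation = U at P1 P2
  -- the converses
  have P4 : ∀ a : K, U (algebraMap K F a) ≤ 1 → v a ≤ 1 := by
    intro a ha
    by_contra hcon
    push Not at hcon
    have ha0 : a ≠ 0 := by
      rintro rfl
      rw [map_zero] at hcon
      exact absurd hcon (not_lt.2 zero_le_one)
    have h1 : v a⁻¹ < 1 := by
      rw [map_inv₀]
      exact inv_lt_one_of_one_lt₀ hcon
    have h2 := P2 _ h1
    rw [map_inv₀, map_inv₀] at h2
    have h3 : U (algebraMap K F a) ≠ 0 := by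
      rw [Valuation.ne_zero_iff]
      exact (_root_.map_ne_zero _).2 ha0
    have h4 : U (algebraMap K F a) * (U (algebraMap K F a))⁻¹ = 1 := mul_inv_cancel₀ h3
    have h5 : U (algebraMap K F a) * (U (algebraMap K F a))⁻¹ < 1 :=
      lt_of_le_of_lt (mul_le_of_le_one_left' ha) h2
    exact absurd h4 h5.ne
  have P3 : ∀ a : K, U (algebraMap K F a) < 1 → v a < 1 := by
    intro a ha
    refine lt_of_le_of_ne (P4 a ha.le) fun heq => ?_
    have ha0 : a ≠ 0 := by
      rintro rfl
      rw [map_zero] at heq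
      exact zero_ne_one heq
    have h1 : v a⁻¹ ≤ 1 := by rw [map_inv₀, heq, inv_one]
    have h2 := P1 _ h1
    rw [map_inv₀, map_inv₀] at h2
    have h3 : U (algebraMap K F a) ≠ 0 := by
      rw [Valuation.ne_zero_iff]
      exact (_root_.map_ne_zero _).2 ha0
    have h4 : U (algebraMap K F a) * (U (algebraMap K F a))⁻¹ = 1 := mul_inv_cancel₀ h3
    have h5 : U (algebraMap K F a) * (U (algebraMap K F a))⁻¹ < 1 :=
      lt_of_le_of_lt (mul_le_of_le_one_right' h2) ha
    exact absurd h4 h5.ne
  have hζ1 : v ζ = 1 := by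
    have h1 : v ζ ^ n = 1 := by rw [← map_pow, hζ.pow_eq_one, map_one]
    apply le_antisymm
    · exact (pow_le_one_iff hn0.ne').1 h1.le
    · exact (one_le_pow_iff hn0.ne').1 h1.ge
  have hζp : ∀ m : ℕ, U (algebraMap K F (ζ ^ m)) ≤ 1 := by
    intro m
    apply P1
    rw [map_pow, hζ1, one_pow]
  -- the conjugates of z
  have hτy : ∀ i : ℕ, (τ ^ i) y = algebraMap K F (ζ ^ i) * y := by
    intro i
    induction i with
    | zero => simp
    | succ i ih =>
      rw [pow_succ', AlgEquiv.mul_apply, ih, map_mul, AlgEquiv.commutes, hτ, pow_succ]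
      rw [map_mul]
      ring
  have hτz : ∀ i : ℕ, (τ ^ i) z =
      ∑ j ∈ Finset.range n, algebraMap K F (ζ ^ (i * j)) * (algebraMap K F (c j) * y ^ j) := by
    intro i
    rw [hz, map_sum]
    refine Finset.sum_congr rfl fun j _ => ?_
    rw [map_mul, AlgEquiv.commutes, map_pow, hτy, mul_pow, ← map_pow, ← pow_mul]
    ring
  have hUz : ∀ i : ℕ, U ((τ ^ i) z) ≤ 1 := by
    intro i
    refine Loc_root U (Q.map (algebraMap K F)) (hQ.map _) ?_ ?_
    · intro m
      rw [coeff_map]
      exact P1 _ (hQv m)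
    · rw [eval_map_algebraMap, aeval_algHom_apply, hQz, map_zero]
  have hdiff : ∀ i : ℕ, (τ ^ i) (τ z - z) = (τ ^ (i + 1)) z - (τ ^ i) z := by
    intro i
    rw [map_sub, pow_succ, AlgEquiv.mul_apply]
  refine ⟨?_, ?_⟩
  · apply P4
    rw [hw]
    apply Loc_prod
    intro i _
    rw [hdiff]
    exact U.map_sub_le (hUz _) (hUz _)
  · intro hf
    have hn1 : U (algebraMap K F (n : K)) = 1 := by
      apply le_antisymm (P1 _ hn.le)
      by_contra hcon
      push Not at hcon
      exact absurd hn (P3 _ hcon).ne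
    have hcl : ∀ l < n, U (algebraMap K F (c l) * y ^ l) ≤ 1 := by
      intro l hl
      have h1 : ∑ i ∈ Finset.range n, algebraMap K F (ζ ^ (i * (n - l))) * (τ ^ i) z =
          algebraMap K F (n : K) * (algebraMap K F (c l) * y ^ l) := by
        calc ∑ i ∈ Finset.range n, algebraMap K F (ζ ^ (i * (n - l))) * (τ ^ i) z
            = ∑ i ∈ Finset.range n, ∑ j ∈ Finset.range n,
              algebraMap K F (ζ ^ (i * (n - l)) * ζ ^ (i * j)) *
                (algebraMap K F (c j) * y ^ j) := by
              refine Finset.sum_congr rfl fun i _ => ?_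
              rw [hτz, Finset.mul_sum]
              refine Finset.sum_congr rfl fun j _ => ?_
              rw [map_mul]
              ring
          _ = ∑ j ∈ Finset.range n, algebraMap K F (if j = l then (n : K) else 0) *
                (algebraMap K F (c j) * y ^ j) := by
              rw [Finset.sum_comm]
              refine Finset.sum_congr rfl fun j hj => ?_
              rw [← Finset.sum_mul, ← map_sum, Loc_orth hζ hl (Finset.mem_range.1 hj)]
          _ = _ := by
              rw [Finset.sum_eq_single l]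
              · rw [if_pos rfl]
              · intro j _ hjl
                rw [if_neg hjl, map_zero, zero_mul]
              · intro h
                exact absurd (Finset.mem_range.2 hl) h
      have h2 : U (algebraMap K F (n : K) * (algebraMap K F (c l) * y ^ l)) ≤ 1 := by
        rw [← h1]
        refine U.map_sum_le fun i _ => ?_
        rw [map_mul]
        exact mul_le_one' (hζp _) (hUz i)
      rwa [map_mul, hn1, one_mul] at h2
    have hclt : ∀ l < n, 0 < l → U (algebraMap K F (c l) * y ^ l) < 1 := by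
      intro l hl hl0
      have h1 : (algebraMap K F (c l) * y ^ l) ^ n = algebraMap K F (c l ^ n * f ^ l) := by
        rw [mul_pow, ← pow_mul, mul_comm l n, pow_mul, hy, map_mul, map_pow, map_pow]
      have h2 : U (algebraMap K F (c l ^ n * f ^ l)) ≤ 1 := by
        rw [← h1, map_pow]
        exact (pow_le_one_iff hn0.ne').2 (hcl l hl)
      have h3 : v (c l ^ n * f ^ l) < 1 := lt_of_le_of_ne (P4 _ h2) (hf (c l) l hl0 hl)
      have h4 := P2 _ h3
      rw [← h1, map_pow] at h4
      exact (pow_lt_one_iff hn0.ne').1 h4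
    apply P3
    rw [hw]
    refine Loc_prod_lt U _ hn0 fun i _ => ?_
    rw [hdiff, hτz, hτz, ← Finset.sum_sub_distrib]
    refine U.map_sum_lt one_ne_zero fun j hj => ?_
    rw [← sub_mul]
    rcases Nat.eq_zero_or_pos j with rfl | hj0
    · rw [Nat.mul_zero, Nat.mul_zero, sub_self, zero_mul, map_zero]
      exact zero_lt_one
    · rw [map_mul]
      exact lt_of_le_of_lt (mul_le_of_le_one_left' (U.map_sub_le (hζp _) (hζp _)))
        (hclt j (Finset.mem_range.1 hj) hj0)

end Pool.Agent.Helper54.HZ
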