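import Pool.Agent.Helper54.HZ.Min
import Pool.Agent.Helper54.HZ.Loc
import Pool.Agent.Helper54.HZ.Flip
import Pool.Agent.Helper54.HZ.Place

/-!
MP_143e28_ag, project HZ: a function outside `k(x)` of degree at most `m` in `x` forces at most `2 m` branch points.

`P` = the primitive polynomial of `z` (`exists_prim`), `a` its leading coefficient, `w = N (τ z - z) = ∏_{i < n} τ^i (τ z - z)`,
fixed by `τ` (`τ^n = 1`: `tau_pow` and `decomp`), so `w = rat w0` (`fixed`), `w0 ≠ 0` (`τ z ≠ z` by `fixed` and `hz`).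
`W := a ^ 2 w0 ∈ RatFunc k`.  For every point `Q0` let `c` be the constant of `good_const`, `z' = 1 / (z - c)`, `b = P (X, c)`;
evaluate `exists_prim` at `c`: `b (x) = a (x) ∏ (c - τ^i z)`.  `τ z' - z' = - (τ z - z) / ((τ z - c) (z - c))`, so
`w' := N (τ z' - z') = ± w a (x) ^ 2 / b (x) ^ 2`: `W = ± b ^ 2 w0'`.  `flip_poly` divided by `b` is a monic polynomial of `z'` with
coefficients of valuation `≤ 1` (`span_val`), `loc` (with the valuation of `exists_val`, `v n = 1` as `n` is a nonzero constant;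
`z' = ∑ c_j y ^ j` by `decomp`; `τ` as a `RatFunc k`-algebra automorphism for the algebra structure `rat h.trans`): `v w0' ≤ 1`, and
`v w0' < 1` if `Q0 ∈ BrN n f` (`mem_BrN`: `ord (e ^ n f ^ j) = n ord e + j ord f`, not divisible by `n`, so not `0`).  So
`ord_Q0 W = 2 ord b + ord w0' ≥ [Q0 ∈ BrN n f] - 2 m [Q0 = ∞]`; `count` with `2 m`.
-/

set_option autoImplicit false

namespace Pool.Agent.Helper54.HZ

open Polynomial Pool.Agent.Helper54.HY

variable {k F : Type*} [Field k] [Field F] [Algebra k F]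

private theorem DegN_tau_n [IsAlgClosed k] {n g : ℕ} (hg : 0 < g) {x y : F} {f : k[X]}
    (h : PresN k F n g x y f) {ζ : k} {τ : F ≃ₐ[k] F} (hζ : IsPrimitiveRoot ζ n) (hx : τ x = x)
    (hy : τ y = algebraMap k F ζ * y) (z : F) : (τ ^ n) z = z := by
  obtain ⟨c, hc⟩ := decomp hg h z
  rw [hc, map_sum]
  refine Finset.sum_congr rfl fun j _ => ?_
  rw [tau_pow h hx hy n j (c j), pow_mul, hζ.pow_eq_one, one_pow, map_one, one_mul]

private theorem DegN_shift {n : ℕ} (u : ℕ → F) (hu : u n = u 0) (h0 : u 0 ≠ 0) :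
    ∏ i ∈ Finset.range n, u (i + 1) = ∏ i ∈ Finset.range n, u i := by
  have h3 := Finset.prod_range_succ' u n
  have h4 := Finset.prod_range_succ u n
  rw [hu] at h4
  rw [h4] at h3
  exact (mul_right_cancel₀ h0 h3).symm

private theorem DegN_norm (τ : F ≃ₐ[k] F) {n : ℕ} {z e : F} (hτn : (τ ^ n) z = z) (he : τ e = e)
    (hze : ∀ i : ℕ, (τ ^ i) z ≠ e) :
    ∏ i ∈ Finset.range n, (τ ^ i) (τ (z - e)⁻¹ - (z - e)⁻¹) =
      (-1) ^ n * (∏ i ∈ Finset.range n, (τ ^ i) (τ z - z)) /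
        (∏ i ∈ Finset.range n, ((τ ^ i) z - e)) ^ 2 := by
  have hei : ∀ i : ℕ, (τ ^ i) e = e := by
    intro i
    induction i with
    | zero => rfl
    | succ i ih => rw [pow_succ, AlgEquiv.mul_apply, he, ih]
  have h1 : ∀ i : ℕ, (τ ^ i) (τ (z - e)⁻¹ - (z - e)⁻¹) =
      (-1) * (τ ^ i) (τ z - z) / (((τ ^ (i + 1)) z - e) * ((τ ^ i) z - e)) := by
    intro i
    have f0 : (τ ^ i) z - e ≠ 0 := sub_ne_zero.2 (hze i)
    have f1 : (τ ^ (i + 1)) z - e ≠ 0 := sub_ne_zero.2 (hze (i + 1))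
    have e1 : (τ ^ i) (τ (z - e)⁻¹) = ((τ ^ (i + 1)) z - e)⁻¹ := by
      rw [← AlgEquiv.mul_apply, ← pow_succ, map_inv₀, map_sub, hei]
    have e2 : (τ ^ i) (z - e)⁻¹ = ((τ ^ i) z - e)⁻¹ := by
      rw [map_inv₀, map_sub, hei]
    have e3 : (τ ^ i) (τ z) = (τ ^ (i + 1)) z := by
      rw [← AlgEquiv.mul_apply, ← pow_succ]
    rw [map_sub, map_sub, e1, e2, e3]
    field_simp
    ring
  have h2 : ∏ i ∈ Finset.range n, ((τ ^ (i + 1)) z - e) =
      ∏ i ∈ Finset.range n, ((τ ^ i) z - e) := by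
    refine DegN_shift (fun i => (τ ^ i) z - e) ?_ (sub_ne_zero.2 (hze 0))
    show (τ ^ n) z - e = (τ ^ 0) z - e
    rw [hτn]
    rfl
  rw [Finset.prod_congr rfl fun i _ => h1 i, Finset.prod_div_distrib, Finset.prod_mul_distrib,
    Finset.prod_mul_distrib, h2, Finset.prod_const, Finset.card_range, sq]

private theorem DegN_comp {x : F} (hx : Transcendental k x) :
    (aeval x : k[X] →ₐ[k] F).toRingHom =
      (rat hx).toRingHom.comp (algebraMap k[X] (RatFunc k)) :=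
  RingHom.ext fun q => (rat_poly hx q).symm

private theorem DegN_local [IsAlgClosed k] {n g : ℕ} (hg : 0 < g) {x y : F} {f : k[X]}
    (h : PresN k F n g x y f) {ζ : k} {τ : F ≃ₐ[k] F} (hζ : IsPrimitiveRoot ζ n) (hx : τ x = x)
    (hy : τ y = algebraMap k F ζ * y) {z : F}
    (hz : ∀ r : RatFunc k, rat h.trans r ≠ z) {m : ℕ} (P : k[X][X]) (hPp : P.IsPrimitive)
    (hPn : P.natDegree = n) (hPm : ∀ i, (P.coeff i).natDegree ≤ m)
    (hPf : P.map (aeval x : k[X] →ₐ[k] F).toRingHom =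
      C (aeval x P.leadingCoeff) * ∏ i ∈ Finset.range n, (X - C ((τ ^ i) z)))
    (w0 : RatFunc k) (hw0 : rat h.trans w0 = ∏ i ∈ Finset.range n, (τ ^ i) (τ z - z))
    (hw00 : w0 ≠ 0) (Q0 : OnePoint k) :
    ∃ o : ℤ, (∀ b : k, Q0 = (b : OnePoint k) → o = 0) ∧ (Q0 = OnePoint.infty → -(m : ℤ) ≤ o) ∧
      2 * o ≤ ordP Q0 (algebraMap k[X] (RatFunc k) P.leadingCoeff ^ 2 * w0) ∧
      (Q0 ∈ BrN n f →
        1 + 2 * o ≤ ordP Q0 (algebraMap k[X] (RatFunc k) P.leadingCoeff ^ 2 * w0)) := by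
  have hτn : (τ ^ n) z = z := DegN_tau_n hg h hζ hx hy z
  obtain ⟨c, hb0, hbP, hbfin, hbinf⟩ := good_const P hPp hPm Q0
  obtain ⟨b, hb⟩ : ∃ b, b = P.eval (C c) := ⟨_, rfl⟩
  rw [← hb] at hb0 hbP hbfin hbinf
  obtain ⟨a, ha⟩ : ∃ a, a = P.leadingCoeff := ⟨_, rfl⟩
  have ha0 : a ≠ 0 := by
    rw [ha, Ne, leadingCoeff_eq_zero]
    exact hPp.ne_zero
  rw [← ha] at hPf ⊢
  have hbK : algebraMap k[X] (RatFunc k) b ≠ 0 := RatFunc.algebraMap_ne_zero hb0
  have haK : algebraMap k[X] (RatFunc k) a ≠ 0 := RatFunc.algebraMap_ne_zero ha0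
  -- the constant in `F`
  obtain ⟨e, he⟩ : ∃ e : F, e = algebraMap k F c := ⟨_, rfl⟩
  have hτe : τ e = e := by rw [he, AlgEquiv.commutes]
  have hze : ∀ i : ℕ, (τ ^ i) z ≠ e := by
    intro i hi
    have h1 : z = e := by
      apply (τ ^ i).injective
      rw [hi, he, AlgEquiv.commutes]
    refine hz (algebraMap k[X] (RatFunc k) (C c)) ?_
    rw [rat_poly, aeval_C, h1, he]
  -- evaluation at the constant
  have hev : aeval x b = aeval x a * ((-1) ^ n * (∏ i ∈ Finset.range n, ((τ ^ i) z - e))) := by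
    have h1 := congrArg (fun p : F[X] => p.eval e) hPf
    simp only [eval_mul, eval_C, eval_prod, eval_sub, eval_X] at h1
    have h2 : (P.map (aeval x : k[X] →ₐ[k] F).toRingHom).eval e = aeval x b := by
      rw [hb, eval_map]
      have h3 : e = (aeval x : k[X] →ₐ[k] F).toRingHom (C c) := by
        rw [he]
        exact (aeval_C x c).symm
      rw [h3, eval₂_hom]
      rfl
    rw [h2] at h1
    rw [h1]
    congr 1
    have h4 : ∀ i ∈ Finset.range n, e - (τ ^ i) z = (-1) * ((τ ^ i) z - e) := fun i _ => by ring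
    rw [Finset.prod_congr rfl h4, Finset.prod_mul_distrib, Finset.prod_const, Finset.card_range]
  have hax : aeval x a ≠ 0 := by
    rw [← rat_poly h.trans, Ne, map_eq_zero]
    exact haK
  have hbx : aeval x b ≠ 0 := by
    rw [← rat_poly h.trans, Ne, map_eq_zero]
    exact hbK
  -- the change of the function
  obtain ⟨z', hz'⟩ : ∃ z' : F, z' = (z - e)⁻¹ := ⟨_, rfl⟩
  obtain ⟨w', hw'⟩ : ∃ w' : RatFunc k, w' = ((-1) ^ n * (algebraMap k[X] (RatFunc k) a ^ 2 * w0)) /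
    algebraMap k[X] (RatFunc k) b ^ 2 := ⟨_, rfl⟩
  have hm1 : ((-1 : RatFunc k)) ^ n ≠ 0 := pow_ne_zero _ (neg_ne_zero.2 one_ne_zero)
  have hw'0 : w' ≠ 0 := by
    rw [hw']
    exact div_ne_zero (mul_ne_zero hm1 (mul_ne_zero (pow_ne_zero _ haK) hw00)) (pow_ne_zero _ hbK)
  have hnorm : rat h.trans w' = ∏ i ∈ Finset.range n, (τ ^ i) (τ z' - z') := by
    have hp : (∏ i ∈ Finset.range n, ((τ ^ i) z - e)) ≠ 0 :=
      Finset.prod_ne_zero_iff.2 fun i _ => sub_ne_zero.2 (hze i)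
    have hs : ((-1 : F) ^ n) ^ 2 = 1 := by rw [← pow_mul, mul_comm, pow_mul]; simp
    rw [hz', DegN_norm τ hτn hτe hze, ← hw0, hw', map_div₀, map_mul, map_mul, map_pow, map_pow,
      map_pow, rat_poly, rat_poly, hev, map_neg, map_one, mul_pow, mul_pow, hs, one_mul]
    field_simp
  -- the valuation
  obtain ⟨v, hv⟩ := exists_val Q0
  -- the polynomial
  obtain ⟨Q1, hQ1n, hQ1c, hQ1s, hQ1r⟩ := flip_poly P n hPn.le c
  have hQ1c' : Q1.coeff n = b := by rw [hQ1c, hb]; rfl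
  have hQ1r' : Q1.eval₂ (aeval x : k[X] →ₐ[k] F).toRingHom z' = 0 := by
    have h1 : (aeval x : k[X] →ₐ[k] F).toRingHom (algebraMap k k[X] c) = e := by
      rw [he]
      exact aeval_C x c
    have h2 := hQ1r F (aeval x : k[X] →ₐ[k] F).toRingHom z (by
      rw [h1]
      exact hze 0) (by
      rw [← eval_map, hPf, eval_mul, eval_prod]
      refine mul_eq_zero_of_right _ (Finset.prod_eq_zero (i := 0)
        (Finset.mem_range.2 h.prime.pos) ?_)
      simp)
    rw [h1] at h2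
    rw [hz']
    exact h2
  obtain ⟨Q2, hQ2⟩ : ∃ Q2 : (RatFunc k)[X], Q2 = C (algebraMap k[X] (RatFunc k) b)⁻¹ *
    Q1.map (algebraMap k[X] (RatFunc k)) := ⟨_, rfl⟩
  have hQ2c : ∀ i, Q2.coeff i = algebraMap k[X] (RatFunc k) (Q1.coeff i) /
      algebraMap k[X] (RatFunc k) b := by
    intro i
    rw [hQ2, coeff_C_mul, coeff_map, div_eq_inv_mul]
  have hQ2m : Q2.Monic := by
    refine monic_of_natDegree_le_of_coeff_eq_one n ?_ ?_
    · rw [hQ2]
      exact (natDegree_C_mul_le _ _).trans (natDegree_map_le.trans hQ1n)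
    · rw [hQ2c, hQ1c', div_self hbK]
  have hQ2v : ∀ i, v (Q2.coeff i) ≤ 1 := by
    intro i
    rw [hQ2c]
    exact span_val Q0 v hv P b hb0 hbP (hQ1s i)
  -- the constants
  have hvn : v (n : RatFunc k) = 1 := by
    have h1 : (n : RatFunc k) = algebraMap k[X] (RatFunc k) (C (n : k)) := by simp
    have h2 : (n : RatFunc k) ≠ 0 := by
      rw [h1]
      exact RatFunc.algebraMap_ne_zero (C_ne_zero.2 h.char)
    rw [hv _ h2, h1, ord_const, neg_zero, WithZero.exp_zero]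
  have hζK : IsPrimitiveRoot (algebraMap k (RatFunc k) ζ) n :=
    hζ.map_of_injective (algebraMap k (RatFunc k)).injective
  -- the algebra structure
  letI : Algebra (RatFunc k) F := (rat h.trans).toRingHom.toAlgebra
  have halg : ∀ r : RatFunc k, algebraMap (RatFunc k) F r = rat h.trans r := fun r => rfl
  let τK : F ≃ₐ[RatFunc k] F := AlgEquiv.ofRingEquiv (f := (τ : F ≃+* F)) (fun r => by
    rw [halg]
    exact tau_rat h.trans τ hx r)
  have hτK : ∀ (i : ℕ) (u : F), (τK ^ i) u = (τ ^ i) u := by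
    intro i
    induction i with
    | zero => intro u; rfl
    | succ i ih =>
      intro u
      rw [pow_succ, pow_succ, AlgEquiv.mul_apply, AlgEquiv.mul_apply, ih]
      rfl
  have hQ2z : aeval z' Q2 = 0 := by
    rw [aeval_def, hQ2, eval₂_mul, eval₂_map]
    have h1 : (algebraMap (RatFunc k) F).comp (algebraMap k[X] (RatFunc k)) =
        (aeval x : k[X] →ₐ[k] F).toRingHom := (DegN_comp h.trans).symm
    rw [h1, hQ1r', mul_zero]
  obtain ⟨cc, hcc⟩ := decomp hg h z'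
  have hloc := loc v h.prime.pos hvn hζK τK (y := y) (f := algebraMap k[X] (RatFunc k) f)
    (by rw [halg, rat_poly]; exact h.eqn)
    (by
      rw [halg, Fix_const]
      exact hy) cc z' hcc Q2 hQ2m hQ2v hQ2z w' (by
      rw [halg, hnorm]
      refine Finset.prod_congr rfl fun i _ => ?_
      rw [hτK]
      rfl)
  obtain ⟨hl1, hl2⟩ := hloc
  rw [hv w' hw'0] at hl1 hl2
  have ho1 : 0 ≤ ordP Q0 w' := by
    rw [← WithZero.exp_zero, WithZero.exp_le_exp] at hl1
    omega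
  have hfK : algebraMap k[X] (RatFunc k) f ≠ 0 := RatFunc.algebraMap_ne_zero h.ne0
  have ho2 : Q0 ∈ BrN n f → 1 ≤ ordP Q0 w' := by
    intro hmem
    rw [mem_BrN h.prime.one_lt h.ne0 h.mult] at hmem
    have h1 := hl2 (by
      intro e' j hj0 hjn hone
      by_cases he0 : e' = 0
      · rw [he0, zero_pow h.prime.ne_zero, zero_mul, map_zero] at hone
        exact zero_ne_one hone
      · rw [hv _ (mul_ne_zero (pow_ne_zero _ he0) (pow_ne_zero _ hfK)),
          ord_mul Q0 (pow_ne_zero _ he0) (pow_ne_zero _ hfK), ord_pow Q0 he0, ord_pow Q0 hfK,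
          ← WithZero.exp_zero] at hone
        have h2 : -((n : ℤ) * ordP Q0 e' + j * ordP Q0 (algebraMap k[X] (RatFunc k) f)) = 0 :=
          WithZero.exp_injective hone
        have h3 : (n : ℤ) ∣ (j : ℤ) * ordP Q0 (algebraMap k[X] (RatFunc k) f) :=
          ⟨-ordP Q0 e', by linarith⟩
        rcases (Nat.prime_iff_prime_int.1 h.prime).dvd_or_dvd h3 with h4 | h4
        · exact absurd (Nat.le_of_dvd hj0 (Int.natCast_dvd_natCast.1 h4)) (by omega)
        · exact hmem h4)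
    rw [← WithZero.exp_zero, WithZero.exp_lt_exp] at h1
    omega
  have hW : algebraMap k[X] (RatFunc k) a ^ 2 * w0 =
      (algebraMap k[X] (RatFunc k) (C ((-1) ^ n)) * w') * algebraMap k[X] (RatFunc k) b ^ 2 := by
    have hs : ((-1 : RatFunc k) ^ n) ^ 2 = 1 := by rw [← pow_mul, mul_comm, pow_mul]; simp
    rw [hw', C_pow, C_neg, C_1, map_pow, map_neg, map_one]
    field_simp
    rw [hs]
  have hm2 : algebraMap k[X] (RatFunc k) (C ((-1) ^ n)) ≠ 0 :=
    RatFunc.algebraMap_ne_zero (C_ne_zero.2 (pow_ne_zero _ (neg_ne_zero.2 one_ne_zero)))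
  have hord : ordP Q0 (algebraMap k[X] (RatFunc k) a ^ 2 * w0) =
      ordP Q0 w' + 2 * ordP Q0 (algebraMap k[X] (RatFunc k) b) := by
    rw [hW, ord_mul Q0 (mul_ne_zero hm2 hw'0) (pow_ne_zero _ hbK), ord_pow Q0 hbK,
      ord_mul Q0 hm2 hw'0, ord_const, zero_add]
    push_cast
    ring
  refine ⟨ordP Q0 (algebraMap k[X] (RatFunc k) b), hbfin, hbinf, ?_, ?_⟩
  · rw [hord]
    linarith
  · intro hmem
    have := ho2 hmem
    rw [hord]
    linarith

theorem deg_N [IsAlgClosed k] {n g : ℕ} (hg : 0 < g) {x y : F} {f : k[X]} (h : PresN k F n g x y f) {z : F}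
    (hz : ∀ r : RatFunc k, rat h.trans r ≠ z) {m : ℕ} (Q : k[X][X]) (hQ : Q ≠ 0)
    (hm : ∀ i, (Q.coeff i).natDegree ≤ m)
    (h0 : Q.eval₂ (aeval x : k[X] →ₐ[k] F).toRingHom z = 0) :
    Nat.card (BrN n f) ≤ 2 * m := by
  classical
  obtain ⟨ζ, τ, hζ, hx, hy⟩ := exists_tau hg h
  obtain ⟨P, hPp, hPn, hPm, hPf⟩ := exists_prim hg h hζ hx hy hz Q hQ hm h0
  have hτn : ∀ u : F, (τ ^ n) u = u := fun u => DegN_tau_n hg h hζ hx hy u
  have hzτ : τ z ≠ z := by
    intro hh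
    obtain ⟨r, hr⟩ := fixed hg h hζ hx hy hh
    exact hz r hr
  have hd0 : τ z - z ≠ 0 := sub_ne_zero.2 hzτ
  obtain ⟨w0, hw0⟩ : ∃ r, rat h.trans r = ∏ i ∈ Finset.range n, (τ ^ i) (τ z - z) := by
    refine fixed hg h hζ hx hy ?_
    rw [map_prod]
    have h1 : ∀ i ∈ Finset.range n, τ ((τ ^ i) (τ z - z)) = (τ ^ (i + 1)) (τ z - z) := by
      intro i _
      rw [pow_succ', AlgEquiv.mul_apply]
    rw [Finset.prod_congr rfl h1]
    refine DegN_shift (fun i => (τ ^ i) (τ z - z)) ?_ ?_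
    · show (τ ^ n) (τ z - z) = (τ ^ 0) (τ z - z)
      rw [hτn]
      rfl
    · exact hd0
  have hw00 : w0 ≠ 0 := by
    rintro rfl
    rw [map_zero] at hw0
    obtain ⟨i, _, hi⟩ := Finset.prod_eq_zero_iff.1 hw0.symm
    rw [EmbeddingLike.map_eq_zero_iff] at hi
    exact hd0 hi
  have ha0 : P.leadingCoeff ≠ 0 := by
    rw [Ne, leadingCoeff_eq_zero]
    exact hPp.ne_zero
  have hW : algebraMap k[X] (RatFunc k) P.leadingCoeff ^ 2 * w0 ≠ 0 :=
    mul_ne_zero (pow_ne_zero _ (RatFunc.algebraMap_ne_zero ha0)) hw00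
  have hloc := DegN_local hg h hζ hx hy hz P hPp hPn hPm hPf w0 hw0 hw00
  refine count (BrN n f) hW (2 * m) ?_ ?_ ?_ ?_
  · intro b
    obtain ⟨o, ho1, _, ho3, _⟩ := hloc (b : OnePoint k)
    rw [ho1 b rfl, mul_zero] at ho3
    exact ho3
  · intro b hb
    obtain ⟨o, ho1, _, _, ho4⟩ := hloc (b : OnePoint k)
    have h5 := ho4 hb
    rw [ho1 b rfl, mul_zero, add_zero] at h5
    exact h5
  · obtain ⟨o, _, ho2, ho3, _⟩ := hloc OnePoint.infty
    have := ho2 rfl
    push_cast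
    linarith
  · intro hb
    obtain ⟨o, _, ho2, _, ho4⟩ := hloc OnePoint.infty
    have := ho2 rfl
    have h5 := ho4 hb
    push_cast
    linarith

end Pool.Agent.Helper54.HZ
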