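import Pool.Agent.Helper54.HZ.TDefs
import Pool.Agent.Helper54.HZ.Fix

/-!
MP_143e28_ag, project HZ, part 3 (trigonal curves): a Galois cubic extension of `k(x)` is a Kummer extension.

`s ≠ 1` fixes `k(x)`, `[F : k(x)] = 3`: the fixed field of `s` contains `k(x)` and is not `F`, so it is `k(x)`; `F` is Galois over `k(x)` with
a cyclic group of order 3 (`IntermediateField.finrank_fixedField_eq_card`, ... ), and `k` has a primitive third root of unity: Kummer
theory (Mathlib `Mathlib/FieldTheory/KummerExtension.lean`: `exists_root_adjoin_eq_top_of_isCyclic`): `F = k(x)(y0)`, `y0 ^ 3 ∈ k(x)`.  By hand: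
`1 + s + s^2` and `s` has an eigenvector `y0 ≠ 0` with eigenvalue `ζ` (the `k(x)`-linear map `s` satisfies `s ^ 3 = 1`, `s ≠ 1`;
`u + ζ⁻¹ s u + ζ⁻² s² u` for a suitable `u`, replace `ζ` by `ζ⁻¹` if necessary).
`y0 ^ 3 = N / D` with polynomials; `y1 = D y0`: `y1 ^ 3 = N D ^ 2 =: h ∈ k[x]`, `h ≠ 0`.  Write `h = f e ^ 3` with all roots of `f` of multiplicity `< 3`
(`k` algebraically closed: induction on the degree, divide by `(X - a) ^ 3` as long as possible); `y = y1 / e`.  `y ∉ k(x)`, so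
`F = k(x, y)`.
-/

set_option autoImplicit false

namespace Pool.Agent.Helper54.HZ

open Polynomial Pool.Agent.Helper54.HY

variable {k F : Type*} [Field k] [Field F] [Algebra k F]

/-- the cube-free part of a polynomial -/
theorem TKum_split : ∀ (n : ℕ) (h : k[X]), h ≠ 0 → h.natDegree ≤ n →
    ∃ f e : k[X], f ≠ 0 ∧ e ≠ 0 ∧ h = f * e ^ 3 ∧ ∀ a : k, f.rootMultiplicity a < 3 := by
  intro n
  induction n using Nat.strong_induction_on with
  | _ n ih =>
    intro h h0 hn
    by_cases hall : ∀ a : k, h.rootMultiplicity a < 3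
    · exact ⟨h, 1, h0, one_ne_zero, by rw [one_pow, mul_one], hall⟩
    · push Not at hall
      obtain ⟨a, ha⟩ := hall
      rw [le_rootMultiplicity_iff h0] at ha
      obtain ⟨h', rfl⟩ := ha
      have hX : (X - C a) ≠ 0 := X_sub_C_ne_zero a
      have h0' : h' ≠ 0 := by
        rintro rfl
        exact h0 (mul_zero _)
      have hdeg : ((X - C a) ^ 3 * h').natDegree = 3 + h'.natDegree := by
        rw [natDegree_mul (pow_ne_zero 3 hX) h0', natDegree_pow, natDegree_X_sub_C]
      obtain ⟨f, e, hf, he, hfe, hm⟩ := ih h'.natDegree (by omega) h' h0' le_rfl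
      refine ⟨f, (X - C a) * e, hf, mul_ne_zero hX he, ?_, hm⟩
      rw [hfe]
      ring

/-- the fixed field of `s` is `E`, and `s ^ 3 = 1` -/
theorem TKum_fixed (E : IntermediateField k F) (hc : Module.finrank E F = 3) (s : F ≃ₐ[k] F)
    (hs : s ≠ 1) (hfix : ∀ e ∈ E, s e = e) :
    (∀ u, s u = u → u ∈ E) ∧ ∀ u, s (s (s u)) = u := by
  classical
  have hfin : FiniteDimensional E F := Module.finite_of_finrank_pos (by rw [hc]; norm_num)
  obtain ⟨σ, hσ⟩ : ∃ σ : F ≃ₐ[E] F, ∀ u, σ u = s u :=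
    ⟨AlgEquiv.ofRingEquiv (f := s.toRingEquiv) (fun e => hfix e e.2), fun u => rfl⟩
  have hσ1 : σ ≠ 1 := by
    intro h
    apply hs
    ext u
    rw [← hσ, h]
    rfl
  obtain ⟨L, hL⟩ : ∃ L, L = IntermediateField.fixedField (Subgroup.zpowers σ) := ⟨_, rfl⟩
  have h1 : Module.finrank L F = orderOf σ := by
    rw [hL, IntermediateField.finrank_fixedField_eq_card, Nat.card_zpowers]
  have h2 : Module.finrank E L * Module.finrank L F = 3 := by
    rw [Module.finrank_mul_finrank, hc]
  have h3 : Module.finrank L F ≠ 1 := by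
    rw [h1]
    intro h
    exact hσ1 (orderOf_eq_one_iff.1 h)
  have h4 : Module.finrank L F = 3 := by
    have h5 : Module.finrank L F ∣ 3 := Dvd.intro_left _ h2
    rcases (Nat.dvd_prime Nat.prime_three).1 h5 with h6 | h6
    · exact absurd h6 h3
    · exact h6
  have h5 : Module.finrank E L = 1 := by
    rw [h4] at h2
    omega
  have h6 : L = ⊥ := IntermediateField.finrank_eq_one_iff.1 h5
  refine ⟨?_, ?_⟩
  · intro u hu
    have h7 : u ∈ L := by
      rw [hL, IntermediateField.mem_fixedField_iff]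
      intro g hg
      obtain ⟨i, rfl⟩ := Subgroup.mem_zpowers_iff.1 hg
      have h8 : σ • u = u := by
        rw [AlgEquiv.smul_def, hσ, hu]
      have h9 : (σ ^ i) • u = u := by
        have : σ ∈ MulAction.stabilizer (F ≃ₐ[E] F) u := h8
        exact (MulAction.stabilizer (F ≃ₐ[E] F) u).zpow_mem this i
      exact h9
    rw [h6, IntermediateField.mem_bot] at h7
    obtain ⟨e, rfl⟩ := h7
    exact e.2
  · intro u
    have h7 : σ ^ 3 = 1 := by
      rw [← h4, h1]
      exact pow_orderOf_eq_one σ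
    have h8 : (σ ^ 3) u = u := by rw [h7]; rfl
    rw [← hσ, ← hσ, ← hσ]
    exact h8

/-- an eigenvector -/
theorem TKum_eigen [IsAlgClosed k] (h3 : (3 : k) ≠ 0) (h3F : (3 : F) ≠ 0) (s : F ≃ₐ[k] F)
    (hs : s ≠ 1) (hcube : ∀ u, s (s (s u)) = u) :
    ∃ (ω : k) (y0 : F), ω ^ 2 + ω + 1 = 0 ∧ y0 ≠ 0 ∧ s y0 = algebraMap k F ω * y0 := by
  obtain ⟨ζ, hζ⟩ : ∃ ζ : k, ζ ^ 2 + ζ + 1 = 0 := by
    have hdeg : (X ^ 2 + X + 1 : k[X]).degree ≠ 0 := by
      have : (X ^ 2 + X + 1 : k[X]).degree = 2 := by compute_degree!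
      rw [this]
      norm_num
    obtain ⟨ζ, hζ⟩ := IsAlgClosed.exists_root (X ^ 2 + X + 1 : k[X]) hdeg
    refine ⟨ζ, ?_⟩
    have h := hζ.eq_zero
    simpa using h
  by_contra hcon
  push Not at hcon
  obtain ⟨Z, hZ⟩ : ∃ Z, Z = algebraMap k F ζ := ⟨_, rfl⟩
  have hZ2 : Z ^ 2 + Z + 1 = 0 := by
    rw [hZ, ← map_pow, ← map_add, ← map_one (algebraMap k F), ← map_add, hζ, map_zero]
  have hZ3 : Z ^ 3 = 1 := by linear_combination (Z - 1) * hZ2
  have hsZ : s Z = Z := by rw [hZ, AlgEquiv.commutes]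
  have hζ' : (ζ ^ 2) ^ 2 + ζ ^ 2 + 1 = 0 := by linear_combination (ζ ^ 2 - ζ + 1) * hζ
  have hL : ∀ u, u + Z ^ 2 * s u + Z * s (s u) = 0 := by
    intro u
    by_contra hne
    refine hcon ζ _ hζ hne ?_
    rw [map_add, map_add, map_mul, map_mul, map_pow, hsZ, hcube, ← hZ]
    linear_combination (-(s u)) * hZ3
  have hL' : ∀ u, u + Z * s u + Z ^ 2 * s (s u) = 0 := by
    intro u
    by_contra hne
    refine hcon (ζ ^ 2) _ hζ' hne ?_
    rw [map_add, map_add, map_mul, map_mul, map_pow, map_pow, hsZ, hcube, ← hZ]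
    linear_combination (-(s u) - Z * s (s u)) * hZ3
  apply hs
  ext u
  have e1 : 3 * u = u + s u + s (s u) := by
    linear_combination hL u + hL' u - (s u + s (s u)) * hZ2
  have e2 : 3 * s u = u + s u + s (s u) := by
    have h := congrArg s e1
    rw [map_mul, map_add, map_add, hcube, map_ofNat] at h
    rw [h]
    ring
  have e3 : (3 : F) * s u = 3 * u := e2.trans e1.symm
  exact mul_left_cancel₀ h3F e3

/-- an element outside `E` generates `F` over `E` -/
theorem TKum_top (E : IntermediateField k F) (hc : Module.finrank E F = 3) (y : F) (hy : y ∉ E) :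
    IntermediateField.adjoin E {y} = ⊤ := by
  have hfin : FiniteDimensional E F := Module.finite_of_finrank_pos (by rw [hc]; norm_num)
  have h2 : Module.finrank E (IntermediateField.adjoin E {y}) *
      Module.finrank (IntermediateField.adjoin E {y}) F = 3 := by
    rw [Module.finrank_mul_finrank, hc]
  have h5 : Module.finrank E (IntermediateField.adjoin E {y}) ∣ 3 := Dvd.intro _ h2
  rcases (Nat.dvd_prime Nat.prime_three).1 h5 with h6 | h6
  · exfalso
    rw [IntermediateField.finrank_adjoin_simple_eq_one_iff, IntermediateField.mem_bot] at h6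
    obtain ⟨e, rfl⟩ := h6
    exact hy e.2
  · rw [h6] at h2
    have h7 : Module.finrank (IntermediateField.adjoin E {y}) F = 1 := by omega
    exact IntermediateField.finrank_eq_one_iff_eq_top.1 h7

theorem t_kum [IsAlgClosed k] (h3 : (3 : k) ≠ 0) {x : F} (hx : Transcendental k x)
    (hc : Module.finrank (IntermediateField.adjoin k {x}) F = 3) (s : F ≃ₐ[k] F) (hs : s ≠ 1) (hsx : s x = x) :
    ∃ (y : F) (f : k[X]), IntermediateField.adjoin k {x, y} = ⊤ ∧ f ≠ 0 ∧ (∀ a : k, f.rootMultiplicity a < 3) ∧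
      y ^ 3 = aeval x f ∧ y ∉ IntermediateField.adjoin k {x} := by
  classical
  obtain ⟨E, hE⟩ : ∃ E, E = IntermediateField.adjoin k {x} := ⟨_, rfl⟩
  rw [← hE] at hc
  have hxF : ∀ q : k[X], s (aeval x q) = aeval x q := by
    intro q
    rw [← rat_poly hx]
    exact tau_rat hx s hsx _
  have hinj : ∀ q : k[X], aeval x q = 0 → q = 0 := fun q h => (transcendental_iff.1 hx) q h
  have hfix : ∀ e ∈ E, s e = e := by
    intro e he
    rw [hE, mem_rat hx] at he
    obtain ⟨r, rfl⟩ := he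
    exact tau_rat hx s hsx r
  obtain ⟨hinv, hcube⟩ := TKum_fixed E hc s hs hfix
  have h3F : (3 : F) ≠ 0 := by
    intro h
    apply h3
    have h4 : algebraMap k F 3 = algebraMap k F 0 := by rw [map_ofNat, map_zero]; exact h
    exact (algebraMap k F).injective h4
  obtain ⟨ω, y0, hω, hy0, hsy0⟩ := TKum_eigen h3 h3F s hs hcube
  have hω1 : ω ≠ 1 := by
    intro h
    rw [h] at hω
    apply h3
    linear_combination hω
  have hω3 : ω ^ 3 = 1 := by linear_combination (ω - 1) * hω
  have hy3 : y0 ^ 3 ∈ E := by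
    apply hinv
    rw [map_pow, hsy0, mul_pow, ← map_pow, hω3, map_one, one_mul]
  rw [hE, IntermediateField.mem_adjoin_simple_iff] at hy3
  obtain ⟨N, D, hND⟩ := hy3
  have hy30 : y0 ^ 3 ≠ 0 := pow_ne_zero 3 hy0
  have hDx : aeval x D ≠ 0 := by
    intro h
    rw [h, div_zero] at hND
    exact hy30 hND
  have hNx : aeval x N ≠ 0 := by
    intro h
    rw [h, zero_div] at hND
    exact hy30 hND
  have hD0 : D ≠ 0 := by
    rintro rfl
    exact hDx (map_zero _)
  have hN0 : N ≠ 0 := by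
    rintro rfl
    exact hNx (map_zero _)
  obtain ⟨f, e, hf0, he0, hfe, hmult⟩ := TKum_split (N * D ^ 2).natDegree (N * D ^ 2)
    (mul_ne_zero hN0 (pow_ne_zero 2 hD0)) le_rfl
  have hex : aeval x e ≠ 0 := fun h => he0 (hinj e h)
  have hfe' : aeval x N * aeval x D ^ 2 = aeval x f * aeval x e ^ 3 := by
    have h := congrArg (aeval x) hfe
    rwa [map_mul, map_mul, map_pow, map_pow] at h
  have hNe : aeval x N = y0 ^ 3 * aeval x D := by
    rw [hND, div_mul_cancel₀ _ hDx]
  obtain ⟨y, hy⟩ : ∃ y, y = aeval x D * y0 / aeval x e := ⟨_, rfl⟩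
  have hyne : y ≠ 0 := by
    rw [hy]
    exact div_ne_zero (mul_ne_zero hDx hy0) hex
  have hsy : s y = algebraMap k F ω * y := by
    rw [hy, map_div₀, map_mul, hxF, hxF, hsy0]
    ring
  have hyE : y ∉ E := by
    intro h
    have h1 := hfix y h
    rw [hsy] at h1
    have h2 : algebraMap k F ω = 1 := mul_right_cancel₀ hyne (h1.trans (one_mul y).symm)
    rw [← map_one (algebraMap k F)] at h2
    exact hω1 ((algebraMap k F).injective h2)
  refine ⟨y, f, ?_, hf0, hmult, ?_, by rw [← hE]; exact hyE⟩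
  · have h1 := TKum_top E hc y hyE
    have h2 := IntermediateField.adjoin_simple_adjoin_simple k x y
    rw [← h2]
    subst hE
    rw [h1]
    rfl
  · rw [hy, div_pow, mul_pow, div_eq_iff (pow_ne_zero 3 hex), ← hfe', hNe]
    ring

end Pool.Agent.Helper54.HZ
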