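import Pool.Agent.Helper54.HZ.TMem
import Pool.Agent.Helper54.HZ.TGrp
import Pool.Agent.Helper54.HZ.TKum
import Pool.Agent.Helper54.HZ.TGen
import Pool.Agent.Helper54.HZ.TBound
import Pool.Agent.Helper54.HZ.Final

/-!
MP_143e28_ag, project HZ, part 3 (trigonal curves): the upper bound at the special genera.

`t_mem`.  If some `s ≠ 1` fixes `x`: `t_kum` and `t_gen` give `PresN k F 3 g x y f`, `upperN` (`Final.lean`) with `S = {3}`.  Otherwise `t_group`; the
support `B` of `ramT` is finite (`genus`: a finsum with infinite support is `0`), `ramT ≤ 2`, so `#B ≥ g + 2 ≥ 3`, `mob_finite`: `G` is finite;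
`t_bound`.
-/

set_option autoImplicit false

namespace Pool.Agent.Helper54.HZ

open Polynomial Pool.Agent.Helper28.HA

theorem TUpper_ram_le {k F : Type*} [Field k] [Field F] [Algebra k F] {x : F} (hx : Transcendental k x)
    (P : OnePoint k) : ramT hx P ≤ 2 := by
  unfold ramT
  split_ifs <;> omega

theorem t_upper.{u} (p : ℕ) [Fact p.Prime] (hp : 5 ≤ p) {k F : Type u} [Field k] [IsAlgClosed k]
    [CharP k p] [Field F] [Algebra k F] {g : ℕ} (hg : g.Prime) (hg' : ¬ (2 * g + 1).Prime) (h1 : p ∣ g + 1)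
    (h2 : ¬ p ^ 2 ∣ g + 1) (h3 : 3 * p ^ 2 < g) {x : F} (h : PresT k F g x) :
    Finite (F ≃ₐ[k] F) ∧ Nat.card (F ≃ₐ[k] F) ≤ 8 * g := by
  have hpp : p.Prime := Fact.out
  have hg4 : 4 < g := by nlinarith
  have h20 : (2 : k) ≠ 0 := by
    intro e
    have e1 : ((2 : ℕ) : k) = 0 := by exact_mod_cast e
    rw [CharP.cast_eq_zero_iff k p] at e1
    have := Nat.le_of_dvd (by norm_num) e1
    omega
  have h30 : (3 : k) ≠ 0 := by
    intro e
    have e1 : ((3 : ℕ) : k) = 0 := by exact_mod_cast e
    rw [CharP.cast_eq_zero_iff k p] at e1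
    have := Nat.le_of_dvd (by norm_num) e1
    omega
  have hmem : ∀ s : F ≃ₐ[k] F, s x ∈ IntermediateField.adjoin k {x} := fun s => t_mem h20 h30 hg4 h s
  by_cases hker : ∀ s : F ≃ₐ[k] F, s x = x → s = 1
  · obtain ⟨G, hG, hw, hfin⟩ := t_group h.trans hmem hker
    -- the support of the weight
    have hsupp : (Function.support (ramT h.trans)).Finite := by
      by_contra hinf
      have := h.genus
      rw [finsum_of_infinite_support hinf] at this
      omega
    have hcard : 3 ≤ Nat.card (Function.support (ramT h.trans)) := by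
      have e1 := h.genus
      rw [finsum_eq_sum_of_support_subset (ramT h.trans) (s := hsupp.toFinset) (by simp)] at e1
      have e2 : ∑ P ∈ hsupp.toFinset, ramT h.trans P ≤ ∑ _P ∈ hsupp.toFinset, 2 :=
        Finset.sum_le_sum (fun P _ => TUpper_ram_le h.trans P)
      rw [Finset.sum_const, smul_eq_mul] at e2
      have e3 : Nat.card (Function.support (ramT h.trans)) = hsupp.toFinset.card := by
        rw [Nat.card_coe_set_eq, Set.ncard_eq_toFinset_card _ hsupp]
      omega
    obtain ⟨hGf, -⟩ := mob_finite G hG (Function.support (ramT h.trans)) hsupp hcard (by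
      intro s hs P hP
      simp only [Function.mem_support] at hP ⊢
      rw [hw s hs P]
      exact hP)
    obtain ⟨ha, hb⟩ := hfin hGf
    exact ⟨ha, hb.trans (t_bound p (by omega) G hG (ramT h.trans) hw (TUpper_ram_le h.trans) g h.genus
      h1 h2 h3)⟩
  · push Not at hker
    obtain ⟨s, hsx, hs1⟩ := hker
    obtain ⟨y, f, hgen, hf, hm, hy, hyx⟩ := t_kum h30 h.trans h.cubic s hs1 hsx
    have hP := t_gen h30 h hgen hf hm hy hyx
    exact upperN p (by omega) hg hg' h1 h2 h3 {3} ⟨3, rfl, x, y, f, hP⟩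

end Pool.Agent.Helper54.HZ
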