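import Pool.Agent.Helper54.HZ.Cover

/-!
MP_143e28_ag, project HZ, part 3: trigonal curves in characteristic `p ≥ 5`.  Definitions.
-/

set_option autoImplicit false

namespace Pool.Agent.Helper54.HZ

open Polynomial Pool.Agent.Helper54.HY

variable {k F : Type*} [Field k] [Field F] [Algebra k F]

/-- the places of `F` above the point `P` of the `x`-line: the valuation rings of `F` which meet `k(x)` in the local ring
of `P` -/
def Above {x : F} (hx : Transcendental k x) (P : OnePoint k) : Set (ValuationSubring F) :=
  {V | ∀ r : RatFunc k, rat hx r ∈ V ↔ (r = 0 ∨ 0 ≤ ordP P r)}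

open Classical in
/-- `3` minus the number of places of `F` above `P` (there are one, two or three, if `[F : k(x)] = 3`) -/
noncomputable def ramT {x : F} (hx : Transcendental k x) (P : OnePoint k) : ℕ :=
  (if (Above hx P).encard ≤ 2 then 1 else 0) + (if (Above hx P).encard ≤ 1 then 1 else 0)

/-- `F` is the function field of a curve with a map `x` of degree `3` to the line; its genus is `g`, by the
Riemann-Hurwitz formula (characteristic different from `2` and `3`, so the ramification is tame):
`2 g + 4` is the sum over the points `P` of the line of `3 - ` (number of places above `P`) -/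
structure PresT (k F : Type*) [Field k] [Field F] [Algebra k F] (g : ℕ) (x : F) : Prop where
  trans : Transcendental k x
  cubic : Module.finrank (IntermediateField.adjoin k {x}) F = 3
  genus : ∑ᶠ P : OnePoint k, ramT trans P = 2 * g + 4

/-- the discriminant of a polynomial `a Z ^ 3 + b Z ^ 2 + c Z + d` -/
def dis {A : Type*} [CommRing A] (P : A[X]) : A :=
  P.coeff 2 ^ 2 * P.coeff 1 ^ 2 - 4 * P.coeff 3 * P.coeff 1 ^ 3 - 4 * P.coeff 2 ^ 3 * P.coeff 0
    - 27 * P.coeff 3 ^ 2 * P.coeff 0 ^ 2 + 18 * P.coeff 3 * P.coeff 2 * P.coeff 1 * P.coeff 0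

end Pool.Agent.Helper54.HZ
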