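import Pool.Agent.Helper54.HZ.TDefs

/-!
MP_143e28_ag, project HZ, part 3 (trigonal curves): the polynomial of `1 / (z - c)` and discriminants (pure algebra).

`t_flip`: `P (Z + c) = a Z^3 + b' Z^2 + c' Z + d'`, `Q = d' Z^3 + c' Z^2 + b' Z + a` (explicit formulas: `d' = P (c)`, `c' = 3 a c^2 + 2 b c + c1`,
`b' = 3 a c + b`); the discriminant is invariant (`ring` after expressing everything by coefficients).  Compare `Flip.lean`.
`dis_ne`: characteristic `≠ 2, 3`, `P` irreducible of degree 3 over a field: separable, so the discriminant is not zero (Mathlib: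
`Cubic.discr_ne_zero_iff_roots_ne` or `_nodup` over a splitting field; or by hand: if `dis P = 0` then `P` and its derivative have a common
factor (the resultant of `P` and `P'` is `- a dis P`); directly: with `a = 1`, `b = 0` (translate), `P = Z^3 + p Z + q`, `4 p^3 + 27 q^2 = 0`: `p = 0` gives
`q = 0`; else `- 3 q / (2 p)` is a root).
`dis_deg`: each term of `dis P` is a product of four coefficients.
-/

set_option autoImplicit false

namespace Pool.Agent.Helper54.HZ

open Polynomial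

private theorem TFlip_coeffs {A : Type*} [CommRing A] (q3 q2 q1 q0 : A) :
    (C q3 * X ^ 3 + C q2 * X ^ 2 + C q1 * X + C q0 : A[X]).coeff 0 = q0 ∧
    (C q3 * X ^ 3 + C q2 * X ^ 2 + C q1 * X + C q0 : A[X]).coeff 1 = q1 ∧
    (C q3 * X ^ 3 + C q2 * X ^ 2 + C q1 * X + C q0 : A[X]).coeff 2 = q2 ∧
    (C q3 * X ^ 3 + C q2 * X ^ 2 + C q1 * X + C q0 : A[X]).coeff 3 = q3 := by
  refine ⟨?_, ?_, ?_, ?_⟩ <;> simp [coeff_X, coeff_C]

theorem t_flip {k A : Type*} [Field k] [CommRing A] [Algebra k A] (P : A[X]) (hP : P.natDegree ≤ 3) (c : k) :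
    ∃ Q : A[X], Q.natDegree ≤ 3 ∧ Q.coeff 3 = P.eval (algebraMap k A c) ∧ dis Q = dis P ∧
      (∀ i, Q.coeff i ∈ Submodule.span k (Set.range P.coeff)) ∧
      ∀ (F : Type*) [Field F] (φ : A →+* F) (z : F), z ≠ φ (algebraMap k A c) → P.eval₂ φ z = 0 →
        Q.eval₂ φ (z - φ (algebraMap k A c))⁻¹ = 0 := by
  have hev : P.eval (algebraMap k A c) = P.coeff 0 + P.coeff 1 * algebraMap k A c
      + P.coeff 2 * algebraMap k A c ^ 2 + P.coeff 3 * algebraMap k A c ^ 3 := by
    rw [eval_eq_sum_range' (n := 4) (by omega)]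
    simp [Finset.sum_range_succ]
  have hm : ∀ i, P.coeff i ∈ Submodule.span k (Set.range P.coeff) := fun i =>
    Submodule.subset_span ⟨i, rfl⟩
  have hsm : ∀ (r : k) (i : ℕ), algebraMap k A r * P.coeff i ∈
      Submodule.span k (Set.range P.coeff) := fun r i => by
    rw [← Algebra.smul_def]
    exact Submodule.smul_mem _ _ (hm i)
  obtain ⟨e0, e1, e2, e3⟩ := TFlip_coeffs (P.eval (algebraMap k A c))
    (3 * P.coeff 3 * algebraMap k A c ^ 2 + 2 * P.coeff 2 * algebraMap k A c + P.coeff 1)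
    (3 * P.coeff 3 * algebraMap k A c + P.coeff 2) (P.coeff 3)
  have m3 : P.eval (algebraMap k A c) ∈ Submodule.span k (Set.range P.coeff) := by
    rw [hev]
    have h1 := Submodule.add_mem _ (Submodule.add_mem _ (Submodule.add_mem _ (hm 0) (hsm c 1))
      (hsm (c ^ 2) 2)) (hsm (c ^ 3) 3)
    convert h1 using 1
    simp only [map_pow]
    ring
  have m2 : 3 * P.coeff 3 * algebraMap k A c ^ 2 + 2 * P.coeff 2 * algebraMap k A c + P.coeff 1 ∈
      Submodule.span k (Set.range P.coeff) := by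
    have h1 := Submodule.add_mem _ (Submodule.add_mem _ (hsm (3 * c ^ 2) 3) (hsm (2 * c) 2)) (hm 1)
    convert h1 using 1
    simp only [map_pow, map_mul, map_ofNat]
    ring
  have m1 : 3 * P.coeff 3 * algebraMap k A c + P.coeff 2 ∈
      Submodule.span k (Set.range P.coeff) := by
    have h1 := Submodule.add_mem _ (hsm (3 * c) 3) (hm 2)
    convert h1 using 1
    simp only [map_mul, map_ofNat]
    ring
  refine ⟨_, natDegree_cubic_le, e3, ?_, ?_, ?_⟩
  · unfold dis
    rw [e0, e1, e2, e3, hev]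
    ring
  · intro i
    rcases Nat.lt_or_ge 3 i with hi | hi
    · rw [coeff_eq_zero_of_natDegree_lt (lt_of_le_of_lt natDegree_cubic_le hi)]
      exact Submodule.zero_mem _
    · interval_cases i
      · rw [e0]; exact hm 3
      · rw [e1]; exact m1
      · rw [e2]; exact m2
      · rw [e3]; exact m3
  · intro F _ φ z hz h0
    have hx : z - φ (algebraMap k A c) ≠ 0 := sub_ne_zero.2 hz
    have h1 : P.eval₂ φ z = φ (P.coeff 0) + φ (P.coeff 1) * z + φ (P.coeff 2) * z ^ 2
        + φ (P.coeff 3) * z ^ 3 := by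
      rw [eval₂_eq_sum_range' φ (n := 4) (by omega)]
      simp [Finset.sum_range_succ]
    rw [h1] at h0
    simp only [eval₂_add, eval₂_mul, eval₂_C, eval₂_X, eval₂_pow]
    simp only [hev, map_add, map_mul, map_pow, map_ofNat]
    generalize φ (algebraMap k A c) = w at *
    generalize φ (P.coeff 0) = a0 at *
    generalize φ (P.coeff 1) = a1 at *
    generalize φ (P.coeff 2) = a2 at *
    generalize φ (P.coeff 3) = a3 at *
    field_simp
    linear_combination h0

theorem dis_ne {K : Type*} [Field K] (h2 : (2 : K) ≠ 0) (h3 : (3 : K) ≠ 0) {P : K[X]} (hP : Irreducible P)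
    (hd : P.natDegree = 3) : dis P ≠ 0 := by
  intro h0
  have hno : ∀ x : K, P.eval x ≠ 0 := by
    intro x hx
    have h1 := degree_eq_one_of_irreducible_of_root hP hx
    have h4 : P.natDegree = 1 := natDegree_eq_of_degree_eq_some h1
    omega
  have ha : P.coeff 3 ≠ 0 := by
    rw [← hd]
    exact leadingCoeff_ne_zero.2 hP.ne_zero
  have hev : ∀ x : K, P.eval x = P.coeff 0 + P.coeff 1 * x + P.coeff 2 * x ^ 2
      + P.coeff 3 * x ^ 3 := by
    intro x
    rw [eval_eq_sum_range' (n := 4) (by omega)]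
    simp [Finset.sum_range_succ]
  unfold dis at h0
  simp only [hev] at hno
  generalize P.coeff 0 = d at *
  generalize P.coeff 1 = c at *
  generalize P.coeff 2 = b at *
  generalize P.coeff 3 = a at *
  by_cases hD : b ^ 2 - 3 * a * c = 0
  · have h5 : (2 * b ^ 3 - 9 * a * b * c + 27 * a ^ 2 * d) ^ 2 = 0 := by
      linear_combination 4 * (b ^ 2 - 3 * a * c) ^ 2 * hD - 27 * a ^ 2 * h0
    have h6 := pow_eq_zero_iff (two_ne_zero) |>.1 h5
    refine hno (-b / (3 * a)) ?_
    field_simp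
    linear_combination h6
  · obtain ⟨E, hE⟩ : ∃ E, E = b ^ 2 - 3 * a * c := ⟨_, rfl⟩
    rw [← hE] at hD
    refine hno ((9 * a * d - b * c) / (2 * E)) ?_
    field_simp
    rw [hE]
    linear_combination (-(2 * b ^ 3 - 9 * a * b * c + 27 * a ^ 2 * d)) * h0

theorem dis_map {A B : Type*} [CommRing A] [CommRing B] (φ : A →+* B) (P : A[X]) : dis (P.map φ) = φ (dis P) := by
  unfold dis
  simp only [coeff_map, map_add, map_sub, map_mul, map_pow, map_ofNat]

private theorem TFlip_deg {k : Type*} [Field k] {p q r s : k[X]} {m : ℕ} (c : k[X]) (hc : c.natDegree = 0)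
    (hp : p.natDegree ≤ m) (hq : q.natDegree ≤ m) (hr : r.natDegree ≤ m) (hs : s.natDegree ≤ m) :
    (c * (p * q * (r * s))).natDegree ≤ 4 * m := by
  have h1 := natDegree_mul_le_of_le (natDegree_mul_le_of_le hp hq) (natDegree_mul_le_of_le hr hs)
  have h2 := natDegree_mul_le_of_le hc.le h1
  omega

theorem dis_deg {k : Type*} [Field k] (P : k[X][X]) {m : ℕ} (hm : ∀ i, (P.coeff i).natDegree ≤ m) :
    (dis P).natDegree ≤ 4 * m := by
  have e : dis P = 1 * (P.coeff 2 * P.coeff 2 * (P.coeff 1 * P.coeff 1))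
      - 4 * (P.coeff 3 * P.coeff 1 * (P.coeff 1 * P.coeff 1))
      - 4 * (P.coeff 2 * P.coeff 2 * (P.coeff 2 * P.coeff 0))
      - 27 * (P.coeff 3 * P.coeff 3 * (P.coeff 0 * P.coeff 0))
      + 18 * (P.coeff 3 * P.coeff 2 * (P.coeff 1 * P.coeff 0)) := by
    unfold dis
    ring
  rw [e]
  have t1 := TFlip_deg 1 (by simp) (hm 2) (hm 2) (hm 1) (hm 1)
  have t2 := TFlip_deg 4 (by simp) (hm 3) (hm 1) (hm 1) (hm 1)
  have t3 := TFlip_deg 4 (by simp) (hm 2) (hm 2) (hm 2) (hm 0)
  have t4 := TFlip_deg 27 (by simp) (hm 3) (hm 3) (hm 0) (hm 0)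
  have t5 := TFlip_deg 18 (by simp) (hm 3) (hm 2) (hm 1) (hm 0)
  have t6 := natDegree_add_le_of_le (natDegree_sub_le_of_le (natDegree_sub_le_of_le
    (natDegree_sub_le_of_le t1 t2) t3) t4) t5
  simpa only [max_self] using t6

end Pool.Agent.Helper54.HZ
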