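import Pool.Agent.Helper54.HZ.TPlace

/-!
MP_143e28_ag, project HZ, part 3 (trigonal curves): the discriminant of an integral element at a point.

Residues: for `r` with `0 ≤ ordP P r` there is `c ∈ k` with `r = c` or `1 ≤ ordP P (r - c)` (finite `P = a`: the value of `num / denom` at `a`;
`∞`: quotient of the leading coefficients or `0`; compare `ASTame_res` in `ASTame.lean`).  Let `chibar ∈ k[Z]` be the reduction of `chi` (cubic,
monic), with roots `r1, r2, r3 ∈ k`.  Each root `rho` of `chibar` gives a place `V` (`exists_place`) with `z - rho ∈ V.nonunits`; different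
roots give different places (their difference would be a nonunit).  Three different roots: `encard ≥ 3`, `ramT = 0`, and
`dis chi` has order `≥ 0`.  Exactly two: `encard ≥ 2`, `ramT ≤ 1`, and `dis chi` reduces to `dis chibar = 0`: order `≥ 1`.
One: `ramT ≤ 2`; `chi (Z + rho)` has the same discriminant and its coefficients `a2, a1, a0` have orders `≥ 1` (or are `0`), and every
term of `dis = a2^2 a1^2 - 4 a1^3 - 4 a2^3 a0 - 27 a0^2 + 18 a2 a1 a0` has order `≥ 2`.
-/

set_option autoImplicit false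

namespace Pool.Agent.Helper54.HZ

open Polynomial Pool.Agent.Helper54.HY

variable {k F : Type*} [Field k] [Field F] [Algebra k F]

/-- order at least `n`, or zero -/
private def TLoc_I (P : OnePoint k) (n : ℤ) (r : RatFunc k) : Prop := r = 0 ∨ n ≤ ordP P r

private theorem TLoc_mono {P : OnePoint k} {m n : ℤ} (h : m ≤ n) {r : RatFunc k} (hr : TLoc_I P n r) :
    TLoc_I P m r := by
  rcases hr with hr | hr
  · exact Or.inl hr
  · exact Or.inr (h.trans hr)

private theorem TLoc_add {P : OnePoint k} {n : ℤ} {r s : RatFunc k} (hr : TLoc_I P n r)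
    (hs : TLoc_I P n s) : TLoc_I P n (r + s) := by
  by_cases hr0 : r = 0
  · rwa [hr0, zero_add]
  by_cases hs0 : s = 0
  · rwa [hs0, add_zero]
  by_cases h0 : r + s = 0
  · exact Or.inl h0
  have h1 := hr.resolve_left hr0
  have h2 := hs.resolve_left hs0
  exact Or.inr ((le_min h1 h2).trans (ord_add P hr0 hs0 h0))

private theorem TLoc_mul {P : OnePoint k} {m n l : ℤ} {r s : RatFunc k} (hr : TLoc_I P m r)
    (hs : TLoc_I P n s) (hl : l ≤ m + n) : TLoc_I P l (r * s) := by
  by_cases hr0 : r = 0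
  · exact Or.inl (by rw [hr0, zero_mul])
  by_cases hs0 : s = 0
  · exact Or.inl (by rw [hs0, mul_zero])
  have h1 := hr.resolve_left hr0
  have h2 := hs.resolve_left hs0
  refine Or.inr ?_
  rw [ord_mul P hr0 hs0]
  linarith

/-- constants -/
private noncomputable def TLoc_c : k →+* RatFunc k := (algebraMap k[X] (RatFunc k)).comp C

private theorem TLoc_const (P : OnePoint k) (c : k) : TLoc_I P 0 (TLoc_c c) :=
  Or.inr (ord_const P c).ge

private theorem TLoc_nat (P : OnePoint k) (n : ℕ) : TLoc_I P 0 (n : RatFunc k) := by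
  have h := TLoc_const P (n : k)
  rwa [map_natCast] at h

private theorem TLoc_neg {P : OnePoint k} {n : ℤ} {r : RatFunc k} (hr : TLoc_I P n r) :
    TLoc_I P n (-r) := by
  have h := TLoc_mul (TLoc_const P (-1)) hr (l := n) (by simp)
  rwa [map_neg, map_one, neg_one_mul] at h

private theorem TLoc_sub {P : OnePoint k} {n : ℤ} {r s : RatFunc k} (hr : TLoc_I P n r)
    (hs : TLoc_I P n s) : TLoc_I P n (r - s) := by
  rw [sub_eq_add_neg]
  exact TLoc_add hr (TLoc_neg hs)

/-- residues -/
private theorem TLoc_res0 (P : OnePoint k) {r : RatFunc k} (hr : r ≠ 0) (h : ordP P r = 0) :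
    ∃ l : k, TLoc_I P 1 (r - TLoc_c l) := by
  have hn := RatFunc.num_ne_zero hr
  have hd := RatFunc.denom_ne_zero r
  have hd' : algebraMap k[X] (RatFunc k) r.denom ≠ 0 := RatFunc.algebraMap_ne_zero hd
  have key : ∀ l : k, r - TLoc_c l =
      algebraMap k[X] (RatFunc k) (r.num - C l * r.denom) /
        algebraMap k[X] (RatFunc k) r.denom := by
    intro l
    rw [map_sub, map_mul, sub_div, mul_div_cancel_right₀ _ hd', RatFunc.num_div_denom]
    rfl
  induction P using OnePoint.rec with
  | infty =>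
    rw [ordP_infty] at h
    have hdeg : r.num.natDegree = r.denom.natDegree := by omega
    have hln : r.num.leadingCoeff ≠ 0 := leadingCoeff_ne_zero.2 hn
    have hld : r.denom.leadingCoeff ≠ 0 := leadingCoeff_ne_zero.2 hd
    refine ⟨r.num.leadingCoeff / r.denom.leadingCoeff, ?_⟩
    by_cases h0 : r.num - C (r.num.leadingCoeff / r.denom.leadingCoeff) * r.denom = 0
    · left
      rw [key, h0, map_zero, zero_div]
    · right
      rw [key, Ord_div _ h0 hd, Ord_v_infty, Ord_v_infty]
      have hc : r.num.leadingCoeff / r.denom.leadingCoeff ≠ 0 := div_ne_zero hln hld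
      have h1 : (r.num - C (r.num.leadingCoeff / r.denom.leadingCoeff) * r.denom).degree <
          r.num.degree := by
        apply degree_sub_lt_left
        · rw [degree_C_mul hc, degree_eq_natDegree hn, degree_eq_natDegree hd, hdeg]
        · exact hn
        · rw [leadingCoeff_mul, leadingCoeff_C, div_mul_cancel₀ _ hld]
      have h2 := natDegree_lt_natDegree h0 h1
      omega
  | coe a =>
    rw [ordP_coe] at h
    have hda : r.denom.eval a ≠ 0 := by
      intro h0
      have h1 : 0 < r.denom.rootMultiplicity a := (rootMultiplicity_pos hd).2 h0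
      have h2 : 0 < r.num.rootMultiplicity a := by omega
      have h3 : r.num.eval a = 0 := (rootMultiplicity_pos hn).1 h2
      obtain ⟨u, v, huv⟩ := RatFunc.isCoprime_num_denom r
      have h4 := congrArg (Polynomial.eval a) huv
      rw [eval_add, eval_mul, eval_mul, h0, h3, mul_zero, mul_zero, add_zero, eval_one] at h4
      exact zero_ne_one h4
    refine ⟨r.num.eval a / r.denom.eval a, ?_⟩
    by_cases h0 : r.num - C (r.num.eval a / r.denom.eval a) * r.denom = 0
    · left
      rw [key, h0, map_zero, zero_div]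
    · right
      rw [key, Ord_div _ h0 hd, Ord_v_coe, Ord_v_coe]
      have h1 : 0 < (r.num - C (r.num.eval a / r.denom.eval a) * r.denom).rootMultiplicity a := by
        rw [rootMultiplicity_pos h0, IsRoot.def, eval_sub, eval_mul, eval_C,
          div_mul_cancel₀ _ hda, sub_self]
      have h2 : r.denom.rootMultiplicity a = 0 := rootMultiplicity_eq_zero hda
      rw [h2]
      omega

private theorem TLoc_res (P : OnePoint k) {r : RatFunc k} (hr : TLoc_I P 0 r) :
    ∃ l : k, TLoc_I P 1 (r - TLoc_c l) := by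
  by_cases h0 : r = 0
  · exact ⟨0, Or.inl (by rw [h0, map_zero, sub_zero])⟩
  have h1 := hr.resolve_left h0
  rcases h1.eq_or_lt with h2 | h2
  · exact TLoc_res0 P h0 h2.symm
  · refine ⟨0, Or.inr ?_⟩
    rw [map_zero, sub_zero]
    omega

/-- the discriminant of a monic cubic -/
private noncomputable def TLoc_d (a b c : RatFunc k) : RatFunc k :=
  a ^ 2 * b ^ 2 - 4 * b ^ 3 - 4 * a ^ 3 * c - 27 * c ^ 2 + 18 * a * b * c

private theorem TLoc_shift (a b c t : RatFunc k) :
    TLoc_d a b c = TLoc_d (a + 3 * t) (b + 2 * a * t + 3 * t ^ 2) (c + b * t + a * t ^ 2 + t ^ 3) := by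
  unfold TLoc_d
  ring

private theorem TLoc_pow {P : OnePoint k} {n : ℤ} {r : RatFunc k} (hr : TLoc_I P n r) (j : ℕ) :
    TLoc_I P (j * n) (r ^ j) := by
  induction j with
  | zero =>
    rw [pow_zero]
    exact Or.inr (by rw [ord_one]; simp)
  | succ j ih =>
    rw [pow_succ]
    refine TLoc_mul ih hr ?_
    push_cast
    linarith

/-- the order of the discriminant -/
private theorem TLoc_dord {P : OnePoint k} {i j l n : ℤ} {a b c : RatFunc k} (ha : TLoc_I P i a)
    (hb : TLoc_I P j b) (hc : TLoc_I P l c) (h1 : n ≤ 2 * i + 2 * j) (h2 : n ≤ 3 * j)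
    (h3 : n ≤ 3 * i + l) (h4 : n ≤ 2 * l) (h5 : n ≤ i + j + l) : TLoc_I P n (TLoc_d a b c) := by
  unfold TLoc_d
  have n4 : TLoc_I P 0 (4 : RatFunc k) := by exact_mod_cast TLoc_nat P 4
  have n27 : TLoc_I P 0 (27 : RatFunc k) := by exact_mod_cast TLoc_nat P 27
  have n18 : TLoc_I P 0 (18 : RatFunc k) := by exact_mod_cast TLoc_nat P 18
  refine TLoc_add (TLoc_sub (TLoc_sub (TLoc_sub ?_ ?_) ?_) ?_) ?_
  · refine TLoc_mul (TLoc_pow ha 2) (TLoc_pow hb 2) ?_
    push_cast
    linarith
  · refine TLoc_mul n4 (TLoc_pow hb 3) ?_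
    push_cast
    linarith
  · refine TLoc_mul (TLoc_mul n4 (TLoc_pow ha 3) le_rfl) hc ?_
    push_cast
    linarith
  · refine TLoc_mul n27 (TLoc_pow hc 2) ?_
    push_cast
    linarith
  · refine TLoc_mul (TLoc_mul (TLoc_mul n18 ha le_rfl) hb le_rfl) hc ?_
    linarith

/-- a double root, a triple root of the reduction -/
private theorem TLoc_dbl {P : OnePoint k} {a b c : RatFunc k} {rho s : k}
    (ha : TLoc_I P 1 (a + TLoc_c (2 * rho + s))) (hb : TLoc_I P 1 (b - TLoc_c (rho ^ 2 + 2 * rho * s)))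
    (hc : TLoc_I P 1 (c + TLoc_c (rho ^ 2 * s))) :
    TLoc_I P 1 (TLoc_d a b c) ∧ (rho = s → TLoc_I P 2 (TLoc_d a b c)) := by
  obtain ⟨u, hu⟩ : ∃ u, u = a + TLoc_c (2 * rho + s) := ⟨_, rfl⟩
  obtain ⟨v, hv⟩ : ∃ v, v = b - TLoc_c (rho ^ 2 + 2 * rho * s) := ⟨_, rfl⟩
  obtain ⟨w, hw⟩ : ∃ w, w = c + TLoc_c (rho ^ 2 * s) := ⟨_, rfl⟩
  rw [← hu] at ha
  rw [← hv] at hb
  rw [← hw] at hc
  simp only [map_add, map_mul, map_pow, map_ofNat] at hu hv hw
  have ea : a + 3 * TLoc_c rho = u + TLoc_c (rho - s) := by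
    rw [hu, map_sub]
    ring
  have eb : b + 2 * a * TLoc_c rho + 3 * TLoc_c rho ^ 2 = v + 2 * TLoc_c rho * u := by
    rw [hu, hv]
    ring
  have ec : c + b * TLoc_c rho + a * TLoc_c rho ^ 2 + TLoc_c rho ^ 3 =
      w + TLoc_c rho * v + TLoc_c rho ^ 2 * u := by
    rw [hu, hv, hw]
    ring
  have n2 : TLoc_I P 0 (2 : RatFunc k) := by exact_mod_cast TLoc_nat P 2
  have hr := TLoc_const P rho
  have hb' : TLoc_I P 1 (b + 2 * a * TLoc_c rho + 3 * TLoc_c rho ^ 2) := by
    rw [eb]
    exact TLoc_add hb (TLoc_mul (TLoc_mul n2 hr le_rfl) ha (by norm_num))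
  have hc' : TLoc_I P 1 (c + b * TLoc_c rho + a * TLoc_c rho ^ 2 + TLoc_c rho ^ 3) := by
    rw [ec]
    refine TLoc_add (TLoc_add hc (TLoc_mul hr hb (by norm_num)))
      (TLoc_mul (TLoc_pow hr 2) ha (by norm_num))
  rw [TLoc_shift a b c (TLoc_c rho)]
  constructor
  · have ha' : TLoc_I P 0 (a + 3 * TLoc_c rho) := by
      rw [ea]
      exact TLoc_add (TLoc_mono (by norm_num) ha) (TLoc_const P _)
    exact TLoc_dord ha' hb' hc' (by norm_num) (by norm_num) (by norm_num) (by norm_num) (by norm_num)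
  · intro h
    have ha' : TLoc_I P 1 (a + 3 * TLoc_c rho) := by
      rw [ea, h, sub_self, map_zero, add_zero]
      exact ha
    exact TLoc_dord ha' hb' hc' (by norm_num) (by norm_num) (by norm_num) (by norm_num) (by norm_num)

/-- different roots give different places -/
private theorem TLoc_ne {x : F} (hx : Transcendental k x) (P : OnePoint k) {z : F} {r s : k}
    (hrs : r ≠ s) {V W : ValuationSubring F} (hV : V ∈ Above hx P)
    (h1 : z - algebraMap k F r ∈ V.nonunits) (h2 : z - algebraMap k F s ∈ W.nonunits) : V ≠ W := by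
  rintro rfl
  rw [ValuationSubring.mem_nonunits_iff] at h1 h2
  have hmem : ∀ c : k, algebraMap k F c ∈ V := by
    intro c
    have h3 := (hV (algebraMap k[X] (RatFunc k) (C c))).2 (Or.inr (ord_const P c).ge)
    rwa [rat_poly, aeval_C] at h3
  have h3 : V.valuation (algebraMap k F (r - s)) < 1 := by
    have e : algebraMap k F (r - s) = (z - algebraMap k F s) - (z - algebraMap k F r) := by
      rw [map_sub]
      ring
    rw [e]
    exact Valuation.map_sub_lt _ h2 h1
  have h4 : V.valuation (algebraMap k F (r - s)⁻¹) ≤ 1 := (V.valuation_le_one_iff _).2 (hmem _)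
  have h5 : V.valuation (algebraMap k F (r - s)) * V.valuation (algebraMap k F (r - s)⁻¹) = 1 := by
    rw [← map_mul, ← map_mul, mul_inv_cancel₀ (sub_ne_zero.2 hrs), map_one, map_one]
  have h6 : V.valuation (algebraMap k F (r - s)) * V.valuation (algebraMap k F (r - s)⁻¹) < 1 :=
    mul_lt_one_of_lt_of_le h3 h4
  exact absurd h5 h6.ne

theorem t_loc [IsAlgClosed k] {x : F} (hx : Transcendental k x) (P : OnePoint k) {z : F}
    {chi : (RatFunc k)[X]} (hmon : chi.Monic) (hdeg : chi.natDegree = 3) (hirr : Irreducible chi)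
    (hz : chi.eval₂ (rat hx : RatFunc k →ₐ[k] F).toRingHom z = 0)
    (hint : ∀ i, chi.coeff i = 0 ∨ 0 ≤ ordP P (chi.coeff i)) (hd : dis chi ≠ 0) :
    (ramT hx P : ℤ) ≤ ordP P (dis chi) := by
  have hc3 : chi.coeff 3 = 1 := by
    have h := hmon.coeff_natDegree
    rwa [hdeg] at h
  obtain ⟨a, ha⟩ : ∃ a, a = chi.coeff 2 := ⟨_, rfl⟩
  obtain ⟨b, hb⟩ : ∃ b, b = chi.coeff 1 := ⟨_, rfl⟩
  obtain ⟨c, hc⟩ : ∃ c, c = chi.coeff 0 := ⟨_, rfl⟩
  have hdis : dis chi = TLoc_d a b c := by
    unfold dis TLoc_d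
    rw [← ha, ← hb, ← hc, hc3]
    ring
  have heval : ∀ w : RatFunc k, chi.eval w = w ^ 3 + a * w ^ 2 + b * w + c := by
    intro w
    rw [eval_eq_sum_range, hdeg]
    simp only [Finset.sum_range_succ, Finset.sum_range_zero, hc3, ← ha, ← hb, ← hc]
    ring
  have ia : TLoc_I P 0 a := by
    have h := hint 2
    rwa [← ha] at h
  have ib : TLoc_I P 0 b := by
    have h := hint 1
    rwa [← hb] at h
  have ic : TLoc_I P 0 c := by
    have h := hint 0
    rwa [← hc] at h
  obtain ⟨la, hla⟩ := TLoc_res P ia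
  obtain ⟨lb, hlb⟩ := TLoc_res P ib
  obtain ⟨lc, hlc⟩ := TLoc_res P ic
  -- the roots of the reduction
  obtain ⟨r1, hr1⟩ : ∃ r : k, r ^ 3 + la * r ^ 2 + lb * r + lc = 0 := by
    have hdq : (X ^ 3 + C la * X ^ 2 + C lb * X + C lc : k[X]).degree ≠ 0 := by
      have : (X ^ 3 + C la * X ^ 2 + C lb * X + C lc : k[X]).degree = 3 := by compute_degree!
      rw [this]
      decide
    obtain ⟨r, hr⟩ := IsAlgClosed.exists_root _ hdq
    refine ⟨r, ?_⟩
    rw [IsRoot.def] at hr
    simpa using hr
  obtain ⟨r2, hr2⟩ : ∃ r : k, r ^ 2 + (la + r1) * r + (lb + r1 * (la + r1)) = 0 := by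
    have hdq : (X ^ 2 + C (la + r1) * X + C (lb + r1 * (la + r1)) : k[X]).degree ≠ 0 := by
      have : (X ^ 2 + C (la + r1) * X + C (lb + r1 * (la + r1)) : k[X]).degree = 2 := by
        compute_degree!
      rw [this]
      decide
    obtain ⟨r, hr⟩ := IsAlgClosed.exists_root _ hdq
    refine ⟨r, ?_⟩
    rw [IsRoot.def] at hr
    simpa using hr
  obtain ⟨r3, hr3⟩ : ∃ r : k, r = -(la + r1) - r2 := ⟨_, rfl⟩
  have ela : la = -(r1 + r2 + r3) := by
    rw [hr3]
    ring
  have elb : lb = r1 * r2 + r1 * r3 + r2 * r3 := by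
    rw [hr3]
    linear_combination hr2
  have elc : lc = -(r1 * r2 * r3) := by
    rw [hr3]
    linear_combination hr1 - r1 * hr2
  -- places
  have hplace : ∀ rho : k, rho ^ 3 + la * rho ^ 2 + lb * rho + lc = 0 →
      ∃ V ∈ Above hx P, z - algebraMap k F rho ∈ V.nonunits := by
    intro rho hrho
    refine exists_place hx P hmon hirr hz hint rho ?_
    have h1 : chi.eval (TLoc_c rho) = (a - TLoc_c la) * TLoc_c rho ^ 2 + (b - TLoc_c lb) * TLoc_c rho +
        (c - TLoc_c lc) := by
      have h2 := congrArg (TLoc_c (k := k)) hrho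
      simp only [map_add, map_mul, map_pow, map_zero] at h2
      rw [heval]
      linear_combination h2
    have h3 : TLoc_I P 1 (chi.eval (TLoc_c rho)) := by
      rw [h1]
      have hr := TLoc_const P rho
      exact TLoc_add (TLoc_add (TLoc_mul hla (TLoc_pow hr 2) (by norm_num))
        (TLoc_mul hlb hr (by norm_num))) hlc
    exact h3
  obtain ⟨V1, hV1, hn1⟩ := hplace r1 hr1
  obtain ⟨V2, hV2, hn2⟩ := hplace r2 (by rw [ela, elb, elc]; ring)
  obtain ⟨V3, hV3, hn3⟩ := hplace r3 (by rw [ela, elb, elc]; ring)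
  have two : ∀ {V W : ValuationSubring F}, V ∈ Above hx P → W ∈ Above hx P → V ≠ W →
      ¬ (Above hx P).encard ≤ 1 := by
    intro V W hV hW hVW h
    rw [Set.encard_le_one_iff] at h
    exact hVW (h V W hV hW)
  have fin : ∀ n : ℕ, ramT hx P ≤ n → TLoc_I P n (dis chi) → (ramT hx P : ℤ) ≤ ordP P (dis chi) := by
    intro n h1 h2
    have h3 := h2.resolve_left hd
    have h4 : (ramT hx P : ℤ) ≤ n := by exact_mod_cast h1
    exact h4.trans h3
  have two' : ∀ {V W : ValuationSubring F}, V ∈ Above hx P → W ∈ Above hx P → V ≠ W →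
      ramT hx P ≤ 1 := by
    intro V W hV hW hVW
    have h := two hV hW hVW
    unfold ramT
    rw [if_neg h, add_zero]
    split_ifs <;> omega
  have any : ramT hx P ≤ 2 := by
    unfold ramT
    split_ifs <;> omega
  by_cases h12 : r1 = r2
  · have h := TLoc_dbl (P := P) (a := a) (b := b) (c := c) (rho := r1) (s := r3)
      (by convert hla using 1; rw [ela, ← h12, map_neg]; ring_nf)
      (by convert hlb using 1; rw [elb, ← h12]; ring_nf)
      (by convert hlc using 1; rw [elc, ← h12, map_neg]; ring_nf)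
    rw [← hdis] at h
    by_cases h13 : r1 = r3
    · exact fin 2 any (h.2 h13)
    · exact fin 1 (two' hV1 hV3 (TLoc_ne hx P h13 hV1 hn1 hn3)) h.1
  by_cases h13 : r1 = r3
  · have h := TLoc_dbl (P := P) (a := a) (b := b) (c := c) (rho := r1) (s := r2)
      (by convert hla using 1; rw [ela, ← h13, map_neg]; ring_nf)
      (by convert hlb using 1; rw [elb, ← h13]; ring_nf)
      (by convert hlc using 1; rw [elc, ← h13, map_neg]; ring_nf)
    rw [← hdis] at h
    exact fin 1 (two' hV1 hV2 (TLoc_ne hx P h12 hV1 hn1 hn2)) h.1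
  by_cases h23 : r2 = r3
  · have h := TLoc_dbl (P := P) (a := a) (b := b) (c := c) (rho := r2) (s := r1)
      (by convert hla using 1; rw [ela, ← h23, map_neg]; ring_nf)
      (by convert hlb using 1; rw [elb, ← h23]; ring_nf)
      (by convert hlc using 1; rw [elc, ← h23, map_neg]; ring_nf)
    rw [← hdis] at h
    exact fin 1 (two' hV1 hV2 (TLoc_ne hx P h12 hV1 hn1 hn2)) h.1
  · have hV12 := TLoc_ne hx P h12 hV1 hn1 hn2
    have hV13 := TLoc_ne hx P h13 hV1 hn1 hn3
    have hV23 := TLoc_ne hx P h23 hV2 hn2 hn3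
    have h3 : ¬ (Above hx P).encard ≤ 2 := by
      intro h
      have hsub : ({V1, V2, V3} : Set (ValuationSubring F)) ⊆ Above hx P := by
        intro W hW
        rcases hW with rfl | rfl | rfl
        · exact hV1
        · exact hV2
        · exact hV3
      have h4 := (Set.encard_le_encard hsub).trans h
      have h5 : ({V1, V2, V3} : Set (ValuationSubring F)).encard = 3 :=
        Set.encard_eq_three.2 ⟨V1, V2, V3, hV12, hV13, hV23, rfl⟩
      rw [h5] at h4
      exact absurd h4 (by decide)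
    have h0 : ramT hx P ≤ 0 := by
      unfold ramT
      rw [if_neg h3, if_neg (two hV1 hV2 hV12)]
    refine fin 0 h0 ?_
    rw [hdis]
    exact TLoc_dord ia ib ic (by norm_num) (by norm_num) (by norm_num) (by norm_num) (by norm_num)

end Pool.Agent.Helper54.HZ
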