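import Pool.Agent.Helper54.HZ.TMin
import Pool.Agent.Helper54.HZ.TLoc
import Pool.Agent.Helper54.HZ.TFlip
import Pool.Agent.Helper54.HZ.ASCount
import Pool.Agent.Helper54.HZ.Place

/-!
MP_143e28_ag, project HZ, part 3 (trigonal curves, characteristic `≠ 2, 3`): a function outside `k(x)` of degree at most `m` in `x`
forces `2 g + 4 ≤ 4 m`.

`P` = the primitive polynomial of `z` (`t_prim`), `D = dis P ∈ k[X]`, `D ≠ 0` (`dis_ne`, `dis_map`).  For every point `Q0` let `c` be the constant of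
`good_const`, `b = P (X, c) ≠ 0`, `z' = 1 / (z - c)` (`z ≠ c`), `Q` = the polynomial of `t_flip`: leading coefficient `b`, root `z'`,
`dis Q = D`.  `chi = Q / b` over `RatFunc k` is monic, its coefficients have orders `≥ 0` at `Q0` (`span_val` and `exists_val`), it is
irreducible of degree 3 (`k(x)(z') = k(x)(z)`: degree 3 and `z'` of degree 3 over `k(x)`), `dis chi = D / b ^ 4`.  `t_loc`:
`ord_Q0 D ≥ ramT Q0 + 4 ord_Q0 b ≥ ramT Q0 - 4 m [Q0 = ∞]`.  `countW` with `r = D`, `wt = ramT`, `4 m`: `∑ ramT ≤ 4 m`; `genus`.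
(`ASDeg.lean` has the same structure: `ASDeg_local`.)
-/

set_option autoImplicit false

namespace Pool.Agent.Helper54.HZ

open Polynomial Pool.Agent.Helper54.HY

variable {k F : Type*} [Field k] [Field F] [Algebra k F]

private theorem TDeg_dis_C_mul {A : Type*} [CommRing A] (u : A) (R : A[X]) :
    dis (C u * R) = u ^ 4 * dis R := by
  simp only [dis, coeff_C_mul]
  ring

private theorem TDeg_irr {K F : Type*} [Field K] [Field F] [Algebra K F] {z : F} {P chi : K[X]}
    (hP : Irreducible P) (hPd : P.natDegree = 3) (hPz : aeval z P = 0) (e : K)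
    (hchi : chi.Monic) (hd : chi.natDegree = 3)
    (h0 : aeval (z - algebraMap K F e)⁻¹ chi = 0) : Irreducible chi := by
  obtain ⟨z', hz'⟩ : ∃ z' : F, z' = (z - algebraMap K F e)⁻¹ := ⟨_, rfl⟩
  rw [← hz'] at h0
  have hint' : IsIntegral K z' := ⟨chi, hchi, by rwa [← aeval_def]⟩
  have hP0 : P ≠ 0 := hP.ne_zero
  have hint : IsIntegral K z := by
    rw [← isAlgebraic_iff_isIntegral]
    exact ⟨P, hP0, hPz⟩
  have h1 : (minpoly K z).natDegree = 3 := by
    rw [← hPd]
    have h2 := minpoly.eq_of_irreducible hP hPz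
    rw [← h2, natDegree_mul_C]
    exact inv_ne_zero (leadingCoeff_ne_zero.2 hP0)
  have hle : IntermediateField.adjoin K {z} ≤ IntermediateField.adjoin K {z'} := by
    rw [IntermediateField.adjoin_simple_le_iff]
    have h2 : z = z'⁻¹ + algebraMap K F e := by
      rw [hz', inv_inv, sub_add_cancel]
    rw [h2]
    exact add_mem (inv_mem (IntermediateField.mem_adjoin_simple_self K z'))
      ((IntermediateField.adjoin K {z'}).algebraMap_mem e)
  have hf : FiniteDimensional K (IntermediateField.adjoin K {z'}) :=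
    IntermediateField.adjoin.finiteDimensional hint'
  have h3 : Module.finrank K (IntermediateField.adjoin K {z}) ≤
      Module.finrank K (IntermediateField.adjoin K {z'}) :=
    LinearMap.finrank_le_finrank_of_injective
      (f := (IntermediateField.inclusion hle).toLinearMap) (IntermediateField.inclusion_injective hle)
  rw [IntermediateField.adjoin.finrank hint, IntermediateField.adjoin.finrank hint', h1] at h3
  have h4 : minpoly K z' ∣ chi := minpoly.dvd K z' h0
  have h5 : chi = minpoly K z' := by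
    refine eq_of_monic_of_dvd_of_natDegree_le (minpoly.monic hint') hchi h4 ?_
    rw [hd]
    exact h3
  rw [h5]
  exact minpoly.irreducible hint'

private theorem TDeg_local [IsAlgClosed k] {x : F} (hx : Transcendental k x) {z : F}
    (hz : ∀ r : RatFunc k, rat hx r ≠ z) {m : ℕ} (P : k[X][X]) (hPp : P.IsPrimitive)
    (hPn : P.natDegree = 3) (hPm : ∀ i, (P.coeff i).natDegree ≤ m)
    (hPi : Irreducible (P.map (algebraMap k[X] (RatFunc k))))
    (hPz : P.eval₂ (aeval x : k[X] →ₐ[k] F).toRingHom z = 0) (hD : dis P ≠ 0) (Q0 : OnePoint k) :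
    ∃ o : ℤ, (∀ b : k, Q0 = (b : OnePoint k) → o = 0) ∧ (Q0 = OnePoint.infty → -(m : ℤ) ≤ o) ∧
      (ramT hx Q0 : ℤ) + 4 * o ≤ ordP Q0 (algebraMap k[X] (RatFunc k) (dis P)) := by
  have hcomp : (aeval x : k[X] →ₐ[k] F).toRingHom =
      (rat hx).toRingHom.comp (algebraMap k[X] (RatFunc k)) :=
    RingHom.ext fun q => (rat_poly hx q).symm
  obtain ⟨c, hb0, hbP, hbfin, hbinf⟩ := good_const P hPp hPm Q0
  obtain ⟨b, hb⟩ : ∃ b, b = P.eval (C c) := ⟨_, rfl⟩
  rw [← hb] at hb0 hbP hbfin hbinf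
  have hbK : algebraMap k[X] (RatFunc k) b ≠ 0 := RatFunc.algebraMap_ne_zero hb0
  obtain ⟨v, hv⟩ := exists_val Q0
  obtain ⟨Q1, hQ1n, hQ1c, hQ1d, hQ1s, hQ1r⟩ := t_flip P hPn.le c
  have hQ1c' : Q1.coeff 3 = b := by rw [hQ1c, hb]; rfl
  obtain ⟨e, he⟩ : ∃ e : RatFunc k, e = algebraMap k[X] (RatFunc k) (C c) := ⟨_, rfl⟩
  have he' : (aeval x : k[X] →ₐ[k] F).toRingHom (algebraMap k k[X] c) = rat hx e := by
    rw [he, rat_poly]
    rfl
  have hQ1r' : Q1.eval₂ (aeval x : k[X] →ₐ[k] F).toRingHom (z - rat hx e)⁻¹ = 0 := by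
    have h2 := hQ1r F (aeval x : k[X] →ₐ[k] F).toRingHom z (by
      rw [he']
      exact (hz e).symm) hPz
    rwa [he'] at h2
  obtain ⟨Q2, hQ2⟩ : ∃ Q2 : (RatFunc k)[X], Q2 = C (algebraMap k[X] (RatFunc k) b)⁻¹ *
    Q1.map (algebraMap k[X] (RatFunc k)) := ⟨_, rfl⟩
  have hQ2c : ∀ i, Q2.coeff i = algebraMap k[X] (RatFunc k) (Q1.coeff i) /
      algebraMap k[X] (RatFunc k) b := by
    intro i
    rw [hQ2, coeff_C_mul, coeff_map, div_eq_inv_mul]
  have hQ2n : Q2.natDegree ≤ 3 := by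
    rw [hQ2]
    exact (natDegree_C_mul_le _ _).trans (natDegree_map_le.trans hQ1n)
  have hQ23 : Q2.coeff 3 = 1 := by rw [hQ2c, hQ1c', div_self hbK]
  have hQ2m : Q2.Monic := monic_of_natDegree_le_of_coeff_eq_one 3 hQ2n hQ23
  have hQ2d : Q2.natDegree = 3 :=
    le_antisymm hQ2n (le_natDegree_of_ne_zero (by rw [hQ23]; exact one_ne_zero))
  have hQ2o : ∀ i, Q2.coeff i = 0 ∨ 0 ≤ ordP Q0 (Q2.coeff i) := by
    intro i
    by_cases h0 : Q2.coeff i = 0
    · exact Or.inl h0
    · right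
      have h1 : v (Q2.coeff i) ≤ 1 := by
        rw [hQ2c]
        exact span_val Q0 v hv P b hb0 hbP (hQ1s i)
      rw [hv _ h0, ← WithZero.exp_zero, WithZero.exp_le_exp] at h1
      omega
  have hQ2dis : dis Q2 = (algebraMap k[X] (RatFunc k) b)⁻¹ ^ 4 *
      algebraMap k[X] (RatFunc k) (dis P) := by
    rw [hQ2, TDeg_dis_C_mul, dis_map, hQ1d]
  have hDK : algebraMap k[X] (RatFunc k) (dis P) ≠ 0 := RatFunc.algebraMap_ne_zero hD
  have hQ2dis0 : dis Q2 ≠ 0 := by
    rw [hQ2dis]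
    exact mul_ne_zero (pow_ne_zero _ (inv_ne_zero hbK)) hDK
  letI : Algebra (RatFunc k) F := (rat hx).toRingHom.toAlgebra
  have hQ2z : aeval (z - algebraMap (RatFunc k) F e)⁻¹ Q2 = 0 := by
    rw [aeval_def, hQ2, eval₂_mul, eval₂_map]
    have h1 : (algebraMap (RatFunc k) F).comp (algebraMap k[X] (RatFunc k)) =
        (aeval x : k[X] →ₐ[k] F).toRingHom := hcomp.symm
    have h2 : algebraMap (RatFunc k) F e = rat hx e := rfl
    rw [h1, h2, hQ1r', mul_zero]
  have hPz' : aeval z (P.map (algebraMap k[X] (RatFunc k))) = 0 := by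
    rw [aeval_def, eval₂_map]
    have h1 : (algebraMap (RatFunc k) F).comp (algebraMap k[X] (RatFunc k)) =
        (aeval x : k[X] →ₐ[k] F).toRingHom := hcomp.symm
    rw [h1, hPz]
  have hirr : Irreducible Q2 := TDeg_irr hPi
    (by rw [natDegree_map_eq_of_injective (RatFunc.algebraMap_injective k), hPn]) hPz' e hQ2m hQ2d
    hQ2z
  have hloc := t_loc hx Q0 hQ2m hQ2d hirr (z := (z - rat hx e)⁻¹) hQ2z hQ2o hQ2dis0
  refine ⟨ordP Q0 (algebraMap k[X] (RatFunc k) b), hbfin, hbinf, ?_⟩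
  rw [hQ2dis, ord_mul Q0 (pow_ne_zero _ (inv_ne_zero hbK)) hDK, ord_pow Q0 (inv_ne_zero hbK),
    ord_inv Q0 hbK] at hloc
  push_cast at hloc
  linarith

theorem t_deg [IsAlgClosed k] (h2 : (2 : k) ≠ 0) (h3 : (3 : k) ≠ 0) {g : ℕ} {x : F} (h : PresT k F g x) {z : F}
    (hz : ∀ r : RatFunc k, rat h.trans r ≠ z) {m : ℕ} (Q : k[X][X]) (hQ : Q ≠ 0)
    (hm : ∀ i, (Q.coeff i).natDegree ≤ m)
    (h0 : Q.eval₂ (aeval x : k[X] →ₐ[k] F).toRingHom z = 0) : 2 * g + 4 ≤ 4 * m := by
  obtain ⟨P, hPp, hPn, hPm, hPi, hPz⟩ := t_prim h hz Q hQ hm h0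
  have hinj : Function.Injective (algebraMap k (RatFunc k)) := (algebraMap k (RatFunc k)).injective
  have h2' : (2 : RatFunc k) ≠ 0 := by
    intro h4
    apply h2
    apply hinj
    rw [map_zero, ← h4, map_ofNat]
  have h3' : (3 : RatFunc k) ≠ 0 := by
    intro h4
    apply h3
    apply hinj
    rw [map_zero, ← h4, map_ofNat]
  have hD : dis P ≠ 0 := by
    intro h4
    refine dis_ne h2' h3' hPi ?_ ?_
    · rw [natDegree_map_eq_of_injective (RatFunc.algebraMap_injective k), hPn]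
    · rw [dis_map, h4, map_zero]
  have hloc := TDeg_local h.trans hz P hPp hPn hPm hPi hPz hD
  have hcount := countW (RatFunc.algebraMap_ne_zero hD) (4 * (m : ℤ))
    (fun P => (ramT h.trans P : ℤ)) (fun P => Int.natCast_nonneg _)
    (fun b => by
      obtain ⟨o, ho1, _, ho3⟩ := hloc (b : OnePoint k)
      rw [ho1 b rfl, mul_zero, add_zero] at ho3
      exact ho3)
    (by
      obtain ⟨o, _, ho2, ho3⟩ := hloc OnePoint.infty
      have := ho2 rfl
      show (ramT h.trans OnePoint.infty : ℤ) - 4 * (m : ℤ) ≤ _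
      linarith)
  have hgen := h.genus
  have hfin : (Function.support fun P : OnePoint k => ramT h.trans P).Finite := by
    by_contra hinf
    rw [finsum_of_infinite_support hinf] at hgen
    omega
  have hcast : ∑ᶠ P : OnePoint k, (ramT h.trans P : ℤ) =
      ((∑ᶠ P : OnePoint k, ramT h.trans P : ℕ) : ℤ) :=
    ((Nat.castAddMonoidHom ℤ).map_finsum hfin).symm
  rw [hcast, hgen] at hcount
  push_cast at hcount
  omega

end Pool.Agent.Helper54.HZ
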