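import Pool.Agent.Helper54.HZ.TDefs
import Pool.Agent.Helper54.HZ.Fix

/-!
MP_143e28_ag, project HZ, part 3 (trigonal curves): the primitive polynomial of a function.

`F` over `k(x)` (an algebra over `RatFunc k` by `rat`) has degree 3, `z ∉ k(x)`: the minimal polynomial of `z` over `RatFunc k` has degree 3
(its degree divides 3 and is not 1).  Multiply by the common denominator and divide by the content: `P` primitive in `k[X][Z]`, irreducible
over `k(x)`, degree 3.  `P` divides `Q` over `k(x)`, so in `k[X][Z]` (Gauss, `Polynomial.IsPrimitive.dvd_of_fraction_map_dvd_fraction_map`);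
the degree in `X` is additive: see `Min.lean` (helper95), which proves the same for cyclic covers: `natDegree_swap_le` in
`Helper54.HY.Deg`.
`t_rel`: the minimal polynomial of `u` over `RatFunc k`, denominators cleared.
-/

set_option autoImplicit false

namespace Pool.Agent.Helper54.HZ

open Polynomial Pool.Agent.Helper54.HY

variable {k F : Type*} [Field k] [Field F] [Algebra k F]

/-- `RatFunc k` is the field generated by `x` -/
private theorem TMin_equiv {x : F} (hx : Transcendental k x) :
    ∃ e : RatFunc k ≃+* IntermediateField.adjoin k {x}, ∀ r, ((e r : _) : F) = rat hx r := by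
  let ρ : RatFunc k →+* IntermediateField.adjoin k {x} :=
    (rat hx).toRingHom.codRestrict (IntermediateField.adjoin k {x}).toSubfield.toSubring
      (fun r => (mem_rat hx).2 ⟨r, rfl⟩)
  have hb : Function.Bijective ρ := by
    refine ⟨ρ.injective, ?_⟩
    rintro ⟨u, hu⟩
    obtain ⟨r, hr⟩ := (mem_rat hx).1 hu
    exact ⟨r, Subtype.ext hr⟩
  exact ⟨RingEquiv.ofBijective ρ hb, fun r => rfl⟩

private theorem TMin_comp {x : F} (hx : Transcendental k x) :
    (aeval x : k[X] →ₐ[k] F).toRingHom =
      (rat hx).toRingHom.comp (algebraMap k[X] (RatFunc k)) :=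
  RingHom.ext fun q => (rat_poly hx q).symm

private theorem TMin_unit {A : Type*} [CommRing A] [IsDomain A] {a b : A} (ha : a ≠ 0)
    (h : a * b ∣ a) : IsUnit b := by
  obtain ⟨c, hc⟩ := h
  have h1 : b * c = 1 := mul_left_cancel₀ ha (by rw [mul_one, ← mul_assoc]; exact hc.symm)
  exact IsUnit.of_mul_eq_one c h1

/-- the minimal polynomial over `RatFunc k` -/
private theorem TMin_min {x : F} (hx : Transcendental k x)
    (hc : Module.finrank (IntermediateField.adjoin k {x}) F = 3) (z : F) :
    ∃ m0 : (RatFunc k)[X], m0.Monic ∧ Irreducible m0 ∧ m0.natDegree ∣ 3 ∧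
      m0.eval₂ (rat hx).toRingHom z = 0 ∧
      ∀ T : (RatFunc k)[X], T.eval₂ (rat hx).toRingHom z = 0 → m0 ∣ T := by
  obtain ⟨e, he⟩ := TMin_equiv hx
  have hfin : FiniteDimensional (IntermediateField.adjoin k {x}) F :=
    Module.finite_of_finrank_pos (by rw [hc]; norm_num)
  have hint : IsIntegral (IntermediateField.adjoin k {x}) z :=
    Algebra.IsIntegral.isIntegral z
  have hcomp : (algebraMap (IntermediateField.adjoin k {x}) F).comp (e : RatFunc k →+* _) =
      (rat hx).toRingHom := RingHom.ext fun r => he r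
  have hev : ∀ T : (RatFunc k)[X], T.eval₂ (rat hx).toRingHom z =
      aeval z (T.map (e : RatFunc k →+* IntermediateField.adjoin k {x})) := by
    intro T
    rw [aeval_def, eval₂_map, hcomp]
  have hsymm : ((minpoly (IntermediateField.adjoin k {x}) z).map
      (e.symm : IntermediateField.adjoin k {x} →+* RatFunc k)).map
      (e : RatFunc k →+* IntermediateField.adjoin k {x}) =
      minpoly (IntermediateField.adjoin k {x}) z := by
    rw [Polynomial.map_map]
    have : (e : RatFunc k →+* IntermediateField.adjoin k {x}).comp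
        (e.symm : IntermediateField.adjoin k {x} →+* RatFunc k) = RingHom.id _ :=
      RingHom.ext fun r => e.apply_symm_apply r
    rw [this, Polynomial.map_id]
  have hsymm' : ∀ T : (RatFunc k)[X],
      (T.map (e : RatFunc k →+* IntermediateField.adjoin k {x})).map
      (e.symm : IntermediateField.adjoin k {x} →+* RatFunc k) = T := by
    intro T
    rw [Polynomial.map_map]
    have : (e.symm : IntermediateField.adjoin k {x} →+* RatFunc k).comp
        (e : RatFunc k →+* IntermediateField.adjoin k {x}) = RingHom.id _ :=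
      RingHom.ext fun r => e.symm_apply_apply r
    rw [this, Polynomial.map_id]
  have hdvd : ∀ T : (RatFunc k)[X], T.eval₂ (rat hx).toRingHom z = 0 →
      (minpoly (IntermediateField.adjoin k {x}) z).map
      (e.symm : IntermediateField.adjoin k {x} →+* RatFunc k) ∣ T := by
    intro T hT
    rw [hev] at hT
    have h1 := minpoly.dvd _ _ hT
    have h2 := Polynomial.map_dvd (e.symm : IntermediateField.adjoin k {x} →+* RatFunc k) h1
    rwa [hsymm'] at h2
  have hmon : ((minpoly (IntermediateField.adjoin k {x}) z).map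
      (e.symm : IntermediateField.adjoin k {x} →+* RatFunc k)).Monic :=
    (minpoly.monic hint).map _
  have hroot : ((minpoly (IntermediateField.adjoin k {x}) z).map
      (e.symm : IntermediateField.adjoin k {x} →+* RatFunc k)).eval₂ (rat hx).toRingHom z = 0 := by
    rw [hev, hsymm, minpoly.aeval]
  have hdeg : ((minpoly (IntermediateField.adjoin k {x}) z).map
      (e.symm : IntermediateField.adjoin k {x} →+* RatFunc k)).natDegree =
      (minpoly (IntermediateField.adjoin k {x}) z).natDegree :=
    natDegree_map_eq_of_injective e.symm.injective _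
  refine ⟨_, hmon, ?_, ?_, hroot, hdvd⟩
  · refine ⟨?_, ?_⟩
    · intro hu
      have h1 := minpoly.natDegree_pos hint
      rw [← hdeg, natDegree_eq_zero_of_isUnit hu] at h1
      exact lt_irrefl _ h1
    · intro a b hab
      have hne := hmon.ne_zero
      have ha : a ≠ 0 := by rintro rfl; exact hne (by rw [hab, zero_mul])
      have hb : b ≠ 0 := by rintro rfl; exact hne (by rw [hab, mul_zero])
      have h0 := hroot
      rw [hab, eval₂_mul] at h0
      rcases mul_eq_zero.1 h0 with h1 | h1
      · right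
        have h2 := hdvd a h1
        rw [hab] at h2
        exact TMin_unit ha h2
      · left
        have h2 := hdvd b h1
        rw [hab, mul_comm] at h2
        exact TMin_unit hb h2
  · rw [hdeg, ← hc]
    exact minpoly.degree_dvd hint

private theorem TMin_norm {m0 : (RatFunc k)[X]} (h0 : m0.Monic) :
    ∃ (M : k[X][X]) (b : k[X]), b ≠ 0 ∧ M ≠ 0 ∧ M.natDegree = m0.natDegree ∧
      M.map (algebraMap k[X] (RatFunc k)) = C (algebraMap k[X] (RatFunc k) b) * m0 := by
  obtain ⟨b, hbm, hb⟩ := IsLocalization.integerNormalization_spec (nonZeroDivisors k[X]) m0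
  have hb0 : b ≠ 0 := nonZeroDivisors.ne_zero hbm
  have hb1 : algebraMap k[X] (RatFunc k) b ≠ 0 := RatFunc.algebraMap_ne_zero hb0
  have hM : (IsLocalization.integerNormalization (nonZeroDivisors k[X]) m0).map
      (algebraMap k[X] (RatFunc k)) = C (algebraMap k[X] (RatFunc k) b) * m0 := by
    rw [hb]
    ext i
    rw [coeff_smul, coeff_C_mul, Algebra.smul_def]
  refine ⟨_, b, hb0, ?_, ?_, hM⟩
  · intro h
    rw [h, Polynomial.map_zero] at hM
    exact mul_ne_zero (C_ne_zero.2 hb1) h0.ne_zero hM.symm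
  · rw [← natDegree_map_eq_of_injective (RatFunc.algebraMap_injective k), hM,
      natDegree_C_mul hb1]

theorem t_prim {g : ℕ} {x : F} (h : PresT k F g x) {z : F} (hz : ∀ r : RatFunc k, rat h.trans r ≠ z) {m : ℕ}
    (Q : k[X][X]) (hQ : Q ≠ 0) (hm : ∀ i, (Q.coeff i).natDegree ≤ m)
    (h0 : Q.eval₂ (aeval x : k[X] →ₐ[k] F).toRingHom z = 0) :
    ∃ P : k[X][X], P.IsPrimitive ∧ P.natDegree = 3 ∧ (∀ i, (P.coeff i).natDegree ≤ m) ∧
      Irreducible (P.map (algebraMap k[X] (RatFunc k))) ∧
      P.eval₂ (aeval x : k[X] →ₐ[k] F).toRingHom z = 0 := by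
  classical
  obtain ⟨m0, hm0m, hirr, hdv, hroot, hmin⟩ := TMin_min h.trans h.cubic z
  have hd3 : m0.natDegree = 3 := by
    rcases (Nat.dvd_prime Nat.prime_three).1 hdv with h1 | h1
    · exfalso
      obtain ⟨c, hc⟩ : ∃ c, m0 = X + C c := ⟨m0.coeff 0, hm0m.eq_X_add_C h1⟩
      rw [hc, eval₂_add, eval₂_X, eval₂_C] at hroot
      apply hz (-c)
      rw [map_neg]
      exact neg_eq_of_add_eq_zero_left hroot
    · exact h1
  obtain ⟨M, b, hb, hM0, hMd, hM⟩ := TMin_norm hm0m
  have hinj := RatFunc.algebraMap_injective k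
  have hMP : M = C M.content * M.primPart := M.eq_C_content_mul_primPart
  have hc0 : M.content ≠ 0 := fun hc => hM0 (content_eq_zero_iff.1 hc)
  have hc1 : algebraMap k[X] (RatFunc k) M.content ≠ 0 := RatFunc.algebraMap_ne_zero hc0
  have hb1 : algebraMap k[X] (RatFunc k) b ≠ 0 := RatFunc.algebraMap_ne_zero hb
  obtain ⟨P, hP⟩ : ∃ P, P = M.primPart := ⟨_, rfl⟩
  rw [← hP] at hMP
  have hPd : P.natDegree = 3 := by rw [hP, natDegree_primPart, hMd, hd3]
  have hPp : P.IsPrimitive := hP ▸ isPrimitive_primPart M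
  obtain ⟨c, hc⟩ : ∃ c : RatFunc k, c = algebraMap k[X] (RatFunc k) b /
    algebraMap k[X] (RatFunc k) M.content := ⟨_, rfl⟩
  have hcne : c ≠ 0 := by rw [hc]; exact div_ne_zero hb1 hc1
  have hPm : P.map (algebraMap k[X] (RatFunc k)) = C c * m0 := by
    have h1 : C (algebraMap k[X] (RatFunc k) M.content) * P.map (algebraMap k[X] (RatFunc k)) =
        C (algebraMap k[X] (RatFunc k) b) * m0 := by
      rw [← hM]
      conv_rhs => rw [hMP]
      rw [Polynomial.map_mul, map_C]
    apply mul_left_cancel₀ (C_ne_zero.2 hc1)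
    rw [h1, hc, ← mul_assoc, ← C_mul, mul_div_cancel₀ _ hc1]
  have hu : IsUnit (C c) := isUnit_C.2 (isUnit_iff_ne_zero.2 hcne)
  have hPQ : P ∣ Q := by
    apply hPp.dvd_of_fraction_map_dvd_fraction_map (K := RatFunc k)
    have h1 : m0 ∣ Q.map (algebraMap k[X] (RatFunc k)) := by
      apply hmin
      rw [eval₂_map, ← TMin_comp, h0]
    rw [hPm]
    exact (hu.mul_left_dvd).2 h1
  refine ⟨P, hPp, hPd, ?_, ?_, ?_⟩
  · obtain ⟨U, hU⟩ := hPQ
    have hsw : (Bivariate.swap Q).natDegree ≤ m := natDegree_swap_le.2 hm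
    rw [hU, map_mul] at hsw
    have hP0 : Bivariate.swap P ≠ 0 := by
      intro h1
      have h2 := congrArg Bivariate.swap h1
      rw [Bivariate.swap_swap_apply, map_zero] at h2
      apply hQ
      rw [hU, h2, zero_mul]
    have hU0 : Bivariate.swap U ≠ 0 := by
      intro h1
      have h2 := congrArg Bivariate.swap h1
      rw [Bivariate.swap_swap_apply, map_zero] at h2
      apply hQ
      rw [hU, h2, mul_zero]
    rw [natDegree_mul hP0 hU0] at hsw
    exact natDegree_swap_le.1 (by omega)
  · rw [hPm]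
    exact (irreducible_isUnit_mul hu).2 hirr
  · rw [TMin_comp h.trans, ← eval₂_map, hPm, eval₂_mul, hroot, mul_zero]

theorem t_rel {g : ℕ} {x : F} (h : PresT k F g x) (u : F) :
    ∃ Q : k[X][X], Q ≠ 0 ∧ Q.natDegree ≤ 3 ∧ Q.eval₂ (aeval x : k[X] →ₐ[k] F).toRingHom u = 0 := by
  obtain ⟨m0, hm0m, -, hdv, hroot, -⟩ := TMin_min h.trans h.cubic u
  obtain ⟨M, b, hb, hM0, hMd, hM⟩ := TMin_norm hm0m
  refine ⟨M, hM0, hMd.le.trans (Nat.le_of_dvd (by norm_num) hdv), ?_⟩
  rw [TMin_comp h.trans, ← eval₂_map, hM, eval₂_mul, hroot, mul_zero]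

end Pool.Agent.Helper54.HZ
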